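import Pool.Agent.Helper522.MSA.Top

set_option autoImplicit false

open scoped InnerProductSpace Kronecker Matrix
open Filter Topology

namespace Pool.Agent.Helper522.MSA

section defs

variable {H : Type} [NormedAddCommGroup H] [InnerProductSpace ℂ H] [CompleteSpace H]

/-- `M` is a II₁ factor in standard form on `H`, with trace vector `Ω`: the vector state of `Ω` is
a trace on `M`, `Ω` is cyclic and separating, the centre is trivial and `M` is infinite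
dimensional. -/
structure IsStdII1 (M : VonNeumannAlgebra H) (Ω : H) : Prop where
  unit : ‖Ω‖ = 1
  tr : ∀ x ∈ M, ∀ y ∈ M, ⟪Ω, x (y Ω)⟫_ℂ = ⟪Ω, y (x Ω)⟫_ℂ
  cyc : Dense {ξ : H | ∃ x ∈ M, ξ = x Ω}
  sep : ∀ x ∈ M, x Ω = 0 → x = 0
  fac : ∀ z ∈ M, (∀ x ∈ M, z * x = x * z) → ∃ c : ℂ, z = c • (1 : H →L[ℂ] H)
  inf : ¬ FiniteDimensional ℂ M.toStarSubalgebra

/-- The automorphism group of `M`. -/
abbrev Au (M : VonNeumannAlgebra H) : Type := M.toStarSubalgebra ≃⋆ₐ[ℂ] M.toStarSubalgebra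

/-- The topology of pointwise convergence in the 2-norm on the automorphism group. -/
noncomputable abbrev uTop (M : VonNeumannAlgebra H) (Ω : H) : TopologicalSpace (Au M) :=
  TopologicalSpace.induced
    (fun (α : Au M) (x : M.toStarSubalgebra) => ((α x : M.toStarSubalgebra) : H →L[ℂ] H) Ω)
    inferInstance

/-- `B = α(A)`. -/
def IsImage {M : VonNeumannAlgebra H} (α : Au M) (A B : Masa M) : Prop :=
  ∀ y : M.toStarSubalgebra,
    (y : H →L[ℂ] H) ∈ B.1 ↔ ((α.symm y : M.toStarSubalgebra) : H →L[ℂ] H) ∈ A.1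

/-- The orbit of a masa. -/
def orbit {M : VonNeumannAlgebra H} (A : Masa M) : Set (Masa M) :=
  {B | ∃ α : Au M, IsImage α A B}

/-- The local orbit `O(A,U,V)`. -/
def localOrbit {M : VonNeumannAlgebra H} (A : Masa M) (U : Set (Masa M)) (V : Set (Au M)) :
    Set (Masa M) :=
  {B | ∃ (n : ℕ) (s : ℕ → Masa M), s 0 = A ∧ s n = B ∧ (∀ k ≤ n, s k ∈ U) ∧
    ∀ k < n, ∃ α ∈ V, IsImage α (s k) (s (k + 1))}

/-- The action of `Aut(M)` on the space of masas is turbulent: every orbit is dense and meager and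
every local orbit is somewhere dense. -/
def Turbulent (M : VonNeumannAlgebra H) (Ω : H) : Prop :=
  (∀ A : Masa M, Dense (orbit A) ∧ IsMeagre (orbit A)) ∧
    ∀ (A : Masa M) (U : Set (Masa M)) (V : Set (Au M)), IsOpen U → A ∈ U →
      @IsOpen _ (uTop M Ω) V → (StarAlgEquiv.refl ℂ M.toStarSubalgebra : Au M) ∈ V →
        (interior (closure (localOrbit A U V))).Nonempty

/-- `M` is hyperfinite: there is an increasing sequence of finite dimensional *-subalgebras whose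
union is dense for the 2-norm. -/
def Hyperfinite (M : VonNeumannAlgebra H) (Ω : H) : Prop :=
  ∃ N : ℕ → StarSubalgebra ℂ (H →L[ℂ] H), Monotone N ∧ (∀ n, FiniteDimensional ℂ (N n)) ∧
    (∀ n, ∀ x ∈ N n, x ∈ M) ∧ ∀ x ∈ M, ∀ ε : ℝ, 0 < ε → ∃ n, ∃ y ∈ N n, ‖x Ω - y Ω‖ < ε

/-! ### auxiliary definitions -/

/-- index types -/
abbrev X (k : ℕ) : Type := Fin (2 ^ k)

/-- A system of commuting matrix blocks: `blk a k` is the matrix algebra on the qubits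
`a, …, a+k-1`. -/
structure Sys (M : VonNeumannAlgebra H) (Ω : H)
    (blk : ∀ _a k : ℕ, Matrix (X k) (X k) ℂ →⋆ₐ[ℂ] (H →L[ℂ] H)) : Prop where
  unit : ‖Ω‖ = 1
  tr : ∀ x ∈ M, ∀ y ∈ M, ⟪Ω, x (y Ω)⟫_ℂ = ⟪Ω, y (x Ω)⟫_ℂ
  std : ∀ a ∈ M, ∃ a' : H →L[ℂ] H, (∀ x ∈ M, a' * x = x * a') ∧ a' Ω = a Ω
  mem : ∀ a k x, blk a k x ∈ M
  trc : ∀ a k x, ⟪Ω, blk a k x Ω⟫_ℂ = x.trace / 2 ^ k
  comm : ∀ a k b l x y, a + k ≤ b → blk a k x * blk b l y = blk b l y * blk a k x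
  mix : ∀ a k l, ∃ e : X k × X l ≃ X (k + l), ∀ (x : Matrix (X k) (X k) ℂ)
    (y : Matrix (X l) (X l) ℂ),
    blk a k x * blk (a + k) l y = blk a (k + l) (Matrix.reindex e e (x ⊗ₖ y))
  dns : ∀ (ξ : H) (ε : ℝ), 0 < ε → ∃ n x, ‖blk 0 n x Ω - ξ‖ < ε

/-- the diagonal algebra of the frame `V` in the first block -/
def Dg (blk : ∀ _a k : ℕ, Matrix (X k) (X k) ℂ →⋆ₐ[ℂ] (H →L[ℂ] H)) (n : ℕ)
    (V : Matrix (X n) (X n) ℂ) : Set (H →L[ℂ] H) :=
  {x | ∃ d : X n → ℂ, x = blk 0 n (V * Matrix.diagonal d * Vᴴ)}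

/-- normalised Hilbert–Schmidt norm -/
noncomputable def nhs {ι : Type} [Fintype ι] (x : Matrix ι ι ℂ) : ℝ :=
  Real.sqrt ((∑ i, ∑ j, ‖x i j‖ ^ 2) / Fintype.card ι)

/-- unitary matrix -/
def Un {ι : Type} [Fintype ι] [DecidableEq ι] (v : Matrix ι ι ℂ) : Prop :=
  vᴴ * v = 1 ∧ v * vᴴ = 1

/-- weak operator convergence of a sequence along a filter -/
def Wk (l : Filter ℕ) (b : ℕ → (H →L[ℂ] H)) (c : H →L[ℂ] H) : Prop :=
  ∀ ξ η : H, Tendsto (fun k => ⟪η, b k ξ⟫_ℂ) l (𝓝 ⟪η, c ξ⟫_ℂ)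

end defs

end Pool.Agent.Helper522.MSA
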