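import Pool.Agent.Helper522.MSA.Defs

set_option autoImplicit false

open scoped InnerProductSpace Kronecker Matrix
open Filter Topology

namespace Pool.Agent.Helper522.MSA

section A

variable {H : Type} [NormedAddCommGroup H] [InnerProductSpace ℂ H] [CompleteSpace H]




theorem wlim_lim (u : Ultrafilter ℕ) (s : ℕ → ℂ) (C : ℝ) (hs : ∀ k, ‖s k‖ ≤ C) :
    ∃ l : ℂ, ‖l‖ ≤ C ∧ Tendsto s (u : Filter ℕ) (𝓝 l) := by
  have hc : IsCompact (Metric.closedBall (0 : ℂ) C) := isCompact_closedBall 0 C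
  obtain ⟨l, hl, hle⟩ := hc.ultrafilter_le_nhds (u.map s) (by
    rw [Ultrafilter.coe_map, le_principal_iff, mem_map]
    refine Filter.univ_mem' fun k => ?_
    show s k ∈ Metric.closedBall (0 : ℂ) C
    rw [mem_closedBall_zero_iff]
    exact hs k)
  refine ⟨l, mem_closedBall_zero_iff.1 hl, ?_⟩
  exact hle

/-- weak limits of contractions along an ultrafilter -/
theorem wlim (u : Ultrafilter ℕ) (b : ℕ → (H →L[ℂ] H)) (hb : ∀ k, ‖b k‖ ≤ 1) :
    ∃ c : H →L[ℂ] H, ‖c‖ ≤ 1 ∧ Wk (u : Filter ℕ) b c := by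
  have hbd : ∀ ξ η : H, ∀ k, ‖⟪η, b k ξ⟫_ℂ‖ ≤ ‖ξ‖ * ‖η‖ := by
    intro ξ η k
    refine (norm_inner_le_norm _ _).trans ?_
    have h1 : ‖b k ξ‖ ≤ ‖ξ‖ := by
      refine ((b k).le_opNorm ξ).trans ?_
      have := norm_nonneg ξ
      have := hb k
      nlinarith
    rw [mul_comm]
    exact mul_le_mul_of_nonneg_right h1 (norm_nonneg _)
  choose L hLn hL using fun ξ η : H => wlim_lim u (fun k => ⟪η, b k ξ⟫_ℂ) (‖ξ‖ * ‖η‖) (hbd ξ η)
  have L1 : ∀ ξ ξ' η, L (ξ + ξ') η = L ξ η + L ξ' η := by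
    intro ξ ξ' η
    refine tendsto_nhds_unique (hL (ξ + ξ') η) ?_
    have h := (hL ξ η).add (hL ξ' η)
    refine h.congr fun k => ?_
    rw [map_add, inner_add_right]
  have L2 : ∀ (a : ℂ) ξ η, L (a • ξ) η = a * L ξ η := by
    intro a ξ η
    refine tendsto_nhds_unique (hL (a • ξ) η) ?_
    have h := (hL ξ η).const_mul a
    refine h.congr fun k => ?_
    rw [map_smul, inner_smul_right]
  have L3 : ∀ ξ η η', L ξ (η + η') = L ξ η + L ξ η' := by
    intro ξ η η'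
    refine tendsto_nhds_unique (hL ξ (η + η')) ?_
    have h := (hL ξ η).add (hL ξ η')
    refine h.congr fun k => ?_
    rw [inner_add_left]
  have L4 : ∀ (a : ℂ) ξ η, L ξ (a • η) = (starRingEnd ℂ) a * L ξ η := by
    intro a ξ η
    refine tendsto_nhds_unique (hL ξ (a • η)) ?_
    have h := (hL ξ η).const_mul ((starRingEnd ℂ) a)
    refine h.congr fun k => ?_
    rw [inner_smul_left]
  let B0 : H →ₛₗ[starRingEnd ℂ] H →ₛₗ[RingHom.id ℂ] ℂ :=
    LinearMap.mk₂'ₛₗ (starRingEnd ℂ) (RingHom.id ℂ) (fun ξ η => (starRingEnd ℂ) (L ξ η))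
      (fun ξ ξ' η => by rw [L1, map_add])
      (fun a ξ η => by rw [L2, map_mul, smul_eq_mul])
      (fun ξ η η' => by rw [L3, map_add])
      (fun a ξ η => by rw [L4, map_mul, smul_eq_mul, RingHom.id_apply, Complex.conj_conj])
  let B : H →L⋆[ℂ] H →L[ℂ] ℂ := LinearMap.mkContinuous₂ B0 1 (by
    intro ξ η
    show ‖(starRingEnd ℂ) (L ξ η)‖ ≤ 1 * ‖ξ‖ * ‖η‖
    rw [RCLike.norm_conj, one_mul]
    exact hLn ξ η)
  have hB : ∀ ξ η, B ξ η = (starRingEnd ℂ) (L ξ η) := fun ξ η => rfl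
  have hc : ∀ ξ η, ⟪InnerProductSpace.continuousLinearMapOfBilin B ξ, η⟫_ℂ =
      (starRingEnd ℂ) (L ξ η) := by
    intro ξ η
    rw [InnerProductSpace.continuousLinearMapOfBilin_apply, hB]
  refine ⟨InnerProductSpace.continuousLinearMapOfBilin B, ?_, ?_⟩
  · refine ContinuousLinearMap.opNorm_le_bound _ zero_le_one fun ξ => ?_
    rw [one_mul]
    set w := InnerProductSpace.continuousLinearMapOfBilin B ξ with hw
    have h1 : ‖⟪w, w⟫_ℂ‖ ≤ ‖ξ‖ * ‖w‖ := by
      rw [hw, hc, RCLike.norm_conj]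
      exact hLn ξ _
    rw [inner_self_eq_norm_sq_to_K, norm_pow, RCLike.norm_ofReal, abs_of_nonneg (norm_nonneg w)] at h1
    rcases (norm_nonneg w).eq_or_lt with h0 | h0
    · rw [← h0]
      exact norm_nonneg _
    · nlinarith
  · intro ξ η
    have h1 : ⟪η, InnerProductSpace.continuousLinearMapOfBilin B ξ⟫_ℂ = L ξ η := by
      rw [← inner_conj_symm, hc, Complex.conj_conj]
    rw [h1]
    exact hL ξ η



theorem vn_closed (M : VonNeumannAlgebra H) (l : Filter ℕ) [NeBot l] (b : ℕ → (H →L[ℂ] H))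
    (hb : ∀ k, b k ∈ M) (c : H →L[ℂ] H) (h : Wk l b c) : c ∈ M := by
  have key : c ∈ Set.centralizer (Set.centralizer (M : Set (H →L[ℂ] H))) := by
    rw [Set.mem_centralizer_iff]
    intro y hy
    rw [Set.mem_centralizer_iff] at hy
    refine ContinuousLinearMap.ext fun ξ => ?_
    refine ext_inner_left ℂ fun η => ?_
    have h1 := h (y ξ) η
    have h2 := h ξ (ContinuousLinearMap.adjoint y η)
    have h3 : (fun k => ⟪η, b k (y ξ)⟫_ℂ) =
        fun k => ⟪ContinuousLinearMap.adjoint y η, b k ξ⟫_ℂ := by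
      funext k
      rw [ContinuousLinearMap.adjoint_inner_left]
      have h5 : b k * y = y * b k := hy (b k) (hb k)
      have h6 := congrArg (fun T : H →L[ℂ] H => T ξ) h5
      exact congrArg (fun v : H => ⟪η, v⟫_ℂ) h6
    rw [h3] at h1
    have h4 := tendsto_nhds_unique h1 h2
    rw [ContinuousLinearMap.adjoint_inner_left] at h4
    exact h4.symm
  rw [M.centralizer_centralizer] at key
  exact key



theorem nf_tendsto (l : Filter ℕ) (ξ η : ℕ → H) (hξ : Sq ξ) (hη : Sq η) (b : ℕ → (H →L[ℂ] H))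
    (hb : ∀ k, ‖b k‖ ≤ 1) (c : H →L[ℂ] H) (h : Wk l b c) :
    Tendsto (fun k => nf ξ η (b k)) l (𝓝 (nf ξ η c)) := by
  have hs : Summable (fun k => ‖η k‖ * ‖ξ k‖) := by
    refine Summable.of_nonneg_of_le (fun k => by positivity) (fun k => ?_)
      ((hξ.add hη))
    nlinarith [sq_nonneg (‖η k‖ - ‖ξ k‖), sq_nonneg (‖η k‖), sq_nonneg (‖ξ k‖)]
  unfold nf
  refine tendsto_tsum_of_dominated_convergence hs (fun k => h (ξ k) (η k)) ?_
  refine Filter.Eventually.of_forall (fun n k => ?_)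
  refine le_trans (norm_inner_le_norm _ _) ?_
  refine mul_le_mul_of_nonneg_left ?_ (norm_nonneg _)
  refine le_trans ((b n).le_opNorm _) ?_
  calc ‖b n‖ * ‖ξ k‖ ≤ 1 * ‖ξ k‖ := mul_le_mul_of_nonneg_right (hb n) (norm_nonneg _)
    _ = ‖ξ k‖ := one_mul _



theorem rn_basic (ξ η : ℕ → H) (hξ : Sq ξ) (hη : Sq η) (N : VonNeumannAlgebra H) :
    0 ≤ rn ξ η N ∧ rn ξ η N ≤ ∑' k, ‖ξ k‖ * ‖η k‖ ∧
    (∀ x ∈ N, ‖x‖ ≤ 1 → ‖nf ξ η x‖ ≤ rn ξ η N) ∧
    (∀ r : ℝ, r < rn ξ η N → ∃ x ∈ N, ‖x‖ ≤ 1 ∧ r < ‖nf ξ η x‖) := by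
  have hsum : Summable (fun k => ‖ξ k‖ * ‖η k‖) := by
    have h1 : Summable (fun k => (‖ξ k‖ ^ 2 + ‖η k‖ ^ 2)) := Summable.add hξ hη
    refine Summable.of_nonneg_of_le (fun k => by positivity) (fun k => ?_) h1
    nlinarith [sq_nonneg (‖ξ k‖ - ‖η k‖), sq_nonneg (‖ξ k‖), sq_nonneg (‖η k‖)]
  have hbound : ∀ x : H →L[ℂ] H, ‖x‖ ≤ 1 → ‖nf ξ η x‖ ≤ ∑' k, ‖ξ k‖ * ‖η k‖ := by
    intro x hx
    unfold nf
    refine tsum_of_norm_bounded hsum.hasSum (fun k => ?_)
    calc ‖⟪η k, x (ξ k)⟫_ℂ‖ ≤ ‖η k‖ * ‖x (ξ k)‖ := norm_inner_le_norm _ _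
      _ ≤ ‖η k‖ * (‖x‖ * ‖ξ k‖) := by
          gcongr
          exact x.le_opNorm _
      _ ≤ ‖η k‖ * (1 * ‖ξ k‖) := by gcongr
      _ = ‖ξ k‖ * ‖η k‖ := by ring
  have hne : {r : ℝ | ∃ x ∈ N, ‖x‖ ≤ 1 ∧ r = ‖nf ξ η x‖}.Nonempty :=
    ⟨‖nf ξ η 0‖, 0, zero_mem N, by simp, rfl⟩
  have hbdd : BddAbove {r : ℝ | ∃ x ∈ N, ‖x‖ ≤ 1 ∧ r = ‖nf ξ η x‖} := by
    refine ⟨∑' k, ‖ξ k‖ * ‖η k‖, ?_⟩
    rintro r ⟨x, -, hx, rfl⟩
    exact hbound x hx
  refine ⟨?_, ?_, ?_, ?_⟩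
  · apply Real.sSup_nonneg
    rintro r ⟨x, -, hx, rfl⟩
    exact norm_nonneg _
  · apply csSup_le hne
    rintro r ⟨x, -, hx, rfl⟩
    exact hbound x hx
  · intro x hxN hx
    exact le_csSup hbdd ⟨x, hxN, hx, rfl⟩
  · intro r hr
    obtain ⟨r', ⟨x, hxN, hx, rfl⟩, h2⟩ := exists_lt_of_lt_csSup hne hr
    exact ⟨x, hxN, hx, h2⟩


/-- the von Neumann algebra generated by a star closed set -/
noncomputable def masa_max_vn (S : Set (H →L[ℂ] H)) (hS : ∀ a ∈ S, star a ∈ S) : VonNeumannAlgebra H where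
  toSubalgebra := Subalgebra.centralizer ℂ (Set.centralizer S)
  star_mem' := by
    intro a ha
    exact Set.star_mem_centralizer' (fun b hb => Set.star_mem_centralizer' hS hb) ha
  centralizer_centralizer' := by
    show Set.centralizer (Set.centralizer (Set.centralizer (Set.centralizer S))) = Set.centralizer (Set.centralizer S)
    rw [Set.centralizer_centralizer_centralizer]

theorem masa_max_mem_vn (S : Set (H →L[ℂ] H)) (hS : ∀ a ∈ S, star a ∈ S) (x : H →L[ℂ] H) :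
    x ∈ masa_max_vn S hS ↔ x ∈ Set.centralizer (Set.centralizer S) := Iff.rfl

theorem masa_max_sa (M A : VonNeumannAlgebra H) (hA : IsMasa M A) (x : H →L[ℂ] H) (hx : x ∈ M)
    (hsa : star x = x) (h : ∀ a ∈ A, x * a = a * x) : x ∈ A := by
  obtain ⟨hAM, hAc, hmax⟩ := hA
  have hS : ∀ a ∈ ({b | b ∈ A ∨ b = x} : Set (H →L[ℂ] H)), star a ∈ ({b | b ∈ A ∨ b = x} : Set (H →L[ℂ] H)) := by
    intro a ha
    rcases ha with ha | ha
    · left; exact star_mem ha
    · right; rw [ha, hsa]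
  have hSS : ({b | b ∈ A ∨ b = x} : Set (H →L[ℂ] H)) ⊆ Set.centralizer {b | b ∈ A ∨ b = x} := by
    intro a ha
    rw [Set.mem_centralizer_iff]
    intro m hm
    rcases ha with ha | ha <;> rcases hm with hm | hm
    · exact hAc m hm a ha
    · rw [hm]; exact h a ha
    · rw [ha]; exact (h m hm).symm
    · rw [ha, hm]
  have hsub := @Set.subset_centralizer_centralizer _ ({b | b ∈ A ∨ b = x} : Set (H →L[ℂ] H)) _
  have hdc : Set.centralizer (Set.centralizer ({b | b ∈ A ∨ b = x} : Set (H →L[ℂ] H))) ⊆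
      Set.centralizer {b | b ∈ A ∨ b = x} := Set.centralizer_subset hSS
  apply hmax (masa_max_vn _ hS)
  · intro a ha
    rw [masa_max_mem_vn]
    exact hsub (Or.inl ha)
  · intro a ha
    rw [masa_max_mem_vn] at ha
    have hSM : ({b | b ∈ A ∨ b = x} : Set (H →L[ℂ] H)) ⊆ (M : Set (H →L[ℂ] H)) := by
      intro b hb
      rcases hb with hb | hb
      · exact hAM b hb
      · rw [hb]; exact hx
    have h2 := Set.centralizer_subset (Set.centralizer_subset hSM) ha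
    rw [VonNeumannAlgebra.centralizer_centralizer] at h2
    exact h2
  · intro a ha b hb
    rw [masa_max_mem_vn] at ha hb
    have h1 := hdc ha
    exact hb a h1
  · rw [masa_max_mem_vn]
    exact hsub (Or.inr rfl)


theorem masa_max (M A : VonNeumannAlgebra H) (hA : IsMasa M A) (x : H →L[ℂ] H) (hx : x ∈ M)
    (h : ∀ a ∈ A, x * a = a * x) : x ∈ A := by
  have hsx : star x ∈ M := star_mem hx
  have h' : ∀ a ∈ A, star x * a = a * star x := by
    intro a ha
    have h1 := h (star a) (star_mem ha)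
    have h2 := congrArg star h1
    rw [star_mul, star_mul, star_star] at h2
    exact h2.symm
  have smulM : ∀ (N : VonNeumannAlgebra H) (c : ℂ) (y : H →L[ℂ] H), y ∈ N → c • y ∈ N := by
    intro N c y hy
    exact N.toStarSubalgebra.smul_mem hy c
  have a1 : x + star x ∈ A := by
    apply masa_max_sa M A hA
    · exact add_mem hx hsx
    · rw [star_add, star_star, add_comm]
    · intro a ha
      rw [add_mul, mul_add, h a ha, h' a ha]
  have a2 : Complex.I • (x - star x) ∈ A := by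
    apply masa_max_sa M A hA
    · exact smulM M _ _ (sub_mem hx hsx)
    · rw [star_smul, star_sub, star_star]
      simp only [RCLike.star_def, Complex.conj_I]
      rw [neg_smul, ← smul_neg, neg_sub]
    · intro a ha
      rw [smul_mul_assoc, mul_smul_comm, sub_mul, mul_sub, h a ha, h' a ha]
  have e : x = (1/2 : ℂ) • (x + star x) + (-(Complex.I) / 2) • (Complex.I • (x - star x)) := by
    rw [smul_smul]
    have : (-(Complex.I) / 2) * Complex.I = 1/2 := by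
      have := Complex.I_mul_I
      linear_combination (-1/2) * this
    rw [this, ← smul_add]
    have h3 : x + star x + (x - star x) = (2:ℂ) • x := by
      rw [two_smul]; abel
    rw [h3, smul_smul]
    norm_num
  rw [e]
  exact add_mem (smulM A _ _ a1) (smulM A _ _ a2)


theorem masa_of_aux (M : VonNeumannAlgebra H) (D : Set (H →L[ℂ] H))
    (hs : ∀ d ∈ D, star d ∈ D) :
    ∃ A : VonNeumannAlgebra H, ∀ x, x ∈ A ↔ x ∈ M ∧ ∀ d ∈ D, x * d = d * x := by
  have hcc : ({x : H →L[ℂ] H | x ∈ M ∧ ∀ d ∈ D, x * d = d * x} : Set (H →L[ℂ] H)) =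
      Set.centralizer (Set.centralizer (M.carrier) ∪ D) := by
    ext x
    constructor
    · rintro ⟨h1, h2⟩
      rw [Set.mem_centralizer_iff]
      rintro m (hm | hm)
      · exact (Set.mem_centralizer_iff.1 hm x h1).symm
      · exact (h2 m hm).symm
    · intro hx
      rw [Set.mem_centralizer_iff] at hx
      refine ⟨?_, fun d hd => (hx d (Or.inr hd)).symm⟩
      have h3 : x ∈ Set.centralizer (Set.centralizer M.carrier) := by
        rw [Set.mem_centralizer_iff]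
        intro m hm
        exact hx m (Or.inl hm)
      rw [M.centralizer_centralizer'] at h3
      exact h3
  let A : VonNeumannAlgebra H :=
    { carrier := {x | x ∈ M ∧ ∀ d ∈ D, x * d = d * x}
      mul_mem' := by
        rintro a b ⟨ha, ha'⟩ ⟨hb, hb'⟩
        refine ⟨mul_mem ha hb, fun d hd => ?_⟩
        rw [mul_assoc, hb' d hd, ← mul_assoc, ha' d hd, mul_assoc]
      one_mem' := ⟨one_mem _, fun d _ => by rw [one_mul, mul_one]⟩
      add_mem' := by
        rintro a b ⟨ha, ha'⟩ ⟨hb, hb'⟩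
        refine ⟨add_mem ha hb, fun d hd => ?_⟩
        rw [add_mul, mul_add, ha' d hd, hb' d hd]
      zero_mem' := ⟨zero_mem _, fun d _ => by rw [zero_mul, mul_zero]⟩
      algebraMap_mem' := fun r => by
        refine ⟨?_, fun d _ => Algebra.commutes r d⟩
        exact M.algebraMap_mem' r
      star_mem' := by
        rintro a ⟨ha, ha'⟩
        refine ⟨star_mem ha, fun d hd => ?_⟩
        have h1 := ha' (star d) (hs d hd)
        have h2 := congrArg star h1
        rw [star_mul, star_mul, star_star] at h2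
        exact h2.symm
      centralizer_centralizer' := by
        show Set.centralizer (Set.centralizer
          ({x : H →L[ℂ] H | x ∈ M ∧ ∀ d ∈ D, x * d = d * x} : Set (H →L[ℂ] H))) = _
        rw [hcc, Set.centralizer_centralizer_centralizer] }
  exact ⟨A, fun x => Iff.rfl⟩


theorem masa_of (M : VonNeumannAlgebra H) (D : Set (H →L[ℂ] H)) (hD : ∀ d ∈ D, d ∈ M)
    (hs : ∀ d ∈ D, star d ∈ D) (hc : ∀ d ∈ D, ∀ d' ∈ D, d * d' = d' * d)
    (hab : ∀ x ∈ M, ∀ y ∈ M, (∀ d ∈ D, x * d = d * x) → (∀ d ∈ D, y * d = d * y) → x * y = y * x) :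
    ∃ A : VonNeumannAlgebra H, IsMasa M A ∧ ∀ x, x ∈ A ↔ x ∈ M ∧ ∀ d ∈ D, x * d = d * x := by
  obtain ⟨A, hA⟩ := masa_of_aux M D hs
  refine ⟨A, ⟨fun x hx => ((hA x).1 hx).1, fun x hx y hy => ?_, fun B hAB hBM hB x hx => ?_⟩, hA⟩
  · exact hab x ((hA x).1 hx).1 y ((hA y).1 hy).1 ((hA x).1 hx).2 ((hA y).1 hy).2
  · rw [hA]
    refine ⟨hBM x hx, fun d hd => hB x hx d (hAB d ?_)⟩
    rw [hA]
    exact ⟨hD d hd, fun d' hd' => hc d hd d' hd'⟩



/-- subbasic neighbourhoods and the membership criterion -/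
theorem em_tendsto (M : VonNeumannAlgebra H) (l : Filter ℕ) (B : ℕ → Masa M) (A : Masa M)
    (h : ∀ ξ η : ℕ → H, Sq ξ → Sq η → Tendsto (fun k => rn ξ η (B k).1) l (𝓝 (rn ξ η A.1))) :
    Tendsto B l (𝓝 A) := by
  change Tendsto B l (@nhds (Masa M) (⨅ p : {p : (ℕ → H) × (ℕ → H) // Sq p.1 ∧ Sq p.2},
    TopologicalSpace.induced (fun A : Masa M => rn p.1.1 p.1.2 A.1) inferInstance) A)
  rw [nhds_iInf, tendsto_iInf]
  intro p
  rw [nhds_induced]
  exact tendsto_comap_iff.2 (h p.1.1 p.1.2 p.2.1 p.2.2)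



theorem em_cont (M : VonNeumannAlgebra H) (ξ η : ℕ → H) (hξ : Sq ξ) (hη : Sq η) :
    Continuous (fun A : Masa M => rn ξ η A.1) := by
  have h : @Continuous (Masa M) ℝ
      (⨅ p : {p : (ℕ → H) × (ℕ → H) // Sq p.1 ∧ Sq p.2},
        TopologicalSpace.induced (fun A : Masa M => rn p.1.1 p.1.2 A.1) inferInstance)
      inferInstance (fun A : Masa M => rn ξ η A.1) :=
    continuous_iInf_dom (i := (⟨(ξ, η), hξ, hη⟩ : {p : (ℕ → H) × (ℕ → H) // Sq p.1 ∧ Sq p.2}))
      continuous_induced_dom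
  exact h





/-- the space of masas is regular -/
theorem em_reg (M : VonNeumannAlgebra H) (A : Masa M) (W : Set (Masa M)) (hW : IsOpen W)
    (hA : A ∈ W) : ∃ W' : Set (Masa M), IsOpen W' ∧ A ∈ W' ∧ closure W' ⊆ W := by
  have hreg : RegularSpace (Masa M) :=
    regularSpace_iInf (fun _ => regularSpace_induced _)
  obtain ⟨K, hK, hKc, hKW⟩ := exists_mem_nhds_isClosed_subset (hW.mem_nhds hA)
  obtain ⟨W', hW'K, hW'o, hAW'⟩ := mem_nhds_iff.1 hK
  exact ⟨W', hW'o, hAW', (closure_minimal hW'K hKc).trans hKW⟩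

variable {M : VonNeumannAlgebra H} {Ω : H}
  {blk : ∀ _a k : ℕ, Matrix (X k) (X k) ℂ →⋆ₐ[ℂ] (H →L[ℂ] H)}



theorem sys_sep (S : Sys M Ω blk) (x : H →L[ℂ] H) (hx : x ∈ M) (h : x Ω = 0) : x = 0 := by
  have h0 : ∀ a ∈ M, x (a Ω) = 0 := by
    intro a ha
    obtain ⟨a', hcomm, haΩ⟩ := S.std a ha
    have h1 := hcomm x hx
    have h2 : a' (x Ω) = x (a' Ω) := by
      have := congrArg (fun f : H →L[ℂ] H => f Ω) h1
      simpa using this
    rw [← haΩ, ← h2, h, map_zero]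
  ext ξ
  rw [ContinuousLinearMap.zero_apply]
  by_contra hne
  have hpos : 0 < ‖x ξ‖ := norm_pos_iff.mpr hne
  have hx0 : 0 ≤ ‖x‖ := norm_nonneg x
  obtain ⟨n, y, hy⟩ := S.dns ξ (‖x ξ‖ / (‖x‖ + 1)) (by positivity)
  have h3 : x ξ = -(x (blk 0 n y Ω - ξ)) := by
    rw [map_sub, h0 _ (S.mem 0 n y)]
    abel
  have h4 : ‖x ξ‖ ≤ ‖x‖ * ‖blk 0 n y Ω - ξ‖ := by
    calc ‖x ξ‖ = ‖x (blk 0 n y Ω - ξ)‖ := by
          conv_lhs => rw [h3]
          rw [norm_neg]
      _ ≤ _ := x.le_opNorm _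
  have h5 : ‖x‖ * ‖blk 0 n y Ω - ξ‖ ≤ ‖x‖ * (‖x ξ‖ / (‖x‖ + 1)) :=
    mul_le_mul_of_nonneg_left hy.le hx0
  have h6 : ‖x‖ * (‖x ξ‖ / (‖x‖ + 1)) < ‖x ξ‖ := by
    rw [mul_div_assoc', div_lt_iff₀ (by positivity)]
    nlinarith
  linarith



theorem sys_star (S : Sys M Ω blk) (x : H →L[ℂ] H) (hx : x ∈ M) : ‖(star x) Ω‖ = ‖x Ω‖ := by
  have h1 : ⟪(star x) Ω, (star x) Ω⟫_ℂ = ⟪Ω, x ((star x) Ω)⟫_ℂ := by
    rw [ContinuousLinearMap.star_eq_adjoint, ContinuousLinearMap.adjoint_inner_left]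
  have h2 : ⟪x Ω, x Ω⟫_ℂ = ⟪Ω, (star x) (x Ω)⟫_ℂ := by
    rw [ContinuousLinearMap.star_eq_adjoint, ContinuousLinearMap.adjoint_inner_right]
  have h3 := S.tr x hx (star x) (star_mem hx)
  have h4 : ⟪(star x) Ω, (star x) Ω⟫_ℂ = ⟪x Ω, x Ω⟫_ℂ := by rw [h1, h2, h3]
  rw [inner_self_eq_norm_sq_to_K, inner_self_eq_norm_sq_to_K] at h4
  have h5 : ‖(star x) Ω‖ ^ 2 = ‖x Ω‖ ^ 2 := by exact_mod_cast h4
  exact (sq_eq_sq₀ (norm_nonneg _) (norm_nonneg _)).mp h5



/-- 2-norm inequalities -/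
theorem sys_mul (S : Sys M Ω blk) (x y : H →L[ℂ] H) (hx : x ∈ M) (hy : y ∈ M) :
    ‖(x * y) Ω‖ ≤ ‖x‖ * ‖y Ω‖ ∧ ‖(x * y) Ω‖ ≤ ‖y‖ * ‖x Ω‖ := by
  constructor
  · exact x.le_opNorm (y Ω)
  · have h1 := sys_star S (x * y) (mul_mem hx hy)
    rw [← h1, star_mul]
    have h2 : ‖(star y * star x) Ω‖ ≤ ‖star y‖ * ‖(star x) Ω‖ := (star y).le_opNorm ((star x) Ω)
    rw [norm_star, sys_star S x hx] at h2
    exact h2



/-- bounded sequences converging in the 2-norm converge weakly, and conversely the weak limit of a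
sequence which converges in 2-norm is the 2-norm limit -/
theorem two_wk (S : Sys M Ω blk) (l : Filter ℕ) (b : ℕ → (H →L[ℂ] H)) (hbM : ∀ k, b k ∈ M)
    (hb : ∀ k, ‖b k‖ ≤ 1) (c : H →L[ℂ] H) (hc : c ∈ M)
    (h : Tendsto (fun k => ‖(b k - c) Ω‖) l (𝓝 0)) : Wk l b c := by
  have key : ∀ ξ : H, Tendsto (fun k => ‖(b k - c) ξ‖) l (𝓝 0) := by
    intro ξ
    rw [Metric.tendsto_nhds]
    intro ε hε
    have hc0 : 0 < 1 + ‖c‖ := by
      have := norm_nonneg c
      linarith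
    obtain ⟨n, x, hx⟩ := S.dns ξ (ε / (2 * (1 + ‖c‖))) (by positivity)
    obtain ⟨a', ha', haΩ⟩ := S.std (blk 0 n x) (S.mem 0 n x)
    have h1 : ∀ k, (b k - c) (blk 0 n x Ω) = a' ((b k - c) Ω) := by
      intro k
      have e1 := congrArg (fun T : H →L[ℂ] H => T Ω) (ha' (b k) (hbM k))
      have e2 := congrArg (fun T : H →L[ℂ] H => T Ω) (ha' c hc)
      simp only [ContinuousLinearMap.mul_apply] at e1 e2
      rw [← haΩ, ContinuousLinearMap.sub_apply, ContinuousLinearMap.sub_apply, map_sub, e1, e2]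
    have h2 : Tendsto (fun k => ‖a'‖ * ‖(b k - c) Ω‖) l (𝓝 0) := by
      have := h.const_mul ‖a'‖
      rwa [mul_zero] at this
    have h3 : ∀ᶠ k in l, ‖a'‖ * ‖(b k - c) Ω‖ < ε / 2 := h2.eventually_lt_const (by positivity)
    filter_upwards [h3] with k hk
    rw [dist_zero_right, norm_norm]
    have e : (b k - c) ξ = (b k - c) (blk 0 n x Ω) - (b k - c) (blk 0 n x Ω - ξ) := by
      rw [map_sub]
      abel
    have h4 : ‖(b k - c) (blk 0 n x Ω)‖ ≤ ‖a'‖ * ‖(b k - c) Ω‖ := by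
      rw [h1]
      exact a'.le_opNorm _
    have h5 : ‖(b k - c) (blk 0 n x Ω - ξ)‖ ≤ (1 + ‖c‖) * ‖blk 0 n x Ω - ξ‖ := by
      refine ((b k - c).le_opNorm _).trans ?_
      refine mul_le_mul_of_nonneg_right ?_ (norm_nonneg _)
      exact (norm_sub_le _ _).trans (add_le_add (hb k) le_rfl)
    have h6 : (1 + ‖c‖) * ‖blk 0 n x Ω - ξ‖ < ε / 2 := by
      have := mul_lt_mul_of_pos_left hx hc0
      have e3 : (1 + ‖c‖) * (ε / (2 * (1 + ‖c‖))) = ε / 2 := by
        field_simp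
      rw [e3] at this
      exact this
    calc ‖(b k - c) ξ‖ = ‖(b k - c) (blk 0 n x Ω) - (b k - c) (blk 0 n x Ω - ξ)‖ := by rw [← e]
      _ ≤ ‖(b k - c) (blk 0 n x Ω)‖ + ‖(b k - c) (blk 0 n x Ω - ξ)‖ := norm_sub_le _ _
      _ < ε := by linarith
  intro ξ η
  rw [tendsto_iff_norm_sub_tendsto_zero]
  have h1 : Tendsto (fun k => ‖η‖ * ‖(b k - c) ξ‖) l (𝓝 0) := by
    have := (key ξ).const_mul ‖η‖
    rwa [mul_zero] at this
  refine squeeze_zero (fun _ => norm_nonneg _) (fun k => ?_) h1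
  rw [← inner_sub_right, ← ContinuousLinearMap.sub_apply]
  exact norm_inner_le_norm _ _

omit [CompleteSpace H] in
theorem T1_sep0 (s : Set H) (f : ∀ n : ℕ, Matrix (X n) (X n) ℂ →ₗ[ℂ] H)
    (hd : ∀ (ξ : H) (ε : ℝ), 0 < ε → ∃ n x, ‖f n x - ξ‖ < ε) :
    TopologicalSpace.IsSeparable s := by
  have h1 : TopologicalSpace.IsSeparable (⋃ n, Set.range (f n)) := by
    apply TopologicalSpace.IsSeparable.iUnion
    intro n
    have hS : TopologicalSpace.SeparableSpace (Matrix (X n) (X n) ℂ) :=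
      inferInstanceAs (TopologicalSpace.SeparableSpace (X n → X n → ℂ))
    exact TopologicalSpace.isSeparable_range (LinearMap.continuous_of_finiteDimensional (f n))
  refine (h1.closure).mono ?_
  intro ξ _
  rw [Metric.mem_closure_iff]
  intro ε hε
  obtain ⟨n, x, hx⟩ := hd ξ ε hε
  refine ⟨f n x, Set.mem_iUnion.2 ⟨n, x, rfl⟩, ?_⟩
  rw [dist_comm, dist_eq_norm]
  exact hx

theorem T1_seq (S : Sys M Ω blk) (A : VonNeumannAlgebra H) :
    ∃ a : ℕ → (H →L[ℂ] H), (∀ i, a i ∈ A ∧ ‖a i‖ ≤ 1) ∧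
      ∀ x ∈ A, ‖x‖ ≤ 1 → ∀ ε : ℝ, 0 < ε → ∃ i, ‖(x - a i) Ω‖ < ε := by
  have hsep : TopologicalSpace.IsSeparable {ξ : H | ∃ x ∈ A, ‖x‖ ≤ 1 ∧ ξ = x Ω} := by
    apply T1_sep0 _ (fun n =>
      { toFun := fun x => blk 0 n x Ω
        map_add' := fun x y => by rw [map_add]; rfl
        map_smul' := fun c x => by rw [map_smul]; rfl })
    exact S.dns
  obtain ⟨t, hts, htc, hst⟩ := hsep.exists_countable_dense_subset
  have h0 : (0 : H) ∈ {ξ : H | ∃ x ∈ A, ‖x‖ ≤ 1 ∧ ξ = x Ω} :=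
    ⟨0, zero_mem A, by simp, by simp⟩
  have htne : t.Nonempty := by
    by_contra h
    rw [Set.not_nonempty_iff_eq_empty] at h
    rw [h, closure_empty] at hst
    exact hst h0
  obtain ⟨e, he⟩ := htc.exists_eq_range htne
  have hch : ∀ i, ∃ x ∈ A, ‖x‖ ≤ 1 ∧ e i = x Ω := fun i => hts (by rw [he]; exact ⟨i, rfl⟩)
  choose a ha1 ha2 ha3 using hch
  refine ⟨a, fun i => ⟨ha1 i, ha2 i⟩, ?_⟩
  intro x hx hx1 ε hε
  have hxm : x Ω ∈ closure t := hst ⟨x, hx, hx1, rfl⟩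
  obtain ⟨b, hb, hbd⟩ := Metric.mem_closure_iff.1 hxm ε hε
  rw [he] at hb
  obtain ⟨i, rfl⟩ := hb
  refine ⟨i, ?_⟩
  rw [dist_eq_norm, ha3 i] at hbd
  exact hbd

theorem T1_comm (S : Sys M Ω blk) (A : VonNeumannAlgebra H) (hAM : ∀ x ∈ A, x ∈ M)
    (a : ℕ → (H →L[ℂ] H)) (ha : ∀ i, a i ∈ A ∧ ‖a i‖ ≤ 1)
    (hd : ∀ x ∈ A, ‖x‖ ≤ 1 → ∀ ε : ℝ, 0 < ε → ∃ i, ‖(x - a i) Ω‖ < ε)
    (b : H →L[ℂ] H) (hb : b ∈ M) (hb1 : ‖b‖ ≤ 1) (hc : ∀ i, b * a i = a i * b) :
    ∀ x ∈ A, b * x = x * b := by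
  have key : ∀ x ∈ A, ‖x‖ ≤ 1 → b * x = x * b := by
    intro x hx hx1
    have hxM := hAM x hx
    rw [← sub_eq_zero]
    apply sys_sep S _ (sub_mem (mul_mem hb hxM) (mul_mem hxM hb))
    rw [← norm_le_zero_iff]
    apply le_of_forall_pos_le_add
    intro ε hε
    obtain ⟨i, hi⟩ := hd x hx hx1 (ε / 2) (by positivity)
    have haM := hAM _ (ha i).1
    have e : b * x - x * b = b * (x - a i) - (x - a i) * b := by
      rw [mul_sub, sub_mul, hc i]
      abel
    rw [e]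
    have hs : x - a i ∈ M := sub_mem hxM haM
    have h1 := (sys_mul S b (x - a i) hb hs).1
    have h2 := (sys_mul S (x - a i) b hs hb).2
    have h3 : ‖(b * (x - a i) - (x - a i) * b) Ω‖ ≤
        ‖(b * (x - a i)) Ω‖ + ‖((x - a i) * b) Ω‖ := norm_sub_le _ _
    have h4 : ‖b‖ * ‖(x - a i) Ω‖ ≤ 1 * ‖(x - a i) Ω‖ :=
      mul_le_mul_of_nonneg_right hb1 (norm_nonneg _)
    linarith
  intro x hx
  by_cases h0 : x = 0
  · rw [h0, mul_zero, zero_mul]
  · have hn : 0 < ‖x‖ := norm_pos_iff.2 h0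
    have hx' : ((‖x‖⁻¹ : ℝ) : ℂ) • x ∈ A :=
      A.toStarSubalgebra.smul_mem hx _
    have hn' : ‖((‖x‖⁻¹ : ℝ) : ℂ) • x‖ ≤ 1 := by
      rw [norm_smul, Complex.norm_real, Real.norm_eq_abs, abs_of_pos (inv_pos.2 hn),
        inv_mul_cancel₀ hn.ne']
    have h1 := key _ hx' hn'
    rw [mul_smul_comm, smul_mul_assoc] at h1
    have hne : ((‖x‖⁻¹ : ℝ) : ℂ) ≠ 0 := by
      rw [Complex.ofReal_ne_zero]
      exact (inv_pos.2 hn).ne'
    exact smul_right_injective _ hne h1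

theorem T1_lim (S : Sys M Ω blk) (A : Masa M) (a : ℕ → (H →L[ℂ] H))
    (ha : ∀ i, a i ∈ A.1 ∧ ‖a i‖ ≤ 1)
    (hd : ∀ x ∈ A.1, ‖x‖ ≤ 1 → ∀ ε : ℝ, 0 < ε → ∃ i, ‖(x - a i) Ω‖ < ε)
    (B : ℕ → Masa M) (cc : ℕ → ℕ → (H →L[ℂ] H))
    (hcc : ∀ i k, cc i k ∈ (B k).1 ∧ ‖cc i k‖ ≤ 1)
    (hcd : ∀ i k, i ≤ k → ‖(a i - cc i k) Ω‖ < 1 / ((k : ℝ) + 1))
    (u : Ultrafilter ℕ) (hu : (u : Filter ℕ) ≤ atTop) (ξ η : ℕ → H) (hξ : Sq ξ) (hη : Sq η) :
    Tendsto (fun k => rn ξ η (B k).1) u (𝓝 (rn ξ η A.1)) := by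
  have hAM : ∀ x ∈ A.1, x ∈ M := A.2.1
  have hBM : ∀ k, ∀ x ∈ (B k).1, x ∈ M := fun k => (B k).2.1
  have hinv : Tendsto (fun k : ℕ => 1 / ((k : ℝ) + 1)) u (𝓝 0) :=
    tendsto_one_div_add_atTop_nhds_zero_nat.mono_left hu
  -- the limit
  obtain ⟨L, hL⟩ : ∃ L : ℝ, Tendsto (fun k => rn ξ η (B k).1) u (𝓝 L) := by
    have hK : IsCompact (Set.Icc (0 : ℝ) (∑' k, ‖ξ k‖ * ‖η k‖)) := isCompact_Icc
    obtain ⟨L, _, hL⟩ := hK.ultrafilter_le_nhds (u.map (fun k => rn ξ η (B k).1)) (by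
      rw [Filter.le_principal_iff]
      exact Filter.mem_map.2 (Filter.univ_mem' fun k =>
        ⟨(rn_basic ξ η hξ hη (B k).1).1, (rn_basic ξ η hξ hη (B k).1).2.1⟩))
    exact ⟨L, hL⟩
  -- approximants tend to zero
  have hdz : ∀ i, Tendsto (fun k => ‖(cc i k - a i) Ω‖) u (𝓝 0) := by
    intro i
    apply tendsto_of_tendsto_of_tendsto_of_le_of_le' tendsto_const_nhds hinv
    · exact Filter.Eventually.of_forall fun k => norm_nonneg _
    · filter_upwards [hu (eventually_ge_atTop i)] with k hk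
      have h1 := (hcd i k hk).le
      have e : (cc i k - a i) Ω = -((a i - cc i k) Ω) := by
        rw [← _root_.neg_apply, neg_sub]
      rw [e, norm_neg]
      exact h1
  have hle : L ≤ rn ξ η A.1 := by
    have hch : ∀ k : ℕ, ∃ x ∈ (B k).1, ‖x‖ ≤ 1 ∧ rn ξ η (B k).1 - 1 / ((k : ℝ) + 1) < ‖nf ξ η x‖ :=
      fun k => (rn_basic ξ η hξ hη (B k).1).2.2.2 _ (by
        have : 0 < 1 / ((k : ℝ) + 1) := by positivity
        linarith)
    choose b hb1 hb2 hb3 using hch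
    obtain ⟨c, hc1, hwk⟩ := wlim u b hb2
    have hcM : c ∈ M := vn_closed M u b (fun k => hBM k _ (hb1 k)) c hwk
    have hcomm : ∀ i, c * a i = a i * c := by
      intro i
      have haM := hAM _ (ha i).1
      rw [← sub_eq_zero]
      apply sys_sep S _ (sub_mem (mul_mem hcM haM) (mul_mem haM hcM))
      apply ext_inner_left ℂ
      intro ζ
      rw [inner_zero_right]
      -- the two expressions have the same limit
      have l1 : Tendsto (fun k => ⟪ζ, b k (a i Ω)⟫_ℂ) u (𝓝 ⟪ζ, c (a i Ω)⟫_ℂ) := hwk (a i Ω) ζ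
      have l2 : Tendsto (fun k => ⟪ζ, a i (b k Ω)⟫_ℂ) u (𝓝 ⟪ζ, a i (c Ω)⟫_ℂ) := by
        have h := hwk Ω ((star (a i)) ζ)
        have e : ∀ y : H, ⟪(star (a i)) ζ, y⟫_ℂ = ⟪ζ, a i y⟫_ℂ := fun y =>
          ContinuousLinearMap.adjoint_inner_left (a i) y ζ
        simp only [e] at h
        exact h
      have l3 : Tendsto (fun k => ⟪ζ, b k (a i Ω)⟫_ℂ - ⟪ζ, a i (b k Ω)⟫_ℂ) u (𝓝 0) := by
        apply squeeze_zero_norm (a := fun k => ‖ζ‖ * (2 * ‖(cc i k - a i) Ω‖))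
        · intro k
          have hbM := hBM k _ (hb1 k)
          have hcM' := hBM k _ (hcc i k).1
          have hs : cc i k - a i ∈ M := sub_mem hcM' haM
          have hbc : b k * cc i k = cc i k * b k := (B k).2.2.1 _ (hb1 k) _ (hcc i k).1
          have e : b k (a i Ω) - a i (b k Ω) =
              ((cc i k - a i) * b k) Ω - (b k * (cc i k - a i)) Ω := by
            have e2 : b k * a i - a i * b k = (cc i k - a i) * b k - b k * (cc i k - a i) := by
              rw [sub_mul, mul_sub, hbc]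
              abel
            exact congrArg (fun T : H →L[ℂ] H => T Ω) e2
          rw [← inner_sub_right, e]
          refine (norm_inner_le_norm _ _).trans ?_
          apply mul_le_mul_of_nonneg_left _ (norm_nonneg _)
          have h1 := (sys_mul S (b k) (cc i k - a i) hbM hs).1
          have h2 := (sys_mul S (cc i k - a i) (b k) hs hbM).2
          have h4 : ‖b k‖ * ‖(cc i k - a i) Ω‖ ≤ 1 * ‖(cc i k - a i) Ω‖ :=
            mul_le_mul_of_nonneg_right (hb2 k) (norm_nonneg _)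
          have h3 := norm_sub_le (((cc i k - a i) * b k) Ω) ((b k * (cc i k - a i)) Ω)
          linarith
        · have := ((hdz i).const_mul 2).const_mul ‖ζ‖
          simpa using this
      have l4 := l1.sub l2
      have := tendsto_nhds_unique l4 l3
      rw [← inner_sub_right] at this
      exact this
    have hcA : c ∈ A.1 := masa_max M A.1 A.2 c hcM
      (T1_comm S A.1 hAM a ha hd c hcM hc1 hcomm)
    have hnf := (nf_tendsto u ξ η hξ hη b hb2 c hwk).norm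
    have h5 : L - 0 ≤ ‖nf ξ η c‖ := le_of_tendsto_of_tendsto' (hL.sub hinv) hnf
      (fun k => (hb3 k).le)
    have h6 := (rn_basic ξ η hξ hη A.1).2.2.1 c hcA hc1
    linarith
  have hge : rn ξ η A.1 ≤ L := by
    have hai : ∀ i, ‖nf ξ η (a i)‖ ≤ L := by
      intro i
      have hw : Wk (u : Filter ℕ) (cc i) (a i) :=
        two_wk S u (cc i) (fun k => hBM k _ (hcc i k).1) (fun k => (hcc i k).2) (a i)
          (hAM _ (ha i).1) (hdz i)
      have hnf := (nf_tendsto u ξ η hξ hη (cc i) (fun k => (hcc i k).2) (a i) hw).norm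
      exact le_of_tendsto_of_tendsto' hnf hL
        (fun k => (rn_basic ξ η hξ hη (B k).1).2.2.1 _ (hcc i k).1 (hcc i k).2)
    by_contra hlt
    rw [not_le] at hlt
    obtain ⟨x, hx, hx1, hxL⟩ := (rn_basic ξ η hξ hη A.1).2.2.2 L hlt
    have hch : ∀ j : ℕ, ∃ i, ‖(x - a i) Ω‖ < 1 / ((j : ℝ) + 1) := fun j =>
      hd x hx hx1 _ (by positivity)
    choose idx hidx using hch
    have hz : Tendsto (fun j => ‖(a (idx j) - x) Ω‖) atTop (𝓝 0) := by
      apply squeeze_zero (fun j => norm_nonneg _) _ tendsto_one_div_add_atTop_nhds_zero_nat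
      intro j
      have e : (a (idx j) - x) Ω = -((x - a (idx j)) Ω) := by
        rw [← _root_.neg_apply, neg_sub]
      rw [e, norm_neg]
      exact (hidx j).le
    have hw : Wk atTop (fun j => a (idx j)) x :=
      two_wk S atTop (fun j => a (idx j)) (fun j => hAM _ (ha _).1) (fun j => (ha _).2) x
        (hAM _ hx) hz
    have hnf := (nf_tendsto atTop ξ η hξ hη (fun j => a (idx j)) (fun j => (ha _).2) x hw).norm
    have := le_of_tendsto' hnf (fun j => hai (idx j))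
    linarith
  rw [le_antisymm hge hle]
  exact hL



/-- neighbourhoods of a masa: every masa whose unit ball nearly contains finitely many elements of
the unit ball of `A` is close to `A` -/
theorem T1 (S : Sys M Ω blk) (A : Masa M) (W : Set (Masa M)) (hW : IsOpen W) (hA : A ∈ W) :
    ∃ (T : Finset (H →L[ℂ] H)) (ε : ℝ), 0 < ε ∧ (∀ t ∈ T, t ∈ A.1 ∧ ‖t‖ ≤ 1) ∧
      ∀ B : Masa M, (∀ t ∈ T, ∃ b ∈ B.1, ‖b‖ ≤ 1 ∧ ‖(t - b) Ω‖ < ε) → B ∈ W := by
  classical
  obtain ⟨a, ha, hd⟩ := T1_seq S A.1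
  by_contra hcon
  push Not at hcon
  have hB : ∀ k : ℕ, ∃ B : Masa M, (∀ i, i ≤ k → ∃ b ∈ B.1, ‖b‖ ≤ 1 ∧
      ‖(a i - b) Ω‖ < 1 / ((k : ℝ) + 1)) ∧ B ∉ W := by
    intro k
    obtain ⟨B, h1, h2⟩ := hcon ((Finset.range (k + 1)).image a) (1 / ((k : ℝ) + 1))
      (by positivity) (by
        intro t ht
        obtain ⟨i, _, rfl⟩ := Finset.mem_image.1 ht
        exact ha i)
    exact ⟨B, fun i hi => h1 (a i) (Finset.mem_image_of_mem a
      (Finset.mem_range.2 (Nat.lt_succ_of_le hi))), h2⟩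
  choose B hB1 hB2 using hB
  have hcc : ∀ i k, ∃ b : H →L[ℂ] H, (b ∈ (B k).1 ∧ ‖b‖ ≤ 1) ∧
      (i ≤ k → ‖(a i - b) Ω‖ < 1 / ((k : ℝ) + 1)) := by
    intro i k
    by_cases hik : i ≤ k
    · obtain ⟨b, h1, h2, h3⟩ := hB1 k i hik
      exact ⟨b, ⟨h1, h2⟩, fun _ => h3⟩
    · exact ⟨0, ⟨zero_mem _, by simp⟩, fun h => absurd h hik⟩
  choose cc hcc1 hcc2 using hcc
  have hlim := em_tendsto M ((Filter.hyperfilter ℕ : Ultrafilter ℕ) : Filter ℕ) B A
    (fun ξ η hξ hη => T1_lim S A a ha hd B cc hcc1 hcc2 (Filter.hyperfilter ℕ)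
      Nat.hyperfilter_le_atTop ξ η hξ hη)
  have hev : ∀ᶠ k in ((Filter.hyperfilter ℕ : Ultrafilter ℕ) : Filter ℕ), B k ∈ W :=
    hlim (hW.mem_nhds hA)
  obtain ⟨k, hk⟩ := hev.exists
  exact hB2 k hk



theorem T2_nf (t x : H →L[ℂ] H) (Ω : H) :
    nf (fun k => if k = 0 then t Ω else 0) (fun k => if k = 0 then Ω else 0) x
      = ⟪Ω, x (t Ω)⟫_ℂ := by
  unfold nf
  rw [tsum_eq_single 0]
  · simp
  · intro k hk
    simp [hk]

theorem T2_sq (v : H) : Sq (fun k : ℕ => if k = 0 then v else 0) := by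
  unfold Sq
  apply summable_of_ne_finset_zero (s := {0})
  intro k hk
  have : k ≠ 0 := by simpa using hk
  simp [this]

/-- the masas which nearly contain finitely many unitaries contain an open set -/
theorem T2 (S : Sys M Ω blk) (T : Finset (H →L[ℂ] H))
    (hT : ∀ t ∈ T, t ∈ M ∧ star t * t = 1 ∧ t * star t = 1) (ε : ℝ) (hε : 0 < ε) :
    ∃ O : Set (Masa M), IsOpen O ∧ (∀ B : Masa M, (∀ t ∈ T, t ∈ B.1) → B ∈ O) ∧
      ∀ B ∈ O, ∀ t ∈ T, ∃ b ∈ B.1, ‖b‖ ≤ 1 ∧ ‖(t - b) Ω‖ < ε := by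
  set δ : ℝ := min (ε ^ 2 / 4) 1 with hδ
  have hδ0 : 0 < δ := by
    rw [hδ]; exact lt_min (by positivity) one_pos
  have hδ1 : δ ≤ 1 := min_le_right _ _
  have hδe : δ ≤ ε ^ 2 / 4 := min_le_left _ _
  refine ⟨⋂ t ∈ T, {B : Masa M | 1 - δ < rn (fun k : ℕ => if k = 0 then t Ω else 0)
      (fun k : ℕ => if k = 0 then Ω else 0) B.1}, ?_, ?_, ?_⟩
  · apply isOpen_biInter_finset
    intro t _
    exact isOpen_lt continuous_const (em_cont M _ _ (T2_sq _) (T2_sq _))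
  · intro B hB
    simp only [Set.mem_iInter, Set.mem_setOf_eq]
    intro t ht
    obtain ⟨htM, h1, h2⟩ := hT t ht
    have hb := (rn_basic (fun k : ℕ => if k = 0 then t Ω else 0)
      (fun k : ℕ => if k = 0 then Ω else 0) (T2_sq _) (T2_sq _) B.1).2.2.1 (star t)
      (star_mem (hB t ht)) (by
        have h3 : ‖star t * t‖ ≤ 1 := by
          rw [h1]; exact ContinuousLinearMap.norm_id_le
        rw [CStarRing.norm_star_mul_self] at h3
        rw [norm_star]
        nlinarith [norm_nonneg t])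
    rw [T2_nf] at hb
    have h4 : (star t) (t Ω) = Ω := by
      have := congrArg (fun f : H →L[ℂ] H => f Ω) h1
      simpa using this
    rw [h4] at hb
    have h5 : ‖(⟪Ω, Ω⟫_ℂ : ℂ)‖ = 1 := by
      rw [inner_self_eq_norm_sq_to_K, S.unit]; simp
    rw [h5] at hb
    linarith
  · intro B hB t ht
    simp only [Set.mem_iInter, Set.mem_setOf_eq] at hB
    have hB1 := hB t ht
    obtain ⟨htM, h1, h2⟩ := hT t ht
    obtain ⟨b, hbB, hb1, hb2⟩ := (rn_basic (fun k : ℕ => if k = 0 then t Ω else 0)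
      (fun k : ℕ => if k = 0 then Ω else 0) (T2_sq _) (T2_sq _) B.1).2.2.2 _ hB1
    rw [T2_nf] at hb2
    set z : ℂ := ⟪Ω, b (t Ω)⟫_ℂ with hz
    have hz0 : 0 < ‖z‖ := by linarith
    have hzz : ⟪(star b) Ω, t Ω⟫_ℂ = z := by
      rw [hz, ContinuousLinearMap.star_eq_adjoint, ContinuousLinearMap.adjoint_inner_left]
    set μ : ℂ := z / (‖z‖ : ℂ) with hμ
    have hμ1 : ‖μ‖ = 1 := by
      rw [hμ, norm_div]
      simp
      exact norm_pos_iff.mp hz0
    have hnt : ‖t Ω‖ ≤ 1 := by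
      have h3 : ‖star t * t‖ ≤ 1 := by
        rw [h1]; exact ContinuousLinearMap.norm_id_le
      rw [CStarRing.norm_star_mul_self] at h3
      have h4 : ‖t‖ ≤ 1 := by nlinarith [norm_nonneg t]
      calc ‖t Ω‖ ≤ ‖t‖ * ‖Ω‖ := t.le_opNorm Ω
        _ ≤ 1 := by rw [S.unit]; linarith
    have hc1 : ‖μ • star b‖ ≤ 1 := by
      rw [norm_smul, hμ1, norm_star]; linarith
    have hcn : ‖(μ • star b) Ω‖ ≤ 1 := by
      calc ‖(μ • star b) Ω‖ ≤ ‖μ • star b‖ * ‖Ω‖ := ContinuousLinearMap.le_opNorm _ Ω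
        _ ≤ 1 := by rw [S.unit]; linarith
    refine ⟨μ • star b, ?_, hc1, ?_⟩
    · have hs : star b ∈ B.1 := star_mem hbB
      have h6 : (algebraMap ℂ (H →L[ℂ] H) μ) * star b ∈ B.1 :=
        mul_mem (B.1.toStarSubalgebra.algebraMap_mem μ) hs
      have h7 : (algebraMap ℂ (H →L[ℂ] H) μ) * star b = μ • star b := by
        rw [Algebra.smul_def]
      rw [← h7]; exact h6
    · have hin : RCLike.re (⟪(μ • star b) Ω, t Ω⟫_ℂ) = ‖z‖ := by
        have h8 : (μ • star b) Ω = μ • ((star b) Ω) := rfl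
        rw [h8, inner_smul_left, hzz]
        have h9 : (starRingEnd ℂ) μ * z = (‖z‖ : ℂ) := by
          rw [hμ, map_div₀, Complex.conj_ofReal, div_mul_eq_mul_div, mul_comm, Complex.mul_conj,
            Complex.normSq_eq_norm_sq]
          have : (‖z‖ : ℂ) ≠ 0 := by exact_mod_cast hz0.ne'
          push_cast
          field_simp
        rw [h9]; simp
      have h10 : ‖(t - μ • star b) Ω‖ ^ 2 = ‖t Ω‖ ^ 2 - 2 * RCLike.re (⟪(μ • star b) Ω, t Ω⟫_ℂ)
          + ‖(μ • star b) Ω‖ ^ 2 := by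
        rw [ContinuousLinearMap.sub_apply, @norm_sub_sq ℂ, inner_re_symm]
      rw [hin] at h10
      have h11 : ‖(t - μ • star b) Ω‖ ^ 2 < ε ^ 2 := by
        nlinarith [norm_nonneg (t Ω), norm_nonneg ((μ • star b) Ω), sq_nonneg ε,
          mul_pos hε hε]
      exact lt_of_pow_lt_pow_left₀ 2 hε.le h11



theorem blk_norm (S : Sys M Ω blk) (a k : ℕ) (x : Matrix (X k) (X k) ℂ) :
    ‖blk a k x Ω‖ = nhs x := by
  have h1 : ‖blk a k x Ω‖ ^ 2 = (∑ i, ∑ j, ‖x i j‖ ^ 2) / Fintype.card (X k) := by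
    have e1 : ⟪Ω, blk a k (xᴴ * x) Ω⟫_ℂ = ((‖blk a k x Ω‖ ^ 2 : ℝ) : ℂ) := by
      have hs : blk a k (xᴴ * x) = star (blk a k x) * blk a k x := by
        rw [map_mul, ← Matrix.star_eq_conjTranspose, map_star]
      rw [hs]
      show ⟪Ω, (star (blk a k x)) ((blk a k x) Ω)⟫_ℂ = _
      rw [ContinuousLinearMap.star_eq_adjoint, ContinuousLinearMap.adjoint_inner_right,
        inner_self_eq_norm_sq_to_K]
      push_cast
      rfl
    have e2 : (xᴴ * x).trace = ((∑ i, ∑ j, ‖x i j‖ ^ 2 : ℝ) : ℂ) := by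
      rw [Matrix.trace]
      simp only [Matrix.diag_apply, Matrix.mul_apply, Matrix.conjTranspose_apply]
      rw [Finset.sum_comm]
      push_cast
      refine Finset.sum_congr rfl fun i _ => Finset.sum_congr rfl fun j _ => ?_
      rw [mul_comm]
      exact Complex.mul_conj' _
    have e3 := S.trc a k (xᴴ * x)
    rw [e1, e2] at e3
    have e4 : (Fintype.card (X k) : ℝ) = 2 ^ k := by simp
    rw [e4]
    exact_mod_cast e3
  rw [nhs, ← h1, Real.sqrt_sq (norm_nonneg _)]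



/-- the first block of length `n` lies in the first block of length `m` -/
theorem blk_up (S : Sys M Ω blk) (n m : ℕ) (h : n ≤ m) (x : Matrix (X n) (X n) ℂ) :
    ∃ y : Matrix (X m) (X m) ℂ, blk 0 n x = blk 0 m y := by
  obtain ⟨l, rfl⟩ := Nat.exists_eq_add_of_le h
  obtain ⟨e, he⟩ := S.mix 0 n l
  refine ⟨Matrix.reindex e e (x ⊗ₖ (1 : Matrix (X l) (X l) ℂ)), ?_⟩
  rw [← he x 1, map_one, mul_one]



open scoped ComplexOrder in
theorem cexp_root {n : Type} [Fintype n] [DecidableEq n] {A : Matrix n n ℂ} (hA : A.PosSemidef) :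
    ∃ w : Matrix n n ℂ, A = wᴴ * w := by
  open scoped MatrixOrder Matrix.Norms.L2Operator in
  exact CStarAlgebra.nonneg_iff_eq_star_mul_self.mp hA.nonneg

theorem cexp_adj (T : H →L[ℂ] H) (ξ η : H) : ⟪T ξ, η⟫_ℂ = ⟪ξ, (star T) η⟫_ℂ := by
  rw [ContinuousLinearMap.star_eq_adjoint, ContinuousLinearMap.adjoint_inner_right]

theorem cexp_adj' (T : H →L[ℂ] H) (ξ η : H) : ⟪ξ, T η⟫_ℂ = ⟪(star T) ξ, η⟫_ℂ := by
  rw [ContinuousLinearMap.star_eq_adjoint, ContinuousLinearMap.adjoint_inner_left]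

theorem cexp_star (n : ℕ) (z : Matrix (X n) (X n) ℂ) : star (blk 0 n z) = blk 0 n zᴴ :=
  (map_star (blk 0 n) z).symm

theorem cexp_mul (n : ℕ) (z w : Matrix (X n) (X n) ℂ) (ξ : H) :
    blk 0 n (z * w) ξ = blk 0 n z (blk 0 n w ξ) := by
  rw [map_mul]; rfl

open scoped ComplexOrder in
theorem cexp_inj (S : Sys M Ω blk) (n : ℕ) (z : Matrix (X n) (X n) ℂ) (h : blk 0 n z Ω = 0) :
    z = 0 := by
  have h1 : ⟪Ω, blk 0 n (zᴴ * z) Ω⟫_ℂ = 0 := by
    rw [cexp_mul, h, map_zero, inner_zero_right]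
  rw [S.trc] at h1
  have h2 : (zᴴ * z).trace = 0 := by
    rcases div_eq_zero_iff.mp h1 with h3 | h3
    · exact h3
    · exact absurd h3 (pow_ne_zero _ two_ne_zero)
  exact Matrix.trace_conjTranspose_mul_self_eq_zero_iff.mp h2

/-- existence of the projection -/
theorem cexp_y (S : Sys M Ω blk) (x : H →L[ℂ] H) (n : ℕ) : ∃ y : Matrix (X n) (X n) ℂ,
    ∀ z, ⟪blk 0 n z Ω, blk 0 n y Ω⟫_ℂ = ⟪blk 0 n z Ω, x Ω⟫_ℂ := by
  let J : Matrix (X n) (X n) ℂ →ₗ[ℂ] H :=
    { toFun := fun z => blk 0 n z Ω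
      map_add' := fun z w => by rw [map_add]; rfl
      map_smul' := fun c z => by rw [map_smul]; rfl }
  have hc : CompleteSpace (LinearMap.range J) := FiniteDimensional.complete ℂ _
  obtain ⟨y, hy⟩ := LinearMap.mem_range.mp ((LinearMap.range J).starProjection_apply_mem (x Ω))
  refine ⟨y, fun z => ?_⟩
  have h1 := (LinearMap.range J).starProjection_inner_eq_zero (x Ω) (J z) (LinearMap.mem_range_self J z)
  rw [← hy, inner_sub_left, sub_eq_zero] at h1
  have h2 := congrArg (starRingEnd ℂ) h1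
  rw [inner_conj_symm, inner_conj_symm] at h2
  exact h2.symm

/-- the projection and products -/
theorem cexp_prod (S : Sys M Ω blk) (x : H →L[ℂ] H) (hx : x ∈ M) (n : ℕ)
    (y : Matrix (X n) (X n) ℂ) (hy : ∀ z, ⟪blk 0 n z Ω, blk 0 n y Ω⟫_ℂ = ⟪blk 0 n z Ω, x Ω⟫_ℂ)
    (z w : Matrix (X n) (X n) ℂ) :
    ⟪blk 0 n z Ω, blk 0 n (y * w) Ω⟫_ℂ = ⟪blk 0 n z Ω, x (blk 0 n w Ω)⟫_ℂ := by
  have key : ∀ t : H →L[ℂ] H, t ∈ M → ⟪blk 0 n z Ω, t (blk 0 n w Ω)⟫_ℂ =
      ⟪blk 0 n (z * wᴴ) Ω, t Ω⟫_ℂ := by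
    intro t ht
    rw [cexp_adj, cexp_star]
    have h1 := S.tr (blk 0 n zᴴ * t) (mul_mem (S.mem 0 n zᴴ) ht) (blk 0 n w) (S.mem 0 n w)
    have h2 : ⟪Ω, blk 0 n zᴴ (t (blk 0 n w Ω))⟫_ℂ = ⟪Ω, blk 0 n w (blk 0 n zᴴ (t Ω))⟫_ℂ := h1
    rw [h2, cexp_adj (blk 0 n (z * wᴴ)), cexp_star, Matrix.conjTranspose_mul,
      Matrix.conjTranspose_conjTranspose, cexp_mul]
  rw [key x hx, cexp_mul, key _ (S.mem 0 n y)]
  exact hy _

theorem cexp_bound (S : Sys M Ω blk) (x : H →L[ℂ] H) (hx : x ∈ M) (n : ℕ)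
    (y : Matrix (X n) (X n) ℂ) (hy : ∀ z, ⟪blk 0 n z Ω, blk 0 n y Ω⟫_ℂ = ⟪blk 0 n z Ω, x Ω⟫_ℂ)
    (w : Matrix (X n) (X n) ℂ) : ‖blk 0 n (y * w) Ω‖ ≤ ‖x‖ * ‖blk 0 n w Ω‖ := by
  by_cases h0 : ‖blk 0 n (y * w) Ω‖ = 0
  · rw [h0]; positivity
  have hpos : 0 < ‖blk 0 n (y * w) Ω‖ := lt_of_le_of_ne (norm_nonneg _) (Ne.symm h0)
  have h1 := cexp_prod S x hx n y hy (y * w) w
  rw [inner_self_eq_norm_sq_to_K] at h1
  have h2 := norm_inner_le_norm (𝕜 := ℂ) (blk 0 n (y * w) Ω) (x (blk 0 n w Ω))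
  rw [← h1] at h2
  have h3 : ‖((‖blk 0 n (y * w) Ω‖ : ℂ)) ^ 2‖ = ‖blk 0 n (y * w) Ω‖ ^ 2 := by
    rw [norm_pow, Complex.norm_real, norm_norm]
  have h4 : ‖blk 0 n (y * w) Ω‖ ^ 2 ≤ ‖blk 0 n (y * w) Ω‖ * ‖x (blk 0 n w Ω)‖ := by
    rw [← h3]; exact h2
  have h5 : ‖blk 0 n (y * w) Ω‖ ≤ ‖x (blk 0 n w Ω)‖ := by
    rw [pow_two] at h4
    exact le_of_mul_le_mul_left h4 hpos
  exact h5.trans (x.le_opNorm _)

/-- vectors -/
theorem cexp_vec (S : Sys M Ω blk) (x : H →L[ℂ] H) (hx : x ∈ M) (n : ℕ)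
    (y : Matrix (X n) (X n) ℂ) (hy : ∀ z, ⟪blk 0 n z Ω, blk 0 n y Ω⟫_ℂ = ⟪blk 0 n z Ω, x Ω⟫_ℂ)
    (v : X n → ℂ) : ∑ i, ‖(y *ᵥ v) i‖ ^ 2 ≤ ‖x‖ ^ 2 * ∑ i, ‖v i‖ ^ 2 := by
  let j0 : X n := ⟨0, by positivity⟩
  have hn : ∀ u : X n → ℂ, nhs (Matrix.of fun i j => if j = j0 then u i else 0 : Matrix (X n) (X n) ℂ)
      = Real.sqrt ((∑ i, ‖u i‖ ^ 2) / Fintype.card (X n)) := by
    intro u
    unfold nhs
    congr 2
    refine Finset.sum_congr rfl fun i _ => ?_
    rw [Finset.sum_eq_single j0]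
    · simp
    · intro j _ hj
      simp [hj]
    · intro h
      exact absurd (Finset.mem_univ _) h
  have hprod : y * (Matrix.of fun i j => if j = j0 then v i else 0 : Matrix (X n) (X n) ℂ) =
      (Matrix.of fun i j => if j = j0 then (y *ᵥ v) i else 0 : Matrix (X n) (X n) ℂ) := by
    ext i j
    rw [Matrix.mul_apply]
    by_cases hj : j = j0
    · simp [hj, Matrix.mulVec, dotProduct]
    · simp [hj]
  have h1 := cexp_bound S x hx n y hy (Matrix.of fun i j => if j = j0 then v i else 0)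
  rw [hprod, blk_norm S, blk_norm S, hn, hn] at h1
  have h2 := pow_le_pow_left₀ (Real.sqrt_nonneg _) h1 2
  rw [mul_pow, Real.sq_sqrt (by positivity), Real.sq_sqrt (by positivity), ← mul_div_assoc] at h2
  have hc : (0 : ℝ) < Fintype.card (X n) := by
    rw [Fintype.card_fin]; positivity
  exact (div_le_div_iff_of_pos_right hc).mp h2

open scoped ComplexOrder in
theorem cexp_norm (S : Sys M Ω blk) (x : H →L[ℂ] H) (hx : x ∈ M) (n : ℕ)
    (y : Matrix (X n) (X n) ℂ) (hy : ∀ z, ⟪blk 0 n z Ω, blk 0 n y Ω⟫_ℂ = ⟪blk 0 n z Ω, x Ω⟫_ℂ) :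
    ‖blk 0 n y‖ ≤ ‖x‖ := by
  have hpsd : (((‖x‖ : ℂ) ^ 2) • (1 : Matrix (X n) (X n) ℂ) - yᴴ * y).PosSemidef := by
    refine Matrix.PosSemidef.of_dotProduct_mulVec_nonneg ?_ ?_
    · refine Matrix.IsHermitian.sub ?_ (Matrix.isHermitian_conjTranspose_mul_self y)
      show (((‖x‖ : ℂ) ^ 2) • (1 : Matrix (X n) (X n) ℂ))ᴴ = _
      rw [Matrix.conjTranspose_smul, Matrix.conjTranspose_one]
      congr 1
      show (starRingEnd ℂ) _ = _
      rw [map_pow, Complex.conj_ofReal]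
    · intro v
      have hself : ∀ u : X n → ℂ, star u ⬝ᵥ u = ((∑ i, ‖u i‖ ^ 2 : ℝ) : ℂ) := by
        intro u
        unfold dotProduct
        push_cast
        refine Finset.sum_congr rfl fun i _ => ?_
        show (starRingEnd ℂ) (u i) * u i = _
        rw [Complex.conj_mul']
      have h1 : star v ⬝ᵥ ((((‖x‖ : ℂ) ^ 2) • (1 : Matrix (X n) (X n) ℂ) - yᴴ * y) *ᵥ v) =
          ((‖x‖ ^ 2 * ∑ i, ‖v i‖ ^ 2 - ∑ i, ‖(y *ᵥ v) i‖ ^ 2 : ℝ) : ℂ) := by
        rw [Matrix.sub_mulVec, dotProduct_sub, Matrix.smul_mulVec, Matrix.one_mulVec,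
          dotProduct_smul, hself, ← Matrix.mulVec_mulVec, Matrix.dotProduct_mulVec,
          ← Matrix.star_mulVec, hself]
        push_cast
        rfl
      rw [h1]
      have h2 := cexp_vec S x hx n y hy v
      exact_mod_cast sub_nonneg.mpr h2
  obtain ⟨w, hw⟩ := cexp_root hpsd
  refine ContinuousLinearMap.opNorm_le_bound _ (norm_nonneg x) fun ξ => ?_
  have h1 : ⟪ξ, blk 0 n (((‖x‖ : ℂ) ^ 2) • (1 : Matrix (X n) (X n) ℂ) - yᴴ * y) ξ⟫_ℂ =
      ⟪ξ, blk 0 n (wᴴ * w) ξ⟫_ℂ := by rw [← hw]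
  have h2 : ∀ u : Matrix (X n) (X n) ℂ, ⟪ξ, blk 0 n (uᴴ * u) ξ⟫_ℂ = ((‖blk 0 n u ξ‖ ^ 2 : ℝ) : ℂ) := by
    intro u
    rw [cexp_mul, cexp_adj', cexp_star, Matrix.conjTranspose_conjTranspose,
      inner_self_eq_norm_sq_to_K]
    push_cast
    rfl
  rw [h2, map_sub, map_smul, map_one] at h1
  have h3 : ⟪ξ, ((((‖x‖ : ℂ) ^ 2) • (1 : H →L[ℂ] H)) - blk 0 n (yᴴ * y)) ξ⟫_ℂ =
      ((‖x‖ ^ 2 * ‖ξ‖ ^ 2 - ‖blk 0 n y ξ‖ ^ 2 : ℝ) : ℂ) := by
    show ⟪ξ, ((‖x‖ : ℂ) ^ 2) • ξ - blk 0 n (yᴴ * y) ξ⟫_ℂ = _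
    rw [inner_sub_right, inner_smul_right, inner_self_eq_norm_sq_to_K, h2]
    push_cast
    rfl
  rw [h3] at h1
  have h4 : ‖x‖ ^ 2 * ‖ξ‖ ^ 2 - ‖blk 0 n y ξ‖ ^ 2 = ‖blk 0 n w ξ‖ ^ 2 := by exact_mod_cast h1
  have h5 : ‖blk 0 n y ξ‖ ^ 2 ≤ (‖x‖ * ‖ξ‖) ^ 2 := by nlinarith [sq_nonneg ‖blk 0 n w ξ‖]
  exact (sq_le_sq₀ (norm_nonneg _) (by positivity)).mp h5

/-- conditional expectations onto the first blocks -/
theorem cexp (S : Sys M Ω blk) (x : H →L[ℂ] H) (hx : x ∈ M) (ε : ℝ) (hε : 0 < ε) :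
    ∃ N : ℕ, ∀ n, N ≤ n → ∃ y : Matrix (X n) (X n) ℂ, ‖blk 0 n y‖ ≤ ‖x‖ ∧
      ‖(x - blk 0 n y) Ω‖ < ε ∧ (star x = x → yᴴ = y) ∧
      ∀ z, x * blk 0 n z = blk 0 n z * x → y * z = z * y := by
  obtain ⟨N, x0, hx0⟩ := S.dns (x Ω) ε hε
  refine ⟨N, fun n hn => ?_⟩
  obtain ⟨y, hy⟩ := cexp_y S x n
  have huniq : ∀ u : Matrix (X n) (X n) ℂ, (∀ z, ⟪blk 0 n z Ω, blk 0 n u Ω⟫_ℂ = 0) → u = 0 := by
    intro u hu
    exact cexp_inj S n u (inner_self_eq_zero.mp (hu u))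
  refine ⟨y, cexp_norm S x hx n y hy, ?_, ?_, ?_⟩
  · obtain ⟨y0, hy0⟩ := blk_up S N n hn x0
    rw [hy0] at hx0
    have h1 : ‖(x - blk 0 n y) Ω‖ ≤ ‖blk 0 n y0 Ω - x Ω‖ := by
      have e : blk 0 n y0 Ω - x Ω = blk 0 n (y0 - y) Ω - (x - blk 0 n y) Ω := by
        rw [map_sub]
        show _ = (blk 0 n y0 Ω - blk 0 n y Ω) - (x Ω - blk 0 n y Ω)
        abel
      have ho : ⟪blk 0 n (y0 - y) Ω, (x - blk 0 n y) Ω⟫_ℂ = 0 := by
        show ⟪blk 0 n (y0 - y) Ω, x Ω - blk 0 n y Ω⟫_ℂ = 0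
        rw [inner_sub_right, hy, sub_self]
      have h2 := norm_sub_sq (𝕜 := ℂ) (blk 0 n (y0 - y) Ω) ((x - blk 0 n y) Ω)
      rw [← e, ho, map_zero, mul_zero, sub_zero] at h2
      refine (sq_le_sq₀ (norm_nonneg _) (norm_nonneg _)).mp ?_
      nlinarith [sq_nonneg ‖blk 0 n (y0 - y) Ω‖]
    exact lt_of_le_of_lt h1 hx0
  · intro hxs
    have h1 : yᴴ - y = 0 := by
      apply huniq
      intro z
      rw [map_sub]
      show ⟪blk 0 n z Ω, blk 0 n yᴴ Ω - blk 0 n y Ω⟫_ℂ = 0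
      rw [inner_sub_right, hy z, sub_eq_zero]
      -- both sides are traces
      have h2 : ⟪blk 0 n z Ω, blk 0 n yᴴ Ω⟫_ℂ = ⟪Ω, blk 0 n (zᴴ * yᴴ) Ω⟫_ℂ := by
        rw [cexp_adj, cexp_star, cexp_mul]
      have h3 : ⟪Ω, blk 0 n (zᴴ * yᴴ) Ω⟫_ℂ = ⟪Ω, blk 0 n (yᴴ * zᴴ) Ω⟫_ℂ := by
        rw [S.trc, S.trc, Matrix.trace_mul_comm]
      have h4 : ⟪Ω, blk 0 n (yᴴ * zᴴ) Ω⟫_ℂ = ⟪blk 0 n y Ω, blk 0 n zᴴ Ω⟫_ℂ := by
        rw [cexp_mul, cexp_adj', cexp_star, Matrix.conjTranspose_conjTranspose]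
      have h5 : ⟪blk 0 n y Ω, blk 0 n zᴴ Ω⟫_ℂ = ⟪x Ω, blk 0 n zᴴ Ω⟫_ℂ := by
        rw [← inner_conj_symm, hy, inner_conj_symm]
      have h6 : ⟪x Ω, blk 0 n zᴴ Ω⟫_ℂ = ⟪Ω, x (blk 0 n zᴴ Ω)⟫_ℂ := by
        rw [cexp_adj, hxs]
      have h7 : ⟪Ω, x (blk 0 n zᴴ Ω)⟫_ℂ = ⟪Ω, blk 0 n zᴴ (x Ω)⟫_ℂ :=
        S.tr x hx _ (S.mem 0 n zᴴ)
      have h8 : ⟪Ω, blk 0 n zᴴ (x Ω)⟫_ℂ = ⟪blk 0 n z Ω, x Ω⟫_ℂ := by
        rw [cexp_adj', cexp_star, Matrix.conjTranspose_conjTranspose]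
      rw [h2, h3, h4, h5, h6, h7, h8]
    exact sub_eq_zero.mp h1
  · intro z hz
    have h1 : y * z - z * y = 0 := by
      apply huniq
      intro w
      rw [map_sub]
      show ⟪blk 0 n w Ω, blk 0 n (y * z) Ω - blk 0 n (z * y) Ω⟫_ℂ = 0
      rw [inner_sub_right, cexp_prod S x hx n y hy w z, sub_eq_zero]
      have h2 : ⟪blk 0 n w Ω, blk 0 n (z * y) Ω⟫_ℂ = ⟪blk 0 n (zᴴ * w) Ω, blk 0 n y Ω⟫_ℂ := by
        rw [cexp_mul, cexp_adj', cexp_star, ← cexp_mul]
      have h3 := congrArg (fun T : H →L[ℂ] H => T Ω) hz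
      have h4 : x (blk 0 n z Ω) = blk 0 n z (x Ω) := h3
      have h5 := cexp_adj (blk 0 n zᴴ) (blk 0 n w Ω) (x Ω)
      rw [cexp_star, Matrix.conjTranspose_conjTranspose] at h5
      rw [h2, hy, cexp_mul, h5, h4]
    exact sub_eq_zero.mp h1


theorem wk_auto_iso (P : H →L[ℂ] H) (hP : star P * P = 1) (ξ : H) : ‖P ξ‖ = ‖ξ‖ := by
  have h : ‖P ξ‖ ^ 2 = ‖ξ‖ ^ 2 := by
    have h1 : ⟪P ξ, P ξ⟫_ℂ = ⟪ξ, ξ⟫_ℂ := by
      rw [← ContinuousLinearMap.adjoint_inner_right, ← ContinuousLinearMap.star_eq_adjoint]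
      have h2 : (star P) (P ξ) = ξ := by
        have := congrArg (fun T : H →L[ℂ] H => T ξ) hP
        simpa using this
      rw [h2]
    rw [inner_self_eq_norm_sq_to_K, inner_self_eq_norm_sq_to_K] at h1
    exact_mod_cast h1
  exact (sq_eq_sq₀ (norm_nonneg _) (norm_nonneg _)).mp h

theorem wk_auto_term (P Q y : H →L[ℂ] H) (hP : P * star P = 1) (hQ : Q * star Q = 1)
    (hy : ‖y‖ ≤ 1) (ξ η : H) :
    ‖⟪η, (P * y * star P) ξ⟫_ℂ - ⟪η, (Q * y * star Q) ξ⟫_ℂ‖ ≤
      ‖star P η - star Q η‖ * ‖ξ‖ + ‖η‖ * ‖star P ξ - star Q ξ‖ := by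
  have e : ∀ R : H →L[ℂ] H, ⟪η, (R * y * star R) ξ⟫_ℂ = ⟪star R η, y (star R ξ)⟫_ℂ := by
    intro R
    show ⟪η, R (y (star R ξ))⟫_ℂ = _
    rw [← ContinuousLinearMap.adjoint_inner_left, ← ContinuousLinearMap.star_eq_adjoint]
  rw [e P, e Q]
  have e2 : ⟪star P η, y (star P ξ)⟫_ℂ - ⟪star Q η, y (star Q ξ)⟫_ℂ =
      ⟪star P η - star Q η, y (star P ξ)⟫_ℂ + ⟪star Q η, y (star P ξ - star Q ξ)⟫_ℂ := by
    rw [inner_sub_left, map_sub, inner_sub_right]
    ring
  rw [e2]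
  have nP : ‖star P ξ‖ = ‖ξ‖ := wk_auto_iso (star P) (by rw [star_star]; exact hP) ξ
  have nQ : ‖star Q η‖ = ‖η‖ := wk_auto_iso (star Q) (by rw [star_star]; exact hQ) η
  have hyb : ∀ ζ : H, ‖y ζ‖ ≤ ‖ζ‖ := fun ζ => by
    calc ‖y ζ‖ ≤ ‖y‖ * ‖ζ‖ := y.le_opNorm ζ
      _ ≤ 1 * ‖ζ‖ := by gcongr
      _ = ‖ζ‖ := one_mul _
  refine (norm_add_le _ _).trans (add_le_add ?_ ?_)
  · refine (norm_inner_le_norm _ _).trans ?_
    gcongr
    exact (hyb _).trans nP.le
  · refine (norm_inner_le_norm _ _).trans ?_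
    rw [nQ]
    gcongr
    exact hyb _

theorem wk_auto_sum (ξ η : ℕ → H) (hξ : Sq ξ) (hη : Sq η) :
    Summable fun j => ‖ξ j‖ * ‖η j‖ := by
  refine Summable.of_nonneg_of_le (fun j => by positivity) (fun j => ?_)
    ((hξ.add hη).mul_left (1 / 2))
  have := sq_nonneg (‖ξ j‖ - ‖η j‖)
  nlinarith

theorem wk_auto_nf (ξ η : ℕ → H) (hξ : Sq ξ) (hη : Sq η) (P Q y : H →L[ℂ] H)
    (hP : P * star P = 1) (hQ : Q * star Q = 1) (hy : ‖y‖ ≤ 1) :
    ‖nf ξ η (P * y * star P) - nf ξ η (Q * y * star Q)‖ ≤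
      ∑' j, (‖star P (η j) - star Q (η j)‖ * ‖ξ j‖ + ‖η j‖ * ‖star P (ξ j) - star Q (ξ j)‖) := by
  have hs := wk_auto_sum ξ η hξ hη
  have hyb : ∀ ζ : H, ‖y ζ‖ ≤ ‖ζ‖ := fun ζ => by
    calc ‖y ζ‖ ≤ ‖y‖ * ‖ζ‖ := y.le_opNorm ζ
      _ ≤ 1 * ‖ζ‖ := by gcongr
      _ = ‖ζ‖ := one_mul _
  have s1 : ∀ R : H →L[ℂ] H, R * star R = 1 →
      Summable fun j => ⟪η j, (R * y * star R) (ξ j)⟫_ℂ := by
    intro R hR
    refine Summable.of_norm_bounded hs (fun j => ?_)
    have e : ⟪η j, (R * y * star R) (ξ j)⟫_ℂ = ⟪star R (η j), y (star R (ξ j))⟫_ℂ := by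
      show ⟪η j, R (y (star R (ξ j)))⟫_ℂ = _
      rw [← ContinuousLinearMap.adjoint_inner_left, ← ContinuousLinearMap.star_eq_adjoint]
    rw [e]
    refine (norm_inner_le_norm _ _).trans ?_
    have n1 : ‖star R (η j)‖ = ‖η j‖ := wk_auto_iso (star R) (by rw [star_star]; exact hR) _
    have n2 : ‖star R (ξ j)‖ = ‖ξ j‖ := wk_auto_iso (star R) (by rw [star_star]; exact hR) _
    rw [n1, mul_comm]
    gcongr
    exact (hyb _).trans n2.le
  unfold nf
  rw [← (s1 P hP).tsum_sub (s1 Q hQ)]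
  have s2 : Summable fun j => (‖star P (η j) - star Q (η j)‖ * ‖ξ j‖ +
      ‖η j‖ * ‖star P (ξ j) - star Q (ξ j)‖) := by
    refine Summable.of_nonneg_of_le (fun j => by positivity) (fun j => ?_) (hs.mul_left 4)
    have n1 : ‖star P (η j)‖ = ‖η j‖ := wk_auto_iso (star P) (by rw [star_star]; exact hP) _
    have n2 : ‖star P (ξ j)‖ = ‖ξ j‖ := wk_auto_iso (star P) (by rw [star_star]; exact hP) _
    have n3 : ‖star Q (η j)‖ = ‖η j‖ := wk_auto_iso (star Q) (by rw [star_star]; exact hQ) _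
    have n4 : ‖star Q (ξ j)‖ = ‖ξ j‖ := wk_auto_iso (star Q) (by rw [star_star]; exact hQ) _
    have m1 : ‖star P (η j) - star Q (η j)‖ ≤ 2 * ‖η j‖ := by
      refine (norm_sub_le _ _).trans ?_
      rw [n1, n3]; linarith
    have m2 : ‖star P (ξ j) - star Q (ξ j)‖ ≤ 2 * ‖ξ j‖ := by
      refine (norm_sub_le _ _).trans ?_
      rw [n2, n4]; linarith
    have k1 := mul_le_mul_of_nonneg_right m1 (norm_nonneg (ξ j))
    have k2 := mul_le_mul_of_nonneg_left m2 (norm_nonneg (η j))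
    nlinarith
  refine (norm_tsum_le_tsum_norm ?_).trans ?_
  · exact Summable.of_nonneg_of_le (fun j => norm_nonneg _)
      (fun j => wk_auto_term P Q y hP hQ hy (ξ j) (η j)) s2
  · refine Summable.tsum_le_tsum (fun j => wk_auto_term P Q y hP hQ hy (ξ j) (η j)) ?_ s2
    exact Summable.of_nonneg_of_le (fun j => norm_nonneg _)
      (fun j => wk_auto_term P Q y hP hQ hy (ξ j) (η j)) s2

theorem wk_auto_conj (P x : H →L[ℂ] H) (hP : star P * P = 1) (hP' : P * star P = 1)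
    (hx : ‖x‖ ≤ 1) : ‖P * x * star P‖ ≤ 1 := by
  refine ContinuousLinearMap.opNorm_le_bound _ zero_le_one fun ζ => ?_
  show ‖P (x (star P ζ))‖ ≤ 1 * ‖ζ‖
  rw [wk_auto_iso P hP]
  have n1 : ‖star P ζ‖ = ‖ζ‖ := wk_auto_iso (star P) (by rw [star_star]; exact hP') _
  calc ‖x (star P ζ)‖ ≤ ‖x‖ * ‖star P ζ‖ := x.le_opNorm _
    _ ≤ 1 * ‖ζ‖ := by rw [n1]; gcongr

theorem wk_auto_half (ξ η : ℕ → H) (hξ : Sq ξ) (hη : Sq η) (P Q : H →L[ℂ] H)
    (hP : star P * P = 1 ∧ P * star P = 1) (hQ : star Q * Q = 1 ∧ Q * star Q = 1)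
    (A N1 N2 : VonNeumannAlgebra H) (h1 : ∀ x, x ∈ N1 ↔ star P * x * P ∈ A)
    (h2 : ∀ x, x ∈ N2 ↔ star Q * x * Q ∈ A) (e : ℝ)
    (he : ∀ y : H →L[ℂ] H, ‖y‖ ≤ 1 → ‖nf ξ η (P * y * star P) - nf ξ η (Q * y * star Q)‖ ≤ e) :
    rn ξ η N1 ≤ rn ξ η N2 + e := by
  by_contra hc
  push Not at hc
  obtain ⟨x, hx, hx1, hx2⟩ := (rn_basic ξ η hξ hη N1).2.2.2 _ hc
  have hy : star P * x * P ∈ A := (h1 x).mp hx
  have hy1 : ‖star P * x * P‖ ≤ 1 := by
    have := wk_auto_conj (star P) x (by rw [star_star]; exact hP.2) (by rw [star_star]; exact hP.1) hx1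
    rwa [star_star] at this
  have hxe : P * (star P * x * P) * star P = x := by
    calc P * (star P * x * P) * star P = (P * star P) * x * (P * star P) := by noncomm_ring
      _ = x := by rw [hP.2, one_mul, mul_one]
  have hz : Q * (star P * x * P) * star Q ∈ N2 := by
    rw [h2]
    have : star Q * (Q * (star P * x * P) * star Q) * Q = star P * x * P := by
      calc star Q * (Q * (star P * x * P) * star Q) * Q
          = (star Q * Q) * (star P * x * P) * (star Q * Q) := by noncomm_ring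
        _ = star P * x * P := by rw [hQ.1, one_mul, mul_one]
    rw [this]
    exact hy
  have hz1 := wk_auto_conj Q (star P * x * P) hQ.1 hQ.2 hy1
  have k1 := (rn_basic ξ η hξ hη N2).2.2.1 _ hz hz1
  have k2 := he _ hy1
  rw [hxe] at k2
  have k3 := norm_sub_norm_le (nf ξ η x) (nf ξ η (Q * (star P * x * P) * star Q))
  linarith


/-- strong limits of automorphisms (implemented by unitaries fixing `Ω`) act continuously -/
theorem wk_auto (M : VonNeumannAlgebra H) (U : ℕ → (H →L[ℂ] H)) (V : H →L[ℂ] H)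
    (hU : ∀ k, star (U k) * U k = 1 ∧ U k * star (U k) = 1)
    (hV : star V * V = 1 ∧ V * star V = 1)
    (h1 : ∀ ξ, Tendsto (fun k => U k ξ) atTop (𝓝 (V ξ)))
    (h2 : ∀ ξ, Tendsto (fun k => star (U k) ξ) atTop (𝓝 (star V ξ)))
    (A : Masa M) (B : ℕ → Masa M) (C : Masa M)
    (hB : ∀ k x, x ∈ (B k).1 ↔ star (U k) * x * U k ∈ A.1)
    (hC : ∀ x, x ∈ C.1 ↔ star V * x * V ∈ A.1) : Tendsto B atTop (𝓝 C) := by
  apply em_tendsto M atTop B C
  intro ξ η hξ hη
  set e : ℕ → ℝ := fun k => ∑' j, (‖star (U k) (η j) - star V (η j)‖ * ‖ξ j‖ +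
    ‖η j‖ * ‖star (U k) (ξ j) - star V (ξ j)‖) with he
  have he0 : Tendsto e atTop (𝓝 0) := by
    have hs := wk_auto_sum ξ η hξ hη
    have : Tendsto e atTop (𝓝 (∑' _j : ℕ, (0 : ℝ))) := by
      refine tendsto_tsum_of_dominated_convergence (bound := fun j => 4 * (‖ξ j‖ * ‖η j‖))
        (hs.mul_left 4) (fun j => ?_) (Eventually.of_forall fun k j => ?_)
      · have t1 : Tendsto (fun k => ‖star (U k) (η j) - star V (η j)‖) atTop (𝓝 0) := by
          have := ((h2 (η j)).sub_const (star V (η j))).norm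
          simpa using this
        have t2 : Tendsto (fun k => ‖star (U k) (ξ j) - star V (ξ j)‖) atTop (𝓝 0) := by
          have := ((h2 (ξ j)).sub_const (star V (ξ j))).norm
          simpa using this
        have := (t1.mul_const ‖ξ j‖).add (t2.const_mul ‖η j‖)
        simpa using this
      · have n1 : ‖star (U k) (η j)‖ = ‖η j‖ :=
          wk_auto_iso (star (U k)) (by rw [star_star]; exact (hU k).2) _
        have n2 : ‖star (U k) (ξ j)‖ = ‖ξ j‖ :=
          wk_auto_iso (star (U k)) (by rw [star_star]; exact (hU k).2) _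
        have n3 : ‖star V (η j)‖ = ‖η j‖ := wk_auto_iso (star V) (by rw [star_star]; exact hV.2) _
        have n4 : ‖star V (ξ j)‖ = ‖ξ j‖ := wk_auto_iso (star V) (by rw [star_star]; exact hV.2) _
        have m1 : ‖star (U k) (η j) - star V (η j)‖ ≤ 2 * ‖η j‖ := by
          refine (norm_sub_le _ _).trans ?_
          rw [n1, n3]; linarith
        have m2 : ‖star (U k) (ξ j) - star V (ξ j)‖ ≤ 2 * ‖ξ j‖ := by
          refine (norm_sub_le _ _).trans ?_
          rw [n2, n4]; linarith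
        have k1 := mul_le_mul_of_nonneg_right m1 (norm_nonneg (ξ j))
        have k2 := mul_le_mul_of_nonneg_left m2 (norm_nonneg (η j))
        rw [Real.norm_of_nonneg (by positivity)]
        nlinarith
    simpa using this
  rw [tendsto_iff_dist_tendsto_zero]
  refine squeeze_zero (fun k => dist_nonneg) (fun k => ?_) he0
  have b1 := wk_auto_half ξ η hξ hη (U k) V (hU k) hV A.1 (B k).1 C.1 (hB k) hC (e k)
    (fun y hy => wk_auto_nf ξ η hξ hη (U k) V y (hU k).2 hV.2 hy)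
  have b2 := wk_auto_half ξ η hξ hη V (U k) hV (hU k) A.1 C.1 (B k).1 hC (hB k) (e k)
    (fun y hy => by
      rw [norm_sub_rev]
      exact wk_auto_nf ξ η hξ hη (U k) V y (hU k).2 hV.2 hy)
  rw [Real.dist_eq, abs_le]
  constructor <;> linarith

theorem lim_auto_norm (u : H →L[ℂ] H) : (∀ ξ, ‖u ξ‖ = ‖ξ‖) ↔ star u * u = 1 :=
  u.norm_map_iff_adjoint_comp_self

theorem lim_auto_ext (S : Sys M Ω blk) (A B : H →L[ℂ] H) (h : ∀ y ∈ M, A (y Ω) = B (y Ω)) : A = B := by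
  ext ξ
  have hcl : IsClosed {ξ | A ξ = B ξ} := isClosed_eq A.continuous B.continuous
  have h1 : ξ ∈ closure {ξ | A ξ = B ξ} := Metric.mem_closure_iff.2 (fun ε hε => by
    obtain ⟨n, x, hx⟩ := S.dns ξ ε hε
    exact ⟨blk 0 n x Ω, h _ (S.mem 0 n x), by rw [dist_comm, dist_eq_norm]; exact hx⟩)
  rwa [hcl.closure_eq] at h1

theorem lim_auto_next (S : Sys M Ω blk) (A : H →L[ℂ] H) (h : ∀ y ∈ M, ‖A (y Ω)‖ = ‖y Ω‖) (ξ : H) :
    ‖A ξ‖ = ‖ξ‖ := by
  have hcl : IsClosed {ξ | ‖A ξ‖ = ‖ξ‖} := isClosed_eq A.continuous.norm continuous_norm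
  have h1 : ξ ∈ closure {ξ | ‖A ξ‖ = ‖ξ‖} := Metric.mem_closure_iff.2 (fun ε hε => by
    obtain ⟨n, x, hx⟩ := S.dns ξ ε hε
    exact ⟨blk 0 n x Ω, h _ (S.mem 0 n x), by rw [dist_comm, dist_eq_norm]; exact hx⟩)
  rwa [hcl.closure_eq] at h1

theorem lim_auto_one (S : Sys M Ω blk) (g : H →L[ℂ] H) (hg : g ∈ M) (h1 : star g * g = 1)
    (h2 : g * star g = 1) : ∃ U : H →L[ℂ] H, star U * U = 1 ∧ U * star U = 1 ∧
      (∀ x ∈ M, U (x Ω) = (g * x * star g) Ω) ∧ (∀ x ∈ M, star U (x Ω) = (star g * x * g) Ω) ∧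
      (∀ x ∈ M, U * x * star U = g * x * star g) ∧ (∀ x ∈ M, star U * x * U = star g * x * g) := by
  have hsg : star g ∈ M := star_mem hg
  obtain ⟨g', hgc, hgΩ⟩ := S.std (star g) hsg
  have hUx : ∀ x ∈ M, (g * g') (x Ω) = (g * x * star g) Ω := by
    intro x hx
    have e : g' (x Ω) = x (g' Ω) := congrArg (fun A : H →L[ℂ] H => A Ω) (hgc x hx)
    show g (g' (x Ω)) = g (x (star g Ω))
    rw [e, hgΩ]
  have hgn : ∀ ξ, ‖g ξ‖ = ‖ξ‖ := (lim_auto_norm g).2 h1
  have hn : ∀ y ∈ M, ‖(g * g') (y Ω)‖ = ‖y Ω‖ := by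
    intro y hy
    rw [hUx y hy]
    have e1 : (g * y * star g) Ω = g ((y * star g) Ω) := rfl
    have e2 : star (y * star g) Ω = g (star y Ω) := by
      rw [star_mul, star_star]; rfl
    rw [e1, hgn, ← sys_star S _ (mul_mem hy hsg), e2, hgn, sys_star S y hy]
  set U := g * g' with hU
  have hU1 : star U * U = 1 := (lim_auto_norm U).1 (lim_auto_next S U hn)
  have hsU : ∀ y ∈ M, star U (y Ω) = (star g * y * g) Ω := by
    intro y hy
    have hx : star g * y * g ∈ M := mul_mem (mul_mem hsg hy) hg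
    have e1 : y Ω = U ((star g * y * g) Ω) := by
      rw [hUx _ hx]
      have e : g * (star g * y * g) * star g = y := by
        calc g * (star g * y * g) * star g = (g * star g) * y * (g * star g) := by noncomm_ring
          _ = y := by rw [h2, one_mul, mul_one]
      rw [e]
    rw [e1]
    have e2 : star U (U ((star g * y * g) Ω)) = (star U * U) ((star g * y * g) Ω) := rfl
    rw [e2, hU1]
    rfl
  have hU2 : U * star U = 1 := by
    refine lim_auto_ext S _ _ fun y hy => ?_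
    have hx : star g * y * g ∈ M := mul_mem (mul_mem hsg hy) hg
    show U (star U (y Ω)) = y Ω
    rw [hsU y hy, hUx _ hx]
    have e : g * (star g * y * g) * star g = y := by
      calc g * (star g * y * g) * star g = (g * star g) * y * (g * star g) := by noncomm_ring
        _ = y := by rw [h2, one_mul, mul_one]
    rw [e]
  refine ⟨U, hU1, hU2, hUx, hsU, ?_, ?_⟩
  · intro x hx
    refine lim_auto_ext S _ _ fun y hy => ?_
    have hz : star g * y * g ∈ M := mul_mem (mul_mem hsg hy) hg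
    show U (x (star U (y Ω))) = (g * x * star g) (y Ω)
    rw [hsU y hy]
    have e1 : x ((star g * y * g) Ω) = (x * (star g * y * g)) Ω := rfl
    rw [e1, hUx _ (mul_mem hx hz)]
    have e : g * (x * (star g * y * g)) * star g = (g * x * star g) * y := by
      calc g * (x * (star g * y * g)) * star g = (g * x * star g) * y * (g * star g) := by noncomm_ring
        _ = (g * x * star g) * y := by rw [h2, mul_one]
    rw [e]
    rfl
  · intro x hx
    refine lim_auto_ext S _ _ fun y hy => ?_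
    have hz : g * y * star g ∈ M := mul_mem (mul_mem hg hy) hsg
    show star U (x (U (y Ω))) = (star g * x * g) (y Ω)
    rw [hUx y hy]
    have e1 : x ((g * y * star g) Ω) = (x * (g * y * star g)) Ω := rfl
    rw [e1, hsU _ (mul_mem hx hz)]
    have e : star g * (x * (g * y * star g)) * g = (star g * x * g) * y := by
      calc star g * (x * (g * y * star g)) * g = (star g * x * g) * y * (star g * g) := by noncomm_ring
        _ = (star g * x * g) * y := by rw [h1, mul_one]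
    rw [e]
    rfl

theorem lim_auto_lim (U : ℕ → (H →L[ℂ] H)) (hU : ∀ k ξ, ‖U k ξ‖ = ‖ξ‖)
    (hD : ∀ (ξ : H) (ε : ℝ), 0 < ε → ∃ η : H, ‖η - ξ‖ < ε ∧ CauchySeq (fun k => U k η)) :
    ∃ V : H →L[ℂ] H, ∀ ξ, Tendsto (fun k => U k ξ) atTop (𝓝 (V ξ)) := by
  have hc : ∀ ξ, ∃ y, Tendsto (fun k => U k ξ) atTop (𝓝 y) := by
    intro ξ
    apply cauchySeq_tendsto_of_complete
    rw [Metric.cauchySeq_iff']
    intro ε hε
    obtain ⟨η, hη, hηc⟩ := hD ξ (ε / 3) (by positivity)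
    obtain ⟨N, hN⟩ := Metric.cauchySeq_iff'.1 hηc (ε / 3) (by positivity)
    refine ⟨N, fun k hk => ?_⟩
    have h1 := hN k hk
    rw [dist_eq_norm] at h1 ⊢
    have e : U k ξ - U N ξ = -(U k (η - ξ)) + (U k η - U N η) + U N (η - ξ) := by
      rw [map_sub, map_sub]; abel
    rw [e]
    calc ‖-(U k (η - ξ)) + (U k η - U N η) + U N (η - ξ)‖
        ≤ ‖-(U k (η - ξ))‖ + ‖U k η - U N η‖ + ‖U N (η - ξ)‖ := norm_add₃_le
      _ < ε := by rw [norm_neg, hU, hU]; linarith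
  choose f hf using hc
  exact ⟨continuousLinearMapOfTendsto U (tendsto_pi_nhds.2 hf), hf⟩

theorem lim_auto_comp (U : ℕ → (H →L[ℂ] H)) (V : H →L[ℂ] H) (hU : ∀ k ξ, ‖U k ξ‖ = ‖ξ‖)
    (hV : ∀ ξ, Tendsto (fun k => U k ξ) atTop (𝓝 (V ξ))) (ξs : ℕ → H) (ξ : H)
    (h : Tendsto ξs atTop (𝓝 ξ)) : Tendsto (fun k => U k (ξs k)) atTop (𝓝 (V ξ)) := by
  have h1 : Tendsto (fun k => U k (ξs k - ξ)) atTop (𝓝 0) := by
    rw [tendsto_zero_iff_norm_tendsto_zero]
    simp_rw [hU]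
    rw [← tendsto_zero_iff_norm_tendsto_zero]
    have := h.sub_const ξ
    rwa [sub_self] at this
  have h2 := h1.add (hV ξ)
  rw [zero_add] at h2
  refine h2.congr fun k => ?_
  rw [map_sub]
  abel

theorem lim_auto_scale {k : ℕ} (β : Matrix (X k) (X k) ℂ →⋆ₐ[ℂ] (H →L[ℂ] H)) (φ : (H →L[ℂ] H) → H) (b : ℝ)
    (hφ : ∀ (c : ℂ) x, φ (c • x) = c • φ x) (h : ∀ x, ‖β x‖ ≤ 1 → ‖φ (β x)‖ ≤ b)
    (y : Matrix (X k) (X k) ℂ) : ‖φ (β y)‖ ≤ ‖β y‖ * b := by
  rcases eq_or_ne (β y) 0 with h0 | h0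
  · have e : φ 0 = 0 := by
      have := hφ 0 0
      rwa [zero_smul, zero_smul] at this
    rw [h0, e, norm_zero, norm_zero, zero_mul]
  · have hc : 0 < ‖β y‖ := norm_pos_iff.2 h0
    have e1 : ‖β (((‖β y‖⁻¹ : ℝ) : ℂ) • y)‖ ≤ 1 := by
      rw [map_smul, norm_smul, Complex.norm_real, norm_inv, norm_norm]
      exact (inv_mul_cancel₀ hc.ne').le
    have e2 := h _ e1
    rw [map_smul, hφ, norm_smul, Complex.norm_real, norm_inv, norm_norm] at e2
    rw [inv_mul_le_iff₀ hc] at e2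
    exact e2

theorem lim_auto_cauchy (S : Sys M Ω blk) (U : ℕ → (H →L[ℂ] H)) (a b : ℕ → (H →L[ℂ] H))
    (hUx : ∀ k, ∀ x ∈ M, U k (x Ω) = (a k * x * b k) Ω) (n : ℕ → ℕ) (hn : ∀ k, k ≤ n k)
    (h1 : ∀ k, ∀ x : Matrix (X (n k)) (X (n k)) ℂ, ‖blk 0 (n k) x‖ ≤ 1 →
      ‖(a (k + 1) * blk 0 (n k) x * b (k + 1) - a k * blk 0 (n k) x * b k) Ω‖ ≤ (1 / 2) ^ k)
    (m : ℕ) (z : Matrix (X m) (X m) ℂ) : CauchySeq (fun k => U k (blk 0 m z Ω)) := by
  rw [← cauchySeq_shift m]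
  refine cauchySeq_of_le_geometric (1 / 2) ‖blk 0 m z‖ (by norm_num) fun k => ?_
  obtain ⟨y, hy⟩ := blk_up S m (n (k + m)) (le_trans (Nat.le_add_left m k) (hn (k + m))) z
  rw [hUx _ _ (S.mem 0 m z), hUx _ _ (S.mem 0 m z), dist_comm, dist_eq_norm]
  have h2 := lim_auto_scale (blk 0 (n (k + m)))
    (fun x => (a (k + m + 1) * x * b (k + m + 1) - a (k + m) * x * b (k + m)) Ω) ((1 / 2) ^ (k + m))
    (fun c x => by
      simp only [mul_smul_comm, smul_mul_assoc, ← smul_sub]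
      rfl) (h1 (k + m)) y
  rw [← hy] at h2
  have e : (a (k + 1 + m) * blk 0 m z * b (k + 1 + m)) Ω - (a (k + m) * blk 0 m z * b (k + m)) Ω =
      (a (k + m + 1) * blk 0 m z * b (k + m + 1) - a (k + m) * blk 0 m z * b (k + m)) Ω := by
    rw [show k + 1 + m = k + m + 1 by ring]
    rfl
  rw [e]
  refine h2.trans (mul_le_mul_of_nonneg_left ?_ (norm_nonneg _))
  exact pow_le_pow_of_le_one (by norm_num) (by norm_num) (Nat.le_add_right k m)



/-- a sequence of inner automorphisms converging pointwise on the blocks converges to an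
automorphism -/
theorem lim_auto (S : Sys M Ω blk) (g : ℕ → (H →L[ℂ] H)) (hg : ∀ k, g k ∈ M)
    (hu : ∀ k, star (g k) * g k = 1 ∧ g k * star (g k) = 1) (n : ℕ → ℕ) (hn : ∀ k, k ≤ n k)
    (h1 : ∀ k, ∀ x : Matrix (X (n k)) (X (n k)) ℂ, ‖blk 0 (n k) x‖ ≤ 1 →
      ‖(g (k + 1) * blk 0 (n k) x * star (g (k + 1)) - g k * blk 0 (n k) x * star (g k)) Ω‖
        ≤ (1 / 2) ^ k)
    (h2 : ∀ k, ∀ x : Matrix (X (n k)) (X (n k)) ℂ, ‖blk 0 (n k) x‖ ≤ 1 →
      ‖(star (g (k + 1)) * blk 0 (n k) x * g (k + 1) - star (g k) * blk 0 (n k) x * g k) Ω‖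
        ≤ (1 / 2) ^ k) :
    ∃ (U : ℕ → (H →L[ℂ] H)) (V : H →L[ℂ] H),
      (∀ k, star (U k) * U k = 1 ∧ U k * star (U k) = 1) ∧ (star V * V = 1 ∧ V * star V = 1) ∧
      (∀ ξ, Tendsto (fun k => U k ξ) atTop (𝓝 (V ξ))) ∧
      (∀ ξ, Tendsto (fun k => star (U k) ξ) atTop (𝓝 (star V ξ))) ∧
      (∀ k, ∀ x ∈ M, U k * x * star (U k) = g k * x * star (g k)) ∧
      (∀ k, ∀ x ∈ M, star (U k) * x * U k = star (g k) * x * g k) ∧
      (∀ x ∈ M, V * x * star V ∈ M) ∧ (∀ x ∈ M, star V * x * V ∈ M) := by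
  have hex := fun k => lim_auto_one S (g k) (hg k) (hu k).1 (hu k).2
  choose U hU1 hU2 hUx hsUx hc1 hc2 using hex
  have hUn : ∀ k ξ, ‖U k ξ‖ = ‖ξ‖ := fun k => (lim_auto_norm (U k)).2 (hU1 k)
  have hsUn : ∀ k ξ, ‖star (U k) ξ‖ = ‖ξ‖ := fun k =>
    (lim_auto_norm (star (U k))).2 (by rw [star_star]; exact hU2 k)
  obtain ⟨V, hV⟩ := lim_auto_lim U hUn (fun ξ ε hε => by
    obtain ⟨m, z, hz⟩ := S.dns ξ ε hε
    exact ⟨_, hz, lim_auto_cauchy S U g (fun k => star (g k)) hUx n hn h1 m z⟩)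
  obtain ⟨V', hV'⟩ := lim_auto_lim (fun k => star (U k)) hsUn (fun ξ ε hε => by
    obtain ⟨m, z, hz⟩ := S.dns ξ ε hε
    exact ⟨_, hz, lim_auto_cauchy S (fun k => star (U k)) (fun k => star (g k)) g hsUx n hn h2 m z⟩)
  have hVV : V' = star V := by
    ext ξ
    refine ext_inner_left ℂ fun η => ?_
    have e1 : Tendsto (fun k => ⟪η, star (U k) ξ⟫_ℂ) atTop (𝓝 ⟪η, V' ξ⟫_ℂ) := tendsto_const_nhds.inner (hV' ξ)
    have e2 : Tendsto (fun k => ⟪U k η, ξ⟫_ℂ) atTop (𝓝 ⟪V η, ξ⟫_ℂ) := (hV η).inner tendsto_const_nhds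
    have e3 : ∀ k, ⟪U k η, ξ⟫_ℂ = ⟪η, star (U k) ξ⟫_ℂ := by
      intro k
      rw [ContinuousLinearMap.star_eq_adjoint, ContinuousLinearMap.adjoint_inner_right]
    have e4 := e2.congr e3
    rw [tendsto_nhds_unique e1 e4, ContinuousLinearMap.star_eq_adjoint, ContinuousLinearMap.adjoint_inner_right]
  subst hVV
  have hVn : ∀ ξ, ‖V ξ‖ = ‖ξ‖ := by
    intro ξ
    refine tendsto_nhds_unique (hV ξ).norm ?_
    simp_rw [hUn]
    exact tendsto_const_nhds
  have hsVn : ∀ ξ, ‖star V ξ‖ = ‖ξ‖ := by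
    intro ξ
    refine tendsto_nhds_unique (hV' ξ).norm ?_
    simp_rw [hsUn]
    exact tendsto_const_nhds
  refine ⟨U, V, fun k => ⟨hU1 k, hU2 k⟩, ⟨(lim_auto_norm V).1 hVn, ?_⟩, hV, hV', hc1, hc2, ?_, ?_⟩
  · have := (lim_auto_norm (star V)).1 hsVn
    rwa [star_star] at this
  · intro x hx
    refine vn_closed M atTop (fun k => U k * x * star (U k)) (fun k => ?_) _ ?_
    · show U k * x * star (U k) ∈ M
      rw [hc1 k x hx]
      exact mul_mem (mul_mem (hg k) hx) (star_mem (hg k))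
    · intro ξ η
      refine tendsto_const_nhds.inner ?_
      exact lim_auto_comp U V hUn hV (fun k => x (star (U k) ξ)) (x (star V ξ))
        ((x.continuous.tendsto _).comp (hV' ξ))
  · intro x hx
    refine vn_closed M atTop (fun k => star (U k) * x * U k) (fun k => ?_) _ ?_
    · show star (U k) * x * U k ∈ M
      rw [hc2 k x hx]
      exact mul_mem (mul_mem (star_mem (hg k)) hx) (hg k)
    · intro ξ η
      refine tendsto_const_nhds.inner ?_
      exact lim_auto_comp (fun k => star (U k)) (star V) hsUn hV' (fun k => x (U k ξ)) (x (V ξ))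
        ((x.continuous.tendsto _).comp (hV ξ))



theorem auto_of_mul {R : Type*} [Ring R] (V W x y : R) (h : V * W = 1) :
    W * (x * y) * V = (W * x * V) * (W * y * V) := by
  calc W * (x * y) * V = W * x * 1 * y * V := by rw [mul_one]; simp only [mul_assoc]
    _ = W * x * (V * W) * y * V := by rw [h]
    _ = (W * x * V) * (W * y * V) := by simp only [mul_assoc]

theorem auto_of_inv {R : Type*} [Ring R] (V W x : R) (h : V * W = 1) :
    V * (W * x * V) * W = x := by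
  calc V * (W * x * V) * W = (V * W) * x * (V * W) := by simp only [mul_assoc]
    _ = x := by rw [h, one_mul, mul_one]

/-- the automorphism -/
noncomputable def auto_of_equiv (M : VonNeumannAlgebra H) (V : H →L[ℂ] H)
    (hV : star V * V = 1 ∧ V * star V = 1) (h1 : ∀ x ∈ M, V * x * star V ∈ M)
    (h2 : ∀ x ∈ M, star V * x * V ∈ M) : Au M where
  toFun y := ⟨V * (y : H →L[ℂ] H) * star V, h1 y.1 y.2⟩
  invFun y := ⟨star V * (y : H →L[ℂ] H) * V, h2 y.1 y.2⟩
  left_inv y := Subtype.ext (auto_of_inv (star V) V y.1 hV.1)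
  right_inv y := Subtype.ext (auto_of_inv V (star V) y.1 hV.2)
  map_mul' x y := Subtype.ext (auto_of_mul (star V) V x.1 y.1 hV.1)
  map_add' x y := Subtype.ext (by
    show V * (x.1 + y.1) * star V = V * x.1 * star V + V * y.1 * star V
    rw [mul_add, add_mul])
  map_star' x := Subtype.ext (by
    show V * star x.1 * star V = star (V * x.1 * star V)
    rw [star_mul, star_mul, star_star, mul_assoc])
  map_smul' c x := Subtype.ext (by
    show V * (c • x.1) * star V = c • (V * x.1 * star V)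
    rw [mul_smul_comm, smul_mul_assoc])

/-- a unitary normalising `M` moves masas by an automorphism -/
theorem auto_of (M : VonNeumannAlgebra H) (V : H →L[ℂ] H)
    (hV : star V * V = 1 ∧ V * star V = 1) (h1 : ∀ x ∈ M, V * x * star V ∈ M)
    (h2 : ∀ x ∈ M, star V * x * V ∈ M) (A : Masa M) :
    ∃ (α : Au M) (B : Masa M), IsImage α A B ∧ ∀ x, x ∈ B.1 ↔ star V * x * V ∈ A.1 := by
  have hmemA : ∀ a ∈ A.1, a ∈ M := A.2.1
  have hcomA : ∀ x ∈ A.1, ∀ y ∈ A.1, x * y = y * x := A.2.2.1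
  obtain ⟨D, hD⟩ : ∃ D : Set (H →L[ℂ] H), D = {x | ∃ a ∈ A.1, x = V * a * star V} := ⟨_, rfl⟩
  have hkey : ∀ x ∈ M, (∀ d ∈ D, x * d = d * x) → star V * x * V ∈ A.1 := by
    intro x hx hxd
    apply masa_max M A.1 A.2 _ (h2 x hx)
    intro a ha
    have h3 : x * (V * a * star V) = (V * a * star V) * x := hxd _ (by rw [hD]; exact ⟨a, ha, rfl⟩)
    have h4 : a = star V * (V * a * star V) * V := (auto_of_inv (star V) V a hV.1).symm
    calc star V * x * V * a = (star V * x * V) * (star V * (V * a * star V) * V) := by rw [← h4]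
      _ = star V * (x * (V * a * star V)) * V := (auto_of_mul V (star V) _ _ hV.2).symm
      _ = star V * ((V * a * star V) * x) * V := by rw [h3]
      _ = (star V * (V * a * star V) * V) * (star V * x * V) := auto_of_mul V (star V) _ _ hV.2
      _ = a * (star V * x * V) := by rw [← h4]
  obtain ⟨B, hB, hBx⟩ := masa_of M D (by
      rw [hD]
      rintro d ⟨a, ha, rfl⟩
      exact h1 a (hmemA a ha)) (by
      rw [hD]
      rintro d ⟨a, ha, rfl⟩
      refine ⟨star a, star_mem ha, ?_⟩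
      rw [star_mul, star_mul, star_star, mul_assoc]) (by
      rw [hD]
      rintro d ⟨a, ha, rfl⟩ d' ⟨a', ha', rfl⟩
      rw [← auto_of_mul (star V) V a a' hV.1, ← auto_of_mul (star V) V a' a hV.1, hcomA a ha a' ha'])
    (by
      intro x hx y hy hxd hyd
      have h3 := hcomA _ (hkey x hx hxd) _ (hkey y hy hyd)
      rw [← auto_of_mul V (star V) x y hV.2, ← auto_of_mul V (star V) y x hV.2] at h3
      have h4 := congrArg (fun z => V * z * star V) h3
      have h5 : V * (star V * (x * y) * V) * star V = V * (star V * (y * x) * V) * star V := h4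
      rw [auto_of_inv V (star V) _ hV.2, auto_of_inv V (star V) _ hV.2] at h5
      exact h5)
  have hmem : ∀ x, x ∈ B ↔ star V * x * V ∈ A.1 := by
    intro x
    rw [hBx]
    constructor
    · rintro ⟨hx, hxd⟩
      exact hkey x hx hxd
    · intro hx
      have hxe : V * (star V * x * V) * star V = x := auto_of_inv V (star V) x hV.2
      refine ⟨?_, ?_⟩
      · rw [← hxe]
        exact h1 _ (hmemA _ hx)
      · rw [hD]
        rintro d ⟨a, ha, rfl⟩
        rw [← hxe, ← auto_of_mul (star V) V _ _ hV.1, ← auto_of_mul (star V) V _ _ hV.1,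
          hcomA _ hx _ ha]
  exact ⟨auto_of_equiv M V hV h1 h2, ⟨B, hB⟩, fun y => hmem y.1, hmem⟩



theorem diag_max {ι : Type} [Fintype ι] [DecidableEq ι] (V y : Matrix ι ι ℂ) (hV : Un V)
    (h : ∀ d : ι → ℂ, y * (V * Matrix.diagonal d * Vᴴ) = (V * Matrix.diagonal d * Vᴴ) * y) :
    ∃ d : ι → ℂ, y = V * Matrix.diagonal d * Vᴴ := by
  have hw : ∀ d : ι → ℂ, (Vᴴ * y * V) * Matrix.diagonal d = Matrix.diagonal d * (Vᴴ * y * V) := by
    intro d
    have h1 := congrArg (fun z => Vᴴ * z * V) (h d)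
    have e1 : Vᴴ * (y * (V * Matrix.diagonal d * Vᴴ)) * V = (Vᴴ * y * V) * Matrix.diagonal d * (Vᴴ * V) := by
      simp only [Matrix.mul_assoc]
    have e2 : Vᴴ * ((V * Matrix.diagonal d * Vᴴ) * y) * V = (Vᴴ * V) * Matrix.diagonal d * (Vᴴ * y * V) := by
      simp only [Matrix.mul_assoc]
    rw [e1, e2, hV.1, Matrix.mul_one, Matrix.one_mul] at h1
    exact h1
  refine ⟨fun i => (Vᴴ * y * V) i i, ?_⟩
  have hd : Vᴴ * y * V = Matrix.diagonal (fun i => (Vᴴ * y * V) i i) := by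
    ext i j
    by_cases hij : i = j
    · subst hij; simp
    · rw [Matrix.diagonal_apply_ne _ hij]
      have h1 := congrFun (congrFun (hw (Pi.single i 1)) i) j
      rw [Matrix.mul_diagonal, Matrix.diagonal_mul] at h1
      rw [Pi.single_eq_of_ne (Ne.symm hij), Pi.single_eq_same] at h1
      simpa using h1.symm
  rw [← hd]
  have e3 : V * (Vᴴ * y * V) * Vᴴ = (V * Vᴴ) * y * (V * Vᴴ) := by
    simp only [Matrix.mul_assoc]
  rw [e3, hV.2, Matrix.mul_one, Matrix.one_mul]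



theorem bstar_mono (l : ℕ → ℕ) (V : ∀ t, Matrix (X (l t)) (X (l t)) ℂ)
    (hD : ∀ t, Dg blk (l t) (V t) ⊆ Dg blk (l (t + 1)) (V (t + 1))) (t s : ℕ) (h : t ≤ s) :
    Dg blk (l t) (V t) ⊆ Dg blk (l s) (V s) := by
  induction s, h using Nat.le_induction with
  | base => exact subset_rfl
  | succ s _ ih => exact ih.trans (hD s)

theorem bstar_mul {n : ℕ} (V : Matrix (X n) (X n) ℂ) (hV : Un V) (d e : X n → ℂ) :
    (V * Matrix.diagonal d * Vᴴ) * (V * Matrix.diagonal e * Vᴴ) =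
      V * Matrix.diagonal (fun i => d i * e i) * Vᴴ := by
  calc (V * Matrix.diagonal d * Vᴴ) * (V * Matrix.diagonal e * Vᴴ)
      = V * Matrix.diagonal d * (Vᴴ * V) * Matrix.diagonal e * Vᴴ := by
        simp only [Matrix.mul_assoc]
    _ = V * (Matrix.diagonal d * Matrix.diagonal e) * Vᴴ := by
        rw [hV.1, Matrix.mul_one, Matrix.mul_assoc V]
    _ = _ := by rw [Matrix.diagonal_mul_diagonal]

theorem bstar_comm {n : ℕ} {V : Matrix (X n) (X n) ℂ} (hV : Un V) {x y : H →L[ℂ] H}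
    (hx : x ∈ Dg blk n V) (hy : y ∈ Dg blk n V) : x * y = y * x := by
  obtain ⟨d, rfl⟩ := hx
  obtain ⟨e, rfl⟩ := hy
  rw [← map_mul, ← map_mul, bstar_mul V hV, bstar_mul V hV]
  congr 4
  funext i
  exact mul_comm _ _

theorem bstar_star {n : ℕ} {V : Matrix (X n) (X n) ℂ} {x : H →L[ℂ] H}
    (hx : x ∈ Dg blk n V) : star x ∈ Dg blk n V := by
  obtain ⟨d, rfl⟩ := hx
  refine ⟨star d, ?_⟩
  rw [← map_star, Matrix.star_eq_conjTranspose, Matrix.conjTranspose_mul,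
    Matrix.conjTranspose_mul, Matrix.conjTranspose_conjTranspose, Matrix.diagonal_conjTranspose,
    Matrix.mul_assoc]

theorem bstar_approx (S : Sys M Ω blk) (l : ℕ → ℕ) (V : ∀ t, Matrix (X (l t)) (X (l t)) ℂ)
    (hV : ∀ t, Un (V t)) (hl : ∀ t, t ≤ l t) (x : H →L[ℂ] H) (hx : x ∈ M)
    (hc : ∀ t, ∀ d ∈ Dg blk (l t) (V t), x * d = d * x) (ε : ℝ) (hε : 0 < ε) :
    ∃ N, ∀ t, N ≤ t → ∃ d ∈ Dg blk (l t) (V t), ‖d‖ ≤ ‖x‖ ∧ ‖(x - d) Ω‖ < ε := by
  obtain ⟨N, hN⟩ := cexp S x hx ε hε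
  refine ⟨N, fun t ht => ?_⟩
  obtain ⟨y, hy1, hy2, -, hy4⟩ := hN (l t) (ht.trans (hl t))
  obtain ⟨d, hd⟩ := diag_max (V t) y (hV t) (fun d => hy4 _ (hc t _ ⟨d, rfl⟩))
  refine ⟨blk 0 (l t) y, ⟨d, by rw [hd]⟩, hy1, hy2⟩

theorem bstar_ab (S : Sys M Ω blk) (l : ℕ → ℕ) (V : ∀ t, Matrix (X (l t)) (X (l t)) ℂ)
    (hV : ∀ t, Un (V t)) (hl : ∀ t, t ≤ l t) (x y : H →L[ℂ] H) (hx : x ∈ M) (hy : y ∈ M)
    (hcx : ∀ t, ∀ d ∈ Dg blk (l t) (V t), x * d = d * x)
    (hcy : ∀ t, ∀ d ∈ Dg blk (l t) (V t), y * d = d * y) : x * y = y * x := by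
  have hM : x * y - y * x ∈ M := sub_mem (mul_mem hx hy) (mul_mem hy hx)
  have hzero : ‖(x * y - y * x) Ω‖ ≤ 0 := by
    refine le_of_forall_pos_le_add (fun δ hδ => ?_)
    set K : ℝ := 2 * (‖x‖ + ‖y‖) + 1 with hK
    have hKpos : 0 < K := by positivity
    have hε : 0 < δ / K := by positivity
    obtain ⟨N1, hN1⟩ := bstar_approx S l V hV hl x hx hcx (δ / K) hε
    obtain ⟨N2, hN2⟩ := bstar_approx S l V hV hl y hy hcy (δ / K) hε
    obtain ⟨a, ha, ha1, ha2⟩ := hN1 (max N1 N2) (le_max_left _ _)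
    obtain ⟨b, hb, hb1, hb2⟩ := hN2 (max N1 N2) (le_max_right _ _)
    have hab : a * b = b * a := bstar_comm (hV _) ha hb
    have haM : a ∈ M := by
      obtain ⟨d, rfl⟩ := ha
      exact S.mem _ _ _
    have hbM : b ∈ M := by
      obtain ⟨d, rfl⟩ := hb
      exact S.mem _ _ _
    have e : x * y - y * x = ((x - a) * y + a * (y - b)) - ((y - b) * x + b * (x - a)) := by
      rw [sub_mul, mul_sub, sub_mul, mul_sub, hab]
      abel
    have m1 := (sys_mul S (x - a) y (sub_mem hx haM) hy).2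
    have m2 := (sys_mul S a (y - b) haM (sub_mem hy hbM)).1
    have m3 := (sys_mul S (y - b) x (sub_mem hy hbM) hx).2
    have m4 := (sys_mul S b (x - a) hbM (sub_mem hx haM)).1
    have n1 : ‖((x - a) * y) Ω‖ ≤ ‖y‖ * (δ / K) :=
      m1.trans (mul_le_mul_of_nonneg_left ha2.le (norm_nonneg _))
    have n2 : ‖(a * (y - b)) Ω‖ ≤ ‖x‖ * (δ / K) :=
      m2.trans (mul_le_mul ha1 hb2.le (norm_nonneg _) (norm_nonneg _))
    have n3 : ‖((y - b) * x) Ω‖ ≤ ‖x‖ * (δ / K) :=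
      m3.trans (mul_le_mul_of_nonneg_left hb2.le (norm_nonneg _))
    have n4 : ‖(b * (x - a)) Ω‖ ≤ ‖y‖ * (δ / K) :=
      m4.trans (mul_le_mul hb1 ha2.le (norm_nonneg _) (norm_nonneg _))
    have e2 : (x * y - y * x) Ω = (((x - a) * y) Ω + (a * (y - b)) Ω) -
        (((y - b) * x) Ω + (b * (x - a)) Ω) := by
      rw [e]
      rfl
    have h5 : K * (δ / K) = δ := by field_simp
    rw [e2, zero_add]
    calc ‖(((x - a) * y) Ω + (a * (y - b)) Ω) - (((y - b) * x) Ω + (b * (x - a)) Ω)‖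
        ≤ ‖((x - a) * y) Ω + (a * (y - b)) Ω‖ + ‖((y - b) * x) Ω + (b * (x - a)) Ω‖ :=
          norm_sub_le _ _
      _ ≤ (‖((x - a) * y) Ω‖ + ‖(a * (y - b)) Ω‖) + (‖((y - b) * x) Ω‖ + ‖(b * (x - a)) Ω‖) :=
          add_le_add (norm_add_le _ _) (norm_add_le _ _)
      _ ≤ (K - 1) * (δ / K) := by
          rw [hK]
          linarith
      _ ≤ K * (δ / K) := mul_le_mul_of_nonneg_right (by linarith) hε.le
      _ = δ := h5
  have h0 := sys_sep S _ hM (norm_le_zero_iff.1 hzero)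
  exact sub_eq_zero.1 h0

/-- the masa generated by an increasing sequence of diagonal algebras -/
theorem bstar (S : Sys M Ω blk) (l : ℕ → ℕ) (V : ∀ t, Matrix (X (l t)) (X (l t)) ℂ)
    (hV : ∀ t, Un (V t)) (hl : ∀ t, t ≤ l t)
    (hD : ∀ t, Dg blk (l t) (V t) ⊆ Dg blk (l (t + 1)) (V (t + 1))) :
    ∃ A : Masa M, (∀ t, ∀ x ∈ Dg blk (l t) (V t), x ∈ A.1) ∧
      ∀ a ∈ A.1, ‖a‖ ≤ 1 → ∀ ε : ℝ, 0 < ε → ∃ N, ∀ t, N ≤ t →
        ∃ d ∈ Dg blk (l t) (V t), ‖d‖ ≤ 1 ∧ ‖(a - d) Ω‖ < ε := by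
  set D : Set (H →L[ℂ] H) := {x | ∃ t, x ∈ Dg blk (l t) (V t)} with hDdef
  have hDM : ∀ d ∈ D, d ∈ M := by
    rintro d ⟨t, e, rfl⟩
    exact S.mem _ _ _
  have hDs : ∀ d ∈ D, star d ∈ D := by
    rintro d ⟨t, ht⟩
    exact ⟨t, bstar_star ht⟩
  have hDc : ∀ d ∈ D, ∀ d' ∈ D, d * d' = d' * d := by
    rintro d ⟨t, ht⟩ d' ⟨t', ht'⟩
    exact bstar_comm (hV (max t t')) (bstar_mono l V hD t _ (le_max_left _ _) ht)
      (bstar_mono l V hD t' _ (le_max_right _ _) ht')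
  obtain ⟨A, hA, hA2⟩ := masa_of M D hDM hDs hDc (fun x hx y hy hcx hcy =>
    bstar_ab S l V hV hl x y hx hy (fun t d hd => hcx d ⟨t, hd⟩) (fun t d hd => hcy d ⟨t, hd⟩))
  refine ⟨⟨A, hA⟩, ?_, ?_⟩
  · intro t x hx
    exact (hA2 x).2 ⟨hDM x ⟨t, hx⟩, fun d hd => hDc x ⟨t, hx⟩ d hd⟩
  · intro a ha ha1 ε hε
    obtain ⟨haM, hac⟩ := (hA2 a).1 ha
    obtain ⟨N, hN⟩ := bstar_approx S l V hV hl a haM (fun t d hd => hac d ⟨t, hd⟩) ε hε
    refine ⟨N, fun t ht => ?_⟩
    obtain ⟨d, hd, hd1, hd2⟩ := hN t ht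
    exact ⟨d, hd, hd1.trans ha1, hd2⟩



theorem simple_approx_mem (B : VonNeumannAlgebra H) (z : H →L[ℂ] H)
    (h : ∀ y ∈ B.commutant, y * z = z * y) : z ∈ B := by
  rw [← VonNeumannAlgebra.commutant_commutant B, VonNeumannAlgebra.mem_commutant_iff]
  exact h

theorem simple_approx_proj_comm (K : Submodule ℂ H) [K.HasOrthogonalProjection] (y : H →L[ℂ] H)
    (h1 : ∀ ξ ∈ K, y ξ ∈ K) (h2 : ∀ ξ ∈ K, (star y) ξ ∈ K) :
    y * K.starProjection = K.starProjection * y := by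
  have key : ∀ y : H →L[ℂ] H, (∀ ξ ∈ K, y ξ ∈ K) →
      K.starProjection * y * K.starProjection = y * K.starProjection := by
    intro y hy
    ext ξ
    have h3 : K.starProjection ξ ∈ K := Submodule.starProjection_apply_mem _ _
    show K.starProjection (y (K.starProjection ξ)) = y (K.starProjection ξ)
    exact Submodule.starProjection_eq_self_iff.2 (hy _ h3)
  have hs : star K.starProjection = K.starProjection := isSelfAdjoint_starProjection K
  have e1 := key y h1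
  have e2 := congrArg star (key (star y) h2)
  simp only [star_mul, star_star, hs] at e2
  rw [← e1, mul_assoc, e2]

theorem simple_approx_L1 (B : VonNeumannAlgebra H) (h : H →L[ℂ] H) (hh : h ∈ B)
    (hsa : star h = h) (a : ℝ) :
    ∃ P ∈ B, star P = P ∧ P * P = P ∧ ∀ e : H →L[ℂ] H, star e = e →
      (e * P = e → 0 ≤ e * (h - (a : ℂ) • 1) * e) ∧
      (e * P = 0 → 0 ≤ e * ((a : ℂ) • 1 - h) * e) := by
  obtain ⟨x, hx⟩ : ∃ x : H →L[ℂ] H, x = h - (a : ℂ) • 1 := ⟨_, rfl⟩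
  have hxsa : IsSelfAdjoint x := by
    rw [hx]
    show star (h - (a : ℂ) • 1) = h - (a : ℂ) • 1
    rw [star_sub, hsa, star_smul, star_one]
    simp
  have hxB : x ∈ B := by
    rw [hx]
    exact sub_mem hh (B.toStarSubalgebra.smul_mem (one_mem _) _)
  have hcomm : ∀ y ∈ B.commutant, Commute x y := by
    intro y hy
    exact VonNeumannAlgebra.mem_commutant_iff.1 hy x hxB
  have hf0 : 0 ≤ x⁺ := CFC.posPart_nonneg x
  have hg0 : 0 ≤ x⁻ := CFC.negPart_nonneg x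
  have hfs : star x⁺ = x⁺ := (IsSelfAdjoint.of_nonneg hf0)
  have hgs : star x⁻ = x⁻ := (IsSelfAdjoint.of_nonneg hg0)
  have hgf : x⁻ * x⁺ = 0 := CFC.negPart_mul_posPart x
  have hfg : x⁺ - x⁻ = x := CFC.posPart_sub_negPart x hxsa
  have hcf : ∀ y ∈ B.commutant, x⁺ * y = y * x⁺ := fun y hy => (hcomm y hy).cfcₙ_real _
  obtain ⟨K, hK⟩ : ∃ K : Submodule ℂ H, K = (LinearMap.range ((x⁺ : H →L[ℂ] H) : H →ₗ[ℂ] H)).topologicalClosure :=
    ⟨_, rfl⟩
  have hKc : IsClosed (K : Set H) := by rw [hK]; exact Submodule.isClosed_topologicalClosure _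
  haveI : CompleteSpace K := hKc.completeSpace_coe
  have hinv : ∀ y : H →L[ℂ] H, x⁺ * y = y * x⁺ → ∀ ξ ∈ K, y ξ ∈ K := by
    intro y hy ξ hξ
    rw [hK] at hξ ⊢
    have h1 : (LinearMap.range ((x⁺ : H →L[ℂ] H) : H →ₗ[ℂ] H)).topologicalClosure ≤
        ((LinearMap.range ((x⁺ : H →L[ℂ] H) : H →ₗ[ℂ] H)).topologicalClosure).comap (y : H →ₗ[ℂ] H) := by
      refine Submodule.topologicalClosure_minimal _ ?_ ?_
      · rintro _ ⟨η, rfl⟩
        refine Submodule.le_topologicalClosure _ ⟨y η, ?_⟩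
        exact DFunLike.congr_fun hy η
      · exact (Submodule.isClosed_topologicalClosure _).preimage y.continuous
    exact h1 hξ
  have hPB : K.starProjection ∈ B := by
    apply simple_approx_mem
    intro y hy
    exact simple_approx_proj_comm K y (hinv y (hcf y hy)) (hinv _ (hcf _ (star_mem hy)))
  have hs : star K.starProjection = K.starProjection := isSelfAdjoint_starProjection K
  have hPf : K.starProjection * x⁺ = x⁺ := by
    ext ξ
    show K.starProjection (x⁺ ξ) = x⁺ ξ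
    refine Submodule.starProjection_eq_self_iff.2 ?_
    rw [hK]
    exact Submodule.le_topologicalClosure _ ⟨ξ, rfl⟩
  have hgP : x⁻ * K.starProjection = 0 := by
    have h1 : K ≤ LinearMap.ker ((x⁻ : H →L[ℂ] H) : H →ₗ[ℂ] H) := by
      rw [hK]
      refine Submodule.topologicalClosure_minimal _ ?_ ?_
      · rintro _ ⟨η, rfl⟩
        exact DFunLike.congr_fun hgf η
      · exact (isClosed_singleton (x := (0 : H))).preimage (x⁻ : H →L[ℂ] H).continuous
    ext ξ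
    exact h1 (Submodule.starProjection_apply_mem _ _)
  have hPg : K.starProjection * x⁻ = 0 := by
    have := congrArg star hgP
    rwa [star_mul, hs, hgs, star_zero] at this
  refine ⟨K.starProjection, hPB, hs, K.isIdempotentElem_starProjection, fun e he => ⟨fun heP => ?_,
    fun heP => ?_⟩⟩
  · rw [← hx, ← hfg]
    have e1 : e * (x⁺ - x⁻) * e = star e * x⁺ * e := by
      rw [he, mul_sub, sub_mul]
      have : e * x⁻ = 0 := by
        rw [← heP, mul_assoc, hPg, mul_zero]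
      rw [this, zero_mul, sub_zero]
    rw [e1]
    exact star_left_conjugate_nonneg hf0 e
  · have e0 : (a : ℂ) • 1 - h = x⁻ - x⁺ := by
      rw [← neg_sub x⁺, hfg, hx]; abel
    rw [e0]
    have e1 : e * (x⁻ - x⁺) * e = star e * x⁻ * e := by
      rw [he, mul_sub, sub_mul]
      have : e * x⁺ = 0 := by
        rw [← hPf, ← mul_assoc, heP, zero_mul]
      rw [this, zero_mul, sub_zero]
    rw [e1]
    exact star_left_conjugate_nonneg hg0 e

theorem simple_approx_norm1 (e : H →L[ℂ] H) (he : star e = e) (hee : e * e = e) : ‖e‖ ≤ 1 := by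
  have h1 : ‖star e * e‖ = ‖e‖ * ‖e‖ := CStarRing.norm_star_mul_self
  rw [he, hee] at h1
  by_contra hcon
  push Not at hcon
  nlinarith

/-- norm estimate from the two order estimates -/
theorem simple_approx_L3 (h e : H →L[ℂ] H) (he : star e = e) (hee : e * e = e)
    (hc : e * h = h * e) (c δ : ℝ) (hδ : 0 ≤ δ) (h1 : 0 ≤ e * (h - (c : ℂ) • 1) * e)
    (h2 : 0 ≤ e * (((c + δ : ℝ) : ℂ) • 1 - h) * e) : ‖(h - (c : ℂ) • 1) * e‖ ≤ δ := by
  have e1 : e * (h - (c : ℂ) • 1) * e = (h - (c : ℂ) • 1) * e := by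
    rw [mul_sub, hc, mul_smul_comm, mul_one, sub_mul, mul_assoc, hee, smul_mul_assoc, hee,
      sub_mul, smul_mul_assoc, one_mul]
  rw [← e1]
  have e2 : e * (h - (c : ℂ) • 1) * e ≤ ((δ : ℝ) : ℂ) • e := by
    rw [← sub_nonneg]
    have e3 : ((δ : ℝ) : ℂ) • e - e * (h - (c : ℂ) • 1) * e = e * (((c + δ : ℝ) : ℂ) • 1 - h) * e := by
      simp only [mul_sub, sub_mul, mul_smul_comm, mul_one, smul_mul_assoc, hee]
      push_cast
      module
    rw [e3]
    exact h2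
  refine (CStarAlgebra.norm_le_norm_of_nonneg_of_le h1 e2).trans ?_
  rw [norm_smul, Complex.norm_real, Real.norm_of_nonneg hδ]
  exact mul_le_of_le_one_right hδ (simple_approx_norm1 e he hee)

/-- `-1 ≤ h ≤ 1` for self-adjoint contractions -/
theorem simple_approx_bd (h : H →L[ℂ] H) (hsa : star h = h) (hn : ‖h‖ ≤ 1) :
    0 ≤ h - (((-1 : ℝ) : ℂ)) • 1 ∧ 0 ≤ (((1 : ℝ) : ℂ)) • 1 - h := by
  have hsym : (h : H →ₗ[ℂ] H).IsSymmetric := by
    intro x y
    have := ContinuousLinearMap.adjoint_inner_left h y x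
    rw [← ContinuousLinearMap.star_eq_adjoint, hsa] at this
    exact this
  have him : ∀ x : H, (RCLike.re ⟪h x, x⟫_ℂ : ℂ) = ⟪h x, x⟫_ℂ := by
    intro x
    exact hsym.coe_re_inner_apply_self x
  have hb : ∀ x : H, |RCLike.re ⟪h x, x⟫_ℂ| ≤ ‖x‖ ^ 2 := by
    intro x
    calc |RCLike.re ⟪h x, x⟫_ℂ| ≤ ‖⟪h x, x⟫_ℂ‖ := RCLike.abs_re_le_norm _
      _ ≤ ‖h x‖ * ‖x‖ := norm_inner_le_norm _ _
      _ ≤ (1 * ‖x‖) * ‖x‖ := by
        gcongr
        exact (h.le_opNorm x).trans (mul_le_mul_of_nonneg_right hn (norm_nonneg _))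
      _ = ‖x‖ ^ 2 := by ring
  have hxx : ∀ x : H, ⟪x, x⟫_ℂ = ((‖x‖ ^ 2 : ℝ) : ℂ) := by
    intro x
    rw [inner_self_eq_norm_sq_to_K]
    norm_cast
  constructor
  · rw [ContinuousLinearMap.nonneg_iff_isPositive, ContinuousLinearMap.isPositive_iff_complex]
    intro x
    have e : ⟪(h - (((-1 : ℝ) : ℂ)) • (1 : H →L[ℂ] H)) x, x⟫_ℂ =
        ((RCLike.re ⟪h x, x⟫_ℂ + ‖x‖ ^ 2 : ℝ) : ℂ) := by
      have : (h - (((-1 : ℝ) : ℂ)) • (1 : H →L[ℂ] H)) x = h x + x := by simp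
      rw [this, inner_add_left, hxx, ← him]
      norm_cast
    rw [e]
    have h3 := neg_le_of_abs_le (hb x)
    constructor
    · rw [RCLike.re_to_complex, Complex.ofReal_re]
    · simp only [RCLike.re_to_complex, Complex.ofReal_re]
      simp only [RCLike.re_to_complex] at h3
      linarith
  · rw [ContinuousLinearMap.nonneg_iff_isPositive, ContinuousLinearMap.isPositive_iff_complex]
    intro x
    have e : ⟪((((1 : ℝ) : ℂ)) • (1 : H →L[ℂ] H) - h) x, x⟫_ℂ =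
        ((‖x‖ ^ 2 - RCLike.re ⟪h x, x⟫_ℂ : ℝ) : ℂ) := by
      have : ((((1 : ℝ) : ℂ)) • (1 : H →L[ℂ] H) - h) x = x - h x := by simp
      rw [this, inner_sub_left, hxx, ← him]
      norm_cast
    rw [e]
    have h3 := le_of_abs_le (hb x)
    constructor
    · rw [RCLike.re_to_complex, Complex.ofReal_re]
    · simp only [RCLike.re_to_complex, Complex.ofReal_re]
      simp only [RCLike.re_to_complex] at h3
      linarith

theorem simple_approx_pos1 (r : ℝ) (hr : 0 ≤ r) : 0 ≤ ((r : ℝ) : ℂ) • (1 : H →L[ℂ] H) := by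
  have h1 := star_mul_self_nonneg (((Real.sqrt r : ℝ) : ℂ) • (1 : H →L[ℂ] H))
  have h2 : star (((Real.sqrt r : ℝ) : ℂ) • (1 : H →L[ℂ] H)) * (((Real.sqrt r : ℝ) : ℂ) • (1 : H →L[ℂ] H))
      = ((r : ℝ) : ℂ) • (1 : H →L[ℂ] H) := by
    rw [star_smul, star_one, smul_mul_smul_comm, one_mul]
    congr 1
    simp only [Complex.star_def, Complex.conj_ofReal]
    rw [← Complex.ofReal_mul, Real.mul_self_sqrt hr]
  rwa [h2] at h1

theorem simple_approx_L2 (B : VonNeumannAlgebra H) (hB : ∀ x ∈ B, ∀ y ∈ B, x * y = y * x)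
    (h : H →L[ℂ] H) (hh : h ∈ B) (hsa : star h = h) (hn : ‖h‖ ≤ 1) (δ : ℝ) (hδ : 0 < δ) :
    ∃ QS : Finset (H →L[ℂ] H), (∀ P ∈ QS, P ∈ B ∧ star P = P ∧ P * P = P) ∧
      ∀ e ∈ B, star e = e → e * e = e → (∀ P ∈ QS, e * P = e ∨ e * P = 0) →
        ∃ c : ℝ, |c| ≤ 1 ∧ ‖(h - (c : ℂ) • 1) * e‖ ≤ δ := by
  classical
  obtain ⟨N, hN⟩ := exists_nat_gt (2 / δ)
  have hN0 : (0 : ℝ) < N := (by positivity : (0 : ℝ) < 2 / δ).trans hN
  have hNd : 2 / (N : ℝ) ≤ δ := by
    rw [div_le_iff₀ hN0]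
    rw [div_lt_iff₀ hδ] at hN
    linarith
  choose P hPB hPs hPP hPe using fun a : ℝ => simple_approx_L1 B h hh hsa a
  obtain ⟨a, ha⟩ : ∃ a : ℕ → ℝ, a = fun j : ℕ => (-1 : ℝ) + 2 * (j : ℝ) / (N : ℝ) := ⟨_, rfl⟩
  refine ⟨(Finset.range (N + 1)).image (fun j => P (a j)), ?_, ?_⟩
  · intro Q hQ
    obtain ⟨j, -, rfl⟩ := Finset.mem_image.1 hQ
    exact ⟨hPB _, hPs _, hPP _⟩
  · intro e heB hes hee hdich
    have hbd := simple_approx_bd h hsa hn
    have claim : ∀ k : ℕ, k ≤ N → (∃ c : ℝ, |c| ≤ 1 ∧ 0 ≤ e * (h - (c : ℂ) • 1) * e ∧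
        0 ≤ e * (((c + 2 / N : ℝ) : ℂ) • 1 - h) * e) ∨ 0 ≤ e * (h - ((a k : ℝ) : ℂ) • 1) * e := by
      intro k
      induction k with
      | zero =>
        intro _
        right
        have h1 : a 0 = -1 := by rw [ha]; simp
        rw [h1]
        have h2 := star_left_conjugate_nonneg hbd.1 e
        rwa [hes] at h2
      | succ k ih =>
        intro hk
        rcases ih (by omega) with h1 | h1
        · exact Or.inl h1
        · rcases hdich (P (a (k + 1))) (Finset.mem_image.2 ⟨k + 1, Finset.mem_range.2 (by omega), rfl⟩)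
            with h2 | h2
          · exact Or.inr ((hPe _ e hes).1 h2)
          · left
            refine ⟨a k, ?_, h1, ?_⟩
            · have hkN : (k : ℝ) ≤ N := by exact_mod_cast (by omega : k ≤ N)
              have hk0 : (0 : ℝ) ≤ k := Nat.cast_nonneg k
              have h3 : 2 * (k : ℝ) / N ≤ 2 := by
                rw [div_le_iff₀ hN0]; linarith
              have h4 : 0 ≤ 2 * (k : ℝ) / N := by positivity
              rw [ha, abs_le]
              constructor <;> simp only <;> linarith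
            · have h3 : a k + 2 / N = a (k + 1) := by
                rw [ha]; push_cast; ring
              rw [h3]
              exact (hPe _ e hes).2 h2
    have hcomm : e * h = h * e := hB e heB h hh
    rcases claim N le_rfl with ⟨c, hc1, hc2, hc3⟩ | h1
    · exact ⟨c, hc1, (simple_approx_L3 h e hes hee hcomm c (2 / N) (by positivity) hc2 hc3).trans hNd⟩
    · have h2 : a N = 1 := by
        rw [ha]; field_simp; ring
      rw [h2] at h1
      refine ⟨1, by simp, (simple_approx_L3 h e hes hee hcomm 1 (2 / N) (by positivity) h1 ?_).trans hNd⟩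
      have h3 : (((1 + 2 / N : ℝ) : ℂ) • (1 : H →L[ℂ] H) - h) =
          ((((1 : ℝ) : ℂ)) • 1 - h) + (((2 / N : ℝ)) : ℂ) • 1 := by
        push_cast
        module
      rw [h3]
      have h4 := star_left_conjugate_nonneg
        (add_nonneg hbd.2 (simple_approx_pos1 (H := H) (2 / (N : ℝ)) (by positivity))) e
      rwa [hes] at h4

theorem simple_approx_L4 (B : VonNeumannAlgebra H) (hB : ∀ x ∈ B, ∀ y ∈ B, x * y = y * x)
    (QS : Finset (H →L[ℂ] H)) (hQS : ∀ P ∈ QS, P ∈ B ∧ star P = P ∧ P * P = P) :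
    ∃ (ι : Type) (_ : Fintype ι) (_ : DecidableEq ι) (p : ι → (H →L[ℂ] H)), (∀ j, p j ∈ B) ∧
      (∀ j, star (p j) = p j) ∧ (∀ i j, p i * p j = if i = j then p i else 0) ∧ (∑ j, p j = 1) ∧
      ∀ j, ∀ P ∈ QS, p j * P = p j ∨ p j * P = 0 := by
  classical
  induction QS using Finset.induction_on with
  | empty =>
    refine ⟨Unit, inferInstance, inferInstance, fun _ => 1, fun _ => one_mem _, fun _ => star_one _,
      fun i j => by simp, by simp, fun j P hP => absurd hP (Finset.notMem_empty _)⟩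
  | @insert P QS hP ih =>
    obtain ⟨ι, i1, i2, p, hpB, hps, hpo, hp1, hpd⟩ := ih (fun Q hQ => hQS Q (Finset.mem_insert_of_mem hQ))
    obtain ⟨hPB, hPs, hPP⟩ := hQS P (Finset.mem_insert_self _ _)
    obtain ⟨q, hq⟩ : ∃ q : Bool → (H →L[ℂ] H), q = fun b => if b then P else 1 - P := ⟨_, rfl⟩
    have hq1 : q true = P := by rw [hq]; simp
    have hq2 : q false = 1 - P := by rw [hq]; simp
    have hqB : ∀ b, q b ∈ B := by
      intro b; cases b
      · rw [hq2]; exact sub_mem (one_mem _) hPB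
      · rw [hq1]; exact hPB
    have hqs : ∀ b, star (q b) = q b := by
      intro b; cases b
      · rw [hq2, star_sub, star_one, hPs]
      · rw [hq1, hPs]
    have hqo : ∀ b b', q b * q b' = if b = b' then q b else 0 := by
      intro b b'
      cases b <;> cases b' <;> simp [hq1, hq2, mul_sub, sub_mul, hPP]
    refine ⟨ι × Bool, inferInstance, inferInstance, fun z => p z.1 * q z.2, ?_, ?_, ?_, ?_, ?_⟩
    · intro z; exact mul_mem (hpB _) (hqB _)
    · intro z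
      rw [star_mul, hps, hqs, hB _ (hqB _) _ (hpB _)]
    · rintro ⟨i, b⟩ ⟨j, b'⟩
      have e1 : p i * q b * (p j * q b') = (p i * p j) * (q b * q b') := by
        rw [mul_assoc, ← mul_assoc (q b), hB _ (hqB b) _ (hpB j)]
        simp only [mul_assoc]
      dsimp only
      rw [e1, hpo, hqo]
      by_cases h1 : i = j
      · by_cases h2 : b = b'
        · simp [h1, h2]
        · simp [h2]
      · simp [h1]
    · rw [Fintype.sum_prod_type]
      simp only [Fintype.sum_bool, hq1, hq2]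
      have : ∀ i, p i * P + p i * (1 - P) = p i := by
        intro i; rw [mul_sub, mul_one]; abel
      simp only [this]
      exact hp1
    · rintro ⟨i, b⟩ Q hQ
      dsimp only
      rw [Finset.mem_insert] at hQ
      rcases hQ with rfl | hQ
      · cases b
        · right
          rw [hq2, mul_assoc, sub_mul, one_mul, hPP, sub_self, mul_zero]
        · left
          rw [hq1, mul_assoc, hPP]
      · have hQB := (hQS Q (Finset.mem_insert_of_mem hQ)).1
        have e1 : p i * q b * Q = p i * Q * q b := by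
          rw [mul_assoc, hB _ (hqB b) _ hQB, ← mul_assoc]
        rw [e1]
        rcases hpd i Q hQ with h1 | h1
        · left; rw [h1]
        · right; rw [h1, zero_mul]

theorem simple_approx_pyth {ι : Type} [Fintype ι] (v : ι → H)
    (hv : ∀ i j, i ≠ j → ⟪v i, v j⟫_ℂ = 0) : ‖∑ j, v j‖ ^ 2 = ∑ j, ‖v j‖ ^ 2 := by
  classical
  have h1 : ((‖∑ j, v j‖ ^ 2 : ℝ) : ℂ) = ((∑ j, ‖v j‖ ^ 2 : ℝ) : ℂ) := by
    have e1 : ∀ x : H, ((‖x‖ ^ 2 : ℝ) : ℂ) = ⟪x, x⟫_ℂ := by
      intro x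
      rw [inner_self_eq_norm_sq_to_K]
      norm_cast
    rw [e1, Complex.ofReal_sum, sum_inner]
    refine Finset.sum_congr rfl fun i _ => ?_
    rw [e1, inner_sum, Finset.sum_eq_single i]
    · intro j _ hj; exact hv i j hj.symm
    · intro hi; exact absurd (Finset.mem_univ _) hi
  exact Complex.ofReal_injective h1

theorem simple_approx_L6 {ι : Type} [Fintype ι] [DecidableEq ι] (p : ι → (H →L[ℂ] H))
    (hs : ∀ j, star (p j) = p j) (ho : ∀ i j, p i * p j = if i = j then p i else 0)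
    (h1 : ∑ j, p j = 1) (t : H →L[ℂ] H) (ht : ∀ j, p j * t = t * p j) (c : ι → ℂ) (δ : ℝ)
    (hδ : 0 ≤ δ) (hc : ∀ j, ‖(t - c j • 1) * p j‖ ≤ δ) : ‖t - ∑ j, c j • p j‖ ≤ δ := by
  refine ContinuousLinearMap.opNorm_le_bound _ hδ fun ξ => ?_
  have horth : ∀ i j, i ≠ j → ∀ x y : H, ⟪p i x, p j y⟫_ℂ = 0 := by
    intro i j hij x y
    have e1 : ⟪p i x, p j y⟫_ℂ = ⟪x, (star (p i)) (p j y)⟫_ℂ := by
      rw [ContinuousLinearMap.star_eq_adjoint, ContinuousLinearMap.adjoint_inner_right]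
    have e2 : (star (p i)) (p j y) = (p i * p j) y := by rw [hs]; rfl
    rw [e1, e2, ho, if_neg hij]
    simp
  have hsum : ∑ j, p j ξ = ξ := by
    have := DFunLike.congr_fun h1 ξ
    simpa using this
  have hv : (t - ∑ j, c j • p j) ξ = ∑ j, ((t - c j • 1) * p j) ξ := by
    have e1 : t - ∑ j, c j • p j = ∑ j, ((t - c j • 1) * p j) := by
      simp only [sub_mul, smul_mul_assoc, one_mul]
      rw [Finset.sum_sub_distrib, ← Finset.mul_sum, h1, mul_one]
    rw [e1]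
    simp
  have hvp : ∀ j, ((t - c j • 1) * p j) ξ = p j (((t - c j • 1) * p j) ξ) := by
    intro j
    have e1 : (t - c j • 1) * p j = p j * ((t - c j • 1) * p j) := by
      have e2 : p j * p j = p j := by rw [ho, if_pos rfl]
      rw [← mul_assoc, mul_sub, mul_smul_comm, mul_one, ht, sub_mul, sub_mul, mul_assoc, e2, smul_mul_assoc,
        smul_mul_assoc, one_mul, e2]
    exact DFunLike.congr_fun e1 ξ
  have hvn : ∀ j, ‖((t - c j • 1) * p j) ξ‖ ≤ δ * ‖p j ξ‖ := by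
    intro j
    have e1 : (t - c j • 1) * p j = ((t - c j • 1) * p j) * p j := by
      rw [mul_assoc, ho, if_pos rfl]
    have e2 : ((t - c j • 1) * p j) ξ = ((t - c j • 1) * p j) (p j ξ) := by
      conv_lhs => rw [e1]
      rfl
    rw [e2]
    exact (ContinuousLinearMap.le_opNorm _ _).trans (mul_le_mul_of_nonneg_right (hc j) (norm_nonneg _))
  have h2 : ‖(t - ∑ j, c j • p j) ξ‖ ^ 2 ≤ (δ * ‖ξ‖) ^ 2 := by
    rw [hv, simple_approx_pyth]
    · calc ∑ j, ‖((t - c j • 1) * p j) ξ‖ ^ 2 ≤ ∑ j, (δ * ‖p j ξ‖) ^ 2 :=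
          Finset.sum_le_sum fun j _ => pow_le_pow_left₀ (norm_nonneg _) (hvn j) 2
        _ = δ ^ 2 * ∑ j, ‖p j ξ‖ ^ 2 := by
          rw [Finset.mul_sum]
          exact Finset.sum_congr rfl fun j _ => by ring
        _ = (δ * ‖ξ‖) ^ 2 := by
          rw [← simple_approx_pyth (fun j => p j ξ) (fun i j hij => horth i j hij ξ ξ), hsum]
          ring
    · intro i j hij
      rw [hvp i, hvp j]
      exact horth i j hij _ _
  exact (sq_le_sq₀ (norm_nonneg _) (by positivity)).1 h2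

theorem simple_approx_L5 (B : VonNeumannAlgebra H) (hB : ∀ x ∈ B, ∀ y ∈ B, x * y = y * x)
    (t : H →L[ℂ] H) (htB : t ∈ B) (htn : ‖t‖ ≤ 1) (ε : ℝ) (hε : 0 < ε) :
    ∃ QS : Finset (H →L[ℂ] H), (∀ P ∈ QS, P ∈ B ∧ star P = P ∧ P * P = P) ∧
      ∀ e ∈ B, star e = e → e * e = e → (∀ P ∈ QS, e * P = e ∨ e * P = 0) →
        ∃ c : ℂ, ‖c‖ ≤ 1 ∧ ‖(t - c • 1) * e‖ ≤ ε := by
  classical
  obtain ⟨h, hh⟩ : ∃ h : H →L[ℂ] H, h = (1 / 2 : ℂ) • (t + star t) := ⟨_, rfl⟩
  obtain ⟨k, hk⟩ : ∃ k : H →L[ℂ] H, k = (-(Complex.I) / 2 : ℂ) • (t - star t) := ⟨_, rfl⟩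
  have hhB : h ∈ B := by
    rw [hh]; exact B.toStarSubalgebra.smul_mem (add_mem htB (star_mem htB)) _
  have hkB : k ∈ B := by
    rw [hk]; exact B.toStarSubalgebra.smul_mem (sub_mem htB (star_mem htB)) _
  have hhs : star h = h := by
    rw [hh, star_smul, star_add, star_star, add_comm]
    congr 1
    simp
  have hks : star k = k := by
    rw [hk, star_smul, star_sub, star_star]
    have e1 : star (-(Complex.I) / 2 : ℂ) = Complex.I / 2 := by
      simp
    rw [e1]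
    module
  have hhn : ‖h‖ ≤ 1 := by
    rw [hh, norm_smul]
    have e1 : ‖(1 / 2 : ℂ)‖ = 1 / 2 := by norm_num
    rw [e1]
    have e2 := norm_add_le t (star t)
    rw [norm_star] at e2
    linarith
  have hkn : ‖k‖ ≤ 1 := by
    rw [hk, norm_smul]
    have e1 : ‖(-(Complex.I) / 2 : ℂ)‖ = 1 / 2 := by simp
    rw [e1]
    have e2 := norm_sub_le t (star t)
    rw [norm_star] at e2
    linarith
  have htk : t = h + Complex.I • k := by
    rw [hh, hk, smul_smul]
    have e1 : Complex.I * (-Complex.I / 2) = 1 / 2 := by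
      linear_combination (-1 / 2) * Complex.I_mul_I
    rw [e1]
    module
  obtain ⟨QS1, hP1, hP1'⟩ := simple_approx_L2 B hB h hhB hhs hhn (ε / 4) (by positivity)
  obtain ⟨QS2, hP2, hP2'⟩ := simple_approx_L2 B hB k hkB hks hkn (ε / 4) (by positivity)
  refine ⟨QS1 ∪ QS2, ?_, ?_⟩
  · intro P hP
    rcases Finset.mem_union.1 hP with h1 | h1
    · exact hP1 P h1
    · exact hP2 P h1
  · intro e heB hes hee hd
    obtain ⟨c1, -, hc1⟩ := hP1' e heB hes hee (fun P hP => hd P (Finset.mem_union_left _ hP))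
    obtain ⟨c2, -, hc2⟩ := hP2' e heB hes hee (fun P hP => hd P (Finset.mem_union_right _ hP))
    by_cases he0 : e = 0
    · refine ⟨0, by simp, ?_⟩
      rw [he0, mul_zero, norm_zero]; exact hε.le
    · obtain ⟨c, hc⟩ : ∃ c : ℂ, c = (c1 : ℂ) + Complex.I * (c2 : ℂ) := ⟨_, rfl⟩
      have hne : ‖e‖ = 1 := by
        have h1 : ‖star e * e‖ = ‖e‖ * ‖e‖ := CStarRing.norm_star_mul_self
        rw [hes, hee] at h1
        have h2 : ‖e‖ ≠ 0 := norm_ne_zero_iff.2 he0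
        have h3 : ‖e‖ * 1 = ‖e‖ * ‖e‖ := by rw [mul_one]; exact h1
        exact (mul_left_cancel₀ h2 h3).symm
      have hce : ‖(t - c • 1) * e‖ ≤ ε / 2 := by
        have e1 : (t - c • 1) * e = (h - (c1 : ℂ) • 1) * e + Complex.I • ((k - (c2 : ℂ) • 1) * e) := by
          rw [hc]
          conv_lhs => rw [htk]
          simp only [sub_mul, add_mul, smul_mul_assoc, one_mul, smul_sub, smul_smul]
          module
        rw [e1]
        refine (norm_add_le _ _).trans ?_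
        rw [norm_smul, Complex.norm_I, one_mul]
        linarith
      have hcn : ‖c‖ ≤ 1 + ε / 2 := by
        have e1 : ‖c • e‖ = ‖c‖ := by rw [norm_smul, hne, mul_one]
        rw [← e1]
        have e2 : c • e = t * e - (t - c • 1) * e := by
          rw [sub_mul, smul_mul_assoc, one_mul]; abel
        rw [e2]
        refine (norm_sub_le _ _).trans (add_le_add ?_ hce)
        refine (norm_mul_le _ _).trans ?_
        rw [hne, mul_one]
        exact htn
      obtain ⟨s, hs⟩ : ∃ s : ℝ, s = 1 + ε / 2 := ⟨_, rfl⟩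
      have hs0 : 0 < s := by rw [hs]; positivity
      rw [← hs] at hcn
      refine ⟨((s⁻¹ : ℝ) : ℂ) * c, ?_, ?_⟩
      · rw [norm_mul, Complex.norm_real, Real.norm_of_nonneg (by positivity), inv_mul_le_iff₀ hs0, mul_one]
        exact hcn
      · have e1 : (t - (((s⁻¹ : ℝ) : ℂ) * c) • 1) * e = (t - c • 1) * e + (((1 - s⁻¹ : ℝ) : ℂ) * c) • e := by
          simp only [sub_mul, smul_mul_assoc, one_mul]
          push_cast
          module
        rw [e1]
        refine (norm_add_le _ _).trans ?_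
        have e2 : ‖(((1 - s⁻¹ : ℝ) : ℂ) * c) • e‖ ≤ ε / 2 := by
          have h5 : 0 ≤ 1 - s⁻¹ := by
            rw [sub_nonneg]
            exact inv_le_one_of_one_le₀ (by rw [hs]; linarith)
          rw [norm_smul, hne, mul_one, norm_mul, Complex.norm_real, Real.norm_of_nonneg h5]
          calc (1 - s⁻¹) * ‖c‖ ≤ (1 - s⁻¹) * s := mul_le_mul_of_nonneg_left hcn h5
            _ = s - 1 := by field_simp
            _ = ε / 2 := by rw [hs]; ring
        linarith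

/-- simple approximation in abelian von Neumann algebras -/
theorem simple_approx (B : VonNeumannAlgebra H) (hB : ∀ x ∈ B, ∀ y ∈ B, x * y = y * x)
    (T : Finset (H →L[ℂ] H)) (hT : ∀ t ∈ T, t ∈ B ∧ ‖t‖ ≤ 1) (ε : ℝ) (hε : 0 < ε) :
    ∃ (r : ℕ) (p : Fin r → (H →L[ℂ] H)), (∀ j, p j ∈ B) ∧ (∀ j, star (p j) = p j) ∧
      (∀ i j, p i * p j = if i = j then p i else 0) ∧ (∑ j, p j = 1) ∧
      ∀ t ∈ T, ∃ c : Fin r → ℂ, (∀ j, ‖c j‖ ≤ 1) ∧ ‖t - ∑ j, c j • p j‖ ≤ ε := by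
  classical
  have h1 : ∀ t : H →L[ℂ] H, ∃ QS : Finset (H →L[ℂ] H), t ∈ T →
      (∀ P ∈ QS, P ∈ B ∧ star P = P ∧ P * P = P) ∧
      ∀ e ∈ B, star e = e → e * e = e → (∀ P ∈ QS, e * P = e ∨ e * P = 0) →
        ∃ c : ℂ, ‖c‖ ≤ 1 ∧ ‖(t - c • 1) * e‖ ≤ ε := by
    intro t
    by_cases ht : t ∈ T
    · obtain ⟨QS, h2⟩ := simple_approx_L5 B hB t (hT t ht).1 (hT t ht).2 ε hε
      exact ⟨QS, fun _ => h2⟩
    · exact ⟨∅, fun h => absurd h ht⟩
  choose QS hQS using h1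
  obtain ⟨ι, i1, i2, p, hpB, hps, hpo, hp1, hpd⟩ := simple_approx_L4 B hB (T.biUnion QS) (by
    intro P hP
    obtain ⟨t, ht, hPt⟩ := Finset.mem_biUnion.1 hP
    exact (hQS t ht).1 P hPt)
  let σ := Fintype.equivFin ι
  refine ⟨Fintype.card ι, fun j => p (σ.symm j), fun j => hpB _, fun j => hps _, ?_, ?_, ?_⟩
  · intro i j
    rw [hpo]
    simp [σ.symm.injective.eq_iff]
  · rw [Equiv.sum_comp σ.symm p, hp1]
  · intro t ht
    have h3 : ∀ j, ∃ c : ℂ, ‖c‖ ≤ 1 ∧ ‖(t - c • 1) * p (σ.symm j)‖ ≤ ε := by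
      intro j
      refine (hQS t ht).2 _ (hpB _) (hps _) (by rw [hpo, if_pos rfl]) (fun P hP => ?_)
      exact hpd _ P (Finset.mem_biUnion.2 ⟨t, ht, hP⟩)
    choose c hc1 hc2 using h3
    refine ⟨c, hc1, ?_⟩
    refine simple_approx_L6 (fun j => p (σ.symm j)) (fun j => hps _) ?_ ?_ t
      (fun j => hB _ (hpB _) _ (hT t ht).1) c ε hε.le hc2
    · intro i j
      rw [hpo]
      simp [σ.symm.injective.eq_iff]
    · rw [Equiv.sum_comp σ.symm p, hp1]



theorem rounding_pyth {ι : Type} [Fintype ι] (v : ι → H)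
    (h : ∀ i j, i ≠ j → ⟪v i, v j⟫_ℂ = 0) (c : ι → ℂ) :
    ‖∑ i, c i • v i‖ ^ 2 = ∑ i, ‖c i‖ ^ 2 * ‖v i‖ ^ 2 := by
  classical
  have h1 : ((‖∑ i, c i • v i‖ ^ 2 : ℝ) : ℂ) = ((∑ i, ‖c i‖ ^ 2 * ‖v i‖ ^ 2 : ℝ) : ℂ) := by
    have h2 := inner_self_eq_norm_sq_to_K (𝕜 := ℂ) (∑ i, c i • v i)
    have h3 : ((‖∑ i, c i • v i‖ ^ 2 : ℝ) : ℂ) = ⟪∑ i, c i • v i, ∑ i, c i • v i⟫_ℂ := by
      rw [h2]
      push_cast
      rfl
    rw [h3, sum_inner, Complex.ofReal_sum]
    refine Finset.sum_congr rfl fun i _ => ?_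
    rw [inner_sum, Finset.sum_eq_single i]
    · rw [inner_smul_left, inner_smul_right, inner_self_eq_norm_sq_to_K, ← mul_assoc,
        Complex.conj_mul']
      push_cast
      rfl
    · intro j _ hj
      rw [inner_smul_left, inner_smul_right, h i j hj.symm, mul_zero, mul_zero]
    · intro hi
      exact absurd (Finset.mem_univ i) hi
  exact Complex.ofReal_injective h1

/-- the diagonal operators of a frame -/
noncomputable def roundingD (blk : ∀ _a k : ℕ, Matrix (X k) (X k) ℂ →⋆ₐ[ℂ] (H →L[ℂ] H)) (m : ℕ)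
    (v : Matrix (X m) (X m) ℂ) (d : X m → ℂ) : H →L[ℂ] H :=
  blk 0 m (v * Matrix.diagonal d * vᴴ)

theorem roundingD_mul (m : ℕ) (v : Matrix (X m) (X m) ℂ) (hv : Un v) (d d' : X m → ℂ) :
    roundingD blk m v d * roundingD blk m v d' = roundingD blk m v (fun i => d i * d' i) := by
  unfold roundingD
  rw [← map_mul]
  congr 1
  have h1 : v * Matrix.diagonal d * vᴴ * (v * Matrix.diagonal d' * vᴴ) =
      v * (Matrix.diagonal d * (vᴴ * v) * Matrix.diagonal d') * vᴴ := by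
    simp only [Matrix.mul_assoc]
  rw [h1, hv.1, Matrix.mul_one, Matrix.diagonal_mul_diagonal]

theorem roundingD_star (m : ℕ) (v : Matrix (X m) (X m) ℂ) (d : X m → ℂ) :
    star (roundingD blk m v d) = roundingD blk m v (fun i => star (d i)) := by
  unfold roundingD
  rw [← map_star]
  congr 1
  rw [Matrix.star_eq_conjTranspose, Matrix.conjTranspose_mul, Matrix.conjTranspose_mul,
    Matrix.conjTranspose_conjTranspose, Matrix.diagonal_conjTranspose, Matrix.mul_assoc]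
  rfl

theorem roundingD_one (m : ℕ) (v : Matrix (X m) (X m) ℂ) (hv : Un v) :
    roundingD blk m v (fun _ => 1) = 1 := by
  unfold roundingD
  have h1 : Matrix.diagonal (fun _ : X m => (1 : ℂ)) = 1 := Matrix.diagonal_one
  rw [h1, Matrix.mul_one, hv.2, map_one]

theorem roundingD_sum (m : ℕ) (v : Matrix (X m) (X m) ℂ) (d : X m → ℂ) :
    roundingD blk m v d = ∑ s, d s • roundingD blk m v (Pi.single s 1) := by
  unfold roundingD
  simp only [← map_smul]
  rw [← map_sum]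
  congr 1
  have h1 : Matrix.diagonal d = ∑ s, d s • Matrix.diagonal (Pi.single s (1 : ℂ)) := by
    ext i j
    rw [Matrix.sum_apply]
    by_cases hij : i = j
    · subst hij
      simp only [Matrix.diagonal_apply_eq, Matrix.smul_apply, smul_eq_mul]
      rw [Finset.sum_eq_single i]
      · simp
      · intro b _ hb
        rw [Pi.single_eq_of_ne hb.symm, mul_zero]
      · intro h
        exact absurd (Finset.mem_univ i) h
    · simp [Matrix.diagonal_apply_ne _ hij]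
  rw [h1, Matrix.mul_sum, Matrix.sum_mul]
  refine Finset.sum_congr rfl fun s _ => ?_
  rw [Matrix.mul_smul, Matrix.smul_mul]

theorem rounding_near (r : ℕ) (hr : 0 < r) (t : ℝ) :
    ∃ j : Fin r, ∀ l : Fin r, l ≠ j → 1 / 2 ≤ |((l : ℕ) : ℝ) - t| := by
  have hne : (Finset.univ : Finset (Fin r)).Nonempty := ⟨⟨0, hr⟩, Finset.mem_univ _⟩
  obtain ⟨j, -, hj⟩ := Finset.exists_min_image (Finset.univ : Finset (Fin r))
    (fun l => |((l : ℕ) : ℝ) - t|) hne
  refine ⟨j, fun l hl => ?_⟩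
  have h1 := hj l (Finset.mem_univ l)
  have h2 : (1 : ℝ) ≤ |((l : ℕ) : ℝ) - ((j : ℕ) : ℝ)| := by
    have h3 : ((l : ℕ) : ℤ) - ((j : ℕ) : ℤ) ≠ 0 := by
      intro h4
      apply hl
      apply Fin.ext
      omega
    have h5 : (1 : ℤ) ≤ |((l : ℕ) : ℤ) - ((j : ℕ) : ℤ)| := Int.one_le_abs h3
    exact_mod_cast h5
  have h3 : |((l : ℕ) : ℝ) - ((j : ℕ) : ℝ)| ≤ |((l : ℕ) : ℝ) - t| + |((j : ℕ) : ℝ) - t| := by
    have h4 : ((l : ℕ) : ℝ) - ((j : ℕ) : ℝ) = (((l : ℕ) : ℝ) - t) - (((j : ℕ) : ℝ) - t) := by ring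
    rw [h4]
    exact abs_sub _ _
  linarith

/-- rounding: a partition of unity of `M` is approximated by one in the blocks -/
theorem rounding (S : Sys M Ω blk) (r : ℕ) (p : Fin r → (H →L[ℂ] H)) (hpM : ∀ j, p j ∈ M)
    (hs : ∀ j, star (p j) = p j) (hp : ∀ i j, p i * p j = if i = j then p i else 0)
    (h1 : ∑ j, p j = 1) (ε : ℝ) (hε : 0 < ε) (n0 : ℕ) :
    ∃ (m : ℕ) (v : Matrix (X m) (X m) ℂ) (ρ : X m → Fin r), n0 ≤ m ∧ Un v ∧
      ∀ j, ‖(p j - blk 0 m (v * Matrix.diagonal (fun i => if ρ i = j then 1 else 0) * vᴴ)) Ω‖ < ε := by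
  classical
  have hr : 0 < r := by
    rcases Nat.eq_zero_or_pos r with h0 | h0
    · exfalso
      subst h0
      have h2 : (0 : H →L[ℂ] H) = 1 := by
        rw [← h1]
        simp
      have h3 : (0 : H →L[ℂ] H) Ω = (1 : H →L[ℂ] H) Ω := by rw [h2]
      have h4 : Ω = 0 := h3.symm
      have h5 := S.unit
      rw [h4, norm_zero] at h5
      exact zero_ne_one h5
    · exact h0
  have hsmul : ∀ (c : ℂ) (x : H →L[ℂ] H), x ∈ M → c • x ∈ M := fun c x hx =>
    M.toStarSubalgebra.smul_mem hx c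
  obtain ⟨h, hh⟩ : ∃ h : H →L[ℂ] H, h = ∑ l : Fin r, (((l : ℕ) : ℝ) : ℂ) • p l := ⟨_, rfl⟩
  have hM : h ∈ M := by
    rw [hh]
    exact sum_mem fun l _ => hsmul _ _ (hpM l)
  have hstar : star h = h := by
    rw [hh, star_sum]
    refine Finset.sum_congr rfl fun l _ => ?_
    rw [star_smul, hs l]
    congr 1
    exact Complex.conj_ofReal _
  obtain ⟨N, hN⟩ := cexp S h hM (ε / 2) (by positivity)
  obtain ⟨m, hmN, hmn⟩ : ∃ m, N ≤ m ∧ n0 ≤ m := ⟨max N n0, le_max_left _ _, le_max_right _ _⟩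
  obtain ⟨y, _, hy2, hy3, _⟩ := hN m hmN
  have hH : y.IsHermitian := hy3 hstar
  obtain ⟨v, μ, hv, hyv⟩ : ∃ (v : Matrix (X m) (X m) ℂ) (μ : X m → ℝ), Un v ∧
      y = v * Matrix.diagonal (fun i => ((μ i : ℝ) : ℂ)) * vᴴ := by
    refine ⟨(hH.eigenvectorUnitary : Matrix (X m) (X m) ℂ), hH.eigenvalues, ⟨?_, ?_⟩, ?_⟩
    · exact Unitary.coe_star_mul_self hH.eigenvectorUnitary
    · exact Unitary.coe_mul_star_self hH.eigenvectorUnitary
    · exact hH.spectral_theorem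
  choose ρ hρ using fun s : X m => rounding_near r hr (μ s)
  refine ⟨m, v, ρ, hmn, hv, ?_⟩
  -- the family
  have hDM : ∀ d : X m → ℂ, roundingD blk m v d ∈ M := fun d => S.mem _ _ _
  obtain ⟨e, he⟩ : ∃ e : X m → (H →L[ℂ] H), e = fun s => roundingD blk m v (Pi.single s 1) :=
    ⟨_, rfl⟩
  have heM : ∀ s, e s ∈ M := fun s => by rw [he]; exact hDM _
  have hee : ∀ s t, e s * e t = if s = t then e s else 0 := by
    intro s t
    rw [he]
    show roundingD blk m v (Pi.single s 1) * roundingD blk m v (Pi.single t 1) = _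
    rw [roundingD_mul m v hv]
    by_cases hst : s = t
    · subst hst
      rw [if_pos rfl]
      congr 1
      funext i
      by_cases hi : i = s
      · subst hi; simp
      · rw [Pi.single_eq_of_ne hi, mul_zero]
    · rw [if_neg hst]
      have h0 : (fun i : X m => (Pi.single s (1 : ℂ) : X m → ℂ) i * (Pi.single t (1 : ℂ) : X m → ℂ) i)
          = fun _ => 0 := by
        funext i
        by_cases hi : i = s
        · subst hi
          rw [Pi.single_eq_of_ne hst, mul_zero]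
        · rw [Pi.single_eq_of_ne hi, zero_mul]
      rw [h0]
      unfold roundingD
      have h2 : Matrix.diagonal (fun _ : X m => (0 : ℂ)) = 0 := Matrix.diagonal_zero
      rw [h2, Matrix.mul_zero, Matrix.zero_mul, map_zero]
  have hes : ∀ s, star (e s) = e s := by
    intro s
    rw [he]
    show star (roundingD blk m v (Pi.single s 1)) = _
    rw [roundingD_star]
    congr 1
    funext i
    by_cases hi : i = s
    · subst hi; simp
    · rw [Pi.single_eq_of_ne hi, star_zero]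
  have hsum : ∀ d : X m → ℂ, roundingD blk m v d = ∑ s, d s • e s := by
    intro d
    rw [he]
    exact roundingD_sum m v d
  have he1 : ∑ s, e s = 1 := by
    have h2 := hsum (fun _ => 1)
    rw [roundingD_one m v hv] at h2
    simpa using h2.symm
  -- the general identity
  have hid : ∀ (β : Fin r → ℂ) (α : X m → ℂ), (∑ l, β l • p l) - roundingD blk m v α =
      ∑ q : X m × Fin r, (β q.2 - α q.1) • (e q.1 * p q.2) := by
    intro β α
    rw [Fintype.sum_prod_type]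
    simp only [sub_smul]
    simp only [Finset.sum_sub_distrib]
    congr 1
    · calc (∑ l, β l • p l) = (∑ s, e s) * (∑ l, β l • p l) := by rw [he1, one_mul]
        _ = _ := by
          rw [Finset.sum_mul]
          refine Finset.sum_congr rfl fun s _ => ?_
          rw [Finset.mul_sum]
          refine Finset.sum_congr rfl fun l _ => ?_
          rw [mul_smul_comm]
    · calc roundingD blk m v α = (∑ s, α s • e s) * (∑ l, p l) := by rw [h1, mul_one, hsum]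
        _ = _ := by
          rw [Finset.sum_mul]
          refine Finset.sum_congr rfl fun s _ => ?_
          rw [Finset.mul_sum]
          refine Finset.sum_congr rfl fun l _ => ?_
          rw [smul_mul_assoc]
  have horth : ∀ q q' : X m × Fin r, q ≠ q' →
      ⟪(e q.1 * p q.2) Ω, (e q'.1 * p q'.2) Ω⟫_ℂ = 0 := by
    rintro ⟨s, l⟩ ⟨t, k⟩ hne
    show ⟪(e s) ((p l) Ω), (e t) ((p k) Ω)⟫_ℂ = 0
    have h2 : ⟪(e s) ((p l) Ω), (e t) ((p k) Ω)⟫_ℂ = ⟪(p l) Ω, (e s * e t) ((p k) Ω)⟫_ℂ := by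
      have h3 := ContinuousLinearMap.adjoint_inner_right (e s) ((p l) Ω) ((e t) ((p k) Ω))
      rw [← ContinuousLinearMap.star_eq_adjoint, hes] at h3
      exact h3.symm
    rw [h2, hee]
    by_cases hst : s = t
    · rw [if_pos hst]
      have hlk : k ≠ l := by
        intro hkl
        exact hne (by rw [hst, hkl])
      have h4 : ⟪(p l) Ω, (e s) ((p k) Ω)⟫_ℂ = ⟪Ω, (p l) ((e s * p k) Ω)⟫_ℂ := by
        have h3 := ContinuousLinearMap.adjoint_inner_right (p l) Ω ((e s) ((p k) Ω))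
        rw [← ContinuousLinearMap.star_eq_adjoint, hs] at h3
        exact h3.symm
      rw [h4, S.tr (p l) (hpM l) (e s * p k) (mul_mem (heM s) (hpM k))]
      have h5 : (e s * p k) ((p l) Ω) = (e s) ((p k * p l) Ω) := rfl
      rw [h5, hp, if_neg hlk]
      simp
    · rw [if_neg hst]
      simp
  have hpyth : ∀ (β : Fin r → ℂ) (α : X m → ℂ),
      ‖((∑ l, β l • p l) - roundingD blk m v α) Ω‖ ^ 2 =
      ∑ q : X m × Fin r, ‖β q.2 - α q.1‖ ^ 2 * ‖(e q.1 * p q.2) Ω‖ ^ 2 := by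
    intro β α
    rw [hid, ← rounding_pyth (fun q : X m × Fin r => (e q.1 * p q.2) Ω) horth]
    congr 2
    rw [ContinuousLinearMap.sum_apply]
    rfl
  intro j
  have hA := hpyth (fun l => (((l : ℕ) : ℝ) : ℂ)) (fun i => ((μ i : ℝ) : ℂ))
  have hB := hpyth (fun l => if l = j then 1 else 0) (fun i => if ρ i = j then 1 else 0)
  have hpj : (∑ l, (if l = j then (1 : ℂ) else 0) • p l) = p j := by
    rw [Finset.sum_eq_single j]
    · rw [if_pos rfl, one_smul]
    · intro l _ hl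
      rw [if_neg hl, zero_smul]
    · intro hj
      exact absurd (Finset.mem_univ j) hj
  rw [hpj] at hB
  have hyD : roundingD blk m v (fun i => ((μ i : ℝ) : ℂ)) = blk 0 m y := by
    rw [hyv]
    rfl
  rw [hyD, ← hh] at hA
  have hle : ‖(p j - roundingD blk m v (fun i => if ρ i = j then 1 else 0)) Ω‖ ^ 2 ≤
      4 * ‖(h - blk 0 m y) Ω‖ ^ 2 := by
    rw [hA, hB, Finset.mul_sum]
    refine Finset.sum_le_sum fun q _ => ?_
    rw [← mul_assoc]
    refine mul_le_mul_of_nonneg_right ?_ (sq_nonneg _)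
    obtain ⟨s, l⟩ := q
    show ‖(if l = j then (1 : ℂ) else 0) - (if ρ s = j then 1 else 0)‖ ^ 2 ≤
      4 * ‖(((l : ℕ) : ℝ) : ℂ) - ((μ s : ℝ) : ℂ)‖ ^ 2
    by_cases hl : l = ρ s
    · rw [hl, sub_self, norm_zero, zero_pow two_ne_zero]
      positivity
    · have h2 := hρ s l hl
      have h3 : ‖(((l : ℕ) : ℝ) : ℂ) - ((μ s : ℝ) : ℂ)‖ = |((l : ℕ) : ℝ) - μ s| := by
        rw [← Complex.ofReal_sub, Complex.norm_real, Real.norm_eq_abs]
      rw [h3]
      have h4 : ‖(if l = j then (1 : ℂ) else 0) - (if ρ s = j then 1 else 0)‖ ≤ 1 := by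
        split_ifs <;> simp
      have h5 : ‖(if l = j then (1 : ℂ) else 0) - (if ρ s = j then 1 else 0)‖ ^ 2 ≤ 1 :=
        pow_le_one₀ (norm_nonneg _) h4
      have h6 : (1 / 2 : ℝ) ^ 2 ≤ |((l : ℕ) : ℝ) - μ s| ^ 2 := pow_le_pow_left₀ (by norm_num) h2 2
      linarith
  show ‖(p j - roundingD blk m v (fun i => if ρ i = j then 1 else 0)) Ω‖ < ε
  have h7 := norm_nonneg ((h - blk 0 m y) Ω)
  have h8 := norm_nonneg ((p j - roundingD blk m v (fun i => if ρ i = j then 1 else 0)) Ω)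
  nlinarith



/-- approximation of finitely many contractions of an abelian algebra by a diagonal algebra -/
theorem approxB (S : Sys M Ω blk) (B : VonNeumannAlgebra H) (hBM : ∀ x ∈ B, x ∈ M)
    (hB : ∀ x ∈ B, ∀ y ∈ B, x * y = y * x)
    (T : Finset (H →L[ℂ] H)) (hT : ∀ t ∈ T, t ∈ B ∧ ‖t‖ ≤ 1) (ε : ℝ) (hε : 0 < ε) (n0 : ℕ) :
    ∃ (m : ℕ) (v : Matrix (X m) (X m) ℂ), n0 ≤ m ∧ Un v ∧
      ∀ t ∈ T, ∃ d : X m → ℂ, (∀ i, ‖d i‖ ≤ 1) ∧
        ‖(t - blk 0 m (v * Matrix.diagonal d * vᴴ)) Ω‖ < ε := by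
  obtain ⟨r, p, hpB, hps, hpp, hp1, hpT⟩ := simple_approx B hB T hT (ε / 2) (by linarith)
  have hr : (0:ℝ) < 2 * r + 2 := by positivity
  obtain ⟨m, v, ρ, hm, hv, hρ⟩ := rounding S r p (fun j => hBM _ (hpB j)) hps hpp hp1
    (ε / (2 * r + 2)) (by positivity) n0
  refine ⟨m, v, hm, hv, ?_⟩
  intro t ht
  obtain ⟨c, hc1, hc⟩ := hpT t ht
  refine ⟨fun i => c (ρ i), fun i => hc1 _, ?_⟩
  have e1 : blk 0 m (v * Matrix.diagonal (fun i => c (ρ i)) * vᴴ) =
      ∑ j, c j • blk 0 m (v * Matrix.diagonal (fun i => if ρ i = j then 1 else 0) * vᴴ) := by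
    have e0 : (Matrix.diagonal (fun i => c (ρ i)) : Matrix (X m) (X m) ℂ) =
        ∑ j, c j • Matrix.diagonal (fun i => if ρ i = j then 1 else 0) := by
      ext a b
      rw [Matrix.sum_apply]
      by_cases hab : a = b
      · subst hab
        simp
      · simp [Matrix.diagonal_apply_ne _ hab]
    rw [e0, Finset.mul_sum, Finset.sum_mul, map_sum]
    apply Finset.sum_congr rfl
    intro j _
    rw [Matrix.mul_smul, Matrix.smul_mul, map_smul]
  have e2 : (t - blk 0 m (v * Matrix.diagonal (fun i => c (ρ i)) * vᴴ)) Ω =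
      (t - ∑ j, c j • p j) Ω + ∑ j, c j • ((p j -
        blk 0 m (v * Matrix.diagonal (fun i => if ρ i = j then 1 else 0) * vᴴ)) Ω) := by
    rw [e1]
    simp only [ContinuousLinearMap.sub_apply, ContinuousLinearMap.sum_apply,
      ContinuousLinearMap.smul_apply, smul_sub, Finset.sum_sub_distrib]
    abel
  rw [e2]
  have b1 : ‖(t - ∑ j, c j • p j) Ω‖ ≤ ε / 2 := by
    have := (t - ∑ j, c j • p j).le_opNorm Ω
    rw [S.unit, mul_one] at this
    exact this.trans hc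
  have b2 : ‖∑ j, c j • ((p j -
        blk 0 m (v * Matrix.diagonal (fun i => if ρ i = j then 1 else 0) * vᴴ)) Ω)‖ ≤
        r * (ε / (2 * r + 2)) := by
    refine (norm_sum_le _ _).trans ?_
    have : ∀ j ∈ (Finset.univ : Finset (Fin r)), ‖c j • ((p j -
        blk 0 m (v * Matrix.diagonal (fun i => if ρ i = j then 1 else 0) * vᴴ)) Ω)‖ ≤
          ε / (2 * r + 2) := by
      intro j _
      rw [norm_smul]
      calc ‖c j‖ * _ ≤ 1 * _ := by
            apply mul_le_mul_of_nonneg_right (hc1 j) (norm_nonneg _)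
        _ ≤ _ := by rw [one_mul]; exact (hρ j).le
    refine (Finset.sum_le_sum this).trans ?_
    simp
  have b3 : r * (ε / (2 * r + 2)) < ε / 2 := by
    rw [← mul_div_assoc, div_lt_div_iff₀ hr (by norm_num)]
    nlinarith
  calc _ ≤ _ := norm_add_le _ _
    _ < ε := by linarith

end A

section B

variable {ι κ : Type} [Fintype ι] [DecidableEq ι] [Fintype κ] [DecidableEq κ]



theorem nhs_basic_tr {ι : Type} [Fintype ι] [DecidableEq ι] (x : Matrix ι ι ℂ) :
    ((∑ i, ∑ j, ‖x i j‖ ^ 2 : ℝ) : ℂ) = (xᴴ * x).trace := by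
  simp only [Matrix.trace, Matrix.diag_apply, Matrix.mul_apply, Matrix.conjTranspose_apply]
  rw [Finset.sum_comm]
  push_cast
  refine Finset.sum_congr rfl fun j _ => Finset.sum_congr rfl fun i _ => ?_
  have h := Complex.conj_mul' (x i j)
  rw [← h]
  rfl

theorem nhs_basic_eq {ι : Type} [Fintype ι] (x : Matrix ι ι ℂ) :
    nhs x = ‖(WithLp.toLp 2 (fun p : ι × ι => x p.1 p.2) : EuclideanSpace ℂ (ι × ι))‖
      / Real.sqrt (Fintype.card ι) := by
  rw [EuclideanSpace.norm_eq, nhs, Real.sqrt_div (by positivity)]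
  congr 2
  rw [Fintype.sum_prod_type]

theorem nhs_basic_congr {ι : Type} [Fintype ι] [DecidableEq ι] (x y : Matrix ι ι ℂ)
    (h : (xᴴ * x).trace = (yᴴ * y).trace) : nhs x = nhs y := by
  rw [← nhs_basic_tr, ← nhs_basic_tr] at h
  have h2 : (∑ i, ∑ j, ‖x i j‖ ^ 2 : ℝ) = ∑ i, ∑ j, ‖y i j‖ ^ 2 := by exact_mod_cast h
  rw [nhs, nhs, h2]

theorem nhs_basic [Nonempty ι] (x y z : Matrix ι ι ℂ) (hz : Un z) (c : ℂ) :
    0 ≤ nhs x ∧ nhs (x + y) ≤ nhs x + nhs y ∧ nhs (x - y) ≤ nhs x + nhs y ∧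
    nhs (z * x) = nhs x ∧ nhs (x * z) = nhs x ∧ nhs (c • x) = ‖c‖ * nhs x ∧ nhs xᴴ = nhs x := by
  obtain ⟨h1, h2⟩ := hz
  refine ⟨Real.sqrt_nonneg _, ?_, ?_, ?_, ?_, ?_, ?_⟩
  · rw [nhs_basic_eq, nhs_basic_eq, nhs_basic_eq, ← add_div]
    apply div_le_div_of_nonneg_right _ (Real.sqrt_nonneg _)
    exact norm_add_le (WithLp.toLp 2 (fun p : ι × ι => x p.1 p.2) : EuclideanSpace ℂ (ι × ι))
      (WithLp.toLp 2 (fun p : ι × ι => y p.1 p.2))
  · rw [nhs_basic_eq, nhs_basic_eq, nhs_basic_eq, ← add_div]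
    apply div_le_div_of_nonneg_right _ (Real.sqrt_nonneg _)
    exact norm_sub_le (WithLp.toLp 2 (fun p : ι × ι => x p.1 p.2) : EuclideanSpace ℂ (ι × ι))
      (WithLp.toLp 2 (fun p : ι × ι => y p.1 p.2))
  · apply nhs_basic_congr
    rw [Matrix.conjTranspose_mul, Matrix.mul_assoc, ← Matrix.mul_assoc zᴴ z x, h1, Matrix.one_mul]
  · apply nhs_basic_congr
    rw [Matrix.conjTranspose_mul, Matrix.trace_mul_comm, Matrix.mul_assoc,
      ← Matrix.mul_assoc z zᴴ xᴴ, h2, Matrix.one_mul, Matrix.trace_mul_comm]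
  · rw [nhs_basic_eq, nhs_basic_eq, mul_div_assoc']
    congr 1
    exact norm_smul c (WithLp.toLp 2 (fun p : ι × ι => x p.1 p.2) : EuclideanSpace ℂ (ι × ι))
  · apply nhs_basic_congr
    rw [Matrix.conjTranspose_conjTranspose, Matrix.trace_mul_comm]



theorem assign_q [Nonempty ι] (x z : Matrix ι ι ℂ) (hz : Un z) :
    (∑ i, ∑ j, ‖(z * x) i j‖ ^ 2 = ∑ i, ∑ j, ‖x i j‖ ^ 2) ∧
    (∑ i, ∑ j, ‖(x * z) i j‖ ^ 2 = ∑ i, ∑ j, ‖x i j‖ ^ 2) := by
  obtain ⟨_, _, _, h4, h5, _, _⟩ := nhs_basic x x z hz 1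
  have hc : (0 : ℝ) < Fintype.card ι := by exact_mod_cast Fintype.card_pos
  have key : ∀ y : Matrix ι ι ℂ, nhs y = nhs x →
      ∑ i, ∑ j, ‖y i j‖ ^ 2 = ∑ i, ∑ j, ‖x i j‖ ^ 2 := by
    intro y hy
    unfold nhs at hy
    rw [Real.sqrt_inj (by positivity) (by positivity)] at hy
    exact (div_left_inj' hc.ne').1 hy
  exact ⟨key _ h4, key _ h5⟩

theorem assign_key [Nonempty ι] (v : Matrix ι ι ℂ) (hv : Un v) (S : ι → Prop) [DecidablePred S]
    (d : ι → ℂ) :
    ∑ a, ∑ b, ‖(Matrix.diagonal (fun p => if S p then (1 : ℂ) else 0)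
      - v * Matrix.diagonal d * vᴴ) a b‖ ^ 2
     = (∑ a, if S a then (1 : ℝ) else 0) - ∑ a, (∑ p, if S p then ‖v p a‖ ^ 2 else 0) ^ 2
      + ∑ a, ‖(((∑ p, if S p then ‖v p a‖ ^ 2 else 0 : ℝ)) : ℂ) - d a‖ ^ 2 := by
  set P : Matrix ι ι ℂ := Matrix.diagonal (fun p => if S p then (1 : ℂ) else 0) with hP
  set D : Matrix ι ι ℂ := Matrix.diagonal d with hD
  have hv' : Un vᴴ := ⟨by rw [Matrix.conjTranspose_conjTranspose]; exact hv.2,
    by rw [Matrix.conjTranspose_conjTranspose]; exact hv.1⟩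
  have e1 : vᴴ * (P - v * D * vᴴ) * v = vᴴ * P * v - D := by
    rw [mul_sub, sub_mul]
    congr 1
    calc vᴴ * (v * D * vᴴ) * v = (vᴴ * v) * D * (vᴴ * v) := by simp only [Matrix.mul_assoc]
      _ = D := by rw [hv.1, Matrix.one_mul, Matrix.mul_one]
  have e2 : ∑ a, ∑ b, ‖(P - v * D * vᴴ) a b‖ ^ 2 = ∑ a, ∑ b, ‖(vᴴ * P * v - D) a b‖ ^ 2 := by
    rw [← e1, (assign_q _ v hv).2, (assign_q _ _ hv').1]
  have e3 : ∑ a, ∑ b, ‖(vᴴ * P * v) a b‖ ^ 2 = ∑ a, if S a then (1 : ℝ) else 0 := by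
    rw [(assign_q _ v hv).2, (assign_q _ _ hv').1]
    apply Finset.sum_congr rfl
    intro a _
    rw [Finset.sum_eq_single a]
    · rw [hP, Matrix.diagonal_apply_eq]
      split_ifs <;> simp
    · intro b _ hb
      rw [hP, Matrix.diagonal_apply_ne _ hb.symm]
      simp
    · intro h
      exact absurd (Finset.mem_univ _) h
  have hB : ∀ a, (vᴴ * P * v) a a = (((∑ p, if S p then ‖v p a‖ ^ 2 else 0 : ℝ)) : ℂ) := by
    intro a
    rw [Matrix.mul_apply]
    push_cast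
    apply Finset.sum_congr rfl
    intro p _
    rw [hP, Matrix.mul_diagonal, Matrix.conjTranspose_apply]
    split_ifs
    · rw [mul_one]
      have := RCLike.conj_mul (K := ℂ) (v p a)
      simpa using this
    · simp
  have e4 : ∀ a, ∑ b, ‖(vᴴ * P * v - D) a b‖ ^ 2 = ∑ b, ‖(vᴴ * P * v) a b‖ ^ 2
      - (∑ p, if S p then ‖v p a‖ ^ 2 else 0) ^ 2
      + ‖(((∑ p, if S p then ‖v p a‖ ^ 2 else 0 : ℝ)) : ℂ) - d a‖ ^ 2 := by
    intro a
    rw [← Finset.add_sum_erase _ _ (Finset.mem_univ a),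
      ← Finset.add_sum_erase (Finset.univ) (fun b => ‖(vᴴ * P * v) a b‖ ^ 2) (Finset.mem_univ a)]
    have h1 : ∑ b ∈ Finset.univ.erase a, ‖(vᴴ * P * v - D) a b‖ ^ 2
        = ∑ b ∈ Finset.univ.erase a, ‖(vᴴ * P * v) a b‖ ^ 2 := by
      apply Finset.sum_congr rfl
      intro b hb
      rw [Matrix.sub_apply, hD, Matrix.diagonal_apply_ne _ (Finset.ne_of_mem_erase hb).symm,
        sub_zero]
    rw [h1]
    simp only [Matrix.sub_apply]
    rw [hB a, hD, Matrix.diagonal_apply_eq]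
    have h2 : ‖(((∑ p, if S p then ‖v p a‖ ^ 2 else 0 : ℝ)) : ℂ)‖ ^ 2
        = (∑ p, if S p then ‖v p a‖ ^ 2 else 0) ^ 2 := by
      rw [Complex.norm_real, Real.norm_eq_abs, sq_abs]
    rw [h2]
    ring
  rw [e2, Finset.sum_congr rfl (fun a _ => e4 a), Finset.sum_add_distrib, Finset.sum_sub_distrib,
    e3]

theorem assign_birk (c : ι → ι → ℝ) (M : Matrix ι ι ℝ) (hM : M ∈ doublyStochastic ℝ ι) :
    ∃ σ : Equiv.Perm ι, ∑ p, ∑ a, c p a * M p a ≤ ∑ p, c p (σ p) := by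
  obtain ⟨w, hw0, hw1, hwM⟩ := exists_eq_sum_perm_of_mem_doublyStochastic hM
  by_contra hcon
  push Not at hcon
  have hL : ∀ σ : Equiv.Perm ι, ∑ p, ∑ a, c p a * (σ.permMatrix ℝ) p a = ∑ p, c p (σ p) := by
    intro σ
    apply Finset.sum_congr rfl
    intro p _
    rw [Finset.sum_eq_single (σ p)]
    · simp [Equiv.Perm.permMatrix, PEquiv.toMatrix_apply]
    · intro b _ hb
      simp [Equiv.Perm.permMatrix, PEquiv.toMatrix_apply, hb.symm]
    · intro h
      exact absurd (Finset.mem_univ _) h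
  have hM' : ∑ p, ∑ a, c p a * M p a = ∑ σ, w σ * ∑ p, c p (σ p) := by
    have e : ∀ p a, M p a = ∑ σ : Equiv.Perm ι, w σ * (σ.permMatrix ℝ) p a := by
      intro p a
      rw [← hwM, Matrix.sum_apply]
      apply Finset.sum_congr rfl
      intro σ _
      rw [Matrix.smul_apply, smul_eq_mul]
    calc ∑ p, ∑ a, c p a * M p a
        = ∑ p, ∑ a, ∑ σ : Equiv.Perm ι, w σ * (c p a * (σ.permMatrix ℝ) p a) := by
          apply Finset.sum_congr rfl
          intro p _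
          apply Finset.sum_congr rfl
          intro a _
          rw [e, Finset.mul_sum]
          apply Finset.sum_congr rfl
          intro σ _
          ring
      _ = ∑ p, ∑ σ : Equiv.Perm ι, ∑ a, w σ * (c p a * (σ.permMatrix ℝ) p a) :=
          Finset.sum_congr rfl (fun p _ => Finset.sum_comm)
      _ = ∑ σ : Equiv.Perm ι, ∑ p, ∑ a, w σ * (c p a * (σ.permMatrix ℝ) p a) := Finset.sum_comm
      _ = ∑ σ, w σ * ∑ p, c p (σ p) := by
          apply Finset.sum_congr rfl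
          intro σ _
          rw [← hL, Finset.mul_sum]
          apply Finset.sum_congr rfl
          intro p _
          rw [Finset.mul_sum]
  obtain ⟨σ0, _, h0⟩ : ∃ σ ∈ (Finset.univ : Finset (Equiv.Perm ι)), 0 < w σ := by
    apply Finset.exists_lt_of_sum_lt
    rw [hw1]
    simp
  have hlt : ∑ σ, w σ * ∑ p, c p (σ p) < ∑ σ, w σ * ∑ p, ∑ a, c p a * M p a := by
    apply Finset.sum_lt_sum
    · intro σ _
      exact mul_le_mul_of_nonneg_left (hcon σ).le (hw0 σ)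
    · exact ⟨σ0, Finset.mem_univ _, mul_lt_mul_of_pos_left (hcon σ0) h0⟩
  rw [← Finset.sum_mul, hw1, one_mul, ← hM'] at hlt
  exact lt_irrefl _ hlt

/-- rounding the assignment: if the diagonal algebra of the frame `v` nearly contains the
projections `single i i 1 ⊗ 1`, then the basis vectors can be distributed equally so that the
corresponding projections are near -/
theorem assign [Nonempty ι] (ε1 : ℝ) (hε : 0 < ε1) : ∃ ε : ℝ, 0 < ε ∧
    ∀ (κ : Type) [Fintype κ] [DecidableEq κ] [Nonempty κ] (v : Matrix (ι × κ) (ι × κ) ℂ), Un v →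
    (∀ i : ι, ∃ d : ι × κ → ℂ, (∀ a, ‖d a‖ ≤ 1) ∧
      nhs (Matrix.single i i (1 : ℂ) ⊗ₖ (1 : Matrix κ κ ℂ) - v * Matrix.diagonal d * vᴴ) ≤ ε) →
    ∃ π : ι × κ ≃ ι × κ, ∀ i : ι,
      nhs (Matrix.single i i (1 : ℂ) ⊗ₖ (1 : Matrix κ κ ℂ) -
        v * Matrix.diagonal (fun a => if (π a).1 = i then (1 : ℂ) else 0) * vᴴ) ≤ ε1 := by
  have hN : (0 : ℝ) < Fintype.card ι := by exact_mod_cast Fintype.card_pos
  refine ⟨ε1 / (2 * Fintype.card ι), by positivity, ?_⟩
  intro κ _ _ _ v hv hd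
  have hK : (0 : ℝ) < Fintype.card κ := by exact_mod_cast Fintype.card_pos
  set N : ℝ := (Fintype.card ι : ℝ) with hNdef
  set K : ℝ := (Fintype.card κ : ℝ) with hKdef
  have hcard : ((Fintype.card (ι × κ) : ℕ) : ℝ) = N * K := by
    rw [Fintype.card_prod]
    push_cast
    rfl
  set c : ι → ι × κ → ℝ := fun i a => ∑ p : ι × κ, if p.1 = i then ‖v p a‖ ^ 2 else 0 with hc
  have hP : ∀ i : ι, (Matrix.single i i (1 : ℂ) ⊗ₖ (1 : Matrix κ κ ℂ))
      = Matrix.diagonal (fun p : ι × κ => if p.1 = i then (1 : ℂ) else 0) := by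
    intro i
    ext ⟨a, b⟩ ⟨a', b'⟩
    rw [Matrix.kroneckerMap_apply, Matrix.diagonal_apply, Matrix.single_apply, Matrix.one_apply]
    simp only [Prod.mk.injEq]
    by_cases h1 : i = a <;> by_cases h2 : i = a' <;> by_cases h3 : b = b'
    · subst h1; subst h2; subst h3; simp
    · subst h1; subst h2; simp [h3]
    · subst h1; simp [h2]
    · subst h1; simp [h2]
    · subst h2; simp [h1, Ne.symm h1]
    · subst h2; simp [h1, Ne.symm h1]
    · simp [h1, Ne.symm h1]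
    · simp [h1, Ne.symm h1]
  have hsumS : ∀ i : ι, (∑ a : ι × κ, if a.1 = i then (1 : ℝ) else 0) = K := by
    intro i
    rw [Fintype.sum_prod_type, Finset.sum_eq_single i]
    · simp [hKdef]
    · intro b _ hb
      simp [hb]
    · intro h
      exact absurd (Finset.mem_univ _) h
  have hcol : ∀ a, ∑ i, c i a = 1 := by
    intro a
    have h1 : (vᴴ * v) a a = 1 := by rw [hv.1, Matrix.one_apply_eq]
    rw [Matrix.mul_apply] at h1
    have h2 : ((∑ p, ‖v p a‖ ^ 2 : ℝ) : ℂ) = 1 := by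
      rw [← h1]
      push_cast
      apply Finset.sum_congr rfl
      intro p _
      rw [Matrix.conjTranspose_apply]
      have := RCLike.conj_mul (K := ℂ) (v p a)
      simpa using this.symm
    have h3 : ∑ p, ‖v p a‖ ^ 2 = 1 := by exact_mod_cast h2
    rw [hc]
    simp only
    rw [Finset.sum_comm, ← h3]
    apply Finset.sum_congr rfl
    intro p _
    rw [Finset.sum_ite_eq]
    simp
  have hrow : ∀ i, ∑ a, c i a = K := by
    intro i
    have h3 : ∀ p, ∑ a, ‖v p a‖ ^ 2 = 1 := by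
      intro p
      have h1 : (v * vᴴ) p p = 1 := by rw [hv.2, Matrix.one_apply_eq]
      rw [Matrix.mul_apply] at h1
      have h2 : ((∑ a, ‖v p a‖ ^ 2 : ℝ) : ℂ) = 1 := by
        rw [← h1]
        push_cast
        apply Finset.sum_congr rfl
        intro a _
        rw [Matrix.conjTranspose_apply]
        have := RCLike.mul_conj (K := ℂ) (v p a)
        simpa using this.symm
      exact_mod_cast h2
    rw [hc]
    simp only
    rw [Finset.sum_comm, ← hsumS i]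
    apply Finset.sum_congr rfl
    intro p _
    split_ifs
    · exact h3 p
    · simp
  have hc0 : ∀ i a, 0 ≤ c i a := by
    intro i a
    rw [hc]
    apply Finset.sum_nonneg
    intro p _
    split_ifs <;> positivity
  have hc1 : ∀ i a, c i a ≤ 1 := by
    intro i a
    rw [← hcol a]
    exact Finset.single_le_sum (fun j _ => hc0 j a) (Finset.mem_univ i)
  -- lower bound for the squares
  have hlow : ∀ i, K - ∑ a, (c i a) ^ 2 ≤ N * K * (ε1 / (2 * N)) ^ 2 := by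
    intro i
    obtain ⟨d, _, hd'⟩ := hd i
    rw [hP i] at hd'
    unfold nhs at hd'
    rw [assign_key v hv (fun p : ι × κ => p.1 = i) d, hsumS i, hcard] at hd'
    rw [Real.sqrt_le_left (by positivity), div_le_iff₀ (by positivity)] at hd'
    have hnn : 0 ≤ ∑ a, ‖(((∑ p : ι × κ, if p.1 = i then ‖v p a‖ ^ 2 else 0 : ℝ)) : ℂ)
        - d a‖ ^ 2 := by positivity
    have e : ∑ a, (c i a) ^ 2 = ∑ a, (∑ p : ι × κ, if p.1 = i then ‖v p a‖ ^ 2 else 0) ^ 2 := rfl
    rw [e]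
    linarith
  have hlow2 : N * K - N * (N * K * (ε1 / (2 * N)) ^ 2) ≤ ∑ i, ∑ a, (c i a) ^ 2 := by
    have h1 := Finset.sum_le_sum (fun i (_ : i ∈ Finset.univ) => hlow i)
    rw [Finset.sum_sub_distrib, Finset.sum_const, Finset.sum_const, Finset.card_univ, nsmul_eq_mul,
      nsmul_eq_mul] at h1
    linarith
  -- Birkhoff
  have hM : (Matrix.of (fun (p a : ι × κ) => c p.1 a / K)) ∈ doublyStochastic ℝ (ι × κ) := by
    rw [mem_doublyStochastic_iff_sum]
    refine ⟨?_, ?_, ?_⟩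
    · intro p a
      exact div_nonneg (hc0 _ _) hK.le
    · intro p
      simp only [Matrix.of_apply]
      rw [← Finset.sum_div, hrow, div_self hK.ne']
    · intro a
      simp only [Matrix.of_apply]
      rw [← Finset.sum_div, Fintype.sum_prod_type]
      simp only [Finset.sum_const, Finset.card_univ, nsmul_eq_mul]
      rw [← Finset.mul_sum, hcol, mul_one, div_self hK.ne']
  obtain ⟨σ, hσ⟩ := assign_birk (fun p a => c p.1 a) _ hM
  have hLM : ∑ p : ι × κ, ∑ a, c p.1 a * (Matrix.of (fun (p a : ι × κ) => c p.1 a / K)) p a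
      = ∑ i, ∑ a, (c i a) ^ 2 := by
    rw [Fintype.sum_prod_type]
    apply Finset.sum_congr rfl
    intro i _
    simp only [Matrix.of_apply, Finset.sum_const, Finset.card_univ, nsmul_eq_mul]
    rw [Finset.mul_sum]
    apply Finset.sum_congr rfl
    intro a _
    rw [← hKdef]
    field_simp
  rw [hLM] at hσ
  refine ⟨σ.symm, ?_⟩
  intro i
  rw [hP i]
  unfold nhs
  rw [assign_key v hv (fun p : ι × κ => p.1 = i) _, hsumS i, hcard]
  rw [Real.sqrt_le_left hε.le, div_le_iff₀ (by positivity)]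
  have hsum1 : ∑ a : ι × κ, (if (σ.symm a).1 = i then (1 : ℝ) else 0) = K := by
    rw [← hsumS i]
    exact Equiv.sum_comp σ.symm (fun a : ι × κ => if a.1 = i then (1 : ℝ) else 0)
  have hterm : ∀ a : ι × κ, ‖(((∑ p : ι × κ, if p.1 = i then ‖v p a‖ ^ 2 else 0 : ℝ)) : ℂ)
      - (if (σ.symm a).1 = i then (1 : ℂ) else 0)‖ ^ 2
      = (c i a) ^ 2 + (if (σ.symm a).1 = i then (1 : ℝ) else 0)
        - 2 * (if (σ.symm a).1 = i then c i a else 0) := by
    intro a
    have e : (∑ p : ι × κ, if p.1 = i then ‖v p a‖ ^ 2 else 0 : ℝ) = c i a := rfl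
    rw [e]
    split_ifs
    · rw [← Complex.ofReal_one, ← Complex.ofReal_sub, Complex.norm_real, Real.norm_eq_abs, sq_abs]
      ring
    · rw [sub_zero, Complex.norm_real, Real.norm_eq_abs, sq_abs]
      ring
  rw [Finset.sum_congr rfl (fun a _ => hterm a), Finset.sum_sub_distrib, Finset.sum_add_distrib,
    hsum1, ← Finset.mul_sum]
  have e : ∑ a, (∑ p : ι × κ, if p.1 = i then ‖v p a‖ ^ 2 else 0) ^ 2 = ∑ a, (c i a) ^ 2 := rfl
  rw [e]
  -- `K - Σ_{a in i} c ≤ Σ_a (1 - c_{π a, a})`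
  have hcomp : ∑ p : ι × κ, c p.1 (σ p) = ∑ a, c (σ.symm a).1 a := by
    rw [← Equiv.sum_comp σ (fun a => c (σ.symm a).1 a)]
    simp
  rw [hcomp] at hσ
  have hfin : K - ∑ a, (if (σ.symm a).1 = i then c i a else 0) ≤
      ∑ a, (1 - c (σ.symm a).1 a) := by
    rw [← hsum1, ← Finset.sum_sub_distrib]
    apply Finset.sum_le_sum
    intro a _
    split_ifs with h
    · rw [h]
    · have := hc1 (σ.symm a).1 a
      linarith
  rw [Finset.sum_sub_distrib, Finset.sum_const, Finset.card_univ, nsmul_eq_mul, hcard,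
    mul_one] at hfin
  have hε2 : N * (N * K * (ε1 / (2 * N)) ^ 2) = K * ε1 ^ 2 / 4 := by
    field_simp
    ring
  have hN1 : 1 ≤ N := by
    rw [hNdef]
    exact_mod_cast Fintype.card_pos
  have hKε : K * ε1 ^ 2 ≤ ε1 ^ 2 * (N * K) := by
    nlinarith [mul_nonneg hK.le (sq_nonneg ε1)]
  have hKε0 : 0 ≤ K * ε1 ^ 2 := by positivity
  linarith



theorem intertwine_S {ι κ : Type} [Fintype ι] [Fintype κ] (x : Matrix ι κ ℂ) :
    (((∑ i, ∑ j, ‖x i j‖ ^ 2 : ℝ)) : ℂ) = (xᴴ * x).trace := by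
  rw [Matrix.trace]
  push_cast
  rw [Finset.sum_comm]
  refine Finset.sum_congr rfl fun j _ => ?_
  rw [Matrix.diag_apply, Matrix.mul_apply]
  refine Finset.sum_congr rfl fun i _ => ?_
  rw [Matrix.conjTranspose_apply, RCLike.star_def, Complex.conj_mul']

theorem intertwine_uni {κ : Type} [Fintype κ] [DecidableEq κ]
    (g : OrthonormalBasis κ ℂ (EuclideanSpace ℂ κ)) :
    (Matrix.of (fun k j => g j k))ᴴ * (Matrix.of (fun k j => g j k)) = (1 : Matrix κ κ ℂ) := by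
  ext i j
  rw [Matrix.mul_apply, Matrix.one_apply]
  have h1 := orthonormal_iff_ite.1 g.orthonormal i j
  rw [EuclideanSpace.inner_eq_star_dotProduct] at h1
  rw [← h1, dotProduct]
  refine Finset.sum_congr rfl fun k _ => ?_
  rw [Matrix.conjTranspose_apply, Matrix.of_apply, Matrix.of_apply, Pi.star_apply, mul_comm]

theorem intertwine_svd {κ : Type} [Fintype κ] [DecidableEq κ] (a : Matrix κ κ ℂ)
    (ha : ∀ x : κ → ℂ, ∑ k, ‖∑ l, a k l * x l‖ ^ 2 ≤ ∑ l, ‖x l‖ ^ 2) :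
    ∃ b : Matrix κ κ ℂ, Un b ∧ ∑ k, ∑ l, ‖a k l‖ ^ 2 ≤ ((a * b).trace).re := by
  classical
  set hH := Matrix.isHermitian_conjTranspose_mul_self a with hHdef
  let f := hH.eigenvectorBasis
  let c : κ → EuclideanSpace ℂ κ := fun j => WithLp.toLp 2 (a *ᵥ (f j))
  have hin : ∀ i j, ⟪c i, c j⟫_ℂ = if i = j then (hH.eigenvalues j : ℂ) else 0 := by
    intro i j
    have h1 : (aᴴ * a) *ᵥ ⇑(f j) = hH.eigenvalues j • ⇑(f j) := hH.mulVec_eigenvectorBasis j
    have h2 : ⟪c i, c j⟫_ℂ = (a *ᵥ ⇑(f j)) ⬝ᵥ star (a *ᵥ ⇑(f i)) := rfl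
    have h3 : (a *ᵥ ⇑(f j)) ⬝ᵥ star (a *ᵥ ⇑(f i)) = star (⇑(f i)) ⬝ᵥ ((aᴴ * a) *ᵥ ⇑(f j)) := by
      rw [dotProduct_comm, Matrix.star_mulVec, ← Matrix.mulVec_mulVec, Matrix.dotProduct_mulVec,
        Matrix.dotProduct_mulVec, Matrix.dotProduct_mulVec]
    rw [h2, h3, h1]
    have h4 : ⟪f i, f j⟫_ℂ = if i = j then 1 else 0 := orthonormal_iff_ite.1 f.orthonormal i j
    have h5 : ⟪f i, f j⟫_ℂ = star (⇑(f i)) ⬝ᵥ ⇑(f j) := by
      rw [EuclideanSpace.inner_eq_star_dotProduct, dotProduct_comm]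
    have h6 : star (⇑(f i)) ⬝ᵥ (hH.eigenvalues j • ⇑(f j)) =
        (hH.eigenvalues j : ℂ) * (star (⇑(f i)) ⬝ᵥ ⇑(f j)) := by
      rw [dotProduct_smul]
      exact Complex.real_smul
    rw [h6, ← h5, h4]
    split_ifs <;> simp
  have hnorm : ∀ j, ‖c j‖ ^ 2 = hH.eigenvalues j := by
    intro j
    have h1 := hin j j
    rw [if_pos rfl, inner_self_eq_norm_sq_to_K] at h1
    have h2 : ((‖c j‖ ^ 2 : ℝ) : ℂ) = ((hH.eigenvalues j : ℝ) : ℂ) := by
      rw [← h1]
      simp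
    exact Complex.ofReal_injective h2
  have hle : ∀ j, hH.eigenvalues j ≤ 1 := by
    intro j
    rw [← hnorm j, EuclideanSpace.norm_sq_eq]
    have h1 := ha (⇑(f j))
    have h2 : ∑ l, ‖f j l‖ ^ 2 = 1 := by
      rw [← EuclideanSpace.norm_sq_eq, f.orthonormal.1 j, one_pow]
    rw [h2] at h1
    exact h1
  have hge : ∀ j, 0 ≤ hH.eigenvalues j := fun j => by rw [← hnorm j]; positivity
  let σ : κ → ℝ := fun j => Real.sqrt (hH.eigenvalues j)
  have hσ2 : ∀ j, σ j ^ 2 = hH.eigenvalues j := fun j => Real.sq_sqrt (hge j)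
  let v : κ → EuclideanSpace ℂ κ := fun j => (((σ j)⁻¹ : ℝ) : ℂ) • c j
  have hv : Orthonormal ℂ (({j : κ | hH.eigenvalues j ≠ 0} : Set κ).domRestrict v) := by
    rw [orthonormal_iff_ite]
    rintro ⟨i, hi⟩ ⟨j, hj⟩
    show ⟪v i, v j⟫_ℂ = _
    simp only [v, inner_smul_left, inner_smul_right, hin]
    by_cases hij : i = j
    · subst hij
      rw [if_pos rfl, if_pos rfl, Complex.conj_ofReal, ← hσ2 i]
      have hσi : σ i ≠ 0 := by
        intro h0
        apply hi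
        rw [← hσ2 i, h0]; norm_num
      have : ((σ i : ℝ) : ℂ) ≠ 0 := Complex.ofReal_ne_zero.2 hσi
      push_cast
      field_simp
    · rw [if_neg hij, if_neg (fun h => hij (Subtype.ext_iff.1 h)), mul_zero, mul_zero]
  obtain ⟨g, hg⟩ := hv.exists_orthonormalBasis_extension_of_card_eq (by simp)
  have hcg : ∀ j, c j = ((σ j : ℝ) : ℂ) • g j := by
    intro j
    by_cases hj : hH.eigenvalues j = 0
    · have h1 : σ j = 0 := by
        show Real.sqrt _ = 0
        rw [hj, Real.sqrt_zero]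
      have h2 : c j = 0 := by
        have := hnorm j
        rw [hj] at this
        exact norm_eq_zero.1 (pow_eq_zero_iff (by norm_num) |>.1 this)
      rw [h1, h2]; simp
    · rw [hg j hj]
      show c j = _ • ((((σ j)⁻¹ : ℝ) : ℂ) • c j)
      rw [smul_smul, ← Complex.ofReal_mul, mul_inv_cancel₀, Complex.ofReal_one, one_smul]
      intro h0
      apply hj
      rw [← hσ2 j, h0]; norm_num
  set F : Matrix κ κ ℂ := Matrix.of (fun k j => f j k) with hF
  set G : Matrix κ κ ℂ := Matrix.of (fun k j => g j k) with hG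
  have hF1 : Fᴴ * F = 1 := intertwine_uni f
  have hG1 : Gᴴ * G = 1 := intertwine_uni g
  have hF2 : F * Fᴴ = 1 := mul_eq_one_comm.1 hF1
  have hG2 : G * Gᴴ = 1 := mul_eq_one_comm.1 hG1
  have haF : a * F = G * Matrix.diagonal (fun j => ((σ j : ℝ) : ℂ)) := by
    ext k j
    rw [Matrix.mul_diagonal, Matrix.mul_apply]
    have h1 := congrArg (fun x : EuclideanSpace ℂ κ => x k) (hcg j)
    have h2 : (c j) k = ∑ l, a k l * f j l := rfl
    simp only [h2, PiLp.smul_apply, smul_eq_mul] at h1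
    simp only [hF, hG, Matrix.of_apply]
    rw [h1, mul_comm]
  refine ⟨F * Gᴴ, ⟨?_, ?_⟩, ?_⟩
  · rw [Matrix.conjTranspose_mul, Matrix.conjTranspose_conjTranspose, Matrix.mul_assoc,
      ← Matrix.mul_assoc Fᴴ, hF1, Matrix.one_mul, hG2]
  · rw [Matrix.conjTranspose_mul, Matrix.conjTranspose_conjTranspose, Matrix.mul_assoc,
      ← Matrix.mul_assoc Gᴴ, hG1, Matrix.one_mul, hF2]
  · have h1 : (a * (F * Gᴴ)).trace = ∑ j, ((σ j : ℝ) : ℂ) := by
      rw [← Matrix.mul_assoc, haF, Matrix.mul_assoc, Matrix.trace_mul_comm, Matrix.mul_assoc, hG1,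
        Matrix.mul_one, Matrix.trace_diagonal]
    have h2 : ∑ k, ∑ l, ‖a k l‖ ^ 2 = ∑ j, hH.eigenvalues j := by
      have h3 := intertwine_S a
      have h4 := hH.trace_eq_sum_eigenvalues
      rw [← h3] at h4
      have h5 : ((∑ k, ∑ l, ‖a k l‖ ^ 2 : ℝ) : ℂ) = ((∑ j, hH.eigenvalues j : ℝ) : ℂ) := by
        rw [h4]
        simp
      exact Complex.ofReal_injective h5
    rw [h1, h2, ← Complex.ofReal_sum, Complex.ofReal_re]
    refine Finset.sum_le_sum fun j _ => ?_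
    refine Real.le_sqrt_of_sq_le ?_
    nlinarith [hge j, hle j]

theorem intertwine_P {ι κ : Type} [Fintype ι] [DecidableEq ι] [Fintype κ] [DecidableEq κ] (i : ι) :
    Matrix.single i i (1 : ℂ) ⊗ₖ (1 : Matrix κ κ ℂ) =
      Matrix.diagonal (fun x : ι × κ => if x.1 = i then (1 : ℂ) else 0) := by
  ext x y
  rw [Matrix.kroneckerMap_apply, Matrix.single_apply, Matrix.one_apply, Matrix.diagonal_apply]
  by_cases h1 : x = y
  · subst h1
    by_cases h2 : x.1 = i
    · simp [h2]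
    · have h3 : ¬ i = x.1 := fun h => h2 h.symm
      simp [h2, h3]
  · rw [if_neg h1]
    by_cases h2 : x.2 = y.2
    · have h3 : x.1 ≠ y.1 := fun h => h1 (Prod.ext h h2)
      have h4 : ¬ (i = x.1 ∧ i = y.1) := fun h => h3 (h.1.symm.trans h.2)
      rw [if_neg h4, zero_mul]
    · rw [if_neg h2, mul_zero]

theorem intertwine_norm {J : Type} [Fintype J] [DecidableEq J] (v : Matrix J J ℂ)
    (hv : vᴴ * v = 1) (y : J → ℂ) : ∑ p, ‖(v *ᵥ y) p‖ ^ 2 = ∑ p, ‖y p‖ ^ 2 := by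
  have h1 : ∀ z : J → ℂ, ((∑ p, ‖z p‖ ^ 2 : ℝ) : ℂ) = star z ⬝ᵥ z := by
    intro z
    push_cast
    rw [dotProduct]
    refine Finset.sum_congr rfl fun p _ => ?_
    rw [Pi.star_apply, RCLike.star_def, Complex.conj_mul']
  apply Complex.ofReal_injective
  rw [h1, h1, Matrix.star_mulVec, ← Matrix.dotProduct_mulVec, Matrix.mulVec_mulVec, hv,
    Matrix.one_mulVec]

theorem intertwine_contr {ι κ : Type} [Fintype ι] [DecidableEq ι] [Fintype κ] [DecidableEq κ]
    (v : Matrix (ι × κ) (ι × κ) ℂ) (hv : vᴴ * v = 1) (i : ι) (x : κ → ℂ) :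
    ∑ k, ‖∑ l, v (i, k) (i, l) * x l‖ ^ 2 ≤ ∑ l, ‖x l‖ ^ 2 := by
  have h1 := intertwine_norm v hv (fun p : ι × κ => if p.1 = i then x p.2 else 0)
  have h2 : ∀ p : ι × κ, (v *ᵥ (fun p : ι × κ => if p.1 = i then x p.2 else 0)) p =
      ∑ l, v p (i, l) * x l := by
    intro p
    rw [Matrix.mulVec, dotProduct, Fintype.sum_prod_type,
      Finset.sum_eq_single i (fun b _ hb => by simp [hb]) (fun h => absurd (Finset.mem_univ i) h)]
    simp
  have h3 : ∑ p : ι × κ, ‖(if p.1 = i then x p.2 else 0 : ℂ)‖ ^ 2 = ∑ l, ‖x l‖ ^ 2 := by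
    rw [Fintype.sum_prod_type,
      Finset.sum_eq_single i (fun b _ hb => by simp [hb]) (fun h => absurd (Finset.mem_univ i) h)]
    simp
  rw [h3] at h1
  rw [← h1, Fintype.sum_prod_type]
  simp only [h2]
  exact Finset.single_le_sum (f := fun i' => ∑ k, ‖∑ l, v (i', k) (i, l) * x l‖ ^ 2)
    (fun i' _ => Finset.sum_nonneg fun k _ => by positivity) (Finset.mem_univ i)

theorem intertwine_one {J : Type} [Fintype J] [DecidableEq J] (u : Matrix J J ℂ) (hu : Un u) :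
    ∑ i, ∑ j, ‖(u - 1) i j‖ ^ 2 = 2 * (Fintype.card J : ℝ) - 2 * (u.trace).re := by
  have h1 := intertwine_S (u - 1)
  have h2 : (u - 1)ᴴ * (u - 1) = 1 - uᴴ - u + 1 := by
    rw [Matrix.conjTranspose_sub, Matrix.conjTranspose_one, Matrix.sub_mul, Matrix.mul_sub,
      Matrix.one_mul, Matrix.mul_one, hu.1]
    abel
  rw [h2, Matrix.trace_add, Matrix.trace_sub, Matrix.trace_sub, Matrix.trace_one,
    Matrix.trace_conjTranspose] at h1
  have h3 := congrArg Complex.re h1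
  simp only [Complex.ofReal_re, Complex.add_re, Complex.sub_re, Complex.natCast_re,
    RCLike.star_def, Complex.conj_re] at h3
  rw [h3]
  ring

theorem intertwine_PQ {J : Type} [Fintype J] [DecidableEq J] (v P : Matrix J J ℂ) (hv : Un v)
    (hP1 : Pᴴ = P) (hP2 : P * P = P) :
    ∑ i, ∑ j, ‖(P - v * P * vᴴ) i j‖ ^ 2 =
      2 * (P.trace).re - 2 * ∑ i, ∑ j, ‖(P * v * P) i j‖ ^ 2 := by
  have h1 := intertwine_S (P - v * P * vᴴ)
  have h2 := intertwine_S (P * v * P)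
  have hQ1 : (v * P * vᴴ)ᴴ = v * P * vᴴ := by
    rw [Matrix.conjTranspose_mul, Matrix.conjTranspose_mul, Matrix.conjTranspose_conjTranspose, hP1,
      Matrix.mul_assoc]
  have hQ2 : (v * P * vᴴ) * (v * P * vᴴ) = v * P * vᴴ := by
    calc (v * P * vᴴ) * (v * P * vᴴ) = v * P * (vᴴ * v) * P * vᴴ := by
          simp only [Matrix.mul_assoc]
      _ = v * (P * P) * vᴴ := by rw [hv.1, Matrix.mul_one, Matrix.mul_assoc v P P]
      _ = _ := by rw [hP2]
  have htQ : (v * P * vᴴ).trace = P.trace := by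
    rw [Matrix.trace_mul_comm, ← Matrix.mul_assoc, hv.1, Matrix.one_mul]
  have hPQ : (P * (v * P * vᴴ)).trace = ((P * v * P)ᴴ * (P * v * P)).trace := by
    have e1 : (P * v * P)ᴴ * (P * v * P) = P * (vᴴ * P * v * P) := by
      rw [Matrix.conjTranspose_mul, Matrix.conjTranspose_mul, hP1]
      calc P * (vᴴ * P) * (P * v * P) = P * (vᴴ * (P * P) * v * P) := by
            simp only [Matrix.mul_assoc]
        _ = _ := by rw [hP2]
    rw [e1, Matrix.trace_mul_comm P (vᴴ * P * v * P)]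
    have e2 : vᴴ * P * v * P * P = vᴴ * (P * v * P) := by
      calc vᴴ * P * v * P * P = vᴴ * (P * v * (P * P)) := by simp only [Matrix.mul_assoc]
        _ = _ := by rw [hP2]
    rw [e2, Matrix.trace_mul_comm vᴴ (P * v * P)]
    simp only [Matrix.mul_assoc]
  have h3 : (P - v * P * vᴴ)ᴴ * (P - v * P * vᴴ) =
      P - P * (v * P * vᴴ) - (v * P * vᴴ) * P + v * P * vᴴ := by
    rw [Matrix.conjTranspose_sub, hQ1, hP1, Matrix.sub_mul, Matrix.mul_sub, Matrix.mul_sub, hQ2,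
      hP2]
    abel
  rw [h3, Matrix.trace_add, Matrix.trace_sub, Matrix.trace_sub,
    Matrix.trace_mul_comm (v * P * vᴴ) P, htQ, hPQ, ← h2] at h1
  have h4 := congrArg Complex.re h1
  simp only [Complex.ofReal_re, Complex.add_re, Complex.sub_re] at h4
  rw [h4]
  ring

/-- the block diagonal unitary -/
noncomputable def intertwine_b {ι κ : Type} [DecidableEq ι] (B : ι → Matrix κ κ ℂ) :
    Matrix (ι × κ) (ι × κ) ℂ :=
  (Matrix.blockDiagonal B).submatrix (Equiv.prodComm ι κ) (Equiv.prodComm ι κ)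

theorem intertwine_b_apply {ι κ : Type} [DecidableEq ι] (B : ι → Matrix κ κ ℂ) (x y : ι × κ) :
    intertwine_b B x y = if x.1 = y.1 then B x.1 x.2 y.2 else 0 := rfl

theorem intertwine_b_un {ι κ : Type} [Fintype ι] [DecidableEq ι] [Fintype κ] [DecidableEq κ]
    (B : ι → Matrix κ κ ℂ) (hB : ∀ i, Un (B i)) : Un (intertwine_b B) := by
  have e1 : (intertwine_b B)ᴴ = (Matrix.blockDiagonal (fun i => (B i)ᴴ)).submatrix
      (Equiv.prodComm ι κ) (Equiv.prodComm ι κ) := by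
    unfold intertwine_b
    rw [Matrix.conjTranspose_submatrix, Matrix.blockDiagonal_conjTranspose]
  constructor
  · rw [e1]
    unfold intertwine_b
    rw [Matrix.submatrix_mul_equiv, ← Matrix.blockDiagonal_mul]
    have : (fun i => (B i)ᴴ * B i) = (1 : ι → Matrix κ κ ℂ) := funext fun i => (hB i).1
    rw [this, Matrix.blockDiagonal_one, Matrix.submatrix_one_equiv]
  · rw [e1]
    unfold intertwine_b
    rw [Matrix.submatrix_mul_equiv, ← Matrix.blockDiagonal_mul]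
    have : (fun i => B i * (B i)ᴴ) = (1 : ι → Matrix κ κ ℂ) := funext fun i => (hB i).2
    rw [this, Matrix.blockDiagonal_one, Matrix.submatrix_one_equiv]

theorem intertwine_tr {ι κ : Type} [Fintype ι] [DecidableEq ι] [Fintype κ] [DecidableEq κ]
    (v : Matrix (ι × κ) (ι × κ) ℂ) (B : ι → Matrix κ κ ℂ) :
    (v * intertwine_b B).trace =
      ∑ i, ((Matrix.of (fun k l => v (i, k) (i, l)) : Matrix κ κ ℂ) * B i).trace := by
  rw [Matrix.trace, Fintype.sum_prod_type]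
  refine Finset.sum_congr rfl fun i _ => ?_
  rw [Matrix.trace]
  refine Finset.sum_congr rfl fun k _ => ?_
  rw [Matrix.diag_apply, Matrix.diag_apply, Matrix.mul_apply, Matrix.mul_apply,
    Fintype.sum_prod_type,
    Finset.sum_eq_single i (fun b _ hb => by simp [intertwine_b_apply, hb])
      (fun h => absurd (Finset.mem_univ i) h)]
  refine Finset.sum_congr rfl fun l _ => ?_
  rw [intertwine_b_apply, if_pos rfl, Matrix.of_apply]

/-- equal partitions which are near in the 2-norm are conjugate by a unitary near 1 -/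
theorem intertwine [Nonempty ι] (ε1 : ℝ) (hε : 0 < ε1) : ∃ ε : ℝ, 0 < ε ∧
    ∀ (κ : Type) [Fintype κ] [DecidableEq κ] [Nonempty κ] (v : Matrix (ι × κ) (ι × κ) ℂ), Un v →
    (∀ i : ι, nhs (Matrix.single i i (1 : ℂ) ⊗ₖ (1 : Matrix κ κ ℂ) -
        v * (Matrix.single i i (1 : ℂ) ⊗ₖ (1 : Matrix κ κ ℂ)) * vᴴ) ≤ ε) →
    ∃ u : Matrix (ι × κ) (ι × κ) ℂ, Un u ∧ nhs (u - 1) ≤ ε1 ∧
      ∀ i : ι, u * (Matrix.single i i (1 : ℂ) ⊗ₖ (1 : Matrix κ κ ℂ)) * uᴴ =
        v * (Matrix.single i i (1 : ℂ) ⊗ₖ (1 : Matrix κ κ ℂ)) * vᴴ := by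
  have hN : (0 : ℝ) < Fintype.card ι := by exact_mod_cast Fintype.card_pos
  have hN1 : (1 : ℝ) ≤ Fintype.card ι := by exact_mod_cast Fintype.card_pos
  refine ⟨ε1 / Fintype.card ι, by positivity, ?_⟩
  intro κ _ _ _ v hv hnear
  have hK : (0 : ℝ) < Fintype.card κ := by exact_mod_cast Fintype.card_pos
  have hcard : ((Fintype.card (ι × κ) : ℕ) : ℝ) = (Fintype.card ι : ℝ) * Fintype.card κ := by
    rw [Fintype.card_prod]; push_cast; rfl
  -- the blocks
  have hex : ∀ i : ι, ∃ b : Matrix κ κ ℂ, Un b ∧ ∑ k, ∑ l, ‖v (i, k) (i, l)‖ ^ 2 ≤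
      (((Matrix.of (fun k l => v (i, k) (i, l)) : Matrix κ κ ℂ) * b).trace).re := by
    intro i
    exact intertwine_svd (Matrix.of (fun k l => v (i, k) (i, l)))
      (fun x => intertwine_contr v hv.1 i x)
  choose B hBu hBt using hex
  have hbu := intertwine_b_un B hBu
  have hbP : ∀ i : ι, intertwine_b B * (Matrix.single i i (1 : ℂ) ⊗ₖ (1 : Matrix κ κ ℂ)) =
      (Matrix.single i i (1 : ℂ) ⊗ₖ (1 : Matrix κ κ ℂ)) * intertwine_b B := by
    intro i
    rw [intertwine_P]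
    ext x y
    rw [Matrix.mul_diagonal, Matrix.diagonal_mul, intertwine_b_apply]
    by_cases h : x.1 = y.1
    · rw [if_pos h, h, mul_comm]
    · rw [if_neg h, zero_mul, mul_zero]
  have hu : Un (v * intertwine_b B) := by
    constructor
    · rw [Matrix.conjTranspose_mul, Matrix.mul_assoc, ← Matrix.mul_assoc vᴴ, hv.1, Matrix.one_mul,
        hbu.1]
    · rw [Matrix.conjTranspose_mul, Matrix.mul_assoc, ← Matrix.mul_assoc (intertwine_b B), hbu.2,
        Matrix.one_mul, hv.2]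
  refine ⟨v * intertwine_b B, hu, ?_, ?_⟩
  · -- the norm estimate
    have hblk : ∀ i : ι, (Fintype.card κ : ℝ) -
        ε1 ^ 2 / (Fintype.card ι : ℝ) * Fintype.card κ / 2 ≤
        ∑ k, ∑ l, ‖v (i, k) (i, l)‖ ^ 2 := by
      intro i
      have h1 := hnear i
      have h2 := (Real.sqrt_le_iff.1 h1).2
      rw [intertwine_P] at h2
      have hP1 : (Matrix.diagonal (fun x : ι × κ => if x.1 = i then (1 : ℂ) else 0))ᴴ =
          Matrix.diagonal (fun x : ι × κ => if x.1 = i then (1 : ℂ) else 0) := by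
        rw [Matrix.diagonal_conjTranspose]
        congr 1
        ext x
        rw [Pi.star_apply]
        split_ifs <;> simp
      have hP2 : (Matrix.diagonal (fun x : ι × κ => if x.1 = i then (1 : ℂ) else 0)) *
          (Matrix.diagonal (fun x : ι × κ => if x.1 = i then (1 : ℂ) else 0)) =
          Matrix.diagonal (fun x : ι × κ => if x.1 = i then (1 : ℂ) else 0) := by
        rw [Matrix.diagonal_mul_diagonal]
        congr 1
        ext x
        split_ifs <;> simp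
      rw [intertwine_PQ v _ hv hP1 hP2] at h2
      have htr : ((Matrix.diagonal (fun x : ι × κ => if x.1 = i then (1 : ℂ) else 0)).trace).re =
          Fintype.card κ := by
        rw [Matrix.trace_diagonal, Fintype.sum_prod_type,
          Finset.sum_eq_single i (fun b _ hb => by simp [hb])
            (fun h => absurd (Finset.mem_univ i) h)]
        simp
      have hPvP : ∑ x : ι × κ, ∑ y : ι × κ,
          ‖(Matrix.diagonal (fun x : ι × κ => if x.1 = i then (1 : ℂ) else 0) * v *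
            Matrix.diagonal (fun x : ι × κ => if x.1 = i then (1 : ℂ) else 0)) x y‖ ^ 2 =
          ∑ k, ∑ l, ‖v (i, k) (i, l)‖ ^ 2 := by
        simp only [Matrix.mul_diagonal, Matrix.diagonal_mul]
        rw [Fintype.sum_prod_type,
          Finset.sum_eq_single i (fun b _ hb => by simp [hb])
            (fun h => absurd (Finset.mem_univ i) h)]
        refine Finset.sum_congr rfl fun k _ => ?_
        rw [Fintype.sum_prod_type,
          Finset.sum_eq_single i (fun b _ hb => by simp [hb])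
            (fun h => absurd (Finset.mem_univ i) h)]
        simp
      rw [htr, hPvP, hcard, div_le_iff₀ (by positivity)] at h2
      have h3 : (ε1 / (Fintype.card ι : ℝ)) ^ 2 * ((Fintype.card ι : ℝ) * Fintype.card κ) =
          ε1 ^ 2 / (Fintype.card ι : ℝ) * Fintype.card κ := by
        field_simp
      rw [h3] at h2
      linarith
    unfold nhs
    rw [Real.sqrt_le_iff]
    refine ⟨hε.le, ?_⟩
    rw [intertwine_one _ hu, intertwine_tr, Complex.re_sum, hcard, div_le_iff₀ (by positivity)]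
    have h4 : ∑ _i : ι, ((Fintype.card κ : ℝ) -
        ε1 ^ 2 / (Fintype.card ι : ℝ) * Fintype.card κ / 2) ≤
        ∑ i, (((Matrix.of (fun k l => v (i, k) (i, l)) : Matrix κ κ ℂ) * B i).trace).re :=
      Finset.sum_le_sum fun i _ => (hblk i).trans (hBt i)
    rw [Finset.sum_const, nsmul_eq_mul, Finset.card_univ] at h4
    have h5 : (Fintype.card ι : ℝ) * ((Fintype.card κ : ℝ) -
        ε1 ^ 2 / (Fintype.card ι : ℝ) * Fintype.card κ / 2) =
        (Fintype.card ι : ℝ) * Fintype.card κ - ε1 ^ 2 * Fintype.card κ / 2 := by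
      field_simp
    rw [h5] at h4
    have h6 : ε1 ^ 2 * (Fintype.card κ : ℝ) ≤
        ε1 ^ 2 * ((Fintype.card ι : ℝ) * Fintype.card κ) := by
      refine mul_le_mul_of_nonneg_left ?_ (by positivity)
      exact le_mul_of_one_le_left hK.le hN1
    linarith
  · intro i
    rw [Matrix.conjTranspose_mul]
    calc v * intertwine_b B * (Matrix.single i i (1 : ℂ) ⊗ₖ (1 : Matrix κ κ ℂ)) *
          ((intertwine_b B)ᴴ * vᴴ)
        = v * (intertwine_b B * (Matrix.single i i (1 : ℂ) ⊗ₖ (1 : Matrix κ κ ℂ))) *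
          (intertwine_b B)ᴴ * vᴴ := by simp only [Matrix.mul_assoc]
      _ = v * (Matrix.single i i (1 : ℂ) ⊗ₖ (1 : Matrix κ κ ℂ)) *
          (intertwine_b B * (intertwine_b B)ᴴ) * vᴴ := by
          rw [hbP]; simp only [Matrix.mul_assoc]
      _ = _ := by rw [hbu.2, Matrix.mul_one]

/-- block diagonal matrix -/
def bd (y : ι → Matrix κ κ ℂ) : Matrix (ι × κ) (ι × κ) ℂ :=
  ∑ i, Matrix.single i i (1 : ℂ) ⊗ₖ y i

omit [Fintype ι] [Fintype κ] in
theorem blockdiag_diag (i : ι) :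
    (Matrix.single i i (1 : ℂ) ⊗ₖ (1 : Matrix κ κ ℂ)) =
      Matrix.diagonal (fun p : ι × κ => if p.1 = i then (1 : ℂ) else 0) := by
  ext p q
  obtain ⟨p1, p2⟩ := p
  obtain ⟨q1, q2⟩ := q
  simp only [Matrix.kroneckerMap_apply, Matrix.single_apply, Matrix.one_apply,
    Matrix.diagonal_apply, Prod.mk.injEq]
  by_cases h1 : i = p1
  · subst h1
    by_cases h2 : i = q1
    · subst h2
      by_cases h3 : p2 = q2
      · simp [h3]
      · simp [h3]
    · simp [h2]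
  · have h1' : ¬ p1 = i := fun h => h1 h.symm
    simp [h1, h1']



theorem blockdiag (z : Matrix (ι × κ) (ι × κ) ℂ) (hz : Un z)
    (h : ∀ i : ι, z * (Matrix.single i i (1 : ℂ) ⊗ₖ (1 : Matrix κ κ ℂ)) =
      (Matrix.single i i (1 : ℂ) ⊗ₖ (1 : Matrix κ κ ℂ)) * z) :
    ∃ y : ι → Matrix κ κ ℂ, (∀ i, Un (y i)) ∧ z = bd y := by
  have hzero : ∀ p q : ι × κ, p.1 ≠ q.1 → z p q = 0 := by
    intro p q hpq
    have h1 := congrFun (congrFun (h q.1) p) q
    rw [blockdiag_diag, Matrix.mul_diagonal, Matrix.diagonal_mul] at h1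
    rw [if_pos rfl, if_neg hpq, mul_one, zero_mul] at h1
    exact h1
  obtain ⟨hz1, hz2⟩ := hz
  obtain ⟨y, hy⟩ : ∃ y : ι → Matrix κ κ ℂ, ∀ i a b, y i a b = z (i, a) (i, b) :=
    ⟨fun i => Matrix.of fun a b => z (i, a) (i, b), fun _ _ _ => rfl⟩
  refine ⟨y, ?_, ?_⟩
  · intro i
    constructor
    · ext a b
      have h1 := congrFun (congrFun hz1 (i, a)) (i, b)
      rw [Matrix.mul_apply] at h1 ⊢
      rw [Fintype.sum_prod_type, Finset.sum_eq_single i] at h1
      · simp only [Matrix.conjTranspose_apply, Matrix.one_apply, Prod.mk.injEq, true_and, hy]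
          at h1 ⊢
        exact h1
      · intro j _ hj
        apply Finset.sum_eq_zero
        intro c _
        rw [hzero (j, c) (i, b) hj, mul_zero]
      · intro hi
        exact absurd (Finset.mem_univ i) hi
    · ext a b
      have h1 := congrFun (congrFun hz2 (i, a)) (i, b)
      rw [Matrix.mul_apply] at h1 ⊢
      rw [Fintype.sum_prod_type, Finset.sum_eq_single i] at h1
      · simp only [Matrix.conjTranspose_apply, Matrix.one_apply, Prod.mk.injEq, true_and, hy]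
          at h1 ⊢
        exact h1
      · intro j _ hj
        apply Finset.sum_eq_zero
        intro c _
        rw [hzero (i, a) (j, c) (fun h => hj h.symm), zero_mul]
      · intro hi
        exact absurd (Finset.mem_univ i) hi
  · ext p q
    obtain ⟨p1, p2⟩ := p
    obtain ⟨q1, q2⟩ := q
    unfold bd
    rw [Matrix.sum_apply]
    simp only [Matrix.kroneckerMap_apply, Matrix.single_apply]
    by_cases h1 : p1 = q1
    · subst h1
      rw [Finset.sum_eq_single p1]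
      · simp [hy]
      · intro j _ hj
        simp [hj]
      · intro hi
        exact absurd (Finset.mem_univ p1) hi
    · rw [hzero (p1, p2) (q1, q2) h1]
      symm
      apply Finset.sum_eq_zero
      intro j _
      rw [if_neg, zero_mul]
      rintro ⟨h2, h3⟩
      exact h1 (h2.symm.trans h3)



theorem perturb_single (i : ι) : (Matrix.single i i (1 : ℂ) ⊗ₖ (1 : Matrix κ κ ℂ)) =
    Matrix.diagonal (fun a : ι × κ => if a.1 = i then (1 : ℂ) else 0) := by
  ext ⟨a, b⟩ ⟨c, d⟩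
  rw [Matrix.kroneckerMap_apply, Matrix.single_apply, Matrix.one_apply, Matrix.diagonal_apply]
  by_cases h1 : a = i <;> by_cases h2 : a = c <;> by_cases h3 : b = d <;>
    simp_all [eq_comm, Prod.ext_iff]

theorem perturb_conj (v : Matrix (ι × κ) (ι × κ) ℂ) (π : ι × κ ≃ ι × κ) (f : ι × κ → ℂ) :
    v.submatrix id π.symm * Matrix.diagonal f * (v.submatrix id π.symm)ᴴ =
      v * Matrix.diagonal (fun a => f (π a)) * vᴴ := by
  ext a b
  rw [Matrix.mul_apply, Matrix.mul_apply]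
  simp only [Matrix.mul_diagonal, Matrix.submatrix_apply, Matrix.conjTranspose_apply, id]
  rw [← Equiv.sum_comp π]
  simp

theorem perturb_un (v : Matrix (ι × κ) (ι × κ) ℂ) (π : ι × κ ≃ ι × κ) (hv : Un v) :
    Un (v.submatrix id π.symm) := by
  refine ⟨?_, ?_⟩
  · ext a b
    have h := congrFun (congrFun hv.1 (π.symm a)) (π.symm b)
    rw [Matrix.mul_apply] at h ⊢
    simp only [Matrix.submatrix_apply, Matrix.conjTranspose_apply, id] at h ⊢
    rw [h, Matrix.one_apply, Matrix.one_apply]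
    simp
  · have h := perturb_conj v π (fun _ => 1)
    simp only [Matrix.diagonal_one, mul_one] at h
    rw [h, hv.2]

/-- perturbation lemma -/
theorem perturb [Nonempty ι] (ε1 : ℝ) (hε : 0 < ε1) : ∃ ε : ℝ, 0 < ε ∧
    ∀ (κ : Type) [Fintype κ] [DecidableEq κ] [Nonempty κ] (v : Matrix (ι × κ) (ι × κ) ℂ), Un v →
    (∀ i : ι, ∃ d : ι × κ → ℂ, (∀ a, ‖d a‖ ≤ 1) ∧
      nhs (Matrix.single i i (1 : ℂ) ⊗ₖ (1 : Matrix κ κ ℂ) - v * Matrix.diagonal d * vᴴ) ≤ ε) →
    ∃ (u : Matrix (ι × κ) (ι × κ) ℂ) (y : ι → Matrix κ κ ℂ) (π : ι × κ ≃ ι × κ), Un u ∧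
      nhs (u - 1) ≤ ε1 ∧ (∀ i, Un (y i)) ∧
      ∀ d : ι × κ → ℂ, v * Matrix.diagonal d * vᴴ =
        u * bd y * Matrix.diagonal (fun a => d (π a)) * (bd y)ᴴ * uᴴ := by
  obtain ⟨εB, hεB, hB⟩ := intertwine (ι := ι) ε1 hε
  obtain ⟨ε, hε0, hA⟩ := assign (ι := ι) εB hεB
  refine ⟨ε, hε0, ?_⟩
  intro κ _ _ _ v hv hyp
  obtain ⟨π, hπ⟩ := hA κ v hv hyp
  have hun := perturb_un v π hv
  obtain ⟨u, hu, hu1, hu2⟩ := hB κ (v.submatrix id π.symm) hun (fun i => by
    have h1 := hπ i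
    have h2 : v.submatrix id π.symm * (Matrix.single i i (1 : ℂ) ⊗ₖ (1 : Matrix κ κ ℂ)) *
        (v.submatrix id π.symm)ᴴ =
        v * Matrix.diagonal (fun a => if (π a).1 = i then (1 : ℂ) else 0) * vᴴ := by
      rw [perturb_single, perturb_conj]
    rw [h2]
    exact h1)
  set v' := v.submatrix id π.symm with hv'
  have hz : Un (uᴴ * v') := by
    refine ⟨?_, ?_⟩
    · rw [Matrix.conjTranspose_mul, Matrix.conjTranspose_conjTranspose]
      calc v'ᴴ * u * (uᴴ * v') = v'ᴴ * (u * uᴴ) * v' := by simp only [Matrix.mul_assoc]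
        _ = 1 := by rw [hu.2, Matrix.mul_one, hun.1]
    · rw [Matrix.conjTranspose_mul, Matrix.conjTranspose_conjTranspose]
      calc uᴴ * v' * (v'ᴴ * u) = uᴴ * (v' * v'ᴴ) * u := by simp only [Matrix.mul_assoc]
        _ = 1 := by rw [hun.2, Matrix.mul_one, hu.1]
  have hcomm : ∀ i : ι, (uᴴ * v') * (Matrix.single i i (1 : ℂ) ⊗ₖ (1 : Matrix κ κ ℂ)) =
      (Matrix.single i i (1 : ℂ) ⊗ₖ (1 : Matrix κ κ ℂ)) * (uᴴ * v') := by
    intro i
    have h := hu2 i
    set P := (Matrix.single i i (1 : ℂ) ⊗ₖ (1 : Matrix κ κ ℂ)) with hP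
    calc uᴴ * v' * P = uᴴ * (v' * P * v'ᴴ) * v' := by
          calc uᴴ * v' * P = uᴴ * v' * P * 1 := by rw [Matrix.mul_one]
            _ = uᴴ * v' * P * (v'ᴴ * v') := by rw [hun.1]
            _ = uᴴ * (v' * P * v'ᴴ) * v' := by simp only [Matrix.mul_assoc]
      _ = uᴴ * (u * P * uᴴ) * v' := by rw [h]
      _ = (uᴴ * u) * P * (uᴴ * v') := by simp only [Matrix.mul_assoc]
      _ = P * (uᴴ * v') := by rw [hu.1, Matrix.one_mul]
  obtain ⟨y, hy, hzy⟩ := blockdiag (uᴴ * v') hz hcomm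
  refine ⟨u, y, π.symm, hu, hu1, hy, ?_⟩
  intro d
  have hv'2 : v' = u * bd y := by
    rw [← hzy, ← Matrix.mul_assoc, hu.2, Matrix.one_mul]
  have h3 := perturb_conj v π (fun a => d (π.symm a))
  simp only [Equiv.symm_apply_apply] at h3
  rw [← hv'] at h3
  rw [← h3, hv'2, Matrix.conjTranspose_mul]
  simp only [Matrix.mul_assoc]

end B

section C

variable {H : Type} [NormedAddCommGroup H] [InnerProductSpace ℂ H] [CompleteSpace H]
variable {M : VonNeumannAlgebra H} {Ω : H}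
  {blk : ∀ _a k : ℕ, Matrix (X k) (X k) ℂ →⋆ₐ[ℂ] (H →L[ℂ] H)}

theorem extend_inj (S : Sys M Ω blk) (a k : ℕ) (x y : Matrix (X k) (X k) ℂ)
    (h : blk a k x = blk a k y) : x = y := by
  have h1 : blk a k (x - y) = 0 := by rw [map_sub, h, sub_self]
  have h2 := blk_norm S a k (x - y)
  rw [h1, show (0 : H →L[ℂ] H) Ω = 0 from rfl, norm_zero] at h2
  have hnn : 0 ≤ (∑ i, ∑ j, ‖(x - y) i j‖ ^ 2) / (Fintype.card (X k) : ℝ) := by positivity
  have h3 : (∑ i, ∑ j, ‖(x - y) i j‖ ^ 2) / (Fintype.card (X k) : ℝ) = 0 := by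
    have h4 := (Real.sqrt_eq_zero hnn).1 (by rw [nhs] at h2; exact h2.symm)
    exact h4
  have hc : (Fintype.card (X k) : ℝ) ≠ 0 := by
    have : 0 < Fintype.card (X k) := by rw [Fintype.card_fin]; positivity
    exact_mod_cast this.ne'
  have h5 : ∑ i, ∑ j, ‖(x - y) i j‖ ^ 2 = 0 := by
    rcases div_eq_zero_iff.1 h3 with h6 | h6
    · exact h6
    · exact absurd h6 hc
  have h7 : ∀ i, ∑ j, ‖(x - y) i j‖ ^ 2 = 0 := by
    have := (Finset.sum_eq_zero_iff_of_nonneg (fun i _ => by positivity)).1 h5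
    exact fun i => this i (Finset.mem_univ i)
  ext i j
  have h8 := (Finset.sum_eq_zero_iff_of_nonneg (fun j _ => by positivity)).1 (h7 i) j
    (Finset.mem_univ j)
  have h9 : (x - y) i j = 0 := by
    have := pow_eq_zero_iff (two_ne_zero) |>.1 h8
    exact norm_eq_zero.1 this
  rw [Matrix.sub_apply, sub_eq_zero] at h9
  exact h9

theorem extend_bd_mul {ι κ : Type} [Fintype ι] [DecidableEq ι] [Fintype κ] [DecidableEq κ]
    (A B : ι → Matrix κ κ ℂ) : bd A * bd B = bd (fun i => A i * B i) := by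
  rw [bd, bd, bd, Finset.sum_mul_sum]
  refine Finset.sum_congr rfl fun i _ => ?_
  rw [Finset.sum_eq_single i]
  · rw [← Matrix.mul_kronecker_mul, Matrix.single_mul_single_same, one_mul]
  · intro j _ hj
    rw [← Matrix.mul_kronecker_mul, Matrix.single_mul_single_of_ne _ _ _ _ (Ne.symm hj),
      Matrix.zero_kronecker]
  · intro h
    exact absurd (Finset.mem_univ i) h

theorem extend_bd_ct {ι κ : Type} [Fintype ι] [DecidableEq ι] [Fintype κ] [DecidableEq κ]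
    (A : ι → Matrix κ κ ℂ) : (bd A)ᴴ = bd (fun i => (A i)ᴴ) := by
  rw [bd, bd, Matrix.conjTranspose_sum]
  refine Finset.sum_congr rfl fun i _ => ?_
  rw [Matrix.conjTranspose_kronecker, Matrix.conjTranspose_single, star_one]

theorem extend_bd_kron {ι κ : Type} [Fintype ι] [DecidableEq ι] [Fintype κ] [DecidableEq κ]
    (c : ι → ℂ) (B : Matrix κ κ ℂ) : Matrix.diagonal c ⊗ₖ B = bd (fun i => c i • B) := by
  rw [bd]
  have h1 : (Matrix.diagonal c : Matrix ι ι ℂ) = ∑ i, Matrix.single i i (c i) := by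
    ext a b
    rw [Matrix.sum_apply]
    by_cases hab : a = b
    · subst hab
      rw [Matrix.diagonal_apply_eq, Finset.sum_eq_single a]
      · rw [Matrix.single_apply_same]
      · intro j _ hj
        rw [Matrix.single_apply_of_ne]
        intro h
        exact hj h.1
      · intro h
        exact absurd (Finset.mem_univ a) h
    · rw [Matrix.diagonal_apply_ne _ hab, Finset.sum_eq_zero]
      intro j _
      rw [Matrix.single_apply_of_ne]
      rintro ⟨rfl, h⟩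
      exact hab h
  rw [h1]
  ext ⟨a, b⟩ ⟨a', b'⟩
  rw [Matrix.kroneckerMap_apply, Matrix.sum_apply, Matrix.sum_apply, Finset.sum_mul]
  refine Finset.sum_congr rfl fun i _ => ?_
  rw [Matrix.kroneckerMap_apply, Matrix.smul_apply, smul_eq_mul, Matrix.single_apply,
    Matrix.single_apply]
  split_ifs <;> ring

theorem extend_bd_one {ι κ : Type} [Fintype ι] [DecidableEq ι] [Fintype κ] [DecidableEq κ] :
    bd (fun _ : ι => (1 : Matrix κ κ ℂ)) = 1 := by
  have h := extend_bd_kron (fun _ : ι => (1 : ℂ)) (1 : Matrix κ κ ℂ)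
  have h1 : (Matrix.diagonal fun _ : ι => (1 : ℂ)) = 1 := Matrix.diagonal_one
  rw [h1, Matrix.one_kronecker_one] at h
  rw [h]
  simp only [one_smul]

theorem extend_Z {ι κ : Type} [Fintype ι] [DecidableEq ι] [Fintype κ] [DecidableEq κ]
    (V : Matrix ι ι ℂ) (Y : ι → Matrix κ κ ℂ) (c : ι → ℂ) (B D : Matrix κ κ ℂ)
    (hY : ∀ j, c j ≠ 0 → Y j * D * (Y j)ᴴ = B) :
    (V ⊗ₖ (1 : Matrix κ κ ℂ) * bd Y) * (Matrix.diagonal c ⊗ₖ D) * (V ⊗ₖ (1 : Matrix κ κ ℂ) * bd Y)ᴴ =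
      (V * Matrix.diagonal c * Vᴴ) ⊗ₖ B := by
  have h1 : bd Y * (Matrix.diagonal c ⊗ₖ D) * (bd Y)ᴴ = Matrix.diagonal c ⊗ₖ B := by
    rw [extend_bd_kron, extend_bd_kron, extend_bd_ct, extend_bd_mul, extend_bd_mul]
    congr 1
    funext j
    by_cases hj : c j = 0
    · rw [hj]; simp
    · rw [← hY j hj, Matrix.mul_smul, Matrix.smul_mul]
  calc (V ⊗ₖ (1 : Matrix κ κ ℂ) * bd Y) * (Matrix.diagonal c ⊗ₖ D) *
        (V ⊗ₖ (1 : Matrix κ κ ℂ) * bd Y)ᴴ
      = V ⊗ₖ (1 : Matrix κ κ ℂ) * (bd Y * (Matrix.diagonal c ⊗ₖ D) * (bd Y)ᴴ) *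
        (V ⊗ₖ (1 : Matrix κ κ ℂ))ᴴ := by
        rw [Matrix.conjTranspose_mul]
        simp only [Matrix.mul_assoc]
    _ = _ := by
        rw [h1, Matrix.conjTranspose_kronecker, Matrix.conjTranspose_one,
          ← Matrix.mul_kronecker_mul, ← Matrix.mul_kronecker_mul, Matrix.one_mul, Matrix.mul_one]

theorem extend_cancel {ι : Type} [Fintype ι] [DecidableEq ι] (V x y : Matrix ι ι ℂ) (hV : Un V)
    (h : V * x * Vᴴ = V * y * Vᴴ) : x = y := by
  have h1 : Vᴴ * (V * x * Vᴴ) * V = Vᴴ * (V * y * Vᴴ) * V := by rw [h]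
  have e : ∀ z : Matrix ι ι ℂ, Vᴴ * (V * z * Vᴴ) * V = z := by
    intro z
    calc Vᴴ * (V * z * Vᴴ) * V = (Vᴴ * V) * z * (Vᴴ * V) := by simp only [Matrix.mul_assoc]
      _ = z := by rw [hV.1, Matrix.one_mul, Matrix.mul_one]
  rwa [e, e] at h1

theorem extend_reindex {ι κ : Type} [Fintype ι] [DecidableEq ι] [Fintype κ] [DecidableEq κ]
    (e : ι ≃ κ) (W : Matrix ι ι ℂ) (d : ι → ℂ) :
    Matrix.reindex e e (W * Matrix.diagonal d * Wᴴ) =
      Matrix.reindex e e W * Matrix.diagonal (fun a => d (e.symm a)) * (Matrix.reindex e e W)ᴴ := by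
  simp only [Matrix.reindex_apply, Matrix.conjTranspose_submatrix]
  have h1 : (Matrix.diagonal (fun a => d (e.symm a)) : Matrix κ κ ℂ) =
      (Matrix.diagonal d).submatrix e.symm e.symm :=
    (Matrix.submatrix_diagonal_equiv d e.symm).symm
  rw [h1, Matrix.submatrix_mul_equiv, Matrix.submatrix_mul_equiv]



/-- extension of a diagonal algebra by a controlled diagonal algebra on a new block -/
theorem extend (S : Sys M Ω blk) (n l k : ℕ) (U : Matrix (X n) (X n) ℂ)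
    (V : Matrix (X l) (X l) ℂ) (hU : Un U) (hV : Un V) (h : Dg blk n U ⊆ Dg blk l V)
    (y : X n → Matrix (X k) (X k) ℂ) (hy : ∀ i, Un (y i)) :
    ∃ V' : Matrix (X (l + k)) (X (l + k)) ℂ, Un V' ∧ Dg blk l V ⊆ Dg blk (l + k) V' ∧
      ∀ (i : X n) (d : X k → ℂ),
        blk 0 n (U * Matrix.single i i 1 * Uᴴ) * blk l k (y i * Matrix.diagonal d * (y i)ᴴ) ∈
          Dg blk (l + k) V' := by
  obtain ⟨e, he⟩ := S.mix 0 l k
  simp only [Nat.zero_add] at he
  -- the projections of the frame `U` are diagonal for `V`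
  have hPd : ∀ i : X n, ∃ d : X l → ℂ,
      blk 0 n (U * Matrix.single i i 1 * Uᴴ) = blk 0 l (V * Matrix.diagonal d * Vᴴ) := by
    intro i
    have h1 : blk 0 n (U * Matrix.single i i 1 * Uᴴ) ∈ Dg blk n U :=
      ⟨Pi.single i 1, by rw [Matrix.diagonal_single]⟩
    exact h h1
  choose D hD using hPd
  have hUmul : ∀ i j : X n, (U * Matrix.single i i 1 * Uᴴ) * (U * Matrix.single j j 1 * Uᴴ) =
      if i = j then U * Matrix.single i i 1 * Uᴴ else 0 := by
    intro i j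
    have e1 : (U * Matrix.single i i 1 * Uᴴ) * (U * Matrix.single j j (1 : ℂ) * Uᴴ) =
        U * (Matrix.single i i 1 * (Uᴴ * U) * Matrix.single j j 1) * Uᴴ := by
      simp only [Matrix.mul_assoc]
    rw [e1, hU.1, Matrix.mul_one]
    by_cases hij : i = j
    · subst hij
      rw [Matrix.single_mul_single_same, if_pos rfl, one_mul]
    · rw [Matrix.single_mul_single_of_ne _ _ _ _ hij, if_neg hij, Matrix.mul_zero, Matrix.zero_mul]
  have hVmul : ∀ c d : X l → ℂ, (V * Matrix.diagonal c * Vᴴ) * (V * Matrix.diagonal d * Vᴴ) =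
      V * Matrix.diagonal (fun a => c a * d a) * Vᴴ := by
    intro c d
    have e1 : (V * Matrix.diagonal c * Vᴴ) * (V * Matrix.diagonal d * Vᴴ) =
        V * (Matrix.diagonal c * (Vᴴ * V) * Matrix.diagonal d) * Vᴴ := by
      simp only [Matrix.mul_assoc]
    rw [e1, hV.1, Matrix.mul_one, Matrix.diagonal_mul_diagonal]
  have hDD : ∀ (i j : X n) (a : X l), D i a * D j a = if i = j then D i a else 0 := by
    intro i j a
    have h1 : blk 0 l (V * Matrix.diagonal (fun a => D i a * D j a) * Vᴴ) =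
        blk 0 l (V * Matrix.diagonal (fun a => if i = j then D i a else 0) * Vᴴ) := by
      rw [← hVmul, map_mul, ← hD, ← hD, ← map_mul, hUmul]
      by_cases hij : i = j
      · simp only [hij, if_true]
        exact hD j
      · simp only [hij, if_false]
        rw [map_zero]
        have : (Matrix.diagonal fun _ : X l => (0 : ℂ)) = 0 := Matrix.diagonal_zero
        rw [this, Matrix.mul_zero, Matrix.zero_mul, map_zero]
    have h2 := extend_cancel V _ _ hV (extend_inj S 0 l _ _ h1)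
    have h3 := congrArg (fun m : Matrix (X l) (X l) ℂ => m a a) h2
    simpa only [Matrix.diagonal_apply_eq] using h3
  have hsum : ∀ a : X l, ∑ i, D i a = 1 := by
    intro a
    have h1 : blk 0 l (V * Matrix.diagonal (fun a => ∑ i, D i a) * Vᴴ) =
        blk 0 l (V * Matrix.diagonal (fun _ => 1) * Vᴴ) := by
      have e1 : (Matrix.diagonal (fun a => ∑ i, D i a) : Matrix (X l) (X l) ℂ) =
          ∑ i, Matrix.diagonal (D i) := by
        ext b c
        rw [Matrix.sum_apply]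
        by_cases hbc : b = c
        · subst hbc
          simp only [Matrix.diagonal_apply_eq]
        · simp only [Matrix.diagonal_apply_ne _ hbc, Finset.sum_const_zero]
      have e2 : V * (∑ i, Matrix.diagonal (D i)) * Vᴴ = ∑ i, V * Matrix.diagonal (D i) * Vᴴ := by
        rw [Matrix.mul_sum, Matrix.sum_mul]
      rw [e1, e2, map_sum]
      simp only [← hD]
      rw [← map_sum]
      have e3 : ∑ i : X n, U * Matrix.single i i 1 * Uᴴ = (1 : Matrix (X n) (X n) ℂ) := by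
        rw [← Matrix.sum_mul, ← Matrix.mul_sum]
        have e4 : ∑ i : X n, Matrix.single i i (1 : ℂ) = 1 := by
          ext b c
          rw [Matrix.sum_apply]
          by_cases hbc : b = c
          · subst hbc
            rw [Matrix.one_apply_eq, Finset.sum_eq_single b]
            · rw [Matrix.single_apply_same]
            · intro j _ hj
              rw [Matrix.single_apply_of_ne]
              intro h
              exact hj h.1
            · intro h
              exact absurd (Finset.mem_univ b) h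
          · rw [Matrix.one_apply_ne hbc, Finset.sum_eq_zero]
            intro j _
            rw [Matrix.single_apply_of_ne]
            rintro ⟨rfl, h⟩
            exact hbc h
        rw [e4, Matrix.mul_one, hU.2]
      have e5 : (Matrix.diagonal fun _ : X l => (1 : ℂ)) = 1 := Matrix.diagonal_one
      rw [e3, e5, Matrix.mul_one, hV.2, map_one, map_one]
    have h2 := extend_cancel V _ _ hV (extend_inj S 0 l _ _ h1)
    have h3 := congrArg (fun m : Matrix (X l) (X l) ℂ => m a a) h2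
    simpa only [Matrix.diagonal_apply_eq] using h3
  have hp : ∀ a : X l, ∃ i : X n, D i a ≠ 0 := by
    intro a
    by_contra hcon
    push Not at hcon
    have h1 := hsum a
    rw [Finset.sum_eq_zero fun i _ => hcon i] at h1
    exact zero_ne_one h1
  choose p hp using hp
  have hp' : ∀ (a : X l) (i : X n), D i a ≠ 0 → p a = i := by
    intro a i hi
    by_contra hne
    have h1 := hDD (p a) i a
    rw [if_neg hne] at h1
    rcases mul_eq_zero.1 h1 with h2 | h2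
    · exact hp a h2
    · exact hi h2
  let Y : X l → Matrix (X k) (X k) ℂ := fun a => y (p a)
  have hYu : ∀ a, Y a * (Y a)ᴴ = 1 := fun a => (hy (p a)).2
  have hYu' : ∀ a, (Y a)ᴴ * Y a = 1 := fun a => (hy (p a)).1
  let W : Matrix (X l × X k) (X l × X k) ℂ := V ⊗ₖ (1 : Matrix (X k) (X k) ℂ) * bd Y
  have hWW : W * Wᴴ = 1 := by
    have h1 := extend_Z V Y (fun _ => 1) 1 1 (fun j _ => by rw [Matrix.mul_one]; exact hYu j)
    have e5 : (Matrix.diagonal fun _ : X l => (1 : ℂ)) = 1 := Matrix.diagonal_one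
    rw [e5, Matrix.one_kronecker_one, Matrix.mul_one, Matrix.mul_one, hV.2,
      Matrix.one_kronecker_one] at h1
    exact h1
  have hWW' : Wᴴ * W = 1 := mul_eq_one_comm.1 hWW
  refine ⟨Matrix.reindex e e W, ⟨?_, ?_⟩, ?_, ?_⟩
  · rw [Matrix.reindex_apply, Matrix.conjTranspose_submatrix, Matrix.submatrix_mul_equiv, hWW',
      Matrix.submatrix_one_equiv]
  · rw [Matrix.reindex_apply, Matrix.conjTranspose_submatrix, Matrix.submatrix_mul_equiv, hWW,
      Matrix.submatrix_one_equiv]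
  · rintro x ⟨d, rfl⟩
    refine ⟨fun a => d (e.symm a).1, ?_⟩
    have h1 := he (V * Matrix.diagonal d * Vᴴ) 1
    rw [map_one, mul_one] at h1
    rw [h1]
    congr 1
    have h2 := extend_Z V Y d 1 1 (fun j _ => by rw [Matrix.mul_one]; exact hYu j)
    have h3 : (Matrix.diagonal d : Matrix (X l) (X l) ℂ) ⊗ₖ (1 : Matrix (X k) (X k) ℂ) =
        Matrix.diagonal (fun a : X l × X k => d a.1) := by
      rw [← Matrix.diagonal_one, Matrix.diagonal_kronecker_diagonal]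
      simp only [mul_one]
    rw [← h2, h3]
    exact extend_reindex e W (fun a => d a.1)
  · intro i d
    refine ⟨fun a => D i (e.symm a).1 * d (e.symm a).2, ?_⟩
    rw [hD i, he]
    congr 1
    have h2 := extend_Z V Y (D i) (y i * Matrix.diagonal d * (y i)ᴴ) (Matrix.diagonal d)
      (fun j hj => by
        have h4 : Y j = y i := by
          show y (p j) = y i
          rw [hp' j i hj]
        rw [h4])
    have h3 : (Matrix.diagonal (D i) : Matrix (X l) (X l) ℂ) ⊗ₖ (Matrix.diagonal d : Matrix (X k) (X k) ℂ) =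
        Matrix.diagonal (fun a : X l × X k => D i a.1 * d a.2) :=
      Matrix.diagonal_kronecker_diagonal _ _
    rw [← h2, h3]
    exact extend_reindex e W (fun a => D i a.1 * d a.2)

theorem flip_sl {ι : Type} [Fintype ι] [DecidableEq ι] (x : Matrix ι ι ℂ) (a b : ι) :
    Matrix.single a b (1 : ℂ) * x = ∑ d, x b d • Matrix.single a d (1 : ℂ) := by
  ext i j
  rw [Matrix.sum_apply]
  by_cases hi : a = i
  · subst hi
    simp [Matrix.single_apply]
  · simp [hi]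
    rw [Matrix.single_mul_apply_of_ne]
    exact fun h => hi h.symm

theorem flip_sr {ι : Type} [Fintype ι] [DecidableEq ι] (x : Matrix ι ι ℂ) (a b : ι) :
    x * Matrix.single b a (1 : ℂ) = ∑ c, x c b • Matrix.single c a (1 : ℂ) := by
  ext i j
  rw [Matrix.sum_apply]
  by_cases hj : a = j
  · subst hj
    simp [Matrix.single_apply]
  · simp [hj]
    rw [Matrix.mul_single_apply_of_ne]
    exact fun h => hj h.symm

theorem flip_one {ι : Type} [Fintype ι] [DecidableEq ι] :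
    ∑ a : ι, Matrix.single a a (1 : ℂ) = 1 := by
  ext i j
  rw [Matrix.sum_apply]
  by_cases hij : i = j
  · subst hij
    simp [Matrix.single_apply]
  · rw [Matrix.one_apply_ne hij]
    refine Finset.sum_eq_zero fun c _ => ?_
    rw [Matrix.single_apply]
    by_cases hc : c = i ∧ c = j
    · exact absurd (hc.1.symm.trans hc.2) hij
    · rw [if_neg hc]

theorem flip_alg {ι A : Type} [Fintype ι] [DecidableEq ι] [Ring A] [StarRing A] [Algebra ℂ A]
    (f g : Matrix ι ι ℂ →⋆ₐ[ℂ] A) (hc : ∀ x y, f x * g y = g y * f x) (w : A)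
    (hw : w = ∑ a : ι, ∑ b : ι, f (Matrix.single a b 1) * g (Matrix.single b a 1)) :
    star w = w ∧ w * w = 1 ∧ ∀ x, w * f x = g x * w := by
  have hst : ∀ a b : ι, star (Matrix.single a b (1 : ℂ)) = Matrix.single b a 1 := by
    intro a b
    rw [Matrix.star_eq_conjTranspose, Matrix.conjTranspose_single, star_one]
  refine ⟨?_, ?_, ?_⟩
  · rw [hw, star_sum, Finset.sum_comm]
    refine Finset.sum_congr rfl fun a _ => ?_
    rw [star_sum]
    refine Finset.sum_congr rfl fun b _ => ?_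
    rw [star_mul, ← map_star, ← map_star, hst, hst, ← hc]
  · have h1 : ∀ a b : ι, (f (Matrix.single a b 1) * g (Matrix.single b a 1)) * w =
        f (Matrix.single a a 1) * g (Matrix.single b b 1) := by
      intro a b
      have h2 : ∀ c d : ι, (f (Matrix.single a b 1) * g (Matrix.single b a 1)) *
          (f (Matrix.single c d 1) * g (Matrix.single d c 1)) =
          if c = b then (if d = a then f (Matrix.single a a 1) * g (Matrix.single b b 1) else 0)
            else 0 := by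
        intro c d
        have h3 : (f (Matrix.single a b 1) * g (Matrix.single b a 1)) *
          (f (Matrix.single c d 1) * g (Matrix.single d c 1)) =
          f (Matrix.single a b 1 * Matrix.single c d 1) *
            g (Matrix.single b a 1 * Matrix.single d c 1) := by
          rw [map_mul, map_mul, mul_assoc, mul_assoc]
          congr 1
          rw [← mul_assoc, ← mul_assoc, hc]
        rw [h3]
        by_cases hcb : c = b
        · subst hcb
          rw [if_pos rfl]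
          by_cases hda : d = a
          · subst hda
            rw [if_pos rfl, Matrix.single_mul_single_same, Matrix.single_mul_single_same, mul_one]
          · rw [if_neg hda, Matrix.single_mul_single_of_ne (c := (1 : ℂ)) (h := fun h => hda h.symm),
              map_zero, mul_zero]
        · rw [if_neg hcb, Matrix.single_mul_single_of_ne (c := (1 : ℂ)) (h := fun h => hcb h.symm),
            map_zero, zero_mul]
      rw [hw, Finset.mul_sum, Finset.sum_eq_single b]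
      · rw [Finset.mul_sum, Finset.sum_eq_single a]
        · rw [h2, if_pos rfl, if_pos rfl]
        · intro d _ hd
          rw [h2, if_pos rfl, if_neg hd]
        · intro h
          exact absurd (Finset.mem_univ a) h
      · intro c _ hcb
        rw [Finset.mul_sum]
        refine Finset.sum_eq_zero fun d _ => ?_
        rw [h2, if_neg hcb]
      · intro h
        exact absurd (Finset.mem_univ b) h
    have h4 : w * w = ∑ a : ι, ∑ b : ι, f (Matrix.single a a 1) * g (Matrix.single b b 1) := by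
      have h5 : w * w =
          (∑ a : ι, ∑ b : ι, f (Matrix.single a b 1) * g (Matrix.single b a 1)) * w := by
        rw [← hw]
      rw [h5, Finset.sum_mul]
      refine Finset.sum_congr rfl fun a _ => ?_
      rw [Finset.sum_mul]
      exact Finset.sum_congr rfl fun b _ => h1 a b
    rw [h4]
    simp_rw [← Finset.mul_sum]
    rw [← Finset.sum_mul, ← map_sum, ← map_sum, flip_one, map_one, map_one, mul_one]
  · intro x
    have h1 : w * f x = ∑ a : ι, ∑ b : ι, ∑ d : ι,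
        x b d • (f (Matrix.single a d 1) * g (Matrix.single b a 1)) := by
      rw [hw, Finset.sum_mul]
      refine Finset.sum_congr rfl fun a _ => ?_
      rw [Finset.sum_mul]
      refine Finset.sum_congr rfl fun b _ => ?_
      rw [mul_assoc, ← hc, ← mul_assoc, ← map_mul, flip_sl, map_sum, Finset.sum_mul]
      refine Finset.sum_congr rfl fun d _ => ?_
      rw [map_smul, smul_mul_assoc]
    have h2 : g x * w = ∑ a : ι, ∑ b : ι, ∑ c : ι,
        x c b • (f (Matrix.single a b 1) * g (Matrix.single c a 1)) := by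
      rw [hw, Finset.mul_sum]
      refine Finset.sum_congr rfl fun a _ => ?_
      rw [Finset.mul_sum]
      refine Finset.sum_congr rfl fun b _ => ?_
      rw [← mul_assoc, ← hc, mul_assoc, ← map_mul, flip_sr, map_sum, Finset.mul_sum]
      refine Finset.sum_congr rfl fun d _ => ?_
      rw [map_smul, mul_smul_comm]
    rw [h1, h2]
    refine Finset.sum_congr rfl fun a _ => ?_
    exact Finset.sum_comm



/-- the flip of two disjoint blocks -/
theorem flip (S : Sys M Ω blk) (n k l : ℕ) (h : n + k ≤ l) :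
    ∃ w : H →L[ℂ] H, (∃ x : Matrix (X (l + k)) (X (l + k)) ℂ, w = blk 0 (l + k) x) ∧
      star w * w = 1 ∧ w * star w = 1 ∧
      (∀ x : Matrix (X n) (X n) ℂ, w * blk 0 n x = blk 0 n x * w) ∧
      ∀ x : Matrix (X k) (X k) ℂ, w * blk n k x * star w = blk l k x := by
  have hc : ∀ x y, blk n k x * blk l k y = blk l k y * blk n k x :=
    fun x y => S.comm n k l k x y h
  obtain ⟨h1, h2, h3⟩ := flip_alg (blk n k) (blk l k) hc _ rfl
  refine ⟨∑ a : X k, ∑ b : X k, blk n k (Matrix.single a b 1) * blk l k (Matrix.single b a 1),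
    ?_, ?_, ?_, ?_, ?_⟩
  · have hmid : ∀ p : ℕ, ∀ x : Matrix (X k) (X k) ℂ,
        ∃ y : Matrix (X (p + k)) (X (p + k)) ℂ, blk p k x = blk 0 (p + k) y := by
      intro p x
      obtain ⟨e, he⟩ := S.mix 0 p k
      have h4 := he 1 x
      rw [map_one, one_mul] at h4
      have h5 : blk (0 + p) k x = blk p k x := by
        rw [zero_add]
      exact ⟨_, h5.symm.trans h4⟩
    have hR : ∀ a b : X k, ∃ y : Matrix (X (l + k)) (X (l + k)) ℂ,
        blk n k (Matrix.single a b 1) * blk l k (Matrix.single b a 1) = blk 0 (l + k) y := by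
      intro a b
      obtain ⟨y1, hy1⟩ := hmid n (Matrix.single a b 1)
      obtain ⟨y2, hy2⟩ := hmid l (Matrix.single b a 1)
      obtain ⟨y3, hy3⟩ := blk_up S (n + k) (l + k) (by omega) y1
      refine ⟨y3 * y2, ?_⟩
      rw [hy1, hy2, hy3, map_mul]
    choose Y hY using hR
    refine ⟨∑ a : X k, ∑ b : X k, Y a b, ?_⟩
    rw [map_sum]
    refine Finset.sum_congr rfl fun a _ => ?_
    rw [map_sum]
    exact Finset.sum_congr rfl fun b _ => hY a b
  · rw [h1, h2]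
  · rw [h1, h2]
  · intro x
    rw [Finset.sum_mul, Finset.mul_sum]
    refine Finset.sum_congr rfl fun a _ => ?_
    rw [Finset.sum_mul, Finset.mul_sum]
    refine Finset.sum_congr rfl fun b _ => ?_
    have e1 := S.comm 0 n n k x (Matrix.single a b 1) (by omega)
    have e2 := S.comm 0 n l k x (Matrix.single b a 1) (by omega)
    rw [← mul_assoc, e1, mul_assoc, mul_assoc, e2]
  · intro x
    rw [h3 x, h1, mul_assoc, h2, mul_one]



/-- a dense sequence of controlled unitaries -/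
theorem dense_y (n : ℕ) : ∃ y : ℕ → Σ k, (X n → Matrix (X k) (X k) ℂ),
    (∀ r i, Un ((y r).2 i)) ∧
    ∀ (k : ℕ) (z : X n → Matrix (X k) (X k) ℂ), (∀ i, Un (z i)) → ∀ ε : ℝ, 0 < ε →
      ∃ (r : ℕ) (z' : X n → Matrix (X k) (X k) ℂ), (∀ i a b, ‖z' i a b - z i a b‖ < ε) ∧
        y r = ⟨k, z'⟩ := by
  classical
  let Z : ∀ k : ℕ, Set (X n → X k → X k → ℂ) := fun k => {z | ∀ i, Un (Matrix.of (z i))}
  have hne : ∀ k, Nonempty (Z k) := by
    intro k
    refine ⟨⟨fun _ => Matrix.of.symm (1 : Matrix (X k) (X k) ℂ), ?_⟩⟩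
    intro i
    constructor
    · simp
    · simp
  haveI : ∀ k, Nonempty (Z k) := hne
  refine ⟨fun r => ⟨(Nat.unpair r).1, fun i => Matrix.of ((TopologicalSpace.denseSeq (Z (Nat.unpair r).1) (Nat.unpair r).2).1 i)⟩, ?_, ?_⟩
  · intro r i
    exact (TopologicalSpace.denseSeq (Z (Nat.unpair r).1) (Nat.unpair r).2).2 i
  · intro k z hz ε hε
    have hzm : (fun i => Matrix.of.symm (z i)) ∈ Z k := fun i => hz i
    obtain ⟨j, hj⟩ := (TopologicalSpace.denseRange_denseSeq (Z k)).exists_dist_lt ⟨_, hzm⟩ hε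
    refine ⟨Nat.pair k j, fun i => Matrix.of ((TopologicalSpace.denseSeq (Z k) j).1 i), ?_, ?_⟩
    · intro i a b
      have h1 : dist ((fun i => Matrix.of.symm (z i)) : X n → X k → X k → ℂ) (TopologicalSpace.denseSeq (Z k) j).1 < ε := hj
      have h2 := (dist_pi_lt_iff hε).mp h1 i
      have h3 := (dist_pi_lt_iff hε).mp h2 a
      have h4 := (dist_pi_lt_iff hε).mp h3 b
      rw [dist_comm, dist_eq_norm] at h4
      exact h4
    · simp only []
      rw [Nat.unpair_pair]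



theorem gen_abs {α : Type} (le st : α → α → Prop) (T : α → ℕ → α → Prop) (hrefl : ∀ a, le a a)
    (htr : ∀ a b c, le a b → le b c → le a c) (hst : ∀ a b, st a b → le a b)
    (step : ∀ (a b : α) (j : ℕ), le a b → ∃ c, st b c ∧ T a j c) (a0 : α) :
    ∃ f : ℕ → α, (∀ t, st (f t) (f (t + 1))) ∧ ∀ s j, ∃ t, T (f s) j (f t) := by
  classical
  let C : α → α → ℕ → α := fun a b j => if h : le a b then (step a b j h).choose else b
  let F : ℕ → ℕ → α := fun t => Nat.rec (motive := fun _ => ℕ → α) (fun _ => a0)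
    (fun t Ft n => if n ≤ t then Ft n else C (Ft t.unpair.1) (Ft t) t.unpair.2) t
  have FS : ∀ t n, F (t + 1) n =
      if n ≤ t then F t n else C (F t t.unpair.1) (F t t) t.unpair.2 := fun t n => rfl
  have hF : ∀ t s, s ≤ t → F t s = F s s := by
    intro t
    induction t with
    | zero =>
      intro s hs
      obtain rfl : s = 0 := by omega
      rfl
    | succ t ih =>
      intro s hs
      rcases Nat.lt_or_ge t s with h | h
      · obtain rfl : s = t + 1 := by omega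
        rfl
      · rw [FS, if_pos h, ih s h]
  have hf : ∀ t, F (t + 1) (t + 1) = C (F t.unpair.1 t.unpair.1) (F t t) t.unpair.2 := by
    intro t
    rw [FS, if_neg (by omega), hF t _ (Nat.unpair_left_le t)]
  have hC : ∀ a b j, le a b → st b (C a b j) ∧ T a j (C a b j) := by
    intro a b j h
    have e : C a b j = (step a b j h).choose := dif_pos h
    rw [e]
    exact (step a b j h).choose_spec
  have hmono : ∀ t s, s ≤ t → le (F s s) (F t t) := by
    intro t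
    induction t with
    | zero =>
      intro s hs
      obtain rfl : s = 0 := by omega
      exact hrefl _
    | succ t ih =>
      intro s hs
      rcases Nat.lt_or_ge t s with h | h
      · obtain rfl : s = t + 1 := by omega
        exact hrefl _
      · refine htr _ _ _ (ih s h) ?_
        rw [hf t]
        exact hst _ _ (hC _ _ _ (ih _ (Nat.unpair_left_le t))).1
  refine ⟨fun t => F t t, ?_, ?_⟩
  · intro t
    show st (F t t) (F (t + 1) (t + 1))
    rw [hf t]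
    exact (hC _ _ _ (hmono t _ (Nat.unpair_left_le t))).1
  · intro s j
    refine ⟨Nat.pair s j + 1, ?_⟩
    show T (F s s) j (F (Nat.pair s j + 1) (Nat.pair s j + 1))
    rw [hf, Nat.unpair_pair]
    exact (hC _ _ _ (hmono _ _ (Nat.left_le_pair s j))).2

theorem gen_one {ι : Type} [Fintype ι] [DecidableEq ι] : Un (1 : Matrix ι ι ℂ) := by
  constructor <;> simp

theorem gen_step (S : Sys M Ω blk) (n l : ℕ) (U : Matrix (X n) (X n) ℂ)
    (V : Matrix (X l) (X l) ℂ) (hU : Un U) (hV : Un V) (hnl : n ≤ l)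
    (h : Dg blk n U ⊆ Dg blk l V) (p : Σ k, (X n → Matrix (X k) (X k) ℂ))
    (hp : ∀ i, Un (p.2 i)) :
    ∃ (l' : ℕ) (V' : Matrix (X l') (X l') ℂ), Un V' ∧ l + 1 ≤ l' ∧ Dg blk l V ⊆ Dg blk l' V' ∧
      ∃ w : H →L[ℂ] H, (∃ x : Matrix (X l') (X l') ℂ, w = blk 0 l' x) ∧
        star w * w = 1 ∧ w * star w = 1 ∧
        (∀ x : Matrix (X n) (X n) ℂ, w * blk 0 n x = blk 0 n x * w) ∧
        ∀ (i : X n) (d : X p.1 → ℂ),
          w * (blk 0 n (U * Matrix.single i i 1 * Uᴴ) *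
            blk n p.1 (p.2 i * Matrix.diagonal d * (p.2 i)ᴴ)) * star w ∈ Dg blk l' V' := by
  obtain ⟨V1, hV1, hD1, -⟩ := extend S n l (p.1 + 1) U V hU hV h (fun _ => 1) (fun _ => gen_one)
  obtain ⟨V2, hV2, hD2, hD3⟩ := extend S n (l + (p.1 + 1)) p.1 U V1 hU hV1 (h.trans hD1) p.2 hp
  obtain ⟨w, hwx, hw1, hw2, hw3, hw4⟩ := flip S n p.1 (l + (p.1 + 1)) (by omega)
  refine ⟨l + (p.1 + 1) + p.1, V2, hV2, by omega, hD1.trans hD2, w, hwx, hw1, hw2, hw3, ?_⟩
  intro i d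
  have e : w * (blk 0 n (U * Matrix.single i i 1 * Uᴴ) *
      blk n p.1 (p.2 i * Matrix.diagonal d * (p.2 i)ᴴ)) * star w =
      blk 0 n (U * Matrix.single i i 1 * Uᴴ) *
        (w * blk n p.1 (p.2 i * Matrix.diagonal d * (p.2 i)ᴴ) * star w) := by
    rw [← mul_assoc w, hw3]
    simp only [mul_assoc]
  rw [e, hw4]
  exact hD3 i d

/-- the generic tower -/
theorem gen (S : Sys M Ω blk) : ∃ (l : ℕ → ℕ) (V : ∀ t, Matrix (X (l t)) (X (l t)) ℂ),
    (∀ t, Un (V t)) ∧ (∀ t, t ≤ l t) ∧ (∀ t, l t ≤ l (t + 1)) ∧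
    (∀ t, Dg blk (l t) (V t) ⊆ Dg blk (l (t + 1)) (V (t + 1))) ∧
    ∀ (s k : ℕ) (z : X (l s) → Matrix (X k) (X k) ℂ), (∀ i, Un (z i)) → ∀ ε : ℝ, 0 < ε →
      ∃ (t : ℕ) (z' : X (l s) → Matrix (X k) (X k) ℂ) (w : H →L[ℂ] H),
        (∀ i, Un (z' i)) ∧ (∀ i a b, ‖z' i a b - z i a b‖ < ε) ∧
        (∃ x : Matrix (X (l t)) (X (l t)) ℂ, w = blk 0 (l t) x) ∧
        star w * w = 1 ∧ w * star w = 1 ∧
        (∀ x : Matrix (X (l s)) (X (l s)) ℂ, w * blk 0 (l s) x = blk 0 (l s) x * w) ∧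
        ∀ (i : X (l s)) (d : X k → ℂ),
          w * (blk 0 (l s) (V s * Matrix.single i i 1 * (V s)ᴴ) *
            blk (l s) k (z' i * Matrix.diagonal d * (z' i)ᴴ)) * star w ∈ Dg blk (l t) (V t) := by
  choose y hy1 hy2 using dense_y
  obtain ⟨f, hf1, hf2⟩ := gen_abs
    (α := {p : Σ l, Matrix (X l) (X l) ℂ // Un p.2})
    (fun a b => a.1.1 ≤ b.1.1 ∧ Dg blk a.1.1 a.1.2 ⊆ Dg blk b.1.1 b.1.2)
    (fun a b => a.1.1 + 1 ≤ b.1.1 ∧ Dg blk a.1.1 a.1.2 ⊆ Dg blk b.1.1 b.1.2)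
    (fun a j c => ∃ w : H →L[ℂ] H, (∃ x : Matrix (X c.1.1) (X c.1.1) ℂ, w = blk 0 c.1.1 x) ∧
        star w * w = 1 ∧ w * star w = 1 ∧
        (∀ x : Matrix (X a.1.1) (X a.1.1) ℂ, w * blk 0 a.1.1 x = blk 0 a.1.1 x * w) ∧
        ∀ (i : X a.1.1) (d : X (y a.1.1 j).1 → ℂ),
          w * (blk 0 a.1.1 (a.1.2 * Matrix.single i i 1 * (a.1.2)ᴴ) *
            blk a.1.1 (y a.1.1 j).1 ((y a.1.1 j).2 i * Matrix.diagonal d *
              ((y a.1.1 j).2 i)ᴴ)) * star w ∈ Dg blk c.1.1 c.1.2)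
    (fun a => ⟨le_rfl, subset_rfl⟩)
    (fun a b c h1 h2 => ⟨h1.1.trans h2.1, h1.2.trans h2.2⟩)
    (fun a b h => ⟨by omega, h.2⟩)
    (by
      rintro a b j ⟨h1, h2⟩
      obtain ⟨l', V', hV', hl', hD', hw⟩ := gen_step S a.1.1 b.1.1 a.1.2 b.1.2 a.2 b.2 h1 h2
        (y a.1.1 j) (hy1 a.1.1 j)
      exact ⟨⟨⟨l', V'⟩, hV'⟩, ⟨hl', hD'⟩, hw⟩)
    ⟨⟨0, 1⟩, gen_one⟩
  refine ⟨fun t => (f t).1.1, fun t => (f t).1.2, fun t => (f t).2, ?_, ?_, ?_, ?_⟩
  · intro t
    induction t with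
    | zero => exact Nat.zero_le _
    | succ t ih => exact (Nat.succ_le_succ ih).trans (hf1 t).1
  · intro t
    exact (Nat.le_succ _).trans (hf1 t).1
  · intro t
    exact (hf1 t).2
  · intro s k z hz ε hε
    obtain ⟨r, z', hz', hyr⟩ := hy2 (f s).1.1 k z hz ε hε
    obtain ⟨t, w, hw1, hw2, hw3, hw4, hw5⟩ := hf2 s r
    have hun := hy1 (f s).1.1 r
    rw [hyr] at hw5 hun
    exact ⟨t, z', w, hun, hz', hw1, hw2, hw3, hw4, hw5⟩

end C

end Pool.Agent.Helper522.MSA
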