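import Pool.Agent.Helper522.MSA.Defs
import Pool.Agent.Helper522.MSA.MainA

set_option autoImplicit false

open scoped InnerProductSpace Kronecker Matrix
open Filter Topology

namespace Pool.Agent.Helper522.MSA

section D

variable {H : Type} [NormedAddCommGroup H] [InnerProductSpace ℂ H] [CompleteSpace H]
variable {M : VonNeumannAlgebra H} {Ω : H}
  {blk : ∀ _a k : ℕ, Matrix (X k) (X k) ℂ →⋆ₐ[ℂ] (H →L[ℂ] H)}



theorem blk_inj_aux {ι : Type} [Fintype ι] [Nonempty ι] (x : Matrix ι ι ℂ) (h : nhs x = 0) : x = 0 := by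
  unfold nhs at h
  have hc : (0 : ℝ) < Fintype.card ι := by exact_mod_cast Fintype.card_pos
  have hn : 0 ≤ (∑ i, ∑ j, ‖x i j‖ ^ 2) / (Fintype.card ι : ℝ) := by positivity
  rw [Real.sqrt_eq_zero hn, div_eq_zero_iff] at h
  have h1 : ∑ i, ∑ j, ‖x i j‖ ^ 2 = 0 := h.resolve_right hc.ne'
  rw [Finset.sum_eq_zero_iff_of_nonneg (fun i _ => by positivity)] at h1
  ext i j
  have h2 := h1 i (Finset.mem_univ i)
  rw [Finset.sum_eq_zero_iff_of_nonneg (fun j _ => by positivity)] at h2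
  have h3 := h2 j (Finset.mem_univ j)
  rw [Matrix.zero_apply]
  exact norm_eq_zero.1 (pow_eq_zero_iff (two_ne_zero)|>.1 h3)

theorem blk_inj (S : Sys M Ω blk) (a k : ℕ) (x y : Matrix (X k) (X k) ℂ)
    (h : blk a k x = blk a k y) : x = y := by
  have h1 : blk a k (x - y) = 0 := by rw [map_sub, h, sub_self]
  have h2 := blk_norm S a k (x - y)
  rw [h1] at h2
  have h3 : nhs (x - y) = 0 := by
    rw [← h2]
    simp
  exact sub_eq_zero.1 (blk_inj_aux _ h3)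



theorem un_norm (g : H →L[ℂ] H) (h : star g * g = 1) : ‖g‖ ≤ 1 := by
  have h1 : ‖star g * g‖ = ‖g‖ * ‖g‖ := CStarRing.norm_star_mul_self
  have h2 : ‖(1 : H →L[ℂ] H)‖ ≤ 1 := ContinuousLinearMap.norm_id_le
  rw [h] at h1
  nlinarith [norm_nonneg g]



theorem avg_one (d : ℂ) (hd : ‖d‖ ≤ 1) :
    ∃ z z' : ℂ, ‖z‖ = 1 ∧ ‖z'‖ = 1 ∧ d = (z + z') / 2 := by
  obtain ⟨e, he1, he2⟩ : ∃ e : ℂ, ‖e‖ = 1 ∧ d = e * (‖d‖ : ℂ) := by
    by_cases h : d = 0
    · exact ⟨1, by simp, by simp [h]⟩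
    · have hn : (‖d‖ : ℂ) ≠ 0 := by
        simpa using h
      refine ⟨d / ‖d‖, ?_, ?_⟩
      · rw [norm_div, Complex.norm_real, norm_norm, div_self (by simpa using h)]
      · rw [div_mul_cancel₀ _ hn]
  have hs : 0 ≤ 1 - ‖d‖ ^ 2 := by
    have h1 := norm_nonneg d
    nlinarith
  have hs2 := Real.sq_sqrt hs
  have hnorm : ∀ t : ℝ, t ^ 2 = 1 - ‖d‖ ^ 2 → ‖(‖d‖ : ℂ) + t * Complex.I‖ = 1 := by
    intro t ht
    have h1 : ‖(‖d‖ : ℂ) + t * Complex.I‖ ^ 2 = 1 := by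
      rw [← Complex.normSq_eq_norm_sq, Complex.normSq_add_mul_I]
      linarith
    have h2 := norm_nonneg ((‖d‖ : ℂ) + t * Complex.I)
    nlinarith
  refine ⟨e * ((‖d‖ : ℂ) + (Real.sqrt (1 - ‖d‖ ^ 2) : ℝ) * Complex.I),
    e * ((‖d‖ : ℂ) + ((-Real.sqrt (1 - ‖d‖ ^ 2) : ℝ) : ℂ) * Complex.I), ?_, ?_, ?_⟩
  · rw [norm_mul, he1, one_mul]
    exact hnorm _ hs2
  · rw [norm_mul, he1, one_mul]
    exact hnorm _ (by rw [neg_sq]; exact hs2)
  · conv_lhs => rw [he2]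
    push_cast
    ring

theorem avg {ι : Type} (d : ι → ℂ) (hd : ∀ i, ‖d i‖ ≤ 1) :
    ∃ z z' : ι → ℂ, (∀ i, ‖z i‖ = 1) ∧ (∀ i, ‖z' i‖ = 1) ∧ ∀ i, d i = (z i + z' i) / 2 := by
  choose z z' h1 h2 h3 using fun i => avg_one (d i) (hd i)
  exact ⟨z, z', h1, h2, h3⟩



theorem dg_norm_un (blk : ∀ _a k : ℕ, Matrix (X k) (X k) ℂ →⋆ₐ[ℂ] (H →L[ℂ] H)) (a k : ℕ)
    (V : Matrix (X k) (X k) ℂ) (hV : Un V)
    (z : X k → ℂ) (hz : ∀ i, ‖z i‖ = 1) : ‖blk a k (V * Matrix.diagonal z * Vᴴ)‖ ≤ 1 := by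
  apply un_norm
  rw [← map_star, ← map_mul]
  have hz1 : Matrix.diagonal (star z) * Matrix.diagonal z = (1 : Matrix (X k) (X k) ℂ) := by
    rw [Matrix.diagonal_mul_diagonal, ← Matrix.diagonal_one]
    congr 1
    funext i
    show (starRingEnd ℂ) (z i) * z i = 1
    rw [Complex.conj_mul', hz i]
    simp
  have h1 : star (V * Matrix.diagonal z * Vᴴ) * (V * Matrix.diagonal z * Vᴴ) = 1 := by
    rw [Matrix.star_eq_conjTranspose, Matrix.conjTranspose_mul, Matrix.conjTranspose_mul,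
      Matrix.conjTranspose_conjTranspose, Matrix.diagonal_conjTranspose]
    calc V * (Matrix.diagonal (star z) * Vᴴ) * (V * Matrix.diagonal z * Vᴴ)
        = V * (Matrix.diagonal (star z) * (Vᴴ * V) * Matrix.diagonal z) * Vᴴ := by
          simp only [Matrix.mul_assoc]
      _ = 1 := by
          rw [hV.1, Matrix.mul_one, hz1, Matrix.mul_one, hV.2]
  rw [h1, map_one]

theorem dg_norm (S : Sys M Ω blk) (a k : ℕ) (V : Matrix (X k) (X k) ℂ) (hV : Un V)
    (d : X k → ℂ) (hd : ∀ i, ‖d i‖ ≤ 1) : ‖blk a k (V * Matrix.diagonal d * Vᴴ)‖ ≤ 1 := by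
  obtain ⟨z, z', hz, hz', hd'⟩ := avg d hd
  have e : V * Matrix.diagonal d * Vᴴ = (1 / 2 : ℂ) • (V * Matrix.diagonal z * Vᴴ) +
      (1 / 2 : ℂ) • (V * Matrix.diagonal z' * Vᴴ) := by
    have e1 : Matrix.diagonal d = (1 / 2 : ℂ) • Matrix.diagonal z +
        (1 / 2 : ℂ) • Matrix.diagonal z' := by
      rw [← Matrix.diagonal_smul, ← Matrix.diagonal_smul, Matrix.diagonal_add]
      congr 1
      funext i
      rw [hd' i]
      simp only [Pi.smul_apply, smul_eq_mul]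
      ring
    rw [e1, Matrix.mul_add, Matrix.add_mul, Matrix.mul_smul, Matrix.mul_smul, Matrix.smul_mul,
      Matrix.smul_mul]
  rw [e, map_add, map_smul, map_smul]
  refine (norm_add_le _ _).trans ?_
  rw [norm_smul, norm_smul]
  have h1 := dg_norm_un blk a k V hV z hz
  have h2 := dg_norm_un blk a k V hV z' hz'
  have h3 : ‖(1 / 2 : ℂ)‖ = 1 / 2 := by simp
  rw [h3]
  linarith



theorem dg_coef_nhs {ι : Type} [Fintype ι] [DecidableEq ι] [Nonempty ι] (i : ι) :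
    0 < nhs (Matrix.single i i (1 : ℂ)) := by
  unfold nhs
  apply Real.sqrt_pos.mpr
  apply div_pos
  · apply Finset.sum_pos'
    · intro a _
      exact Finset.sum_nonneg (fun b _ => by positivity)
    · refine ⟨i, Finset.mem_univ _, ?_⟩
      apply Finset.sum_pos'
      · intro b _
        positivity
      · refine ⟨i, Finset.mem_univ _, ?_⟩
        simp
  · exact_mod_cast Fintype.card_pos

theorem dg_coef_un {ι : Type} [Fintype ι] [DecidableEq ι] (V : Matrix ι ι ℂ) (hV : Un V) :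
    Un Vᴴ := by
  refine ⟨?_, ?_⟩
  · rw [Matrix.conjTranspose_conjTranspose]; exact hV.2
  · rw [Matrix.conjTranspose_conjTranspose]; exact hV.1

theorem dg_coef (S : Sys M Ω blk) (n : ℕ) (V : Matrix (X n) (X n) ℂ) (hV : Un V)
    (d : X n → ℂ) (h : ‖blk 0 n (V * Matrix.diagonal d * Vᴴ)‖ ≤ 1) : ∀ i, ‖d i‖ ≤ 1 := by
  intro i
  haveI : Nonempty (X n) := ⟨i⟩
  have hq : nhs (V * Matrix.single i i (1 : ℂ) * Vᴴ) = nhs (Matrix.single i i (1 : ℂ)) := by
    have h1 := (nhs_basic (V * Matrix.single i i (1 : ℂ)) 0 Vᴴ (dg_coef_un V hV) 1).2.2.2.2.1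
    have h2 := (nhs_basic (Matrix.single i i (1 : ℂ)) 0 V hV 1).2.2.2.1
    rw [h1, h2]
  have hpos : 0 < ‖blk 0 n (V * Matrix.single i i (1 : ℂ) * Vᴴ) Ω‖ := by
    rw [blk_norm S, hq]
    exact dg_coef_nhs i
  have hmul : (V * Matrix.diagonal d * Vᴴ) * (V * Matrix.single i i (1 : ℂ) * Vᴴ) =
      d i • (V * Matrix.single i i (1 : ℂ) * Vᴴ) := by
    have h1 : (V * Matrix.diagonal d * Vᴴ) * (V * Matrix.single i i (1 : ℂ) * Vᴴ) =
        V * (Matrix.diagonal d * ((Vᴴ * V) * Matrix.single i i (1 : ℂ))) * Vᴴ := by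
      simp only [Matrix.mul_assoc]
    have h2 : Matrix.diagonal d * Matrix.single i i (1 : ℂ) = d i • Matrix.single i i (1 : ℂ) := by
      ext a b
      rw [Matrix.diagonal_mul, Matrix.smul_apply, smul_eq_mul]
      by_cases ha : i = a
      · subst ha; rfl
      · rw [Matrix.single_apply_of_row_ne ha]
        simp
    rw [h1, hV.1, Matrix.one_mul, h2, Matrix.mul_smul, Matrix.smul_mul]
  have hx : blk 0 n (V * Matrix.diagonal d * Vᴴ) (blk 0 n (V * Matrix.single i i (1 : ℂ) * Vᴴ) Ω) =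
      d i • blk 0 n (V * Matrix.single i i (1 : ℂ) * Vᴴ) Ω := by
    rw [← ContinuousLinearMap.mul_apply, ← map_mul, hmul, map_smul,
      ContinuousLinearMap.smul_apply]
  have h3 : ‖d i‖ * ‖blk 0 n (V * Matrix.single i i (1 : ℂ) * Vᴴ) Ω‖ ≤
      1 * ‖blk 0 n (V * Matrix.single i i (1 : ℂ) * Vᴴ) Ω‖ := by
    rw [← norm_smul, ← hx]
    exact ContinuousLinearMap.le_of_opNorm_le _ h _
  exact le_of_mul_le_mul_right h3 hpos



theorem fs1_unit (S : Sys M Ω blk) (n : ℕ) (Vf : Matrix (X n) (X n) ℂ) (hVf : Un Vf)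
    (d : X n → ℂ) (hd : ∀ i, ‖d i‖ = 1) :
    star (blk 0 n (Vf * Matrix.diagonal d * Vfᴴ)) * blk 0 n (Vf * Matrix.diagonal d * Vfᴴ) = 1 ∧
    blk 0 n (Vf * Matrix.diagonal d * Vfᴴ) * star (blk 0 n (Vf * Matrix.diagonal d * Vfᴴ)) = 1 := by
  obtain ⟨h1, h2⟩ := hVf
  have hdd : Matrix.diagonal (star d) * Matrix.diagonal d = (1 : Matrix (X n) (X n) ℂ) := by
    rw [Matrix.diagonal_mul_diagonal, ← Matrix.diagonal_one]
    congr 1
    funext i
    have h := Complex.conj_mul' (d i)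
    rw [hd i] at h
    simpa using h
  have hdd' : Matrix.diagonal d * Matrix.diagonal (star d) = (1 : Matrix (X n) (X n) ℂ) := by
    rw [Matrix.diagonal_mul_diagonal, ← Matrix.diagonal_one]
    congr 1
    funext i
    have h := Complex.mul_conj' (d i)
    rw [hd i] at h
    simpa using h
  have hst : star (Vf * Matrix.diagonal d * Vfᴴ) = Vf * Matrix.diagonal (star d) * Vfᴴ := by
    rw [Matrix.star_eq_conjTranspose, Matrix.conjTranspose_mul, Matrix.conjTranspose_mul,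
      Matrix.conjTranspose_conjTranspose, Matrix.diagonal_conjTranspose, Matrix.mul_assoc]
  constructor
  · rw [← map_star, ← map_mul, hst]
    have : Vf * Matrix.diagonal (star d) * Vfᴴ * (Vf * Matrix.diagonal d * Vfᴴ) = 1 := by
      calc Vf * Matrix.diagonal (star d) * Vfᴴ * (Vf * Matrix.diagonal d * Vfᴴ)
          = Vf * (Matrix.diagonal (star d) * ((Vfᴴ * Vf) * Matrix.diagonal d)) * Vfᴴ := by
            simp only [Matrix.mul_assoc]
        _ = 1 := by rw [h1, Matrix.one_mul, hdd, Matrix.mul_one, h2]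
    rw [this, map_one]
  · rw [← map_star, ← map_mul, hst]
    have : Vf * Matrix.diagonal d * Vfᴴ * (Vf * Matrix.diagonal (star d) * Vfᴴ) = 1 := by
      calc Vf * Matrix.diagonal d * Vfᴴ * (Vf * Matrix.diagonal (star d) * Vfᴴ)
          = Vf * (Matrix.diagonal d * ((Vfᴴ * Vf) * Matrix.diagonal (star d))) * Vfᴴ := by
            simp only [Matrix.mul_assoc]
        _ = 1 := by rw [h1, Matrix.one_mul, hdd', Matrix.mul_one, h2]
    rw [this, map_one]

/-- an open set of masas which nearly contain a frame -/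
theorem fs1 (S : Sys M Ω blk) (n : ℕ) (Vf : Matrix (X n) (X n) ℂ) (hVf : Un Vf)
    (T : Finset (X n → ℂ)) (hT : ∀ δ ∈ T, ∀ i, ‖δ i‖ ≤ 1) (ε : ℝ) (hε : 0 < ε) :
    ∃ O : Set (Masa M), IsOpen O ∧ (∀ B : Masa M, (∀ x ∈ Dg blk n Vf, x ∈ B.1) → B ∈ O) ∧
      ∀ B ∈ O, (∀ δ ∈ T, ∃ b ∈ B.1, ‖b‖ ≤ 1 ∧
          ‖(blk 0 n (Vf * Matrix.diagonal δ * Vfᴴ) - b) Ω‖ < ε) ∧
        ∀ i, ∃ b ∈ B.1, ‖b‖ ≤ 1 ∧
          ‖(blk 0 n (Vf * Matrix.single i i 1 * Vfᴴ) - b) Ω‖ < ε := by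
  classical
  -- enlarge the set
  set T' : Finset (X n → ℂ) := T ∪ Finset.univ.image (fun i => (Pi.single i (1 : ℂ) : X n → ℂ))
    with hT'
  have hT1 : ∀ δ ∈ T', ∀ i, ‖δ i‖ ≤ 1 := by
    intro δ hδ i
    rcases Finset.mem_union.1 hδ with h | h
    · exact hT δ h i
    · obtain ⟨j, -, rfl⟩ := Finset.mem_image.1 h
      by_cases hij : i = j
      · subst hij; simp
      · simp [Pi.single_apply, hij]
  have hch : ∀ δ : X n → ℂ, ∃ z z' : X n → ℂ, (∀ i, ‖z i‖ = 1) ∧ (∀ i, ‖z' i‖ = 1) ∧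
      (δ ∈ T' → ∀ i, δ i = (z i + z' i) / 2) := by
    intro δ
    by_cases h : δ ∈ T'
    · obtain ⟨z, z', h1, h2, h3⟩ := avg δ (hT1 δ h)
      exact ⟨z, z', h1, h2, fun _ => h3⟩
    · exact ⟨fun _ => 1, fun _ => 1, by simp, by simp, fun h' => absurd h' h⟩
  choose Z Z' hZ hZ' hZZ using hch
  let U : (X n → ℂ) → (H →L[ℂ] H) := fun d => blk 0 n (Vf * Matrix.diagonal d * Vfᴴ)
  obtain ⟨O, hO1, hO2, hO3⟩ := T2 S (T'.image (fun δ => U (Z δ)) ∪ T'.image (fun δ => U (Z' δ)))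
    (by
      intro t ht
      rcases Finset.mem_union.1 ht with h | h
      · obtain ⟨δ, -, rfl⟩ := Finset.mem_image.1 h
        exact ⟨S.mem _ _ _, fs1_unit S n Vf hVf _ (hZ δ)⟩
      · obtain ⟨δ, -, rfl⟩ := Finset.mem_image.1 h
        exact ⟨S.mem _ _ _, fs1_unit S n Vf hVf _ (hZ' δ)⟩) ε hε
  have main : ∀ B ∈ O, ∀ δ ∈ T', ∃ b ∈ B.1, ‖b‖ ≤ 1 ∧
      ‖(blk 0 n (Vf * Matrix.diagonal δ * Vfᴴ) - b) Ω‖ < ε := by
    intro B hB δ hδ
    obtain ⟨b1, hb1, hn1, he1⟩ := hO3 B hB (U (Z δ))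
      (Finset.mem_union_left _ (Finset.mem_image_of_mem _ hδ))
    obtain ⟨b2, hb2, hn2, he2⟩ := hO3 B hB (U (Z' δ))
      (Finset.mem_union_right _ (Finset.mem_image_of_mem _ hδ))
    refine ⟨(1 / 2 : ℂ) • (b1 + b2), ?_, ?_, ?_⟩
    · have h3 : b1 + b2 ∈ B.1.toStarSubalgebra.toSubalgebra :=
        Subalgebra.add_mem _ hb1 hb2
      exact Subalgebra.smul_mem B.1.toStarSubalgebra.toSubalgebra h3 (1 / 2 : ℂ)
    · rw [norm_smul]
      have h4 := norm_add_le b1 b2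
      have h5 : ‖(1 / 2 : ℂ)‖ = 1 / 2 := by norm_num
      rw [h5]
      linarith
    · have h6 : blk 0 n (Vf * Matrix.diagonal δ * Vfᴴ) = (1 / 2 : ℂ) • (U (Z δ) + U (Z' δ)) := by
        change _ = (1 / 2 : ℂ) • (blk 0 n _ + blk 0 n _)
        rw [← map_add, ← map_smul]
        congr 1
        have h7 : Matrix.diagonal δ = (1 / 2 : ℂ) • (Matrix.diagonal (Z δ) + Matrix.diagonal (Z' δ)) := by
          rw [Matrix.diagonal_add, ← Matrix.diagonal_smul]
          congr 1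
          funext i
          rw [hZZ δ hδ i]
          simp only [Pi.smul_apply, smul_eq_mul]
          ring
        rw [h7, Matrix.mul_smul, Matrix.smul_mul, Matrix.mul_add, Matrix.add_mul]
      have h8 : (blk 0 n (Vf * Matrix.diagonal δ * Vfᴴ) - (1 / 2 : ℂ) • (b1 + b2)) Ω =
          (1 / 2 : ℂ) • ((U (Z δ) - b1) Ω + (U (Z' δ) - b2) Ω) := by
        rw [h6, ← smul_sub]
        simp only [ContinuousLinearMap.smul_apply, ContinuousLinearMap.sub_apply,
          ContinuousLinearMap.add_apply]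
        congr 1
        abel
      rw [h8, norm_smul]
      have h5 : ‖(1 / 2 : ℂ)‖ = 1 / 2 := by norm_num
      rw [h5]
      have h9 := norm_add_le ((U (Z δ) - b1) Ω) ((U (Z' δ) - b2) Ω)
      linarith
  refine ⟨O, hO1, ?_, ?_⟩
  · intro B hB
    apply hO2
    intro t ht
    rcases Finset.mem_union.1 ht with h | h
    · obtain ⟨δ, -, rfl⟩ := Finset.mem_image.1 h
      exact hB _ ⟨_, rfl⟩
    · obtain ⟨δ, -, rfl⟩ := Finset.mem_image.1 h
      exact hB _ ⟨_, rfl⟩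
  · intro B hB
    refine ⟨fun δ hδ => main B hB δ (Finset.mem_union_left _ hδ), fun i => ?_⟩
    have h := main B hB (Pi.single i (1 : ℂ))
      (Finset.mem_union_right _ (Finset.mem_image_of_mem _ (Finset.mem_univ i)))
    rwa [Matrix.diagonal_single] at h

/-- the element `∑ p_i y_i D_i y_i^*` -/
noncomputable def ctl (blk : ∀ _a k : ℕ, Matrix (X k) (X k) ℂ →⋆ₐ[ℂ] (H →L[ℂ] H)) (n k : ℕ)
    (Vf : Matrix (X n) (X n) ℂ) (y : X n → Matrix (X k) (X k) ℂ) (D : X n → X k → ℂ) :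
    H →L[ℂ] H :=
  ∑ i, blk 0 n (Vf * Matrix.single i i 1 * Vfᴴ) *
    blk n k (y i * Matrix.diagonal (D i) * (y i)ᴴ)



theorem ctl_mat_apply {ι κ : Type} [Fintype ι] [DecidableEq ι] [Fintype κ] [DecidableEq κ]
    (y : ι → Matrix κ κ ℂ) (a c : ι) (b d : κ) :
    bd y (a, b) (c, d) = if a = c then y a b d else 0 := by
  unfold bd
  rw [Matrix.sum_apply]
  simp only [Matrix.kroneckerMap_apply, Matrix.single_apply]
  by_cases h : a = c
  · rw [if_pos h, Finset.sum_eq_single a]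
    · rw [if_pos ⟨rfl, h⟩, one_mul]
    · intro i _ hi
      rw [if_neg (fun h' => hi h'.1), zero_mul]
    · intro h'
      exact absurd (Finset.mem_univ a) h'
  · rw [if_neg h]
    apply Finset.sum_eq_zero
    intro i _
    rw [if_neg (fun h' => h (h'.1.symm.trans h'.2)), zero_mul]

theorem ctl_mat_mul {ι κ : Type} [Fintype ι] [DecidableEq ι] [Fintype κ] [DecidableEq κ]
    (y z : ι → Matrix κ κ ℂ) : bd y * bd z = bd (fun i => y i * z i) := by
  ext ⟨a, b⟩ ⟨c, d⟩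
  rw [Matrix.mul_apply, Fintype.sum_prod_type, ctl_mat_apply]
  simp only [ctl_mat_apply]
  rw [Finset.sum_eq_single a]
  · by_cases h : a = c
    · rw [if_pos h, Matrix.mul_apply]
      apply Finset.sum_congr rfl
      intro i _
      rw [if_pos rfl, if_pos h]
    · rw [if_neg h]
      apply Finset.sum_eq_zero
      intro i _
      rw [if_neg h, mul_zero]
  · intro i _ hi
    apply Finset.sum_eq_zero
    intro j _
    rw [if_neg (fun h' => hi h'.symm), zero_mul]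
  · intro h'
    exact absurd (Finset.mem_univ a) h'

theorem ctl_mat_conj {ι κ : Type} [Fintype ι] [DecidableEq ι] [Fintype κ] [DecidableEq κ]
    (y : ι → Matrix κ κ ℂ) : (bd y)ᴴ = bd (fun i => (y i)ᴴ) := by
  ext ⟨a, b⟩ ⟨c, d⟩
  rw [Matrix.conjTranspose_apply, ctl_mat_apply, ctl_mat_apply]
  by_cases h : a = c
  · subst h
    rw [if_pos rfl, if_pos rfl, Matrix.conjTranspose_apply]
  · rw [if_neg h, if_neg (fun h' => h h'.symm), star_zero]

theorem ctl_mat_diag {ι κ : Type} [Fintype ι] [DecidableEq ι] [Fintype κ] [DecidableEq κ]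
    (D : ι → κ → ℂ) :
    Matrix.diagonal (fun a : ι × κ => D a.1 a.2) = bd (fun i => Matrix.diagonal (D i)) := by
  ext ⟨a, b⟩ ⟨c, d⟩
  rw [ctl_mat_apply, Matrix.diagonal_apply]
  by_cases h : a = c
  · subst h
    rw [if_pos rfl, Matrix.diagonal_apply]
    by_cases h2 : b = d
    · subst h2
      rw [if_pos rfl, if_pos rfl]
    · rw [if_neg h2, if_neg (fun h' => h2 (Prod.mk.inj h').2)]
  · rw [if_neg h, if_neg (fun h' => h (Prod.mk.inj h').1)]

/-- `ctl` in coordinates -/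
theorem ctl_mat (S : Sys M Ω blk) (n k : ℕ) (e : X n × X k ≃ X (n + k))
    (he : ∀ (x : Matrix (X n) (X n) ℂ) (y : Matrix (X k) (X k) ℂ),
      blk 0 n x * blk n k y = blk 0 (n + k) (Matrix.reindex e e (x ⊗ₖ y)))
    (Vf : Matrix (X n) (X n) ℂ) (y : X n → Matrix (X k) (X k) ℂ) (D : X n → X k → ℂ) :
    ctl blk n k Vf y D = blk 0 (n + k) (Matrix.reindex e e
      ((Vf ⊗ₖ 1) * bd y * Matrix.diagonal (fun a : X n × X k => D a.1 a.2) * (bd y)ᴴ *
        (Vf ⊗ₖ 1)ᴴ)) := by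
  have h1 : (Vf ⊗ₖ (1 : Matrix (X k) (X k) ℂ)) * bd y *
      Matrix.diagonal (fun a : X n × X k => D a.1 a.2) * (bd y)ᴴ *
        (Vf ⊗ₖ (1 : Matrix (X k) (X k) ℂ))ᴴ =
      ∑ i, (Vf * Matrix.single i i 1 * Vfᴴ) ⊗ₖ (y i * Matrix.diagonal (D i) * (y i)ᴴ) := by
    rw [ctl_mat_diag, ctl_mat_conj, Matrix.mul_assoc (Vf ⊗ₖ (1 : Matrix (X k) (X k) ℂ)) (bd y),
      ctl_mat_mul, Matrix.mul_assoc (Vf ⊗ₖ (1 : Matrix (X k) (X k) ℂ)), ctl_mat_mul,
      Matrix.conjTranspose_kronecker, Matrix.conjTranspose_one]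
    unfold bd
    rw [Matrix.mul_sum, Matrix.sum_mul]
    apply Finset.sum_congr rfl
    intro i _
    rw [← Matrix.mul_kronecker_mul, ← Matrix.mul_kronecker_mul, Matrix.one_mul, Matrix.mul_one]
  have h2 : ∀ f : X n → Matrix (X n × X k) (X n × X k) ℂ,
      Matrix.reindex e e (∑ i, f i) = ∑ i, Matrix.reindex e e (f i) := by
    intro f
    ext a b
    rw [Matrix.sum_apply, Matrix.reindex_apply, Matrix.submatrix_apply, Matrix.sum_apply]
    rfl
  rw [h1, h2, map_sum]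
  unfold ctl
  apply Finset.sum_congr rfl
  intro i _
  exact he _ _



theorem fs2_R_mul {α β : Type} [Fintype α] [Fintype β] [DecidableEq α] [DecidableEq β]
    (e : α ≃ β) (A B : Matrix α α ℂ) :
    Matrix.reindex e e (A * B) = Matrix.reindex e e A * Matrix.reindex e e B := by
  simp only [Matrix.reindex_apply]
  exact (Matrix.submatrix_mul_equiv A B _ _ _).symm

theorem fs2_R_star {α β : Type} (e : α ≃ β) (A : Matrix α α ℂ) :
    Matrix.reindex e e Aᴴ = (Matrix.reindex e e A)ᴴ := by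
  ext i j
  simp [Matrix.reindex_apply, Matrix.conjTranspose_apply]

theorem fs2_R_one {α β : Type} [DecidableEq α] [DecidableEq β] (e : α ≃ β) :
    Matrix.reindex e e (1 : Matrix α α ℂ) = 1 := by
  simp [Matrix.reindex_apply]

theorem fs2_R_sub {α β : Type} (e : α ≃ β) (A B : Matrix α α ℂ) :
    Matrix.reindex e e (A - B) = Matrix.reindex e e A - Matrix.reindex e e B := by
  ext i j
  simp [Matrix.reindex_apply]

theorem fs2_R_diag {α β : Type} [DecidableEq α] [DecidableEq β] (e : α ≃ β) (d : β → ℂ) :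
    Matrix.reindex e e (Matrix.diagonal (fun a => d (e a))) = Matrix.diagonal d := by
  ext i j
  simp only [Matrix.reindex_apply, Matrix.submatrix_apply, Matrix.diagonal_apply,
    EmbeddingLike.apply_eq_iff_eq, Equiv.apply_symm_apply]

theorem fs2_nhs {α β : Type} [Fintype α] [Fintype β] (e : α ≃ β) (x : Matrix α α ℂ) :
    nhs (Matrix.reindex e e x) = nhs x := by
  unfold nhs
  have h1 : ∑ i, ∑ j, ‖(Matrix.reindex e e x) i j‖ ^ 2 = ∑ i, ∑ j, ‖x i j‖ ^ 2 := by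
    simp only [Matrix.reindex_apply, Matrix.submatrix_apply]
    rw [← Equiv.sum_comp e.symm (fun i => ∑ j, ‖x i j‖ ^ 2)]
    refine Finset.sum_congr rfl fun i _ => ?_
    exact Equiv.sum_comp e.symm (fun j => ‖x (e.symm i) j‖ ^ 2)
  rw [h1, Fintype.card_congr e]

theorem fs2_un_mul {α : Type} [Fintype α] [DecidableEq α] {A B : Matrix α α ℂ} (hA : Un A)
    (hB : Un B) : Un (A * B) := by
  constructor
  · rw [Matrix.conjTranspose_mul, Matrix.mul_assoc, ← Matrix.mul_assoc Aᴴ, hA.1, Matrix.one_mul,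
      hB.1]
  · rw [Matrix.conjTranspose_mul, Matrix.mul_assoc, ← Matrix.mul_assoc B, hB.2, Matrix.one_mul,
      hA.2]

theorem fs2_un_star {α : Type} [Fintype α] [DecidableEq α] {A : Matrix α α ℂ} (hA : Un A) :
    Un Aᴴ := ⟨by rw [Matrix.conjTranspose_conjTranspose]; exact hA.2,
    by rw [Matrix.conjTranspose_conjTranspose]; exact hA.1⟩

theorem fs2_un_R {α β : Type} [Fintype α] [Fintype β] [DecidableEq α] [DecidableEq β]
    (e : α ≃ β) {A : Matrix α α ℂ} (hA : Un A) : Un (Matrix.reindex e e A) := by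
  constructor
  · rw [← fs2_R_star, ← fs2_R_mul, hA.1, fs2_R_one]
  · rw [← fs2_R_star, ← fs2_R_mul, hA.2, fs2_R_one]

theorem fs2_un_kron {α β : Type} [Fintype α] [Fintype β] [DecidableEq α] [DecidableEq β]
    {A : Matrix α α ℂ} (hA : Un A) : Un (A ⊗ₖ (1 : Matrix β β ℂ)) := by
  constructor
  · rw [Matrix.conjTranspose_kronecker, ← Matrix.mul_kronecker_mul, hA.1,
      Matrix.conjTranspose_one, Matrix.mul_one, Matrix.one_kronecker_one]
  · rw [Matrix.conjTranspose_kronecker, ← Matrix.mul_kronecker_mul, hA.2,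
      Matrix.conjTranspose_one, Matrix.mul_one, Matrix.one_kronecker_one]

theorem fs2_conj_nhs {α : Type} [Fintype α] [DecidableEq α] [Nonempty α] {W : Matrix α α ℂ}
    (hW : Un W) (x : Matrix α α ℂ) : nhs (W * x * Wᴴ) = nhs x := by
  rw [(nhs_basic (W * x) 0 Wᴴ (fs2_un_star hW) 0).2.2.2.2.1, (nhs_basic x 0 W hW 0).2.2.2.1]

theorem fs2_cancel {α : Type} [Fintype α] [DecidableEq α] {W : Matrix α α ℂ} (hW : Un W)
    (v c : Matrix α α ℂ) : W * ((Wᴴ * v) * c * (Wᴴ * v)ᴴ) * Wᴴ = v * c * vᴴ := by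
  have h : W * (Wᴴ * v) = v := by rw [← Matrix.mul_assoc, hW.2, Matrix.one_mul]
  calc W * ((Wᴴ * v) * c * (Wᴴ * v)ᴴ) * Wᴴ
      = (W * (Wᴴ * v)) * c * ((W * (Wᴴ * v))ᴴ) := by
        rw [Matrix.conjTranspose_mul W (Wᴴ * v)]
        simp only [Matrix.mul_assoc]
    _ = v * c * vᴴ := by rw [h]

theorem fs2_cancel2 {α : Type} [Fintype α] [DecidableEq α] {W : Matrix α α ℂ} (hW : Un W)
    (u z : Matrix α α ℂ) :
    (W * u * Wᴴ) * (W * z * Wᴴ) * (W * u * Wᴴ)ᴴ = W * (u * z * uᴴ) * Wᴴ := by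
  have h1 : Wᴴ * W = 1 := hW.1
  have e1 : (W * u * Wᴴ)ᴴ = W * uᴴ * Wᴴ := by
    rw [Matrix.conjTranspose_mul, Matrix.conjTranspose_mul, Matrix.conjTranspose_conjTranspose,
      Matrix.mul_assoc]
  rw [e1]
  calc (W * u * Wᴴ) * (W * z * Wᴴ) * (W * uᴴ * Wᴴ)
      = W * u * (Wᴴ * W) * z * (Wᴴ * W) * uᴴ * Wᴴ := by simp only [Matrix.mul_assoc]
    _ = W * (u * z * uᴴ) * Wᴴ := by
        rw [h1, Matrix.mul_one, Matrix.mul_one]
        simp only [Matrix.mul_assoc]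

theorem fs2 (S : Sys M Ω blk) (n : ℕ) (Vf : Matrix (X n) (X n) ℂ) (hVf : Un Vf) (ε1 : ℝ)
    (h1 : 0 < ε1) : ∃ ε2 : ℝ, 0 < ε2 ∧ ∀ B : VonNeumannAlgebra H, (∀ x ∈ B, x ∈ M) →
      (∀ x ∈ B, ∀ y ∈ B, x * y = y * x) →
      (∀ i, ∃ b ∈ B, ‖b‖ ≤ 1 ∧ ‖(blk 0 n (Vf * Matrix.single i i 1 * Vfᴴ) - b) Ω‖ < ε2) →
      ∀ T : Finset (H →L[ℂ] H), (∀ t ∈ T, t ∈ B ∧ ‖t‖ ≤ 1) → ∀ ε3 : ℝ, 0 < ε3 →
      ∃ (k : ℕ) (y : X n → Matrix (X k) (X k) ℂ) (u : Matrix (X (n + k)) (X (n + k)) ℂ),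
        (∀ i, Un (y i)) ∧ Un u ∧ ‖(blk 0 (n + k) u - 1) Ω‖ ≤ ε1 ∧
        ∀ t ∈ T, ∃ D : X n → X k → ℂ, (∀ i a, ‖D i a‖ ≤ 1) ∧
          ‖(t - blk 0 (n + k) u * ctl blk n k Vf y D * star (blk 0 (n + k) u)) Ω‖ < ε3 := by
  classical
  obtain ⟨ep, hep, hpert⟩ := perturb (ι := X n) ε1 h1
  refine ⟨ep / 2, by positivity, ?_⟩
  intro B hBM hBc hb T hT ε3 hε3
  choose b hbB hb1 hb2 using hb
  obtain ⟨m, v', hnm, hv', happ⟩ := approxB S B hBM hBc (T ∪ Finset.univ.image b) (by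
    intro t ht
    rcases Finset.mem_union.1 ht with ht | ht
    · exact hT t ht
    · obtain ⟨i, _, rfl⟩ := Finset.mem_image.1 ht
      exact ⟨hbB i, hb1 i⟩) (min ε3 (ep / 2)) (lt_min hε3 (by positivity)) n
  obtain ⟨k, rfl⟩ := Nat.exists_eq_add_of_le hnm
  obtain ⟨e, he0⟩ := S.mix 0 n k
  have he : ∀ (x : Matrix (X n) (X n) ℂ) (y : Matrix (X k) (X k) ℂ),
      blk 0 n x * blk n k y = blk 0 (n + k) (Matrix.reindex e e (x ⊗ₖ y)) := by
    intro x y
    have := he0 x y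
    rw [zero_add] at this
    exact this
  have he1 : ∀ x : Matrix (X n) (X n) ℂ,
      blk 0 n x = blk 0 (n + k) (Matrix.reindex e e (x ⊗ₖ (1 : Matrix (X k) (X k) ℂ))) := by
    intro x
    rw [← he x 1, map_one, mul_one]
  have hneN : Nonempty (X n) := ⟨⟨0, by positivity⟩⟩
  have hneK : Nonempty (X k) := ⟨⟨0, by positivity⟩⟩
  obtain ⟨v, hvv⟩ : ∃ v : Matrix (X n × X k) (X n × X k) ℂ, v' = Matrix.reindex e e v :=
    ⟨Matrix.reindex e.symm e.symm v', by ext i j; simp [Matrix.reindex_apply]⟩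
  have hv : Un v := by
    have h := fs2_un_R e.symm hv'
    have h2 : Matrix.reindex e.symm e.symm v' = v := by
      rw [hvv]; ext i j; simp [Matrix.reindex_apply]
    rwa [h2] at h
  set W : Matrix (X n × X k) (X n × X k) ℂ := Vf ⊗ₖ (1 : Matrix (X k) (X k) ℂ) with hWdef
  have hW : Un W := fs2_un_kron hVf
  have hdiag : ∀ d : X (n + k) → ℂ, v' * Matrix.diagonal d * v'ᴴ =
      Matrix.reindex e e (v * Matrix.diagonal (fun a => d (e a)) * vᴴ) := by
    intro d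
    rw [fs2_R_mul, fs2_R_mul, fs2_R_star, fs2_R_diag, ← hvv]
  have hv'' : Un (Wᴴ * v) := fs2_un_mul (fs2_un_star hW) hv
  obtain ⟨u'', y, π, hu'', hu1, hy, hform⟩ := hpert (X k) (Wᴴ * v) hv'' (by
    intro i
    obtain ⟨d, hd1, hd2⟩ := happ (b i)
      (Finset.mem_union_right _ (Finset.mem_image_of_mem b (Finset.mem_univ i)))
    refine ⟨fun a => d (e a), fun a => hd1 _, ?_⟩
    have hP : blk 0 n (Vf * Matrix.single i i 1 * Vfᴴ) =
        blk 0 (n + k) (Matrix.reindex e e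
          (W * (Matrix.single i i (1 : ℂ) ⊗ₖ (1 : Matrix (X k) (X k) ℂ)) * Wᴴ)) := by
      rw [he1]
      congr 2
      rw [hWdef, Matrix.conjTranspose_kronecker, Matrix.conjTranspose_one,
        ← Matrix.mul_kronecker_mul, ← Matrix.mul_kronecker_mul, Matrix.mul_one, Matrix.mul_one]
    have hdist : ‖(blk 0 n (Vf * Matrix.single i i 1 * Vfᴴ) -
        blk 0 (n + k) (v' * Matrix.diagonal d * v'ᴴ)) Ω‖ ≤ ep := by
      have hsplit : (blk 0 n (Vf * Matrix.single i i 1 * Vfᴴ) -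
          blk 0 (n + k) (v' * Matrix.diagonal d * v'ᴴ)) Ω =
          (blk 0 n (Vf * Matrix.single i i 1 * Vfᴴ) - b i) Ω +
          (b i - blk 0 (n + k) (v' * Matrix.diagonal d * v'ᴴ)) Ω := by
        rw [← add_apply]
        congr 1
        abel
      rw [hsplit]
      have h3 := norm_add_le ((blk 0 n (Vf * Matrix.single i i 1 * Vfᴴ) - b i) Ω)
        ((b i - blk 0 (n + k) (v' * Matrix.diagonal d * v'ᴴ)) Ω)
      have h4 := hb2 i
      have h5 := lt_of_lt_of_le hd2 (min_le_right _ _)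
      linarith
    rw [hP, ← map_sub, blk_norm S, hdiag, ← fs2_R_sub, fs2_nhs] at hdist
    have hc := fs2_cancel hW v (Matrix.diagonal (fun a => d (e a)))
    rw [← hc, ← Matrix.sub_mul, ← Matrix.mul_sub, fs2_conj_nhs hW] at hdist
    exact hdist)
  have hu : Un (Matrix.reindex e e (W * u'' * Wᴴ)) :=
    fs2_un_R e (fs2_un_mul (fs2_un_mul hW hu'') (fs2_un_star hW))
  refine ⟨k, y, Matrix.reindex e e (W * u'' * Wᴴ), hy, hu, ?_, ?_⟩
  · have h6 : blk 0 (n + k) (Matrix.reindex e e (W * u'' * Wᴴ)) - 1 =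
        blk 0 (n + k) (Matrix.reindex e e (W * (u'' - 1) * Wᴴ)) := by
      rw [Matrix.mul_sub, Matrix.sub_mul, Matrix.mul_one, hW.2, fs2_R_sub, fs2_R_one, map_sub,
        map_one]
    rw [h6, blk_norm S, fs2_nhs, fs2_conj_nhs hW]
    exact hu1
  · intro t ht
    obtain ⟨d, hd1, hd2⟩ := happ t (Finset.mem_union_left _ ht)
    refine ⟨fun i a => d (e (π (i, a))), fun i a => hd1 _, ?_⟩
    have h7 : blk 0 (n + k) (Matrix.reindex e e (W * u'' * Wᴴ)) *
        ctl blk n k Vf y (fun i a => d (e (π (i, a)))) *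
        star (blk 0 (n + k) (Matrix.reindex e e (W * u'' * Wᴴ))) =
        blk 0 (n + k) (v' * Matrix.diagonal d * v'ᴴ) := by
      rw [ctl_mat S n k e he, ← map_star, ← map_mul, ← map_mul]
      congr 1
      rw [Matrix.star_eq_conjTranspose, ← fs2_R_star, ← fs2_R_mul, ← fs2_R_mul, hdiag]
      congr 1
      have h8 := fs2_cancel2 hW u''
        (bd y * Matrix.diagonal (fun a : X n × X k => d (e (π a))) * (bd y)ᴴ)
      have h9 : W * (bd y * Matrix.diagonal (fun a : X n × X k => d (e (π a))) * (bd y)ᴴ) * Wᴴ =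
          W * bd y * Matrix.diagonal (fun a : X n × X k => d (e (π (a.1, a.2)))) * (bd y)ᴴ *
            Wᴴ := by
        simp only [Matrix.mul_assoc]
      rw [h9] at h8
      rw [h8]
      have h10 := hform (fun a => d (e a))
      have h11 : u'' * (bd y * Matrix.diagonal (fun a : X n × X k => d (e (π a))) * (bd y)ᴴ) *
          u''ᴴ = (Wᴴ * v) * Matrix.diagonal (fun a => d (e a)) * (Wᴴ * v)ᴴ := by
        rw [h10]
        simp only [Matrix.mul_assoc]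
      rw [h11, fs2_cancel hW]
    rw [h7]
    exact lt_of_lt_of_le hd2 (min_le_left _ _)


theorem fs3_un_reindex {ι κ : Type} [Fintype ι] [DecidableEq ι] [Fintype κ] [DecidableEq κ]
    (e : ι ≃ κ) (V : Matrix ι ι ℂ) (hV : Un V) : Un (Matrix.reindex e e V) := by
  obtain ⟨h1, h2⟩ := hV
  constructor
  · rw [Matrix.reindex_apply, Matrix.conjTranspose_submatrix, Matrix.submatrix_mul_equiv, h1,
      Matrix.submatrix_one_equiv]
  · rw [Matrix.reindex_apply, Matrix.conjTranspose_submatrix, Matrix.submatrix_mul_equiv, h2,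
      Matrix.submatrix_one_equiv]

theorem fs3_un_mul {ι : Type} [Fintype ι] [DecidableEq ι]
    (V W : Matrix ι ι ℂ) (hV : Un V) (hW : Un W) : Un (V * W) := by
  obtain ⟨h1, h2⟩ := hV
  obtain ⟨h3, h4⟩ := hW
  constructor
  · rw [Matrix.conjTranspose_mul, Matrix.mul_assoc, ← Matrix.mul_assoc Vᴴ, h1, Matrix.one_mul, h3]
  · rw [Matrix.conjTranspose_mul, Matrix.mul_assoc, ← Matrix.mul_assoc W, h4, Matrix.one_mul, h2]

theorem fs3_un_ct {ι : Type} [Fintype ι] [DecidableEq ι]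
    (V : Matrix ι ι ℂ) (hV : Un V) : Un Vᴴ := by
  obtain ⟨h1, h2⟩ := hV
  constructor
  · rw [Matrix.conjTranspose_conjTranspose, h2]
  · rw [Matrix.conjTranspose_conjTranspose, h1]

theorem fs3_un_kron {ι κ : Type} [Fintype ι] [DecidableEq ι] [Fintype κ] [DecidableEq κ]
    (V : Matrix ι ι ℂ) (hV : Un V) : Un (V ⊗ₖ (1 : Matrix κ κ ℂ)) := by
  obtain ⟨h1, h2⟩ := hV
  constructor
  · rw [Matrix.conjTranspose_kronecker, ← Matrix.mul_kronecker_mul, h1, Matrix.conjTranspose_one,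
      Matrix.one_mul, Matrix.one_kronecker_one]
  · rw [Matrix.conjTranspose_kronecker, ← Matrix.mul_kronecker_mul, h2, Matrix.conjTranspose_one,
      Matrix.one_mul, Matrix.one_kronecker_one]

theorem fs3_bd_eq {ι κ : Type} [Fintype ι] [DecidableEq ι] [Fintype κ] [DecidableEq κ]
    (y : ι → Matrix κ κ ℂ) :
    bd y = Matrix.reindex (Equiv.prodComm κ ι) (Equiv.prodComm κ ι) (Matrix.blockDiagonal y) := by
  ext ⟨i, a⟩ ⟨j, b⟩
  unfold bd
  rw [Matrix.sum_apply]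
  simp only [Matrix.kroneckerMap_apply, Matrix.reindex_apply, Matrix.submatrix_apply,
    Equiv.prodComm_symm, Equiv.prodComm_apply, Prod.swap_prod_mk, Matrix.blockDiagonal_apply,
    Matrix.single_apply]
  by_cases hij : i = j
  · subst hij
    simp
  · rw [if_neg hij]
    refine Finset.sum_eq_zero fun c _ => ?_
    have : ¬ (c = i ∧ c = j) := fun h => hij (h.1.symm.trans h.2)
    simp [this]

theorem fs3_un_bd {ι κ : Type} [Fintype ι] [DecidableEq ι] [Fintype κ] [DecidableEq κ]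
    (y : ι → Matrix κ κ ℂ) (hy : ∀ i, Un (y i)) : Un (bd y) := by
  rw [fs3_bd_eq]
  apply fs3_un_reindex
  constructor
  · rw [Matrix.blockDiagonal_conjTranspose, ← Matrix.blockDiagonal_mul, ← Matrix.blockDiagonal_one]
    congr 1
    funext i
    exact (hy i).1
  · rw [Matrix.blockDiagonal_conjTranspose, ← Matrix.blockDiagonal_mul, ← Matrix.blockDiagonal_one]
    congr 1
    funext i
    exact (hy i).2

theorem fs3_norm (S : Sys M Ω blk) (n k : ℕ) (Vf : Matrix (X n) (X n) ℂ) (hVf : Un Vf)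
    (z : X n → Matrix (X k) (X k) ℂ) (hz : ∀ i, Un (z i)) (D : X n → X k → ℂ)
    (hD : ∀ i a, ‖D i a‖ ≤ 1) : ‖ctl blk n k Vf z D‖ ≤ 1 := by
  obtain ⟨e, he⟩ := S.mix 0 n k
  have he' : ∀ (x : Matrix (X n) (X n) ℂ) (y : Matrix (X k) (X k) ℂ),
      blk 0 n x * blk n k y = blk 0 (n + k) (Matrix.reindex e e (x ⊗ₖ y)) := by
    intro x y
    have h := he x y
    rw [Nat.zero_add] at h
    exact h
  rw [ctl_mat S n k e he']
  set W : Matrix (X n × X k) (X n × X k) ℂ := (Vf ⊗ₖ 1) * bd z with hW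
  have hWu : Un W := fs3_un_mul _ _ (fs3_un_kron Vf hVf) (fs3_un_bd z hz)
  have hEq : Matrix.reindex e e ((Vf ⊗ₖ 1) * bd z * Matrix.diagonal
      (fun a : X n × X k => D a.1 a.2) * (bd z)ᴴ * (Vf ⊗ₖ 1)ᴴ) =
      Matrix.reindex e e W * Matrix.diagonal (fun b => D (e.symm b).1 (e.symm b).2) *
        (Matrix.reindex e e W)ᴴ := by
    have h0 : (Vf ⊗ₖ (1 : Matrix (X k) (X k) ℂ)) * bd z * Matrix.diagonal
      (fun a : X n × X k => D a.1 a.2) * (bd z)ᴴ * (Vf ⊗ₖ 1)ᴴ =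
      W * Matrix.diagonal (fun a : X n × X k => D a.1 a.2) * Wᴴ := by
      rw [hW, Matrix.conjTranspose_mul]
      simp only [Matrix.mul_assoc]
    rw [h0]
    have h1 : Matrix.diagonal (fun b => D (e.symm b).1 (e.symm b).2) =
        Matrix.reindex e e (Matrix.diagonal (fun a : X n × X k => D a.1 a.2)) := by
      rw [Matrix.reindex_apply, Matrix.submatrix_diagonal_equiv]
      rfl
    rw [h1]
    simp only [Matrix.reindex_apply, Matrix.conjTranspose_submatrix, Matrix.submatrix_mul_equiv]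
  rw [hEq]
  exact dg_norm S 0 (n + k) _ (fs3_un_reindex e W hWu) _ (fun i => hD _ _)

theorem fs3_nhs {ι : Type} [Fintype ι] (x : Matrix ι ι ℂ) (δ : ℝ) (hδ : 0 ≤ δ)
    (h : ∀ a b, ‖x a b‖ ≤ δ) : nhs x ≤ Fintype.card ι * δ := by
  unfold nhs
  apply Real.sqrt_le_iff.2
  refine ⟨by positivity, ?_⟩
  rcases Nat.eq_zero_or_pos (Fintype.card ι) with h0 | h0
  · rw [h0]; simp
  have hc : (1 : ℝ) ≤ Fintype.card ι := by exact_mod_cast h0
  have hs : (∑ i, ∑ j, ‖x i j‖ ^ 2) ≤ ∑ _i : ι, ∑ _j : ι, δ ^ 2 := by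
    refine Finset.sum_le_sum fun i _ => Finset.sum_le_sum fun j _ => ?_
    exact pow_le_pow_left₀ (norm_nonneg _) (h i j) 2
  have hs2 : (∑ _i : ι, ∑ _j : ι, δ ^ 2) = (Fintype.card ι : ℝ) * (Fintype.card ι * δ ^ 2) := by
    simp [Finset.sum_const, Finset.card_univ]
  rw [hs2] at hs
  rw [div_le_iff₀ (by linarith)]
  calc (∑ i, ∑ j, ‖x i j‖ ^ 2) ≤ (Fintype.card ι : ℝ) * (Fintype.card ι * δ ^ 2) := hs
    _ = ((Fintype.card ι : ℝ) * δ) ^ 2 * 1 := by ring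
    _ ≤ ((Fintype.card ι : ℝ) * δ) ^ 2 * Fintype.card ι :=
        mul_le_mul_of_nonneg_left hc (by positivity)

theorem fs3_diff (k : ℕ) (y z : Matrix (X k) (X k) ℂ) (hy : Un y) (hz : Un z) (δ : ℝ)
    (hδ : 0 ≤ δ) (h : ∀ a b, ‖z a b - y a b‖ ≤ δ) (D : X k → ℂ) (hD : ∀ a, ‖D a‖ ≤ 1) :
    nhs (y * Matrix.diagonal D * yᴴ - z * Matrix.diagonal D * zᴴ) ≤ 2 * (2 ^ k * δ) := by
  have : Nonempty (X k) := ⟨⟨0, by positivity⟩⟩
  have hcard : (Fintype.card (X k) : ℝ) = 2 ^ k := by simp [X]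
  have h0 : y * Matrix.diagonal D * yᴴ - z * Matrix.diagonal D * zᴴ =
      (y - z) * Matrix.diagonal D * yᴴ + z * (Matrix.diagonal D * (y - z)ᴴ) := by
    rw [Matrix.conjTranspose_sub]
    noncomm_ring
  rw [h0]
  have h1 := (nhs_basic ((y - z) * Matrix.diagonal D * yᴴ) (z * (Matrix.diagonal D * (y - z)ᴴ))
    1 (by constructor <;> simp) 0).2.1
  have h2 : nhs ((y - z) * Matrix.diagonal D * yᴴ) = nhs ((y - z) * Matrix.diagonal D) :=
    (nhs_basic ((y - z) * Matrix.diagonal D) 0 yᴴ (fs3_un_ct y hy) 0).2.2.2.2.1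
  have h3 : nhs (z * (Matrix.diagonal D * (y - z)ᴴ)) = nhs (Matrix.diagonal D * (y - z)ᴴ) :=
    (nhs_basic (Matrix.diagonal D * (y - z)ᴴ) 0 z hz 0).2.2.2.1
  have h4 : nhs ((y - z) * Matrix.diagonal D) ≤ Fintype.card (X k) * δ := by
    apply fs3_nhs _ _ hδ
    intro a b
    rw [Matrix.mul_diagonal, Matrix.sub_apply, norm_mul]
    calc ‖y a b - z a b‖ * ‖D b‖ ≤ δ * 1 := by
          apply mul_le_mul _ (hD b) (norm_nonneg _) hδ
          rw [norm_sub_rev]; exact h a b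
      _ = δ := mul_one δ
  have h5 : nhs (Matrix.diagonal D * (y - z)ᴴ) ≤ Fintype.card (X k) * δ := by
    apply fs3_nhs _ _ hδ
    intro a b
    rw [Matrix.diagonal_mul, Matrix.conjTranspose_apply, Matrix.sub_apply, norm_mul, norm_star]
    calc ‖D a‖ * ‖y b a - z b a‖ ≤ 1 * δ := by
          apply mul_le_mul (hD a) _ (norm_nonneg _) (by norm_num)
          rw [norm_sub_rev]; exact h b a
      _ = δ := one_mul δ
  rw [hcard] at h4 h5
  linarith


theorem fs3 (S : Sys M Ω blk) (n k : ℕ) (Vf : Matrix (X n) (X n) ℂ) (hVf : Un Vf)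
    (y : X n → Matrix (X k) (X k) ℂ) (hy : ∀ i, Un (y i)) (ε : ℝ) (hε : 0 < ε) :
    ∃ δ : ℝ, 0 < δ ∧ ∀ z : X n → Matrix (X k) (X k) ℂ, (∀ i, Un (z i)) →
      (∀ i a b, ‖z i a b - y i a b‖ < δ) → ∀ D : X n → X k → ℂ, (∀ i a, ‖D i a‖ ≤ 1) →
        ‖ctl blk n k Vf z D‖ ≤ 1 ∧ ‖(ctl blk n k Vf y D - ctl blk n k Vf z D) Ω‖ < ε := by
  set C : ℝ := 2 ^ n * (2 * 2 ^ k) with hC
  have hCpos : 0 < C := by positivity
  refine ⟨ε / (2 * C), by positivity, ?_⟩
  intro z hz hyz D hD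
  refine ⟨fs3_norm S n k Vf hVf z hz D hD, ?_⟩
  set δ : ℝ := ε / (2 * C) with hδ
  have hδp : 0 < δ := by positivity
  have hp : ∀ i, ‖blk 0 n (Vf * Matrix.single i i 1 * Vfᴴ)‖ ≤ 1 := by
    intro i
    rw [← Matrix.diagonal_single]
    refine dg_norm S 0 n Vf hVf _ ?_
    intro j
    by_cases hij : j = i
    · subst hij; simp
    · simp [hij]
  have hdiff : (ctl blk n k Vf y D - ctl blk n k Vf z D) Ω =
      ∑ i, (blk 0 n (Vf * Matrix.single i i 1 * Vfᴴ))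
        ((blk n k (y i * Matrix.diagonal (D i) * (y i)ᴴ - z i * Matrix.diagonal (D i) * (z i)ᴴ)) Ω) := by
    unfold ctl
    rw [← Finset.sum_sub_distrib, ContinuousLinearMap.sum_apply]
    refine Finset.sum_congr rfl fun i _ => ?_
    rw [map_sub, ← mul_sub, ContinuousLinearMap.mul_apply]
  rw [hdiff]
  have hb : ∀ i, ‖(blk 0 n (Vf * Matrix.single i i 1 * Vfᴴ))
        ((blk n k (y i * Matrix.diagonal (D i) * (y i)ᴴ - z i * Matrix.diagonal (D i) * (z i)ᴴ)) Ω)‖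
        ≤ 2 * (2 ^ k * δ) := by
    intro i
    refine le_trans (ContinuousLinearMap.le_opNorm _ _) ?_
    rw [blk_norm S]
    have h1 := fs3_diff k (y i) (z i) (hy i) (hz i) δ hδp.le (fun a b => (hyz i a b).le) (D i) (hD i)
    have h2 : 0 ≤ nhs (y i * Matrix.diagonal (D i) * (y i)ᴴ - z i * Matrix.diagonal (D i) * (z i)ᴴ) := by
      unfold nhs; exact Real.sqrt_nonneg _
    calc _ ≤ 1 * nhs (y i * Matrix.diagonal (D i) * (y i)ᴴ - z i * Matrix.diagonal (D i) * (z i)ᴴ) :=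
          mul_le_mul_of_nonneg_right (hp i) h2
      _ ≤ _ := by rw [one_mul]; exact h1
  calc _ ≤ ∑ i : X n, ‖(blk 0 n (Vf * Matrix.single i i 1 * Vfᴴ))
        ((blk n k (y i * Matrix.diagonal (D i) * (y i)ᴴ - z i * Matrix.diagonal (D i) * (z i)ᴴ)) Ω)‖ :=
        norm_sum_le _ _
    _ ≤ ∑ _i : X n, 2 * (2 ^ k * δ) := Finset.sum_le_sum fun i _ => hb i
    _ = 2 ^ n * (2 * (2 ^ k * δ)) := by
        rw [Finset.sum_const, Finset.card_univ, nsmul_eq_mul]
        simp [X]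
    _ = ε / 2 := by
        rw [hδ, hC]
        field_simp
    _ < ε := by linarith



theorem fs4_norm (a b : H →L[ℂ] H) (ha : ‖a‖ ≤ 1) (hb : ‖b‖ ≤ 1) : ‖a * b‖ ≤ 1 :=
  (norm_mul_le a b).trans (mul_le_one₀ ha (norm_nonneg b) hb)

theorem fs4_key (S : Sys M Ω blk) (v y : H →L[ℂ] H) (hv : v ∈ M) (hy : y ∈ M)
    (nv : ‖v‖ ≤ 1) (ny : ‖y‖ ≤ 1) (ε : ℝ) (hε : ‖(v - 1) Ω‖ ≤ ε) :
    ‖(v * y * star v - y) Ω‖ ≤ 2 * ε := by
  have hsv : star v ∈ M := star_mem hv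
  have h1 : (1 : H →L[ℂ] H) ∈ M := one_mem M
  have e : v * y * star v - y = (v - 1) * (y * star v) + y * (star v - 1) := by
    noncomm_ring
  have e2 : star v - 1 = star (v - 1) := by rw [star_sub, star_one]
  have nsv : ‖star v‖ ≤ 1 := by rw [norm_star]; exact nv
  rw [e, ContinuousLinearMap.add_apply]
  have hA := (sys_mul S (v - 1) (y * star v) (sub_mem hv h1) (mul_mem hy hsv)).2
  have hB := (sys_mul S y (star v - 1) hy (sub_mem hsv h1)).1
  have hC : ‖(star v - 1) Ω‖ ≤ ε := by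
    rw [e2, sys_star S (v - 1) (sub_mem hv h1)]; exact hε
  have hD := fs4_norm y (star v) ny nsv
  have hA' : ‖((v - 1) * (y * star v)) Ω‖ ≤ ε := by
    refine hA.trans ?_
    calc ‖y * star v‖ * ‖(v - 1) Ω‖ ≤ 1 * ‖(v - 1) Ω‖ :=
          mul_le_mul_of_nonneg_right hD (norm_nonneg _)
      _ ≤ ε := by rw [one_mul]; exact hε
  have hB' : ‖(y * (star v - 1)) Ω‖ ≤ ε := by
    refine hB.trans ?_
    calc ‖y‖ * ‖(star v - 1) Ω‖ ≤ 1 * ‖(star v - 1) Ω‖ :=
          mul_le_mul_of_nonneg_right ny (norm_nonneg _)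
      _ ≤ ε := by rw [one_mul]; exact hC
  refine (norm_add_le _ _).trans ?_
  linarith

theorem fs4 (S : Sys M Ω blk) (g u w x : H →L[ℂ] H) (hg : g ∈ M) (hu : u ∈ M) (hw : w ∈ M)
    (hx : x ∈ M) (ug : star g * g = 1 ∧ g * star g = 1) (uu : star u * u = 1 ∧ u * star u = 1)
    (uw : star w * w = 1 ∧ w * star w = 1) (hx1 : ‖x‖ ≤ 1) (c1 : w * x = x * w)
    (c2 : w * (star g * x * g) = (star g * x * g) * w) (ε : ℝ) (hε : ‖(u - 1) Ω‖ ≤ ε) :
    ‖((u * g * star w) * x * star (u * g * star w) - g * x * star g) Ω‖ ≤ 2 * ε ∧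
    ‖(star (u * g * star w) * x * (u * g * star w) - star g * x * g) Ω‖ ≤ 2 * ε := by
  have ng : ‖g‖ ≤ 1 := un_norm g ug.1
  have nu : ‖u‖ ≤ 1 := un_norm u uu.1
  have nw : ‖w‖ ≤ 1 := un_norm w uw.1
  have ngs : ‖star g‖ ≤ 1 := by rw [norm_star]; exact ng
  have nus : ‖star u‖ ≤ 1 := by rw [norm_star]; exact nu
  have nws : ‖star w‖ ≤ 1 := by rw [norm_star]; exact nw
  have hgs : star g ∈ M := star_mem hg
  have hus : star u ∈ M := star_mem hu
  have hws : star w ∈ M := star_mem hw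
  have hst : star (u * g * star w) = w * (star g * star u) := by
    rw [star_mul, star_mul, star_star]
  have hxw : star w * x * w = x := by
    rw [mul_assoc, ← c1, ← mul_assoc, uw.1, one_mul]
  have hgw : w * (star g * x * g) * star w = star g * x * g := by
    rw [c2, mul_assoc, uw.2, mul_one]
  rw [hst]
  constructor
  · have e1 : u * g * star w * x * (w * (star g * star u)) - g * x * star g =
        u * (g * x * star g) * star u - g * x * star g := by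
      have : u * g * star w * x * (w * (star g * star u)) =
          u * g * (star w * x * w) * star g * star u := by noncomm_ring
      rw [this, hxw]
      noncomm_ring
    rw [e1]
    exact fs4_key S u (g * x * star g) hu (mul_mem (mul_mem hg hx) hgs) nu
      (fs4_norm _ _ (fs4_norm _ _ ng hx1) ngs) ε hε
  · have e2 : w * (star g * star u) * x * (u * g * star w) - star g * x * g =
        w * ((star g * (star u * x * star (star u) - x)) * g) * star w := by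
      have h3 : w * ((star g * (star u * x * star (star u) - x)) * g) * star w =
          w * (star g * star u) * x * (u * g * star w) - w * (star g * x * g) * star w := by
        rw [star_star]
        noncomm_ring
      rw [h3, hgw]
    rw [e2]
    have hK : star u * x * star (star u) - x ∈ M :=
      sub_mem (mul_mem (mul_mem hus hx) (star_mem hus)) hx
    have h4 : ‖(star u - 1) Ω‖ ≤ ε := by
      have : star u - 1 = star (u - 1) := by rw [star_sub, star_one]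
      rw [this, sys_star S (u - 1) (sub_mem hu (one_mem M))]
      exact hε
    have h5 := fs4_key S (star u) x hus hx nus hx1 ε h4
    have hm1 : star g * (star u * x * star (star u) - x) ∈ M := mul_mem hgs hK
    have hm2 := mul_mem hm1 hg
    have hm3 := mul_mem hw hm2
    have s1 := (sys_mul S _ _ hm3 hws).2
    have s2 := (sys_mul S _ _ hw hm2).1
    have s3 := (sys_mul S _ _ hm1 hg).2
    have s4 := (sys_mul S _ _ hgs hK).1
    have cut : ∀ (a : H →L[ℂ] H) (r : ℝ), ‖a‖ ≤ 1 → 0 ≤ r → ‖a‖ * r ≤ r := by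
      intro a r ha hr
      calc ‖a‖ * r ≤ 1 * r := mul_le_mul_of_nonneg_right ha hr
        _ = r := one_mul r
    calc _ ≤ _ := s1
      _ ≤ _ := cut _ _ nws (norm_nonneg _)
      _ ≤ _ := s2
      _ ≤ _ := cut _ _ nw (norm_nonneg _)
      _ ≤ _ := s3
      _ ≤ _ := cut _ _ ng (norm_nonneg _)
      _ ≤ _ := s4
      _ ≤ _ := cut _ _ ngs (norm_nonneg _)
      _ ≤ 2 * ε := h5

/-- `B = g A g^*` -/
def IsCj (g : H →L[ℂ] H) (A B : Masa M) : Prop := ∀ x, x ∈ B.1 ↔ star g * x * g ∈ A.1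

/-- the properties of the generic tower and its masa -/
structure Tower (M : VonNeumannAlgebra H) (Ω : H)
    (blk : ∀ _a k : ℕ, Matrix (X k) (X k) ℂ →⋆ₐ[ℂ] (H →L[ℂ] H))
    (l : ℕ → ℕ) (V : ∀ t, Matrix (X (l t)) (X (l t)) ℂ) (A : Masa M) : Prop where
  un : ∀ t, Un (V t)
  le : ∀ t, t ≤ l t
  mono : ∀ s t, s ≤ t → l s ≤ l t
  sub : ∀ t, ∀ x ∈ Dg blk (l t) (V t), x ∈ A.1
  app : ∀ a ∈ A.1, ‖a‖ ≤ 1 → ∀ ε : ℝ, 0 < ε → ∃ N, ∀ t, N ≤ t →
        ∃ d ∈ Dg blk (l t) (V t), ‖d‖ ≤ 1 ∧ ‖(a - d) Ω‖ < ε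
  gen : ∀ (s k : ℕ) (z : X (l s) → Matrix (X k) (X k) ℂ), (∀ i, Un (z i)) → ∀ ε : ℝ, 0 < ε →
      ∃ (t : ℕ) (z' : X (l s) → Matrix (X k) (X k) ℂ) (w : H →L[ℂ] H),
        (∀ i, Un (z' i)) ∧ (∀ i a b, ‖z' i a b - z i a b‖ < ε) ∧
        (∃ x : Matrix (X (l t)) (X (l t)) ℂ, w = blk 0 (l t) x) ∧
        star w * w = 1 ∧ w * star w = 1 ∧
        (∀ x : Matrix (X (l s)) (X (l s)) ℂ, w * blk 0 (l s) x = blk 0 (l s) x * w) ∧
        ∀ (i : X (l s)) (d : X k → ℂ),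
          w * (blk 0 (l s) (V s * Matrix.single i i 1 * (V s)ᴴ) *
            blk (l s) k (z' i * Matrix.diagonal d * (z' i)ᴴ)) * star w ∈ Dg blk (l t) (V t)



/-- first half of the fusion step: localisation of an open set at a high level -/
theorem fsA (S : Sys M Ω blk) (l : ℕ → ℕ) (V : ∀ t, Matrix (X (l t)) (X (l t)) ℂ) (A0 : Masa M)
    (τ : Tower M Ω blk l V A0) (s : ℕ) (γ : Matrix (X (l s)) (X (l s)) ℂ) (hγ : Un γ)
    (A : Masa M) (hA : IsCj (blk 0 (l s) γ) A0 A) (W : Set (Masa M)) (hW : IsOpen W)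
    (hAW : A ∈ W) :
    ∃ s1, s ≤ s1 ∧ ∃ γ1 : Matrix (X (l s1)) (X (l s1)) ℂ, Un γ1 ∧
      blk 0 (l s) γ = blk 0 (l s1) γ1 ∧ (∀ x ∈ Dg blk (l s1) (γ1 * V s1), x ∈ A.1) ∧
      ∃ (T : Finset (X (l s1) → ℂ)) (ε0 : ℝ), 0 < ε0 ∧ (∀ δ ∈ T, ∀ i, ‖δ i‖ ≤ 1) ∧
      ∀ B : Masa M, (∀ δ ∈ T, ∃ b ∈ B.1, ‖b‖ ≤ 1 ∧
          ‖(blk 0 (l s1) ((γ1 * V s1) * Matrix.diagonal δ * (γ1 * V s1)ᴴ) - b) Ω‖ < ε0) →
        B ∈ W := by
  classical
  set g : H →L[ℂ] H := blk 0 (l s) γ with hg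
  have hsg : star g = blk 0 (l s) γᴴ := by
    rw [hg, ← map_star]; rfl
  have hg1 : star g * g = 1 := by
    rw [hsg, hg, ← map_mul, hγ.1, map_one]
  have hg2 : g * star g = 1 := by
    rw [hsg, hg, ← map_mul, hγ.2, map_one]
  have hgM : g ∈ M := S.mem _ _ _
  have hgM' : star g ∈ M := by rw [hsg]; exact S.mem _ _ _
  have hgn : ‖g‖ ≤ 1 := un_norm g hg1
  have hgn' : ‖star g‖ ≤ 1 := un_norm (star g) (by rw [star_star]; exact hg2)
  obtain ⟨T0, e, he, hT0, hB0⟩ := T1 S A W hW hAW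
  have haA : ∀ t ∈ T0, star g * t * g ∈ A0.1 := fun t ht => (hA t).1 (hT0 t ht).1
  have han : ∀ t ∈ T0, ‖star g * t * g‖ ≤ 1 := by
    intro t ht
    calc ‖star g * t * g‖ ≤ ‖star g * t‖ * ‖g‖ := norm_mul_le _ _
      _ ≤ (‖star g‖ * ‖t‖) * ‖g‖ := by gcongr; exact norm_mul_le _ _
      _ ≤ (1 * 1) * 1 := by
        gcongr
        exact (hT0 t ht).2
      _ = 1 := by norm_num
  have happ : ∀ t ∈ T0, ∃ N, ∀ t', N ≤ t' → ∃ d ∈ Dg blk (l t') (V t'), ‖d‖ ≤ 1 ∧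
      ‖(star g * t * g - d) Ω‖ < e / 2 := fun t ht =>
    τ.app _ (haA t ht) (han t ht) (e / 2) (by positivity)
  choose! N hN using happ
  obtain ⟨γ1, hγ1⟩ := blk_up S (l s) (l (max s (T0.sup N))) (τ.mono _ _ (le_max_left _ _)) γ
  have hs1 : s ≤ max s (T0.sup N) := le_max_left _ _
  have hNs : ∀ t ∈ T0, N t ≤ max s (T0.sup N) := fun t ht =>
    (Finset.le_sup ht).trans (le_max_right _ _)
  generalize max s (T0.sup N) = s1 at γ1 hγ1 hs1 hNs
  have hgs : g = blk 0 (l s1) γ1 := by rw [hg, hγ1]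
  have hsgs : star g = blk 0 (l s1) γ1ᴴ := by
    rw [hgs, ← map_star]; rfl
  have hU : Un γ1 := by
    constructor
    · apply blk_inj S 0 (l s1)
      rw [map_mul, ← hsgs, ← hgs, hg1, map_one]
    · apply blk_inj S 0 (l s1)
      rw [map_mul, ← hsgs, ← hgs, hg2, map_one]
  have hconj : ∀ δ : X (l s1) → ℂ,
      blk 0 (l s1) ((γ1 * V s1) * Matrix.diagonal δ * (γ1 * V s1)ᴴ) =
        g * blk 0 (l s1) (V s1 * Matrix.diagonal δ * (V s1)ᴴ) * star g := by
    intro δ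
    rw [hsgs, hgs, ← map_mul, ← map_mul, Matrix.conjTranspose_mul]
    congr 1
    simp only [Matrix.mul_assoc]
  refine ⟨s1, hs1, γ1, hU, hγ1, ?_, ?_⟩
  · rintro x ⟨d, rfl⟩
    rw [hA, hconj]
    have : star g * (g * blk 0 (l s1) (V s1 * Matrix.diagonal d * (V s1)ᴴ) * star g) * g =
        blk 0 (l s1) (V s1 * Matrix.diagonal d * (V s1)ᴴ) := by
      calc star g * (g * blk 0 (l s1) (V s1 * Matrix.diagonal d * (V s1)ᴴ) * star g) * g
          = (star g * g) * blk 0 (l s1) (V s1 * Matrix.diagonal d * (V s1)ᴴ) * (star g * g) := by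
            simp only [mul_assoc]
        _ = _ := by rw [hg1, one_mul, mul_one]
    rw [this]
    exact τ.sub s1 _ ⟨d, rfl⟩
  · have hd : ∀ t ∈ T0, ∃ δ : X (l s1) → ℂ, (∀ i, ‖δ i‖ ≤ 1) ∧
        ‖(star g * t * g - blk 0 (l s1) (V s1 * Matrix.diagonal δ * (V s1)ᴴ)) Ω‖ < e / 2 := by
      intro t ht
      obtain ⟨d, ⟨δ, rfl⟩, hdn, hdd⟩ := hN t ht s1 (hNs t ht)
      exact ⟨δ, dg_coef S (l s1) (V s1) (τ.un s1) δ hdn, hdd⟩
    choose! D hD1 hD2 using hd
    refine ⟨T0.image D, e / 2, by positivity, ?_, ?_⟩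
    · intro δ hδ
      obtain ⟨t, ht, rfl⟩ := Finset.mem_image.1 hδ
      exact hD1 t ht
    · intro B hB
      refine hB0 B fun t ht => ?_
      obtain ⟨b, hbB, hbn, hb⟩ := hB (D t) (Finset.mem_image_of_mem D ht)
      refine ⟨b, hbB, hbn, ?_⟩
      rw [hconj] at hb
      set d : H →L[ℂ] H := blk 0 (l s1) (V s1 * Matrix.diagonal (D t) * (V s1)ᴴ) with hdd
      have hdM : d ∈ M := S.mem _ _ _
      have haM : star g * t * g ∈ M := A0.2.1 _ (haA t ht)
      have hsub : star g * t * g - d ∈ M := sub_mem haM hdM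
      have e1 : t - g * d * star g = g * ((star g * t * g - d) * star g) := by
        have : g * ((star g * t * g - d) * star g) =
            (g * star g) * t * (g * star g) - g * d * star g := by
          simp only [sub_mul, mul_sub, mul_assoc]
        rw [this, hg2, one_mul, mul_one]
      have e2 : ‖(t - g * d * star g) Ω‖ < e / 2 := by
        rw [e1]
        calc ‖(g * ((star g * t * g - d) * star g)) Ω‖
            ≤ ‖g‖ * ‖((star g * t * g - d) * star g) Ω‖ :=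
              (sys_mul S _ _ hgM (mul_mem hsub hgM')).1
          _ ≤ ‖g‖ * (‖star g‖ * ‖(star g * t * g - d) Ω‖) := by
              gcongr
              exact (sys_mul S _ _ hsub hgM').2
          _ ≤ 1 * (1 * ‖(star g * t * g - d) Ω‖) := by gcongr
          _ = ‖(star g * t * g - d) Ω‖ := by ring
          _ < e / 2 := hD2 t ht
      have e3 : (t - b) Ω = (t - g * d * star g) Ω + (g * d * star g - b) Ω := by
        rw [← ContinuousLinearMap.add_apply]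
        congr 1
        abel
      calc ‖(t - b) Ω‖ = ‖(t - g * d * star g) Ω + (g * d * star g - b) Ω‖ := by rw [e3]
        _ ≤ ‖(t - g * d * star g) Ω‖ + ‖(g * d * star g - b) Ω‖ := norm_add_le _ _
        _ < e / 2 + e / 2 := add_lt_add e2 hb
        _ = e := by ring



theorem fsB_alg (S : Sys M Ω blk) (n k : ℕ) (γ V0 : Matrix (X n) (X n) ℂ) (hγ : Un γ)
    (z : X n → Matrix (X k) (X k) ℂ) (D : X n → X k → ℂ) (u w : H →L[ℂ] H)
    (hu : star u * u = 1) :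
    star (u * blk 0 n γ * star w) * (u * ctl blk n k (γ * V0) z D * star u) *
      (u * blk 0 n γ * star w) =
    ∑ i, w * (blk 0 n (V0 * Matrix.single i i 1 * V0ᴴ) *
      blk n k (z i * Matrix.diagonal (D i) * (z i)ᴴ)) * star w := by
  have e1 : star (u * blk 0 n γ * star w) = w * star (blk 0 n γ) * star u := by
    rw [star_mul, star_mul, star_star, mul_assoc]
  have e2 : star (u * blk 0 n γ * star w) * (u * ctl blk n k (γ * V0) z D * star u) *
      (u * blk 0 n γ * star w) =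
      w * (star (blk 0 n γ) * ctl blk n k (γ * V0) z D * blk 0 n γ) * star w := by
    rw [e1]
    calc w * star (blk 0 n γ) * star u * (u * ctl blk n k (γ * V0) z D * star u) *
          (u * blk 0 n γ * star w)
        = w * star (blk 0 n γ) * (star u * u) * ctl blk n k (γ * V0) z D * (star u * u) *
          blk 0 n γ * star w := by simp only [mul_assoc]
      _ = w * (star (blk 0 n γ) * ctl blk n k (γ * V0) z D * blk 0 n γ) * star w := by
          rw [hu]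
          simp only [mul_assoc, mul_one, one_mul]
  rw [e2]
  unfold ctl
  rw [Finset.mul_sum, Finset.sum_mul, Finset.mul_sum, Finset.sum_mul]
  apply Finset.sum_congr rfl
  intro i _
  congr 2
  have hc := S.comm 0 n n k γ (z i * Matrix.diagonal (D i) * (z i)ᴴ) (by omega)
  have e3 : star (blk 0 n γ) * blk 0 n (γ * V0 * Matrix.single i i 1 * (γ * V0)ᴴ) * blk 0 n γ =
      blk 0 n (V0 * Matrix.single i i 1 * V0ᴴ) := by
    rw [← map_star, ← map_mul, ← map_mul, Matrix.star_eq_conjTranspose]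
    congr 1
    rw [Matrix.conjTranspose_mul]
    calc γᴴ * (γ * V0 * Matrix.single i i 1 * (V0ᴴ * γᴴ)) * γ
        = (γᴴ * γ) * V0 * Matrix.single i i 1 * V0ᴴ * (γᴴ * γ) := by simp only [mul_assoc]
      _ = V0 * Matrix.single i i 1 * V0ᴴ := by
          rw [hγ.1, one_mul, mul_one]
  calc star (blk 0 n γ) * (blk 0 n (γ * V0 * Matrix.single i i 1 * (γ * V0)ᴴ) *
        blk n k (z i * Matrix.diagonal (D i) * (z i)ᴴ)) * blk 0 n γ
      = star (blk 0 n γ) * blk 0 n (γ * V0 * Matrix.single i i 1 * (γ * V0)ᴴ) *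
        (blk n k (z i * Matrix.diagonal (D i) * (z i)ᴴ) * blk 0 n γ) := by simp only [mul_assoc]
    _ = (star (blk 0 n γ) * blk 0 n (γ * V0 * Matrix.single i i 1 * (γ * V0)ᴴ) * blk 0 n γ) *
        blk n k (z i * Matrix.diagonal (D i) * (z i)ᴴ) := by
        rw [← hc]
        simp only [mul_assoc]
    _ = _ := by rw [e3]

theorem fsB_mem (S : Sys M Ω blk) (n k : ℕ) (Vf : Matrix (X n) (X n) ℂ)
    (z : X n → Matrix (X k) (X k) ℂ) (D : X n → X k → ℂ) : ctl blk n k Vf z D ∈ M := by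
  unfold ctl
  exact sum_mem fun i _ => mul_mem (S.mem _ _ _) (S.mem _ _ _)

theorem fsB_conj (S : Sys M Ω blk) (u x : H →L[ℂ] H) (hu : u ∈ M) (hx : x ∈ M)
    (h : star u * u = 1) : ‖(u * x * star u) Ω‖ ≤ ‖x Ω‖ := by
  have hn := un_norm u h
  have hn2 : ‖star u‖ ≤ 1 := by rwa [norm_star]
  have h1 := (sys_mul S (u * x) (star u) (mul_mem hu hx) (star_mem hu)).2
  have h2 := (sys_mul S u x hu hx).1
  have h3 : (0:ℝ) ≤ ‖(u * x) Ω‖ := norm_nonneg _
  have h4 : (0:ℝ) ≤ ‖x Ω‖ := norm_nonneg _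
  calc ‖(u * x * star u) Ω‖ ≤ ‖star u‖ * ‖(u * x) Ω‖ := h1
    _ ≤ 1 * ‖(u * x) Ω‖ := by gcongr
    _ = ‖(u * x) Ω‖ := one_mul _
    _ ≤ ‖u‖ * ‖x Ω‖ := h2
    _ ≤ 1 * ‖x Ω‖ := by gcongr
    _ = ‖x Ω‖ := one_mul _

/-- second half of the fusion step: a perturbed conjugate inside an open set -/
theorem fsB (S : Sys M Ω blk) (l : ℕ → ℕ) (V : ∀ t, Matrix (X (l t)) (X (l t)) ℂ) (A0 : Masa M)
    (τ : Tower M Ω blk l V A0) (s1 : ℕ) (γ1 : Matrix (X (l s1)) (X (l s1)) ℂ) (hγ : Un γ1)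
    (ε1 : ℝ) (h1 : 0 < ε1) : ∃ ε2 : ℝ, 0 < ε2 ∧ ∀ (B : Masa M) (W1 : Set (Masa M)), IsOpen W1 →
      B ∈ W1 → (∀ i, ∃ b ∈ B.1, ‖b‖ ≤ 1 ∧
        ‖(blk 0 (l s1) ((γ1 * V s1) * Matrix.single i i 1 * (γ1 * V s1)ᴴ) - b) Ω‖ < ε2) →
      ∃ (m : ℕ) (u w : H →L[ℂ] H), (∃ x, u = blk 0 m x) ∧ (∃ x, w = blk 0 m x) ∧
        (star u * u = 1 ∧ u * star u = 1) ∧ (star w * w = 1 ∧ w * star w = 1) ∧
        ‖(u - 1) Ω‖ ≤ ε1 ∧
        (∀ x : Matrix (X (l s1)) (X (l s1)) ℂ, w * blk 0 (l s1) x = blk 0 (l s1) x * w) ∧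
        ∀ A' : Masa M, IsCj (u * blk 0 (l s1) γ1 * star w) A0 A' → A' ∈ W1 := by
  have hVf : Un (γ1 * V s1) := by
    have hV := τ.un s1
    constructor
    · rw [Matrix.conjTranspose_mul]
      calc (V s1)ᴴ * γ1ᴴ * (γ1 * V s1) = (V s1)ᴴ * (γ1ᴴ * γ1) * V s1 := by simp only [mul_assoc]
        _ = 1 := by rw [hγ.1, mul_one, hV.1]
    · rw [Matrix.conjTranspose_mul]
      calc γ1 * V s1 * ((V s1)ᴴ * γ1ᴴ) = γ1 * (V s1 * (V s1)ᴴ) * γ1ᴴ := by simp only [mul_assoc]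
        _ = 1 := by rw [hV.2, mul_one, hγ.2]
  obtain ⟨ε2, hε2, F2⟩ := fs2 S (l s1) (γ1 * V s1) hVf ε1 h1
  refine ⟨ε2, hε2, ?_⟩
  intro B W1 hW1 hBW hb
  obtain ⟨T, e, he, hT, hTW⟩ := T1 S B W1 hW1 hBW
  obtain ⟨k, y, u, hy, hu, hu1, hD⟩ := F2 B.1 B.2.1 B.2.2.1 hb T hT (e / 2) (by positivity)
  obtain ⟨δ, hδ, F3⟩ := fs3 S (l s1) k (γ1 * V s1) hVf y hy (e / 2) (by positivity)
  obtain ⟨t, z', w, hz', hzc, ⟨xw, hxw⟩, hw1, hw2, hwc, hwD⟩ := τ.gen s1 k y hy δ hδ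
  have hus : star (blk 0 (l s1 + k) u) * blk 0 (l s1 + k) u = 1 := by
    rw [← map_star, ← map_mul, Matrix.star_eq_conjTranspose, hu.1, map_one]
  have hus2 : blk 0 (l s1 + k) u * star (blk 0 (l s1 + k) u) = 1 := by
    rw [← map_star, ← map_mul, Matrix.star_eq_conjTranspose, hu.2, map_one]
  refine ⟨max (l s1 + k) (l t), blk 0 (l s1 + k) u, w, blk_up S _ _ (le_max_left _ _) u, ?_,
    ⟨hus, hus2⟩, ⟨hw1, hw2⟩, hu1, hwc, ?_⟩
  · obtain ⟨y', hy'⟩ := blk_up S (l t) (max (l s1 + k) (l t)) (le_max_right _ _) xw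
    exact ⟨y', hxw.trans hy'⟩
  · intro A' hA'
    apply hTW A'
    intro t' ht'
    obtain ⟨D, hD1, hD2⟩ := hD t' ht'
    obtain ⟨hn, hc⟩ := F3 z' hz' hzc D hD1
    have huM : blk 0 (l s1 + k) u ∈ M := S.mem _ _ _
    have hun : ‖blk 0 (l s1 + k) u‖ ≤ 1 := un_norm _ hus
    refine ⟨blk 0 (l s1 + k) u * ctl blk (l s1) k (γ1 * V s1) z' D * star (blk 0 (l s1 + k) u),
      ?_, ?_, ?_⟩
    · rw [hA', fsB_alg S (l s1) k γ1 (V s1) hγ z' D _ w hus]
      exact sum_mem fun i _ => τ.sub t _ (hwD i (D i))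
    · calc ‖blk 0 (l s1 + k) u * ctl blk (l s1) k (γ1 * V s1) z' D * star (blk 0 (l s1 + k) u)‖
          ≤ ‖blk 0 (l s1 + k) u * ctl blk (l s1) k (γ1 * V s1) z' D‖ *
            ‖star (blk 0 (l s1 + k) u)‖ := norm_mul_le _ _
        _ ≤ (‖blk 0 (l s1 + k) u‖ * ‖ctl blk (l s1) k (γ1 * V s1) z' D‖) *
            ‖star (blk 0 (l s1 + k) u)‖ := by
            gcongr
            exact norm_mul_le _ _
        _ ≤ (1 * 1) * 1 := by
            rw [norm_star]
            gcongr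
        _ = 1 := by norm_num
    · have e1 : (t' - blk 0 (l s1 + k) u * ctl blk (l s1) k (γ1 * V s1) z' D *
          star (blk 0 (l s1 + k) u)) =
          (t' - blk 0 (l s1 + k) u * ctl blk (l s1) k (γ1 * V s1) y D *
            star (blk 0 (l s1 + k) u)) +
          blk 0 (l s1 + k) u * (ctl blk (l s1) k (γ1 * V s1) y D -
            ctl blk (l s1) k (γ1 * V s1) z' D) * star (blk 0 (l s1 + k) u) := by
        rw [mul_sub, sub_mul]
        abel
      rw [e1, ContinuousLinearMap.add_apply]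
      have h3 := fsB_conj S (blk 0 (l s1 + k) u) (ctl blk (l s1) k (γ1 * V s1) y D -
            ctl blk (l s1) k (γ1 * V s1) z' D) huM
            (sub_mem (fsB_mem S _ _ _ _ _) (fsB_mem S _ _ _ _ _)) hus
      calc _ ≤ ‖(t' - blk 0 (l s1 + k) u * ctl blk (l s1) k (γ1 * V s1) y D *
            star (blk 0 (l s1 + k) u)) Ω‖ + ‖(blk 0 (l s1 + k) u *
            (ctl blk (l s1) k (γ1 * V s1) y D - ctl blk (l s1) k (γ1 * V s1) z' D) *
            star (blk 0 (l s1 + k) u)) Ω‖ := norm_add_le _ _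
        _ < e / 2 + e / 2 := by
            apply add_lt_add_of_lt_of_le hD2
            exact h3.trans hc.le
        _ = e := by ring



theorem fs_h1 (a k : ℕ) (γ : Matrix (X k) (X k) ℂ) (hγ : Un γ) :
    star (blk a k γ) * blk a k γ = 1 ∧ blk a k γ * star (blk a k γ) = 1 := by
  constructor
  · rw [← map_star, ← map_mul, Matrix.star_eq_conjTranspose, hγ.1, map_one]
  · rw [← map_star, ← map_mul, Matrix.star_eq_conjTranspose, hγ.2, map_one]

theorem fs_h2 (S : Sys M Ω blk) (a k : ℕ) (γ : Matrix (X k) (X k) ℂ)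
    (h : star (blk a k γ) * blk a k γ = 1 ∧ blk a k γ * star (blk a k γ) = 1) : Un γ := by
  constructor
  · apply blk_inj S a k
    rw [map_mul, ← Matrix.star_eq_conjTranspose, map_star, map_one]
    exact h.1
  · apply blk_inj S a k
    rw [map_mul, ← Matrix.star_eq_conjTranspose, map_star, map_one]
    exact h.2

theorem fs_h3 (g h w : H →L[ℂ] H) (ug : star g * g = 1 ∧ g * star g = 1)
    (uh : star h * h = 1 ∧ h * star h = 1) (uw : star w * w = 1 ∧ w * star w = 1) :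
    star (g * h * star w) * (g * h * star w) = 1 ∧
      (g * h * star w) * star (g * h * star w) = 1 := by
  constructor
  · calc star (g * h * star w) * (g * h * star w)
        = w * (star h * (star g * g) * h) * star w := by
          simp only [star_mul, star_star, mul_assoc]
      _ = 1 := by rw [ug.1, mul_one, uh.1, mul_one, uw.2]
  · calc (g * h * star w) * star (g * h * star w)
        = g * (h * (star w * w) * star h) * star g := by
          simp only [star_mul, star_star, mul_assoc]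
      _ = 1 := by rw [uw.1, mul_one, uh.2, mul_one, ug.2]

/-- the fusion step -/
theorem fs (S : Sys M Ω blk) (l : ℕ → ℕ) (V : ∀ t, Matrix (X (l t)) (X (l t)) ℂ) (A0 : Masa M)
    (τ : Tower M Ω blk l V A0) (F : Set (Masa M)) (hF : IsClosed F) (hF' : interior F = ∅)
    (s : ℕ) (γ : Matrix (X (l s)) (X (l s)) ℂ) (hγ : Un γ)
    (A : Masa M) (hA : IsCj (blk 0 (l s) γ) A0 A) (W : Set (Masa M)) (hW : IsOpen W)
    (hAW : A ∈ W) (ε : ℝ) (hε : 0 < ε) (n0 : ℕ) :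
    ∃ s', n0 ≤ s' ∧ ∃ (γ' : Matrix (X (l s')) (X (l s')) ℂ) (A' : Masa M) (W' : Set (Masa M)),
      Un γ' ∧ IsCj (blk 0 (l s') γ') A0 A' ∧ IsOpen W' ∧ A' ∈ W' ∧ closure W' ⊆ W ∧
      Disjoint (closure W') F ∧
      ∀ x : Matrix (X (l s)) (X (l s)) ℂ, ‖blk 0 (l s) x‖ ≤ 1 →
        ‖(blk 0 (l s') γ' * blk 0 (l s) x * star (blk 0 (l s') γ') -
          blk 0 (l s) γ * blk 0 (l s) x * star (blk 0 (l s) γ)) Ω‖ ≤ ε ∧
        ‖(star (blk 0 (l s') γ') * blk 0 (l s) x * blk 0 (l s') γ' -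
          star (blk 0 (l s) γ) * blk 0 (l s) x * blk 0 (l s) γ) Ω‖ ≤ ε := by
  classical
  obtain ⟨s1, hs1, γ1, hγ1, hγγ, hD, T, ε0, hε0, hT, hB0⟩ :=
    fsA S l V A0 τ s γ hγ A hA W hW hAW
  obtain ⟨ε2, hε2, hfsB⟩ := fsB S l V A0 τ s1 γ1 hγ1 (ε / 2) (half_pos hε)
  have hUn : Un (γ1 * V s1) := by
    have hV := τ.un s1
    constructor
    · calc (γ1 * V s1)ᴴ * (γ1 * V s1) = (V s1)ᴴ * (γ1ᴴ * γ1) * V s1 := by
            rw [Matrix.conjTranspose_mul]; simp only [Matrix.mul_assoc]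
        _ = 1 := by rw [hγ1.1, Matrix.mul_one, hV.1]
    · calc (γ1 * V s1) * (γ1 * V s1)ᴴ = γ1 * (V s1 * (V s1)ᴴ) * γ1ᴴ := by
            rw [Matrix.conjTranspose_mul]; simp only [Matrix.mul_assoc]
        _ = 1 := by rw [hV.2, Matrix.mul_one, hγ1.2]
  obtain ⟨O, hO, hOD, hOB⟩ := fs1 S (l s1) (γ1 * V s1) hUn T hT (min ε0 ε2) (lt_min hε0 hε2)
  have hAO : A ∈ O := hOD A hD
  have hOW : O ⊆ W := fun B hB => hB0 B (fun δ hδ => by
    obtain ⟨b, hb, hb1, hb2⟩ := (hOB B hB).1 δ hδ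
    exact ⟨b, hb, hb1, hb2.trans_le (min_le_left _ _)⟩)
  have hex : ∃ B ∈ O, B ∉ F := by
    by_contra hcon
    push Not at hcon
    have h1 : O ⊆ interior F := interior_maximal hcon hO
    rw [hF'] at h1
    exact h1 hAO
  obtain ⟨B, hBO, hBF⟩ := hex
  have hW1 : IsOpen (O ∩ Fᶜ) := hO.inter hF.isOpen_compl
  obtain ⟨m, u, w, ⟨xu, hxu⟩, ⟨xw, hxw⟩, uu, uw, hu1, hwc, hA'⟩ :=
    hfsB B (O ∩ Fᶜ) hW1 ⟨hBO, hBF⟩ (fun i => by
      obtain ⟨b, hb, hb1, hb2⟩ := (hOB B hBO).2 i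
      exact ⟨b, hb, hb1, hb2.trans_le (min_le_right _ _)⟩)
  have uγ := fs_h1 (blk := blk) 0 (l s) γ hγ
  have hγM : blk 0 (l s) γ ∈ M := S.mem _ _ _
  have huM : u ∈ M := hxu ▸ S.mem _ _ _
  have hwM : w ∈ M := hxw ▸ S.mem _ _ _
  have ug' := fs_h3 u (blk 0 (l s) γ) w uu uγ uw
  have hg'M : u * blk 0 (l s) γ * star w ∈ M :=
    mul_mem (mul_mem huM hγM) (star_mem hwM)
  obtain ⟨α, A', -, hA'2⟩ := auto_of M (u * blk 0 (l s) γ * star w) ug'
    (fun x hx => mul_mem (mul_mem hg'M hx) (star_mem hg'M))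
    (fun x hx => mul_mem (mul_mem (star_mem hg'M) hx) hg'M) A0
  have hA'W : A' ∈ O ∩ Fᶜ := hA' A' (by intro x; rw [← hγγ]; exact hA'2 x)
  obtain ⟨W', hW'o, hA'W', hW'c⟩ := em_reg M A' (O ∩ Fᶜ) hW1 hA'W
  -- the level
  obtain ⟨s', h1, h2, h3⟩ : ∃ s', n0 ≤ s' ∧ m ≤ s' ∧ s1 ≤ s' :=
    ⟨max n0 (max m s1), le_max_left _ _, (le_max_left _ _).trans (le_max_right _ _),
      (le_max_right _ _).trans (le_max_right _ _)⟩
  have hm : m ≤ l s' := h2.trans (τ.le s')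
  have hls : l s ≤ l s' := τ.mono _ _ (hs1.trans h3)
  obtain ⟨yu, hyu⟩ := blk_up S m (l s') hm xu
  obtain ⟨yw, hyw⟩ := blk_up S m (l s') hm xw
  obtain ⟨yγ, hyγ⟩ := blk_up S (l s) (l s') hls γ
  have hg'eq : u * blk 0 (l s) γ * star w = blk 0 (l s') (yu * yγ * star yw) := by
    rw [map_mul, map_mul, map_star, ← hyu, ← hyw, ← hyγ, ← hxu, ← hxw]
  refine ⟨s', h1, yu * yγ * star yw, A', W', ?_, ?_, hW'o, hA'W', ?_, ?_, ?_⟩
  · apply fs_h2 S 0 (l s')
    rw [← hg'eq]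
    exact ug'
  · intro x
    rw [← hg'eq]
    exact hA'2 x
  · exact fun x hx => hOW (hW'c hx).1
  · rw [Set.disjoint_left]
    exact fun x hx hxF => (hW'c hx).2 hxF
  · intro x hx
    rw [← hg'eq]
    obtain ⟨x1, hx1⟩ := blk_up S (l s) (l s1) (τ.mono _ _ hs1) x
    obtain ⟨x2, hx2⟩ := blk_up S (l s) (l s1) (τ.mono _ _ hs1) (star γ * x * γ)
    have key := fs4 S (blk 0 (l s) γ) u w (blk 0 (l s) x) hγM huM hwM (S.mem _ _ _) uγ uu uw hx
      (by rw [hx1]; exact hwc x1)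
      (by
        have h4 : star (blk 0 (l s) γ) * blk 0 (l s) x * blk 0 (l s) γ =
            blk 0 (l s) (star γ * x * γ) := by
          rw [map_mul, map_mul, map_star]
        rw [h4, hx2]
        exact hwc x2) (ε / 2) hu1
    have h5 : 2 * (ε / 2) = ε := by ring
    rw [h5] at key
    exact key



theorem towerE (S : Sys M Ω blk) : ∃ (l : ℕ → ℕ) (V : ∀ t, Matrix (X (l t)) (X (l t)) ℂ)
    (A : Masa M), Tower M Ω blk l V A := by
  obtain ⟨l, V, h1, h2, h3, h4, h5⟩ := gen S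
  obtain ⟨A, hA1, hA2⟩ := bstar S l V h1 h2 h4
  have hm : ∀ s t, s ≤ t → l s ≤ l t := fun s t hst => monotone_nat_of_le_succ h3 hst
  exact ⟨l, V, A, ⟨h1, h2, hm, hA1, hA2, h5⟩⟩



/-- state of the construction -/
structure nonmeagre_St (blk : ∀ _a k : ℕ, Matrix (X k) (X k) ℂ →⋆ₐ[ℂ] (H →L[ℂ] H))
    (l : ℕ → ℕ) (A0 : Masa M) where
  s : ℕ
  γ : Matrix (X (l s)) (X (l s)) ℂ
  A : Masa M
  W : Set (Masa M)
  un : Un γ
  cj : IsCj (blk 0 (l s) γ) A0 A
  op : IsOpen W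
  mem : A ∈ W

theorem nonmeagre_un (a k : ℕ) (γ : Matrix (X k) (X k) ℂ) (h : Un γ) :
    star (blk a k γ) * blk a k γ = 1 ∧ blk a k γ * star (blk a k γ) = 1 := by
  rw [← map_star, ← map_mul, ← map_mul, Matrix.star_eq_conjTranspose, h.1, h.2, map_one]
  exact ⟨rfl, rfl⟩

theorem nonmeagre_cover (A0 : Masa M) (h : IsMeagre (orbit A0)) :
    ∃ F : ℕ → Set (Masa M), (∀ k, IsClosed (F k)) ∧ (∀ k, interior (F k) = ∅) ∧
      ∀ C ∈ orbit A0, ∃ k, C ∈ F k := by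
  have h' : (orbit A0)ᶜ ∈ residual (Masa M) := h
  rw [mem_residual_iff] at h'
  obtain ⟨S, hS1, hS2, hSc, hSs⟩ := h'
  obtain ⟨f, hf⟩ := (hSc.insert Set.univ).exists_eq_range (Set.insert_nonempty _ _)
  have hfm : ∀ n, IsOpen (f n) ∧ Dense (f n) := by
    intro n
    have h1 : f n ∈ insert Set.univ S := by rw [hf]; exact ⟨n, rfl⟩
    rcases h1 with h1 | h1
    · rw [h1]; exact ⟨isOpen_univ, dense_univ⟩
    · exact ⟨hS1 _ h1, hS2 _ h1⟩
  refine ⟨fun n => (f n)ᶜ, fun n => (hfm n).1.isClosed_compl, fun n => ?_, ?_⟩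
  · rw [interior_compl, (hfm n).2.closure_eq, Set.compl_univ]
  · intro C hC
    by_contra hcon
    push Not at hcon
    have h2 : C ∈ ⋂₀ S := by
      intro t ht
      have h1 : t ∈ insert Set.univ S := Or.inr ht
      rw [hf] at h1
      obtain ⟨n, rfl⟩ := h1
      by_contra hn
      exact hcon n hn
    exact hSs h2 hC

/-- the orbit of the generic masa is not meagre -/
theorem nonmeagre (S : Sys M Ω blk) (l : ℕ → ℕ) (V : ∀ t, Matrix (X (l t)) (X (l t)) ℂ)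
    (A0 : Masa M) (τ : Tower M Ω blk l V A0) : ¬ IsMeagre (orbit A0) := by
  intro hmea
  obtain ⟨F, hFc, hFi, hFo⟩ := nonmeagre_cover A0 hmea
  have hstep : ∀ (k : ℕ) (σ : nonmeagre_St blk l A0), ∃ σ' : nonmeagre_St blk l A0,
      k + 1 ≤ σ'.s ∧ closure σ'.W ⊆ σ.W ∧ Disjoint (closure σ'.W) (F k) ∧
      ∀ x : Matrix (X (l σ.s)) (X (l σ.s)) ℂ, ‖blk 0 (l σ.s) x‖ ≤ 1 →
        ‖(blk 0 (l σ'.s) σ'.γ * blk 0 (l σ.s) x * star (blk 0 (l σ'.s) σ'.γ) -
          blk 0 (l σ.s) σ.γ * blk 0 (l σ.s) x * star (blk 0 (l σ.s) σ.γ)) Ω‖ ≤ (1 / 2) ^ k ∧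
        ‖(star (blk 0 (l σ'.s) σ'.γ) * blk 0 (l σ.s) x * blk 0 (l σ'.s) σ'.γ -
          star (blk 0 (l σ.s) σ.γ) * blk 0 (l σ.s) x * blk 0 (l σ.s) σ.γ) Ω‖ ≤ (1 / 2) ^ k := by
    intro k σ
    obtain ⟨s', hs', γ', A', W', h1, h2, h3, h4, h5, h6, h7⟩ :=
      fs S l V A0 τ (F k) (hFc k) (hFi k) σ.s σ.γ σ.un σ.A σ.cj σ.W σ.op σ.mem ((1 / 2) ^ k)
        (by positivity) (k + 1)
    exact ⟨⟨s', γ', A', W', h1, h2, h3, h4⟩, hs', h5, h6, h7⟩
  choose f hf using hstep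
  let init : nonmeagre_St blk l A0 :=
    { s := 0, γ := 1, A := A0, W := Set.univ
      un := ⟨by rw [Matrix.conjTranspose_one, one_mul], by rw [Matrix.conjTranspose_one, one_mul]⟩
      cj := fun x => by rw [map_one, star_one, one_mul, mul_one]
      op := isOpen_univ
      mem := Set.mem_univ _ }
  let st : ℕ → nonmeagre_St blk l A0 := fun n => Nat.rec init (fun k σ => f k σ) n
  have hst : ∀ k, st (k + 1) = f k (st k) := fun k => rfl
  have hsk : ∀ k, k ≤ (st k).s := by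
    intro k
    cases k with
    | zero => exact Nat.zero_le _
    | succ k => rw [hst]; exact (hf k (st k)).1
  have hu : ∀ k, star (blk 0 (l (st k).s) (st k).γ) * blk 0 (l (st k).s) (st k).γ = 1 ∧
      blk 0 (l (st k).s) (st k).γ * star (blk 0 (l (st k).s) (st k).γ) = 1 :=
    fun k => nonmeagre_un 0 _ _ (st k).un
  obtain ⟨U, V', hU, hV', hl1, hl2, hc1, hc2, hm1, hm2⟩ :=
    lim_auto S (fun k => blk 0 (l (st k).s) (st k).γ) (fun k => S.mem _ _ _) hu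
      (fun k => l (st k).s) (fun k => (hsk k).trans (τ.le _))
      (fun k x hx => by
        have := (hf k (st k)).2.2.2 x hx
        exact this.1)
      (fun k x hx => by
        have := (hf k (st k)).2.2.2 x hx
        exact this.2)
  obtain ⟨α, C, hα, hC⟩ := auto_of M V' hV' hm1 hm2 A0
  have hCo : C ∈ orbit A0 := ⟨α, hα⟩
  have hB : ∀ k x, x ∈ (st k).A.1 ↔ star (U k) * x * U k ∈ A0.1 := by
    intro k x
    constructor
    · intro hx
      have hxM : x ∈ M := (st k).A.2.1 x hx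
      rw [hc2 k x hxM]
      exact ((st k).cj x).1 hx
    · intro hx
      have hyM : star (U k) * x * U k ∈ M := A0.2.1 _ hx
      have e1 : U k * (star (U k) * x * U k) * star (U k) = x := by
        calc U k * (star (U k) * x * U k) * star (U k)
            = (U k * star (U k)) * x * (U k * star (U k)) := by simp only [mul_assoc]
          _ = x := by rw [(hU k).2, one_mul, mul_one]
      have hxM : x ∈ M := by
        rw [← e1, hc1 k _ hyM]
        exact mul_mem (mul_mem (S.mem _ _ _) hyM) (star_mem (S.mem _ _ _))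
      rw [hc2 k x hxM] at hx
      exact ((st k).cj x).2 hx
  have hT : Tendsto (fun k => (st k).A) atTop (𝓝 C) :=
    wk_auto M U V' hU hV' hl1 hl2 A0 (fun k => (st k).A) C hB hC
  have hnest : ∀ k j, k ≤ j → (st j).W ⊆ (st k).W := by
    intro k j hkj
    induction hkj with
    | refl => exact subset_rfl
    | step _ ih =>
      refine Set.Subset.trans ?_ ih
      exact subset_closure.trans (hf _ _).2.1
  obtain ⟨k, hk⟩ := hFo C hCo
  have hcl : C ∈ closure (st (k + 1)).W := by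
    refine mem_closure_of_tendsto hT ?_
    filter_upwards [eventually_ge_atTop (k + 1)] with j hj
    exact hnest _ _ hj (st j).mem
  exact Set.disjoint_left.1 (hf k (st k)).2.2.1 hcl hk

end D

end Pool.Agent.Helper522.MSA
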