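import Pool.Agent.Helper522.MSA.Defs

set_option autoImplicit false

open scoped InnerProductSpace Kronecker Matrix
open Filter Topology

namespace Pool.Agent.Helper522.MSA

section R

variable {R : Type} [Ring R] [StarRing R] [Algebra ℂ R] [StarModule ℂ R]



/-- tensor product of two commuting matrix systems -/
theorem tensHom {ι κ : Type} [Fintype ι] [DecidableEq ι] [Fintype κ] [DecidableEq κ]
    (j : Matrix ι ι ℂ →⋆ₐ[ℂ] R) (c : Matrix κ κ ℂ →⋆ₐ[ℂ] R) (h : ∀ x y, j x * c y = c y * j x) :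
    ∃ J : Matrix (ι × κ) (ι × κ) ℂ →⋆ₐ[ℂ] R, ∀ x y, J (x ⊗ₖ y) = j x * c y := by
  let L : TensorProduct ℂ (Matrix ι ι ℂ) (Matrix κ κ ℂ) →ₐ[ℂ] R :=
    Algebra.TensorProduct.lift j.toAlgHom c.toAlgHom h
  have hLt : ∀ x y, L (x ⊗ₜ[ℂ] y) = j x * c y := fun x y =>
    Algebra.TensorProduct.lift_tmul _ _ _ x y
  have hL : ∀ u : TensorProduct ℂ (Matrix ι ι ℂ) (Matrix κ κ ℂ), L (star u) = star (L u) := by
    intro u
    induction u using TensorProduct.induction_on with
    | zero => simp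
    | tmul x y =>
      rw [TensorProduct.star_tmul, hLt, hLt, map_star, map_star, h x y, star_mul]
    | add a b ha hb => rw [star_add, map_add, map_add, star_add, ha, hb]
  let S := Matrix.kroneckerStarAlgEquiv ι κ ℂ
  refine ⟨{ toFun := fun z => L (S.symm z)
            map_one' := ?_
            map_mul' := ?_
            map_zero' := ?_
            map_add' := ?_
            commutes' := ?_
            map_star' := ?_ }, ?_⟩
  · rw [map_one, map_one]
  · intro x y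
    rw [map_mul, map_mul]
  · change L (S.symm 0) = 0
    rw [map_zero, map_zero]
  · intro x y
    change L (S.symm (x + y)) = L (S.symm x) + L (S.symm y)
    rw [map_add, map_add]
  · intro r
    change L (S.symm (algebraMap ℂ _ r)) = algebraMap ℂ R r
    rw [Algebra.algebraMap_eq_smul_one, map_smul, map_smul, map_one, map_one,
      Algebra.algebraMap_eq_smul_one]
  · intro x
    change L (S.symm (star x)) = star (L (S.symm x))
    rw [map_star, hL]
  · intro x y
    change L (S.symm (x ⊗ₖ y)) = j x * c y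
    rw [← hLt]
    congr 1
    exact kroneckerLinearEquiv_symm_kronecker x y


theorem blkHom_ind {ι κ ν : Type} [Fintype ι] [DecidableEq ι] [Fintype κ] [DecidableEq κ]
    [Fintype ν] [DecidableEq ν] (e : ι × κ ≃ ν) (p : Matrix ν ν ℂ → Prop) (h0 : p 0)
    (hadd : ∀ x y, p x → p y → p (x + y))
    (hk : ∀ (x : Matrix ι ι ℂ) (y : Matrix κ κ ℂ), p (Matrix.reindex e e (x ⊗ₖ y))) :
    ∀ z, p z := by
  intro z
  refine Matrix.induction_on' z h0 hadd ?_
  intro i j c
  have : Matrix.single i j c = Matrix.reindex e e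
      (Matrix.single (e.symm i).1 (e.symm j).1 c ⊗ₖ Matrix.single (e.symm i).2 (e.symm j).2 (1 : ℂ)) := by
    ext a b
    simp only [Matrix.reindex_apply, Matrix.submatrix_apply, Matrix.kroneckerMap_apply,
      Matrix.single_apply]
    have h1 : (i = a ↔ (e.symm i).1 = (e.symm a).1 ∧ (e.symm i).2 = (e.symm a).2) := by
      rw [← Prod.ext_iff]
      exact e.symm.injective.eq_iff.symm
    have h2 : (j = b ↔ (e.symm j).1 = (e.symm b).1 ∧ (e.symm j).2 = (e.symm b).2) := by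
      rw [← Prod.ext_iff]
      exact e.symm.injective.eq_iff.symm
    by_cases c1 : (e.symm i).1 = (e.symm a).1 <;> by_cases c2 : (e.symm i).2 = (e.symm a).2 <;>
      by_cases c3 : (e.symm j).1 = (e.symm b).1 <;> by_cases c4 : (e.symm j).2 = (e.symm b).2 <;>
      simp [h1, h2, c1, c2, c3, c4]
  rw [this]
  exact hk _ _

/-- the equivalence of index types -/
def blkHomEq (k : ℕ) : X k × Fin 2 ≃ X (k + 1) :=
  finProdFinEquiv.trans (finCongr (pow_succ 2 k).symm)

theorem blkHom_step (q : ℕ → (Matrix (Fin 2) (Fin 2) ℂ →⋆ₐ[ℂ] R))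
    (h : ∀ m n, m ≠ n → ∀ x y, q m x * q n y = q n y * q m x) (a k : ℕ)
    (B : {B : Matrix (X k) (X k) ℂ →⋆ₐ[ℂ] R // ∀ P : Subalgebra ℂ R,
      (∀ n, a ≤ n → n < a + k → ∀ x, q n x ∈ P) → ∀ x, B x ∈ P}) :
    ∃ B' : {B : Matrix (X (k + 1)) (X (k + 1)) ℂ →⋆ₐ[ℂ] R // ∀ P : Subalgebra ℂ R,
      (∀ n, a ≤ n → n < a + (k + 1) → ∀ x, q n x ∈ P) → ∀ x, B x ∈ P},
      ∀ x y, B'.1 (Matrix.reindex (blkHomEq k) (blkHomEq k) (x ⊗ₖ y)) = B.1 x * q (a + k) y := by
  have hc : ∀ x y, B.1 x * q (a + k) y = q (a + k) y * B.1 x := by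
    intro x y
    have := B.2 (Subalgebra.centralizer ℂ {q (a + k) y}) ?_ x
    · rw [Subalgebra.mem_centralizer_iff] at this
      exact (this _ rfl).symm
    · intro n _ hn z
      rw [Subalgebra.mem_centralizer_iff]
      intro g hg
      rw [Set.mem_singleton_iff] at hg
      rw [hg]
      exact h _ _ (by omega) _ _
  obtain ⟨J, hJ⟩ := tensHom B.1 (q (a + k)) hc
  let e := blkHomEq k
  let J' : Matrix (X (k + 1)) (X (k + 1)) ℂ →⋆ₐ[ℂ] R :=
    { toFun := fun x => J (x.submatrix e e)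
      map_one' := by rw [Matrix.submatrix_one_equiv, map_one]
      map_mul' := by
        intro x y
        rw [← Matrix.submatrix_mul_equiv x y e e e, map_mul]
      map_zero' := by rw [Matrix.submatrix_zero]; simp
      map_add' := by
        intro x y
        rw [← map_add]
        rfl
      commutes' := by
        intro r
        rw [← AlgHomClass.commutes J r]
        congr 1
        ext i j
        simp [Matrix.algebraMap_matrix_apply]
      map_star' := by
        intro x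
        rw [← map_star]
        rfl }
  have hJ' : ∀ x y, J' (Matrix.reindex e e (x ⊗ₖ y)) = B.1 x * q (a + k) y := by
    intro x y
    rw [← hJ]
    change J ((Matrix.reindex e e (x ⊗ₖ y)).submatrix e e) = _
    congr 1
    ext i j
    simp
  refine ⟨⟨J', ?_⟩, hJ'⟩
  intro P hP
  refine blkHom_ind e (fun z => J' z ∈ P) ?_ ?_ ?_
  · change J' 0 ∈ P
    rw [map_zero]
    exact P.zero_mem
  · intro x y hx hy
    change J' (x + y) ∈ P
    rw [map_add]
    exact P.add_mem hx hy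
  · intro x y
    change J' _ ∈ P
    rw [hJ']
    refine P.mul_mem (B.2 P ?_ x) (hP _ (by omega) (by omega) _)
    intro n h1 h2 z
    exact hP n h1 (by omega) z

theorem blkHom_seq (q : ℕ → (Matrix (Fin 2) (Fin 2) ℂ →⋆ₐ[ℂ] R))
    (h : ∀ m n, m ≠ n → ∀ x y, q m x * q n y = q n y * q m x) (a : ℕ) :
    ∃ f : ∀ k : ℕ, Matrix (X k) (X k) ℂ →⋆ₐ[ℂ] R,
      (∀ x, f 0 x = algebraMap ℂ R (x (0 : Fin 1) (0 : Fin 1))) ∧
      (∀ k x y, f (k + 1) (Matrix.reindex (blkHomEq k) (blkHomEq k) (x ⊗ₖ y)) =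
        f k x * q (a + k) y) ∧
      (∀ k, ∀ P : Subalgebra ℂ R, (∀ n, a ≤ n → n < a + k → ∀ x, q n x ∈ P) → ∀ x, f k x ∈ P) := by
  choose F hF using blkHom_step q h a
  let B0 : Matrix (X 0) (X 0) ℂ →⋆ₐ[ℂ] R :=
    { toFun := fun x => algebraMap ℂ R (x (0 : Fin 1) (0 : Fin 1))
      map_one' := by
        change algebraMap ℂ R ((1 : Matrix (Fin 1) (Fin 1) ℂ) 0 0) = 1
        rw [Matrix.one_apply_eq, map_one]
      map_mul' := by
        intro x y
        rw [← map_mul]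
        congr 1
        change (∑ i : Fin 1, x 0 i * y i 0) = _
        simp
      map_zero' := by
        change algebraMap ℂ R 0 = 0
        exact map_zero _
      map_add' := by
        intro x y
        rw [← map_add]
        rfl
      commutes' := by
        intro r
        congr 1
      map_star' := by
        intro x
        rw [← algebraMap_star_comm]
        rfl }
  have hB0 : ∀ P : Subalgebra ℂ R, (∀ n, a ≤ n → n < a + 0 → ∀ x, q n x ∈ P) → ∀ x, B0 x ∈ P := by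
    intro P _ x
    exact P.algebraMap_mem _
  let G : ∀ k : ℕ, {B : Matrix (X k) (X k) ℂ →⋆ₐ[ℂ] R // ∀ P : Subalgebra ℂ R,
      (∀ n, a ≤ n → n < a + k → ∀ x, q n x ∈ P) → ∀ x, B x ∈ P} :=
    fun k => Nat.rec ⟨B0, hB0⟩ (fun k B => F k B) k
  exact ⟨fun k => (G k).1, fun x => rfl, fun k => hF k (G k), fun k => (G k).2⟩


/-- blocks from a commuting sequence of qubits -/
theorem blkHom (q : ℕ → (Matrix (Fin 2) (Fin 2) ℂ →⋆ₐ[ℂ] R))
    (h : ∀ m n, m ≠ n → ∀ x y, q m x * q n y = q n y * q m x) :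
    ∃ blk : ∀ _a k : ℕ, Matrix (X k) (X k) ℂ →⋆ₐ[ℂ] R,
      (∀ a k b l x y, a + k ≤ b → blk a k x * blk b l y = blk b l y * blk a k x) ∧
      (∀ a k l, ∃ e : X k × X l ≃ X (k + l), ∀ (x : Matrix (X k) (X k) ℂ)
        (y : Matrix (X l) (X l) ℂ),
        blk a k x * blk (a + k) l y = blk a (k + l) (Matrix.reindex e e (x ⊗ₖ y))) ∧
      (∀ n x, ∃ y, q n x = blk n 1 y) ∧
      (∀ P : Subalgebra ℂ R, (∀ n x, q n x ∈ P) → ∀ a k x, blk a k x ∈ P) := by
  choose f f0 f1 f2 using blkHom_seq q h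
  refine ⟨f, ?_, ?_, ?_, ?_⟩
  · intro a k b l x y hab
    have := f2 a k (Subalgebra.centralizer ℂ {f b l y}) ?_ x
    · rw [Subalgebra.mem_centralizer_iff] at this
      exact (this _ rfl).symm
    · intro n h1 h2 z
      rw [Subalgebra.mem_centralizer_iff]
      intro g hg
      rw [Set.mem_singleton_iff] at hg
      rw [hg]
      have h3 := f2 b l (Subalgebra.centralizer ℂ {q n z}) ?_ y
      · rw [Subalgebra.mem_centralizer_iff] at h3
        exact (h3 _ rfl).symm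
      · intro m h4 h5 w
        rw [Subalgebra.mem_centralizer_iff]
        intro g hg
        rw [Set.mem_singleton_iff] at hg
        rw [hg]
        exact h _ _ (by omega) _ _
  · intro a k l
    induction l with
    | zero =>
      let e0 : X k × X 0 ≃ X (k + 0) :=
        (Equiv.prodCongr (Equiv.refl (X k)) (finCongr (pow_zero 2))).trans (Equiv.prodUnique (X k) (Fin 1))
      refine ⟨e0, ?_⟩
      intro x y
      rw [f0]
      have : Matrix.reindex e0 e0 (x ⊗ₖ y) = (y (0 : Fin 1) (0 : Fin 1)) • x := by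
        ext i j
        simp only [Matrix.reindex_apply, Matrix.submatrix_apply, Matrix.kroneckerMap_apply,
          Matrix.smul_apply, smul_eq_mul]
        rw [mul_comm]
        rfl
      rw [this]
      change f a k x * _ = f a k _
      rw [map_smul, ← Algebra.commutes, Algebra.smul_def]
    | succ l ih =>
      obtain ⟨e, he⟩ := ih
      let e' : X k × X (l + 1) ≃ X (k + (l + 1)) :=
        (Equiv.prodCongr (Equiv.refl (X k)) (blkHomEq l).symm).trans
          ((Equiv.prodAssoc _ _ _).symm.trans ((Equiv.prodCongr e (Equiv.refl _)).trans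
            (blkHomEq (k + l))))
      refine ⟨e', ?_⟩
      intro x y
      refine blkHom_ind (blkHomEq l) (fun y => f a k x * f (a + k) (l + 1) y =
        f a (k + (l + 1)) (Matrix.reindex e' e' (x ⊗ₖ y))) ?_ ?_ ?_ y
      · rw [map_zero, mul_zero]
        symm
        have : Matrix.reindex e' e' (x ⊗ₖ (0 : Matrix (X (l + 1)) (X (l + 1)) ℂ)) = 0 := by
          ext i j
          simp
        rw [this, map_zero]
      · intro y1 y2 h1 h2
        rw [map_add, mul_add, h1, h2, ← map_add]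
        congr 1
        ext i j
        simp [mul_add]
      · intro y1 y2
        rw [f1, ← mul_assoc, he]
        have h3 := f1 a (k + l) (Matrix.reindex e e (x ⊗ₖ y1)) y2
        rw [show a + k + l = a + (k + l) by ring]
        rw [← h3]
        change f a (k + l + 1) _ = f a (k + l + 1) _
        congr 1
        ext i j
        simp [e', mul_assoc]
  · intro n x
    refine ⟨Matrix.reindex (blkHomEq 0) (blkHomEq 0) (1 ⊗ₖ x), ?_⟩
    have := f1 n 0 1 x
    rw [map_one, one_mul] at this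
    exact this.symm
  · intro P hP a k x
    exact f2 a k P (fun n _ _ z => hP n z) x



theorem qubit_mul (A B : R) (hA : A * A = 1) (hB : B * B = 1) (hAB : A * B = -(B * A))
    (p a b c p' a' b' c' : ℂ) :
    (p • (1 : R) + a • A + b • B + c • (A * B)) * (p' • (1 : R) + a' • A + b' • B + c' • (A * B)) =
      (p * p' + a * a' + b * b' - c * c') • (1 : R) + (p * a' + a * p' - b * c' + c * b') • A +
        (p * b' + b * p' + a * c' - c * a') • B + (p * c' + c * p' + a * b' - b * a') • (A * B) := by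
  have h1 : B * A = -(A * B) := by rw [hAB, neg_neg]
  have h2 : A * (A * B) = B := by rw [← mul_assoc, hA, one_mul]
  have h3 : A * B * A = -B := by rw [mul_assoc, h1, mul_neg, h2]
  have h5 : A * B * B = A := by rw [mul_assoc, hB, mul_one]
  have h4 : B * (A * B) = -A := by rw [← mul_assoc, h1, neg_mul, h5]
  have h6 : A * B * (A * B) = -1 := by rw [← mul_assoc, h3, neg_mul, hB]
  simp only [add_mul, mul_add, smul_mul_smul_comm, one_mul, mul_one, hA, hB, h1, h2, h3, h4, h5, h6]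
  module

/-- the matrix system of two anticommuting symmetries -/
theorem qubit (A B : R) (hA : A * A = 1) (hB : B * B = 1) (hAB : A * B = -(B * A))
    (sA : star A = A) (sB : star B = B) :
    ∃ q : Matrix (Fin 2) (Fin 2) ℂ →⋆ₐ[ℂ] R,
      (∃ x, q x = A) ∧ (∃ x, q x = B) ∧
      ∀ x, ∃ a b c d : ℂ, q x = a • 1 + b • A + c • B + d • (A * B) := by
  have h1 : B * A = -(A * B) := by rw [hAB, neg_neg]
  let q : Matrix (Fin 2) (Fin 2) ℂ →⋆ₐ[ℂ] R :=
    { toFun := fun x => ((x 0 0 + x 1 1) / 2) • (1 : R) + ((x 0 1 + x 1 0) / 2) • A +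
        ((x 0 0 - x 1 1) / 2) • B + ((x 1 0 - x 0 1) / 2) • (A * B)
      map_one' := by
        simp
      map_mul' := by
        intro x y
        rw [qubit_mul A B hA hB hAB]
        simp only [Matrix.mul_apply, Fin.sum_univ_two]
        module
      map_zero' := by
        simp
      map_add' := by
        intro x y
        simp only [Matrix.add_apply]
        module
      commutes' := by
        intro r
        rw [Algebra.algebraMap_eq_smul_one, Algebra.algebraMap_eq_smul_one]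
        simp
      map_star' := by
        intro x
        simp only [Matrix.star_eq_conjTranspose, Matrix.conjTranspose_apply, star_add, star_smul,
          star_mul, sA, sB, star_one, h1, star_div₀, star_sub, star_ofNat]
        module }
  have hq : ∀ x, q x = ((x 0 0 + x 1 1) / 2) • (1 : R) + ((x 0 1 + x 1 0) / 2) • A +
        ((x 0 0 - x 1 1) / 2) • B + ((x 1 0 - x 0 1) / 2) • (A * B) := fun x => rfl
  refine ⟨q, ⟨!![0, 1; 1, 0], ?_⟩, ⟨!![1, 0; 0, -1], ?_⟩, fun x => ⟨_, _, _, _, hq x⟩⟩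
  · rw [hq]
    norm_num
  · rw [hq]
    norm_num

end R



theorem trace_unique {ι : Type} [Fintype ι] [DecidableEq ι] [Nonempty ι]
    (φ : Matrix ι ι ℂ →ₗ[ℂ] ℂ) (h1 : φ 1 = 1) (h : ∀ x y, φ (x * y) = φ (y * x))
    (x : Matrix ι ι ℂ) : φ x = x.trace / Fintype.card ι := by
  have hoff : ∀ i j : ι, i ≠ j → φ (Matrix.single i j 1) = 0 := by
    intro i j hij
    have e1 : (Matrix.single i j (1 : ℂ)) = Matrix.single i i 1 * Matrix.single i j 1 := by
      rw [Matrix.single_mul_single_same, one_mul]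
    rw [e1, h, Matrix.single_mul_single_of_ne _ _ _ _ (Ne.symm hij), map_zero]
  have hdiag : ∀ i j : ι, φ (Matrix.single i i 1) = φ (Matrix.single j j 1) := by
    intro i j
    have e1 : (Matrix.single i i (1 : ℂ)) = Matrix.single i j 1 * Matrix.single j i 1 := by
      rw [Matrix.single_mul_single_same, one_mul]
    rw [e1, h, Matrix.single_mul_single_same, one_mul]
  obtain ⟨i0⟩ := (inferInstance : Nonempty ι)
  have hsingle : ∀ (i j : ι) (a : ℂ), φ (Matrix.single i j a) =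
      if i = j then a * φ (Matrix.single i0 i0 1) else 0 := by
    intro i j a
    have e1 : Matrix.single i j a = a • Matrix.single i j (1 : ℂ) := by
      rw [Matrix.smul_single, smul_eq_mul, mul_one]
    rw [e1, map_smul, smul_eq_mul]
    split_ifs with hij
    · subst hij
      rw [hdiag i i0]
    · rw [hoff i j hij, mul_zero]
  have hx : ∀ y : Matrix ι ι ℂ, φ y = y.trace * φ (Matrix.single i0 i0 1) := by
    intro y
    conv_lhs => rw [Matrix.matrix_eq_sum_single y]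
    rw [map_sum, Matrix.trace, Finset.sum_mul]
    refine Finset.sum_congr rfl fun i _ => ?_
    rw [map_sum, Finset.sum_eq_single i]
    · rw [hsingle, if_pos rfl, Matrix.diag_apply]
    · intro j _ hj
      rw [hsingle, if_neg (Ne.symm hj)]
    · intro hi
      exact absurd (Finset.mem_univ i) hi
  have hone := hx 1
  rw [h1, Matrix.trace_one] at hone
  have hc : (Fintype.card ι : ℂ) ≠ 0 := by
    exact_mod_cast Fintype.card_ne_zero
  rw [hx x, eq_div_iff hc, mul_assoc, mul_comm (φ _) _, ← hone, mul_one]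

/-- bicharacter data: an elementary abelian 2-group with a nondegenerate sign bicharacter and
generators -/
structure BiCh (Γ : Type) [AddCommGroup Γ] (σ : Γ → Γ → ℂ) (A B : ℕ → Γ) : Prop where
  two : ∀ g : Γ, g + g = 0
  pm : ∀ g h, σ g h = 1 ∨ σ g h = -1
  hl : ∀ g g' h, σ (g + g') h = σ g h * σ g' h
  hr : ∀ g h h', σ g (h + h') = σ g h * σ g h'
  nd : ∀ h, (∀ g, σ g h * σ h g = 1) → h = 0
  AA : ∀ m n, σ (A m) (A n) = 1
  BB : ∀ m n, σ (B m) (B n) = 1
  AB : ∀ m n, σ (A m) (B n) = 1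
  BA : ∀ m n, σ (B m) (A n) = if m = n then -1 else 1
  gen : ∀ P : AddSubgroup Γ, (∀ n, A n ∈ P) → (∀ n, B n ∈ P) → ∀ g, g ∈ P



/-- the sign of a residue modulo two -/
noncomputable def gamma_sg (x : ZMod 2) : ℂ := if x = 0 then 1 else -1

theorem gamma_sg_zero : gamma_sg 0 = 1 := by simp [gamma_sg]

theorem gamma_sg_of_ne {x : ZMod 2} (h : x ≠ 0) : gamma_sg x = -1 := by simp [gamma_sg, h]

theorem gamma_sg_add (x y : ZMod 2) : gamma_sg (x + y) = gamma_sg x * gamma_sg y := by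
  have h : ∀ z : ZMod 2, z = 0 ∨ z = 1 := by decide
  have h10 : (1 : ZMod 2) ≠ 0 := by decide
  have h2 : (1 : ZMod 2) + 1 = 0 := by decide
  rcases h x with rfl | rfl <;> rcases h y with rfl | rfl
  · simp [gamma_sg_zero]
  · simp [gamma_sg_zero]
  · simp [gamma_sg_zero]
  · rw [h2, gamma_sg_zero, gamma_sg_of_ne h10]; norm_num

/-- the pairing -/
noncomputable def gamma_pr (g h : (ℕ →₀ ZMod 2) × (ℕ →₀ ZMod 2)) : ZMod 2 :=
  g.2.sum (fun n t => t * h.1 n)

theorem gamma_pr_addl (g g' h : (ℕ →₀ ZMod 2) × (ℕ →₀ ZMod 2)) :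
    gamma_pr (g + g') h = gamma_pr g h + gamma_pr g' h := by
  unfold gamma_pr
  rw [Prod.snd_add]
  exact Finsupp.sum_add_index' (fun _ => zero_mul _) (fun _ _ _ => add_mul _ _ _)

theorem gamma_pr_addr (g h h' : (ℕ →₀ ZMod 2) × (ℕ →₀ ZMod 2)) :
    gamma_pr g (h + h') = gamma_pr g h + gamma_pr g h' := by
  unfold gamma_pr
  rw [Prod.fst_add, ← Finsupp.sum_add]
  refine Finsupp.sum_congr fun n _ => ?_
  rw [Finsupp.add_apply, mul_add]

theorem gamma_pr_zero (u : ℕ →₀ ZMod 2) (h : (ℕ →₀ ZMod 2) × (ℕ →₀ ZMod 2)) :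
    gamma_pr (u, 0) h = 0 := by
  simp [gamma_pr]

theorem gamma_pr_zero' (g : (ℕ →₀ ZMod 2) × (ℕ →₀ ZMod 2)) (v : ℕ →₀ ZMod 2) :
    gamma_pr g (0, v) = 0 := by
  simp [gamma_pr]

theorem gamma_pr_B (m : ℕ) (h : (ℕ →₀ ZMod 2) × (ℕ →₀ ZMod 2)) :
    gamma_pr (0, Finsupp.single m 1) h = h.1 m := by
  simp [gamma_pr]

theorem gamma_pr_A (g : (ℕ →₀ ZMod 2) × (ℕ →₀ ZMod 2)) (n : ℕ) :
    gamma_pr g (Finsupp.single n 1, 0) = g.2 n := by
  unfold gamma_pr
  have : ∀ k t, t * (Finsupp.single n (1 : ZMod 2)) k = if n = k then t else 0 := by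
    intro k t
    rw [Finsupp.single_apply]
    split_ifs <;> simp
  simp only [this]
  rw [Finsupp.sum_ite_eq]
  split_ifs with h
  · rfl
  · exact (Finsupp.notMem_support_iff.1 h).symm

theorem gamma : ∃ (Γ : Type) (_ : AddCommGroup Γ) (_ : DecidableEq Γ) (σ : Γ → Γ → ℂ)
    (A B : ℕ → Γ), Countable Γ ∧ Infinite Γ ∧ BiCh Γ σ A B := by
  classical
  refine ⟨(ℕ →₀ ZMod 2) × (ℕ →₀ ZMod 2), inferInstance, Classical.decEq _,
    fun g h => gamma_sg (gamma_pr g h), fun n => (Finsupp.single n 1, 0),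
    fun n => (0, Finsupp.single n 1), inferInstance, ?_, ?_⟩
  · refine Infinite.of_injective (fun n : ℕ => ((Finsupp.single n (1 : ZMod 2), 0) :
      (ℕ →₀ ZMod 2) × (ℕ →₀ ZMod 2))) ?_
    intro m n h
    have h1 := (Prod.ext_iff.1 h).1
    exact Finsupp.single_left_injective (by decide : (1 : ZMod 2) ≠ 0) h1
  · refine ⟨?_, ?_, ?_, ?_, ?_, ?_, ?_, ?_, ?_, ?_⟩
    · intro g
      have h : ∀ z : ZMod 2, z + z = 0 := by decide
      ext n
      · simpa using h (g.1 n)
      · simpa using h (g.2 n)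
    · intro g h
      by_cases h0 : gamma_pr g h = 0
      · left; simp only [h0, gamma_sg_zero]
      · right; exact gamma_sg_of_ne h0
    · intro g g' h
      simp only [gamma_pr_addl, gamma_sg_add]
    · intro g h h'
      simp only [gamma_pr_addr, gamma_sg_add]
    · intro h hh
      ext n
      · by_contra hne
        have h1 := hh (0, Finsupp.single n 1)
        rw [gamma_pr_B, gamma_pr_zero', gamma_sg_zero, gamma_sg_of_ne hne] at h1
        norm_num at h1
      · by_contra hne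
        have h1 := hh (Finsupp.single n 1, 0)
        rw [gamma_pr_A, gamma_pr_zero, gamma_sg_zero, gamma_sg_of_ne hne] at h1
        norm_num at h1
    · intro m n
      simp only [gamma_pr_zero, gamma_sg_zero]
    · intro m n
      simp only [gamma_pr_zero', gamma_sg_zero]
    · intro m n
      simp only [gamma_pr_zero, gamma_sg_zero]
    · intro m n
      simp only [gamma_pr_B]
      by_cases hmn : m = n
      · subst hmn
        rw [Finsupp.single_eq_same, if_pos rfl]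
        exact gamma_sg_of_ne (by decide)
      · rw [if_neg hmn, Finsupp.single_eq_of_ne hmn, gamma_sg_zero]
    · intro P hA hB g
      have h1 : ∀ u : ℕ →₀ ZMod 2, ((u, 0) : (ℕ →₀ ZMod 2) × (ℕ →₀ ZMod 2)) ∈ P := by
        intro u
        induction u using Finsupp.induction_linear with
        | zero => exact P.zero_mem
        | add u v hu hv =>
          have := P.add_mem hu hv
          simpa using this
        | single n t =>
          have h : ∀ z : ZMod 2, z = 0 ∨ z = 1 := by decide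
          rcases h t with rfl | rfl
          · rw [Finsupp.single_zero]; exact P.zero_mem
          · exact hA n
      have h2 : ∀ u : ℕ →₀ ZMod 2, ((0, u) : (ℕ →₀ ZMod 2) × (ℕ →₀ ZMod 2)) ∈ P := by
        intro u
        induction u using Finsupp.induction_linear with
        | zero => exact P.zero_mem
        | add u v hu hv =>
          have := P.add_mem hu hv
          simpa using this
        | single n t =>
          have h : ∀ z : ZMod 2, z = 0 ∨ z = 1 := by decide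
          rcases h t with rfl | rfl
          · rw [Finsupp.single_zero]; exact P.zero_mem
          · exact hB n
      have := P.add_mem (h1 g.1) (h2 g.2)
      simpa using this

/-- the twisted group von Neumann algebra -/
structure Tw {H : Type} [NormedAddCommGroup H] [InnerProductSpace ℂ H] [CompleteSpace H]
    (Γ : Type) [AddCommGroup Γ] (σ : Γ → Γ → ℂ) (M : VonNeumannAlgebra H) (Ω : H)
    (u : Γ → (H →L[ℂ] H)) : Prop where
  std1 : IsStdII1 M Ω
  std : ∀ a ∈ M, ∃ a' : H →L[ℂ] H, (∀ x ∈ M, a' * x = x * a') ∧ a' Ω = a Ω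
  mem : ∀ g, u g ∈ M
  zero : u 0 = 1
  mul : ∀ g h, u g * u h = σ g h • u (g + h)
  str : ∀ g, star (u g) = σ g g • u g
  dns : ∀ K : Submodule ℂ H, (∀ g, u g Ω ∈ K) → Dense (K : Set H)

section T

variable {Γ : Type} [AddCommGroup Γ] [DecidableEq Γ]




theorem tw_ops_mem (f : lp (fun _ : Γ => ℂ) 2) (e : Γ ≃ Γ) (g : Γ → ℂ)
    (h : ∀ i, ‖g i‖ = ‖(f : Γ → ℂ) (e i)‖) : Memℓp g 2 := by
  have hp : (0 : ℝ) < (2 : ENNReal).toReal := by norm_num
  apply memℓp_gen
  have h1 := (lp.memℓp f).summable hp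
  have h2 := (e.summable_iff).2 h1
  refine h2.congr fun i => ?_
  simp only [Function.comp_apply]
  rw [h i]

theorem tw_ops_norm (f G : lp (fun _ : Γ => ℂ) 2) (e : Γ ≃ Γ)
    (h : ∀ i, ‖(G : Γ → ℂ) i‖ = ‖(f : Γ → ℂ) (e i)‖) : ‖G‖ ≤ 1 * ‖f‖ := by
  have hp : (0 : ℝ) < (2 : ENNReal).toReal := by norm_num
  have e1 := lp.norm_rpow_eq_tsum hp G
  have e2 := lp.norm_rpow_eq_tsum hp f
  have e3 : ∑' i, ‖(G : Γ → ℂ) i‖ ^ (2 : ENNReal).toReal =
      ∑' i, ‖(f : Γ → ℂ) i‖ ^ (2 : ENNReal).toReal := by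
    simp_rw [h]
    exact e.tsum_eq (fun i => ‖(f : Γ → ℂ) i‖ ^ (2 : ENNReal).toReal)
  rw [e3, ← e2] at e1
  rw [one_mul]
  exact (Real.rpow_left_injOn hp.ne' (norm_nonneg G) (norm_nonneg f) e1).le

theorem tw_ops_lin (c : Γ → ℂ) (hc : ∀ h, ‖c h‖ = 1) (e : Γ ≃ Γ) :
    ∃ T : lp (fun _ : Γ => ℂ) 2 →L[ℂ] lp (fun _ : Γ => ℂ) 2,
      ∀ f h, (T f : Γ → ℂ) h = c h * f (e h) := by
  have hn : ∀ (f : lp (fun _ : Γ => ℂ) 2) (i : Γ), ‖c i * f (e i)‖ = ‖(f : Γ → ℂ) (e i)‖ := by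
    intro f i
    rw [norm_mul, hc, one_mul]
  let T : lp (fun _ : Γ => ℂ) 2 →ₗ[ℂ] lp (fun _ : Γ => ℂ) 2 :=
    { toFun := fun f => ⟨fun h => c h * f (e h), tw_ops_mem f e _ (hn f)⟩
      map_add' := by
        intro f g
        apply lp.ext
        funext h
        show c h * ((f + g : lp (fun _ : Γ => ℂ) 2) : Γ → ℂ) (e h) =
          c h * (f : Γ → ℂ) (e h) + c h * (g : Γ → ℂ) (e h)
        rw [lp.coeFn_add, Pi.add_apply, mul_add]
      map_smul' := by
        intro a f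
        apply lp.ext
        funext h
        show c h * ((a • f : lp (fun _ : Γ => ℂ) 2) : Γ → ℂ) (e h) =
          a * (c h * (f : Γ → ℂ) (e h))
        rw [lp.coeFn_smul, Pi.smul_apply, smul_eq_mul]
        ring }
  refine ⟨T.mkContinuous 1 fun f => ?_, fun f h => rfl⟩
  exact tw_ops_norm f (T f) e (hn f)

theorem tw_ops_semi (c : Γ → ℂ) (hc : ∀ h, ‖c h‖ = 1) :
    ∃ T : lp (fun _ : Γ => ℂ) 2 →L⋆[ℂ] lp (fun _ : Γ => ℂ) 2,
      ∀ f h, (T f : Γ → ℂ) h = c h * starRingEnd ℂ (f h) := by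
  have hn : ∀ (f : lp (fun _ : Γ => ℂ) 2) (i : Γ), ‖c i * starRingEnd ℂ (f i)‖ =
      ‖(f : Γ → ℂ) ((Equiv.refl Γ) i)‖ := by
    intro f i
    rw [norm_mul, hc, one_mul, RCLike.norm_conj]
    rfl
  let T : lp (fun _ : Γ => ℂ) 2 →ₛₗ[starRingEnd ℂ] lp (fun _ : Γ => ℂ) 2 :=
    { toFun := fun f => ⟨fun h => c h * starRingEnd ℂ (f h), tw_ops_mem f (Equiv.refl Γ) _ (hn f)⟩
      map_add' := by
        intro f g
        apply lp.ext
        funext h
        show c h * starRingEnd ℂ (((f + g : lp (fun _ : Γ => ℂ) 2) : Γ → ℂ) h) =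
          c h * starRingEnd ℂ ((f : Γ → ℂ) h) + c h * starRingEnd ℂ ((g : Γ → ℂ) h)
        rw [lp.coeFn_add, Pi.add_apply, map_add, mul_add]
      map_smul' := by
        intro a f
        apply lp.ext
        funext h
        show c h * starRingEnd ℂ (((a • f : lp (fun _ : Γ => ℂ) 2) : Γ → ℂ) h) =
          starRingEnd ℂ a * (c h * starRingEnd ℂ ((f : Γ → ℂ) h))
        rw [lp.coeFn_smul, Pi.smul_apply, smul_eq_mul, map_mul]
        ring }
  refine ⟨T.mkContinuous 1 fun f => ?_, fun f h => rfl⟩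
  exact tw_ops_norm f (T f) (Equiv.refl Γ) (hn f)

/-- left and right twisted translations and the conjugation on `ℓ²(Γ)` -/
theorem tw_ops (σ : Γ → Γ → ℂ) (pm : ∀ g h, σ g h = 1 ∨ σ g h = -1) (two : ∀ g : Γ, g + g = 0) :
    ∃ (u v : Γ → (lp (fun _ : Γ => ℂ) 2 →L[ℂ] lp (fun _ : Γ => ℂ) 2))
      (J : lp (fun _ : Γ => ℂ) 2 →L⋆[ℂ] lp (fun _ : Γ => ℂ) 2),
      (∀ g f h, (u g f : Γ → ℂ) h = σ g (h + g) * f (h + g)) ∧
      (∀ g f h, (v g f : Γ → ℂ) h = σ (h + g) g * f (h + g)) ∧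
      (∀ f h, (J f : Γ → ℂ) h = σ h h * starRingEnd ℂ (f h)) := by
  have hσ : ∀ g h, ‖σ g h‖ = 1 := by
    intro g h
    rcases pm g h with h1 | h1 <;> rw [h1] <;> simp
  choose u hu using fun g : Γ => tw_ops_lin (fun h => σ g (h + g)) (fun h => hσ g (h + g))
    (Equiv.addRight g)
  choose v hv using fun g : Γ => tw_ops_lin (fun h => σ (h + g) g) (fun h => hσ (h + g) g)
    (Equiv.addRight g)
  obtain ⟨J, hJ⟩ := tw_ops_semi (fun h => σ h h) (fun h => hσ h h)
  exact ⟨u, v, J, fun g f h => hu g f h, fun g f h => hv g f h, fun f h => hJ f h⟩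

/-- abbreviation for the Hilbert space -/
abbrev L2 (Γ : Type) : Type := lp (fun _ : Γ => ℂ) 2

/-- the three families of operators -/
structure TwOps (σ : Γ → Γ → ℂ) (u v : Γ → (L2 Γ →L[ℂ] L2 Γ)) (J : L2 Γ →L⋆[ℂ] L2 Γ) : Prop where
  fu : ∀ g f h, (u g f : Γ → ℂ) h = σ g (h + g) * f (h + g)
  fv : ∀ g f h, (v g f : Γ → ℂ) h = σ (h + g) g * f (h + g)
  fJ : ∀ f h, (J f : Γ → ℂ) h = σ h h * starRingEnd ℂ (f h)

/-- the vector `δ_0` -/
noncomputable def vac (Γ : Type) [AddCommGroup Γ] [DecidableEq Γ] : L2 Γ :=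
  lp.single 2 (0 : Γ) (1 : ℂ)



theorem tw_alg_sq {σ : Γ → Γ → ℂ} {A B : ℕ → Γ} (b : BiCh Γ σ A B) (g h : Γ) :
    σ g h * σ g h = 1 := by
  rcases b.pm g h with h' | h' <;> rw [h'] <;> norm_num

theorem tw_alg_zl {σ : Γ → Γ → ℂ} {A B : ℕ → Γ} (b : BiCh Γ σ A B) (h : Γ) : σ 0 h = 1 := by
  have h1 := b.hl 0 0 h
  rw [add_zero, tw_alg_sq b] at h1
  exact h1

theorem tw_alg_zr {σ : Γ → Γ → ℂ} {A B : ℕ → Γ} (b : BiCh Γ σ A B) (g : Γ) : σ g 0 = 1 := by
  have h1 := b.hr g 0 0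
  rw [add_zero, tw_alg_sq b] at h1
  exact h1

theorem tw_alg_conj {σ : Γ → Γ → ℂ} {A B : ℕ → Γ} (b : BiCh Γ σ A B) (g h : Γ) :
    starRingEnd ℂ (σ g h) = σ g h := by
  rcases b.pm g h with h' | h' <;> rw [h'] <;> simp

theorem tw_alg_gg {σ : Γ → Γ → ℂ} {A B : ℕ → Γ} (b : BiCh Γ σ A B) (g k : Γ) : k + g + g = k := by
  rw [add_assoc, b.two, add_zero]

theorem tw_alg_eq {σ : Γ → Γ → ℂ} {A B : ℕ → Γ} (b : BiCh Γ σ A B) (g k : Γ) : k + g = 0 ↔ k = g := by
  constructor
  · intro h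
    have h1 := congrArg (fun z => z + g) h
    simp only [tw_alg_gg b, zero_add] at h1
    exact h1
  · intro h
    rw [h, b.two]

theorem tw_alg_star {σ : Γ → Γ → ℂ} {A B : ℕ → Γ} (b : BiCh Γ σ A B) (g : Γ)
    (w : L2 Γ →L[ℂ] L2 Γ) (c : Γ → ℂ) (hc : ∀ k, starRingEnd ℂ (c k) = c k)
    (hw : ∀ f h, (w f : Γ → ℂ) h = c (h + g) * f (h + g))
    (hcc : ∀ k, σ g g * c (k + g) = c k) : star w = σ g g • w := by
  symm
  rw [ContinuousLinearMap.star_eq_adjoint, ContinuousLinearMap.eq_adjoint_iff]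
  intro x y
  rw [lp.inner_eq_tsum, lp.inner_eq_tsum, ← (Equiv.addRight g).tsum_eq (fun k => ⟪x k, (w y : Γ → ℂ) k⟫_ℂ)]
  refine tsum_congr fun k => ?_
  have h1 : ((σ g g • w) x : Γ → ℂ) k = σ g g * (c (k + g) * x (k + g)) := by
    rw [_root_.smul_apply, lp.coeFn_smul, Pi.smul_apply, smul_eq_mul, hw]
  simp only [Equiv.coe_addRight]
  rw [h1, hw y (k + g), tw_alg_gg b, RCLike.inner_apply, RCLike.inner_apply, ← mul_assoc, hcc, map_mul, hc]
  ring

theorem tw_alg {σ : Γ → Γ → ℂ} {A B : ℕ → Γ} (b : BiCh Γ σ A B)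
    {u v : Γ → (L2 Γ →L[ℂ] L2 Γ)} {J : L2 Γ →L⋆[ℂ] L2 Γ} (t : TwOps σ u v J) :
    (∀ g h, u g * v h = v h * u g) ∧ (u 0 = 1) ∧ (∀ g h, u g * u h = σ g h • u (g + h)) ∧
    (∀ g, star (u g) = σ g g • u g) ∧ (∀ g, star (v g) = σ g g • v g) ∧
    (∀ g, u g (vac Γ) = lp.single 2 g (1 : ℂ)) ∧ (∀ g, v g (vac Γ) = lp.single 2 g (1 : ℂ)) ∧
    (∀ f, J (J f) = f) := by
  have hsq := tw_alg_sq b
  have hzl := tw_alg_zl b
  have hzr := tw_alg_zr b
  have hcj := tw_alg_conj b
  have hgg := tw_alg_gg b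
  refine ⟨?_, ?_, ?_, ?_, ?_, ?_, ?_, ?_⟩
  · intro g h
    ext f k
    have h1 : ((u g * v h) f : Γ → ℂ) k = σ g (k + g) * (σ (k + g + h) h * f (k + g + h)) := by
      rw [ContinuousLinearMap.mul_apply, t.fu, t.fv]
    have h2 : ((v h * u g) f : Γ → ℂ) k = σ (k + h) h * (σ g (k + h + g) * f (k + h + g)) := by
      rw [ContinuousLinearMap.mul_apply, t.fv, t.fu]
    rw [h1, h2, add_right_comm k h g]
    simp only [b.hl, b.hr]
    ring
  · ext f k
    rw [t.fu, add_zero, hzl, one_mul]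
    rfl
  · intro g h
    ext f k
    have h1 : ((u g * u h) f : Γ → ℂ) k = σ g (k + g) * (σ h (k + g + h) * f (k + g + h)) := by
      rw [ContinuousLinearMap.mul_apply, t.fu, t.fu]
    have h2 : ((σ g h • u (g + h)) f : Γ → ℂ) k
        = σ g h * (σ (g + h) (k + g + h) * f (k + g + h)) := by
      rw [_root_.smul_apply, lp.coeFn_smul, Pi.smul_apply, smul_eq_mul, t.fu, ← add_assoc]
    rw [h1, h2]
    simp only [b.hl, b.hr]
    have h3 := hsq g h
    linear_combination (-(σ g k * σ g g * (σ h k * σ h g * σ h h) * f (k + g + h))) * h3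
  · intro g
    refine tw_alg_star b g (u g) (fun k => σ g k) (fun k => hcj g k) (fun f h => t.fu g f h) fun k => ?_
    simp only [b.hr]
    linear_combination (σ g k) * hsq g g
  · intro g
    refine tw_alg_star b g (v g) (fun k => σ k g) (fun k => hcj k g) (fun f h => t.fv g f h) fun k => ?_
    simp only [b.hl]
    linear_combination (σ k g) * hsq g g
  · intro g
    ext k
    rw [t.fu, vac, lp.single_apply, lp.single_apply]
    by_cases h : k = g
    · subst h
      rw [b.two, hzr]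
      simp
    · have h' : ¬ (k + g = 0) := fun h0 => h ((tw_alg_eq b g k).mp h0)
      simp [h, h']
  · intro g
    ext k
    rw [t.fv, vac, lp.single_apply, lp.single_apply]
    by_cases h : k = g
    · subst h
      rw [b.two, hzl]
      simp
    · have h' : ¬ (k + g = 0) := fun h0 => h ((tw_alg_eq b g k).mp h0)
      simp [h, h']
  · intro f
    ext k
    rw [t.fJ, t.fJ, map_mul, hcj, RCLike.conj_conj]
    linear_combination (f k) * hsq k k



theorem tw_J {σ : Γ → Γ → ℂ} {A B : ℕ → Γ} (b : BiCh Γ σ A B)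
    {u v : Γ → (L2 Γ →L[ℂ] L2 Γ)} {J : L2 Γ →L⋆[ℂ] L2 Γ} (t : TwOps σ u v J)
    (x : L2 Γ →L[ℂ] L2 Γ) (hx : ∀ g, x * v g = v g * x) :
    star x (vac Γ) = J (x (vac Γ)) := by
  obtain ⟨-, -, -, -, -, -, hv, -⟩ := tw_alg b t
  ext g
  rw [t.fJ]
  have h1 : (star x (vac Γ) : Γ → ℂ) g = ⟪lp.single 2 g (1 : ℂ), star x (vac Γ)⟫_ℂ := by
    rw [lp.inner_single_left]
    simp
  have h2 : ⟪lp.single 2 g (1 : ℂ), star x (vac Γ)⟫_ℂ = ⟪x (lp.single 2 g (1 : ℂ)), vac Γ⟫_ℂ := by
    rw [ContinuousLinearMap.star_eq_adjoint, ContinuousLinearMap.adjoint_inner_right]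
  have h3 : x (lp.single 2 g (1 : ℂ)) = v g (x (vac Γ)) := by
    rw [← hv g]
    exact congrArg (fun T : L2 Γ →L[ℂ] L2 Γ => T (vac Γ)) (hx g)
  rw [h1, h2, h3]
  unfold vac
  rw [lp.inner_single_right]
  have h4 := t.fv g (x (vac Γ)) 0
  unfold vac at h4
  rw [h4, zero_add]
  rcases b.pm g g with h | h <;> rw [h] <;> simp



theorem tw_tr_aux {σ : Γ → Γ → ℂ} {A B : ℕ → Γ} (b : BiCh Γ σ A B)
    {u v : Γ → (L2 Γ →L[ℂ] L2 Γ)} {J : L2 Γ →L⋆[ℂ] L2 Γ} (t : TwOps σ u v J)
    (x y : L2 Γ →L[ℂ] L2 Γ) (hx : ∀ g, x * v g = v g * x) :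
    ⟪vac Γ, x (y (vac Γ))⟫_ℂ =
      ∑' g, σ g g * ((x (vac Γ) : L2 Γ) g * (y (vac Γ) : L2 Γ) g) := by
  have h1 : ⟪vac Γ, x (y (vac Γ))⟫_ℂ = ⟪star x (vac Γ), y (vac Γ)⟫_ℂ := by
    rw [ContinuousLinearMap.star_eq_adjoint, ContinuousLinearMap.adjoint_inner_left]
  rw [h1, tw_J b t x hx, lp.inner_eq_tsum]
  refine tsum_congr (fun g => ?_)
  rw [t.fJ]
  rcases b.pm g g with h | h
  · rw [h]
    simp [mul_comm]
  · rw [h]
    simp [mul_comm]

theorem tw_tr {σ : Γ → Γ → ℂ} {A B : ℕ → Γ} (b : BiCh Γ σ A B)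
    {u v : Γ → (L2 Γ →L[ℂ] L2 Γ)} {J : L2 Γ →L⋆[ℂ] L2 Γ} (t : TwOps σ u v J)
    (x y : L2 Γ →L[ℂ] L2 Γ) (hx : ∀ g, x * v g = v g * x) (hy : ∀ g, y * v g = v g * y) :
    ⟪vac Γ, x (y (vac Γ))⟫_ℂ = ⟪vac Γ, y (x (vac Γ))⟫_ℂ := by
  rw [tw_tr_aux b t x y hx, tw_tr_aux b t y x hy]
  refine tsum_congr (fun g => ?_)
  rw [mul_comm ((x (vac Γ) : L2 Γ) g)]



theorem tw_std {σ : Γ → Γ → ℂ} {A B : ℕ → Γ} (b : BiCh Γ σ A B)
    {u v : Γ → (L2 Γ →L[ℂ] L2 Γ)} {J : L2 Γ →L⋆[ℂ] L2 Γ} (t : TwOps σ u v J)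
    (a : L2 Γ →L[ℂ] L2 Γ) (ha : ∀ g, a * v g = v g * a) :
    ∃ a' : L2 Γ →L[ℂ] L2 Γ, (∀ x : L2 Γ →L[ℂ] L2 Γ, (∀ g, x * v g = v g * x) → a' * x = x * a') ∧
      a' (vac Γ) = a (vac Γ) := by
  obtain ⟨huv, hu0, -, -, -, hu, -, hJJ⟩ := tw_alg b t
  have hact : ∀ y : L2 Γ →L[ℂ] L2 Γ, (∀ g, y * v g = v g * y) →
      J ((star a) (J (y (vac Γ)))) = y (a (vac Γ)) := by
    intro y hy
    have hy' : ∀ g, (y * a) * v g = v g * (y * a) := by
      intro g
      rw [mul_assoc, ha g, ← mul_assoc, hy g, mul_assoc]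
    have e1 : J (y (vac Γ)) = star y (vac Γ) := (tw_J b t y hy).symm
    have e2 : star a (star y (vac Γ)) = star (y * a) (vac Γ) := by
      rw [star_mul]
      rfl
    have e3 : star (y * a) (vac Γ) = J ((y * a) (vac Γ)) := tw_J b t (y * a) hy'
    rw [e1, e2, e3, hJJ]
    rfl
  refine ⟨J.comp ((star a).comp J), ?_, ?_⟩
  · intro x hx
    refine lp.ext_continuousLinearMap (𝕜 := ℂ) (by norm_num) ?_
    intro g
    ext
    have hug : ∀ h, u g * v h = v h * u g := fun h => huv g h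
    have hxug : ∀ h, (x * u g) * v h = v h * (x * u g) := by
      intro h
      rw [mul_assoc, hug h, ← mul_assoc, hx h, mul_assoc]
    have e1 := hact (u g) hug
    have e2 := hact (x * u g) hxug
    have e3 : (lp.single 2 g (1 : ℂ) : L2 Γ) = u g (vac Γ) := (hu g).symm
    have e4 : J ((star a) (J (x (lp.single 2 g (1 : ℂ) : L2 Γ)))) =
        x (J ((star a) (J (lp.single 2 g (1 : ℂ) : L2 Γ)))) := by
      rw [e3, e1]
      exact e2
    exact congrArg (fun f : L2 Γ => (f : Γ → ℂ) _) e4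
  · have e := hact 1 (fun g => by rw [one_mul, mul_one])
    exact e



theorem tw_fac {σ : Γ → Γ → ℂ} {A B : ℕ → Γ} (b : BiCh Γ σ A B)
    {u v : Γ → (L2 Γ →L[ℂ] L2 Γ)} {J : L2 Γ →L⋆[ℂ] L2 Γ} (t : TwOps σ u v J)
    (z : L2 Γ →L[ℂ] L2 Γ) (hz : ∀ g, z * v g = v g * z) (hu : ∀ g, z * u g = u g * z) :
    ∃ c : ℂ, z = c • (1 : L2 Γ →L[ℂ] L2 Γ) := by
  obtain ⟨-, -, -, -, -, hU, hV, -⟩ := tw_alg b t
  set ζ := z (vac Γ) with hζ
  have h1 : ∀ g, z (lp.single 2 g (1 : ℂ)) = v g ζ := by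
    intro g
    rw [← hV g, hζ]
    exact congrArg (fun F : L2 Γ →L[ℂ] L2 Γ => F (vac Γ)) (hz g)
  have h2 : ∀ g, z (lp.single 2 g (1 : ℂ)) = u g ζ := by
    intro g
    rw [← hU g, hζ]
    exact congrArg (fun F : L2 Γ →L[ℂ] L2 Γ => F (vac Γ)) (hu g)
  have h3 : ∀ g h : Γ, σ g h * ζ h = σ h g * ζ h := by
    intro g h
    have e1 : u g ζ = v g ζ := (h2 g).symm.trans (h1 g)
    have e2 := congrArg (fun F : L2 Γ => (F : Γ → ℂ) (h + g)) e1
    simp only [t.fu, t.fv] at e2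
    have e3 : h + g + g = h := by rw [add_assoc, b.two, add_zero]
    rw [e3] at e2
    exact e2
  have h4 : ∀ h : Γ, h ≠ 0 → ζ h = 0 := by
    intro h hh
    by_contra hne
    apply hh
    apply b.nd
    intro g
    have e := mul_right_cancel₀ hne (h3 g h)
    rw [e]
    rcases b.pm h g with e' | e' <;> rw [e'] <;> norm_num
  have h5 : ζ = (ζ 0) • vac Γ := by
    apply lp.ext
    funext h
    by_cases hh : h = 0
    · subst hh
      simp [vac]
    · rw [h4 h hh]
      simp [vac, hh]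
  refine ⟨ζ 0, ?_⟩
  have h6 : ∀ g, z (lp.single 2 g (1 : ℂ)) = (ζ 0) • lp.single 2 g (1 : ℂ) := by
    intro g
    rw [h2 g]
    conv_lhs => rw [h5]
    rw [map_smul, hU g]
  have h7 : ∀ (g : Γ) (w : ℂ), z (lp.single 2 g w) = (ζ 0) • lp.single 2 g w := by
    intro g w
    have e : (lp.single 2 g w : L2 Γ) = w • lp.single 2 g (1 : ℂ) := by
      rw [← lp.single_smul]; simp
    rw [e, map_smul, h6, smul_comm]
  ext1 f
  have hs := lp.hasSum_single (p := 2) (by norm_num) f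
  have hs1 := hs.mapL z
  have hs2 : HasSum (fun i => (ζ 0) • lp.single 2 i (f i)) ((ζ 0) • f) := hs.const_smul (ζ 0)
  simp only [h7] at hs1
  have := hs1.unique hs2
  rw [this]
  simp



theorem tw_dense {σ : Γ → Γ → ℂ} {A B : ℕ → Γ} (b : BiCh Γ σ A B)
    {u v : Γ → (L2 Γ →L[ℂ] L2 Γ)} {J : L2 Γ →L⋆[ℂ] L2 Γ} (t : TwOps σ u v J)
    (K : Submodule ℂ (L2 Γ)) (hK : ∀ g, u g (vac Γ) ∈ K) : Dense (K : Set (L2 Γ)) := by
  have h1 : ∀ g : Γ, ∀ c : ℂ, (lp.single 2 g c : L2 Γ) ∈ K := by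
    intro g c
    have h2 := hK g
    rw [(tw_alg b t).2.2.2.2.2.1 g] at h2
    have h3 := K.smul_mem c h2
    rw [← lp.single_smul] at h3
    simpa using h3
  intro f
  have hs := lp.hasSum_single (p := 2) (E := fun _ : Γ => ℂ) (by norm_num) f
  refine mem_closure_of_tendsto hs (Filter.Eventually.of_forall ?_)
  intro s
  exact K.sum_mem (fun i _ => h1 i _)



theorem comm_vn {H : Type} [NormedAddCommGroup H] [InnerProductSpace ℂ H] [CompleteSpace H]
    (S : Set (H →L[ℂ] H)) (hs : ∀ x ∈ S, star x ∈ S) :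
    ∃ M : VonNeumannAlgebra H, ∀ x, x ∈ M ↔ ∀ s ∈ S, x * s = s * x := by
  have hcoe : ((StarSubalgebra.centralizer ℂ S : StarSubalgebra ℂ (H →L[ℂ] H)) :
      Set (H →L[ℂ] H)) = Set.centralizer S := by
    ext z
    rw [SetLike.mem_coe, StarSubalgebra.mem_centralizer_iff, Set.mem_centralizer_iff]
    constructor
    · intro h g hg
      exact (h g hg).1
    · intro h g hg
      exact ⟨h g hg, h _ (hs g hg)⟩
  refine ⟨⟨StarSubalgebra.centralizer ℂ S, ?_⟩, ?_⟩
  · show Set.centralizer (Set.centralizer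
      ((StarSubalgebra.centralizer ℂ S : StarSubalgebra ℂ (H →L[ℂ] H)) : Set (H →L[ℂ] H))) =
      ((StarSubalgebra.centralizer ℂ S : StarSubalgebra ℂ (H →L[ℂ] H)) : Set (H →L[ℂ] H))
    rw [hcoe]
    exact Set.centralizer_centralizer_centralizer S
  · intro x
    have h1 : x ∈ ((StarSubalgebra.centralizer ℂ S : StarSubalgebra ℂ (H →L[ℂ] H)) :
        Set (H →L[ℂ] H)) ↔ ∀ s ∈ S, x * s = s * x := by
      rw [hcoe, Set.mem_centralizer_iff]
      exact ⟨fun h s hs' => (h s hs').symm, fun h s hs' => (h s hs').symm⟩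
    exact h1



theorem twisted [Countable Γ] [Infinite Γ] (σ : Γ → Γ → ℂ) (A B : ℕ → Γ) (b : BiCh Γ σ A B) :
    ∃ (H : Type) (_ : NormedAddCommGroup H) (_ : InnerProductSpace ℂ H)
    (_ : CompleteSpace H) (M : VonNeumannAlgebra H) (Ω : H) (u : Γ → (H →L[ℂ] H)),
    TopologicalSpace.SeparableSpace H ∧ Tw Γ σ M Ω u := by
  obtain ⟨u, v, J, fu, fv, fJ⟩ := tw_ops σ b.pm b.two
  have t : TwOps σ u v J := ⟨fu, fv, fJ⟩
  obtain ⟨hcomm, hu0, humul, hustar, hvstar, huvac, hvvac, hJJ⟩ := tw_alg b t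
  obtain ⟨M, hM0⟩ := comm_vn (H := L2 Γ) {x | ∃ (g : Γ) (c : ℂ), x = c • v g} (by
    rintro x ⟨g, c, rfl⟩
    refine ⟨g, star c * σ g g, ?_⟩
    rw [star_smul, hvstar, smul_smul])
  have hM : ∀ x : L2 Γ →L[ℂ] L2 Γ, x ∈ M ↔ ∀ g, x * v g = v g * x := by
    intro x
    rw [hM0]
    constructor
    · intro h g
      exact h (v g) ⟨g, 1, (one_smul ℂ _).symm⟩
    · rintro h s ⟨g, c, rfl⟩
      rw [mul_smul_comm, smul_mul_assoc, h g]
  have humem : ∀ g, u g ∈ M := fun g => (hM _).2 (fun h => hcomm g h)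
  have hort : Orthonormal ℂ (fun g : Γ => (lp.single 2 g (1 : ℂ) : L2 Γ)) := by
    rw [orthonormal_iff_ite]
    intro g h
    rw [lp.inner_single_left, lp.single_apply]
    by_cases hgh : g = h
    · subst hgh
      simp
    · rw [if_neg hgh, Pi.single_eq_of_ne hgh]
      simp
  refine ⟨L2 Γ, inferInstance, inferInstance, inferInstance, M, vac Γ, u, ?_, ?_⟩
  · have hd := tw_dense b t (Submodule.span ℂ (Set.range fun g : Γ => u g (vac Γ)))
      (fun g => Submodule.subset_span ⟨g, rfl⟩)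
    have h1 : TopologicalSpace.IsSeparable (Set.range fun g : Γ => u g (vac Γ)) :=
      (Set.countable_range _).isSeparable
    have h2 : TopologicalSpace.IsSeparable
        (closure ((Submodule.span ℂ (Set.range fun g : Γ => u g (vac Γ)) : Submodule ℂ (L2 Γ)) :
          Set (L2 Γ))) := (h1.span (R := ℂ)).closure
    rw [hd.closure_eq] at h2
    exact TopologicalSpace.isSeparable_univ_iff.1 h2
  · refine ⟨⟨?_, ?_, ?_, ?_, ?_, ?_⟩, ?_, humem, hu0, humul, hustar, ?_⟩
    · have := hort.1 0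
      exact this
    · intro x hx y hy
      exact tw_tr b t x y ((hM x).1 hx) ((hM y).1 hy)
    · obtain ⟨K, hK⟩ : ∃ K : Submodule ℂ (L2 Γ), ∀ ξ, ξ ∈ K ↔ ∃ x ∈ M, ξ = x (vac Γ) :=
        ⟨{ carrier := {ξ | ∃ x ∈ M, ξ = x (vac Γ)}
           add_mem' := by
             rintro _ _ ⟨x, hx, rfl⟩ ⟨y, hy, rfl⟩
             exact ⟨x + y, add_mem hx hy, rfl⟩
           zero_mem' := ⟨0, zero_mem _, rfl⟩
           smul_mem' := by
             rintro c _ ⟨x, hx, rfl⟩
             refine ⟨c • x, ?_, rfl⟩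
             rw [hM] at hx ⊢
             intro g
             rw [smul_mul_assoc, mul_smul_comm, hx g] }, fun ξ => Iff.rfl⟩
      have hd := tw_dense b t K (fun g => (hK _).2 ⟨u g, humem g, rfl⟩)
      have e : (K : Set (L2 Γ)) = {ξ | ∃ x ∈ M, ξ = x (vac Γ)} := by
        ext ξ
        exact hK ξ
      rwa [e] at hd
    · intro x hx hx0
      have hx' := (hM x).1 hx
      have h1 : ∀ g, u g (vac Γ) ∈ LinearMap.ker (x : L2 Γ →ₗ[ℂ] L2 Γ) := by
        intro g
        rw [LinearMap.mem_ker]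
        show x (u g (vac Γ)) = 0
        rw [huvac, ← hvvac]
        have h2 : (x * v g) (vac Γ) = (v g * x) (vac Γ) := by rw [hx' g]
        have h3 : x (v g (vac Γ)) = v g (x (vac Γ)) := h2
        rw [h3, hx0, map_zero]
      have hd := tw_dense b t _ h1
      ext1 ξ
      have hc : IsClosed {ξ : L2 Γ | x ξ = 0} := isClosed_eq x.continuous continuous_const
      have h4 : (LinearMap.ker (x : L2 Γ →ₗ[ℂ] L2 Γ) : Set (L2 Γ)) = {ξ : L2 Γ | x ξ = 0} := by
        ext ξ
        rfl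
      rw [h4] at hd
      have h5 : {ξ : L2 Γ | x ξ = 0} = Set.univ := by
        rw [← hc.closure_eq, hd.closure_eq]
      have h6 : ξ ∈ {ξ : L2 Γ | x ξ = 0} := by rw [h5]; exact Set.mem_univ _
      exact h6
    · intro z hz hzc
      exact tw_fac b t z ((hM z).1 hz) (fun g => hzc (u g) (humem g))
    · intro hfin
      have hle : LinearIndependent ℂ (fun g : Γ => (⟨u g, humem g⟩ : M.toStarSubalgebra)) := by
        let φ : M.toStarSubalgebra →ₗ[ℂ] L2 Γ :=
          { toFun := fun x => (x : L2 Γ →L[ℂ] L2 Γ) (vac Γ)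
            map_add' := fun x y => rfl
            map_smul' := fun c x => rfl }
        apply LinearIndependent.of_comp φ
        have e : φ ∘ (fun g : Γ => (⟨u g, humem g⟩ : M.toStarSubalgebra)) =
            (fun g : Γ => (lp.single 2 g (1 : ℂ) : L2 Γ)) := by
          funext g
          exact huvac g
        rw [e]
        exact hort.linearIndependent
      have hfinΓ : Finite Γ := hle.finite
      exact not_finite Γ
    · intro a ha
      obtain ⟨a', h1, h2⟩ := tw_std b t a ((hM a).1 ha)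
      exact ⟨a', fun x hx => h1 x ((hM x).1 hx), h2⟩
    · intro K hK
      exact tw_dense b t K hK

end T


section modelaux

variable {H : Type} [NormedAddCommGroup H] [InnerProductSpace ℂ H] [CompleteSpace H]

theorem model_sig0 {Γ : Type} [AddCommGroup Γ] {σ : Γ → Γ → ℂ} {A B : ℕ → Γ} (b : BiCh Γ σ A B) :
    ∀ g h, σ g h * σ g h = 1 := by
  intro g h
  rcases b.pm g h with h1 | h1 <;> rw [h1] <;> norm_num

theorem model_lift
    (blk : ∀ _a k : ℕ, Matrix (X k) (X k) ℂ →⋆ₐ[ℂ] (H →L[ℂ] H))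
    (hmix : ∀ a k l, ∃ e : X k × X l ≃ X (k + l), ∀ (x : Matrix (X k) (X k) ℂ)
        (y : Matrix (X l) (X l) ℂ),
        blk a k x * blk (a + k) l y = blk a (k + l) (Matrix.reindex e e (x ⊗ₖ y)))
    {n N : ℕ} (hn : n ≤ N) (x : Matrix (X n) (X n) ℂ) : ∃ x', blk 0 n x = blk 0 N x' := by
  obtain ⟨l, rfl⟩ := Nat.exists_eq_add_of_le hn
  obtain ⟨e, he⟩ := hmix 0 n l
  refine ⟨Matrix.reindex e e (x ⊗ₖ (1 : Matrix (X l) (X l) ℂ)), ?_⟩
  rw [← he, map_one, mul_one]

theorem model_one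
    (blk : ∀ _a k : ℕ, Matrix (X k) (X k) ℂ →⋆ₐ[ℂ] (H →L[ℂ] H))
    (hmix : ∀ a k l, ∃ e : X k × X l ≃ X (k + l), ∀ (x : Matrix (X k) (X k) ℂ)
        (y : Matrix (X l) (X l) ℂ),
        blk a k x * blk (a + k) l y = blk a (k + l) (Matrix.reindex e e (x ⊗ₖ y)))
    (n : ℕ) (y : Matrix (X 1) (X 1) ℂ) : ∃ x', blk n 1 y = blk 0 (n + 1) x' := by
  obtain ⟨e, he⟩ := hmix 0 n 1
  have h := he 1 y
  rw [map_one, one_mul, zero_add] at h
  exact ⟨_, h⟩

/-- the union of the blocks is a submodule closed under multiplication -/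
theorem model_S
    (blk : ∀ _a k : ℕ, Matrix (X k) (X k) ℂ →⋆ₐ[ℂ] (H →L[ℂ] H))
    (hmix : ∀ a k l, ∃ e : X k × X l ≃ X (k + l), ∀ (x : Matrix (X k) (X k) ℂ)
        (y : Matrix (X l) (X l) ℂ),
        blk a k x * blk (a + k) l y = blk a (k + l) (Matrix.reindex e e (x ⊗ₖ y))) :
    ∃ S : Subalgebra ℂ (H →L[ℂ] H), ∀ z, z ∈ S ↔ ∃ n x, z = blk 0 n x := by
  refine ⟨{ carrier := {z | ∃ n x, z = blk 0 n x}
            mul_mem' := ?_
            add_mem' := ?_
            algebraMap_mem' := ?_ }, fun z => Iff.rfl⟩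
  · rintro a c ⟨n, x, rfl⟩ ⟨m, y, rfl⟩
    obtain ⟨x', hx'⟩ := model_lift blk hmix (Nat.le_add_right n m) x
    obtain ⟨y', hy'⟩ := model_lift blk hmix (Nat.le_add_left m n) y
    exact ⟨n + m, x' * y', by rw [map_mul, hx', hy']⟩
  · rintro a c ⟨n, x, rfl⟩ ⟨m, y, rfl⟩
    obtain ⟨x', hx'⟩ := model_lift blk hmix (Nat.le_add_right n m) x
    obtain ⟨y', hy'⟩ := model_lift blk hmix (Nat.le_add_left m n) y
    exact ⟨n + m, x' + y', by rw [map_add, hx', hy']⟩
  · intro r
    exact ⟨0, algebraMap ℂ _ r, (AlgHomClass.commutes (blk 0 0) r).symm⟩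

end modelaux


/-- existence of the hyperfinite factor with its blocks -/
theorem model : ∃ (H : Type) (_ : NormedAddCommGroup H) (_ : InnerProductSpace ℂ H)
    (_ : CompleteSpace H) (M : VonNeumannAlgebra H) (Ω : H)
    (blk : ∀ _a k : ℕ, Matrix (X k) (X k) ℂ →⋆ₐ[ℂ] (H →L[ℂ] H)),
    TopologicalSpace.SeparableSpace H ∧ IsStdII1 M Ω ∧ Hyperfinite M Ω ∧ Sys M Ω blk := by
  obtain ⟨Γ, _, _, σ, A, B, hcount, hinf, b⟩ := gamma
  obtain ⟨H, _, _, _, M, Ω, u, hsep, tw⟩ := twisted σ A B b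
  have hAB : ∀ n, u (A n) * u (B n) = -(u (B n) * u (A n)) := by
    intro n
    rw [tw.mul, tw.mul, b.AB, b.BA, if_pos rfl, add_comm (B n)]
    simp
  have hAA : ∀ n, u (A n) * u (A n) = 1 := by
    intro n; rw [tw.mul, b.AA, b.two, tw.zero, one_smul]
  have hBB : ∀ n, u (B n) * u (B n) = 1 := by
    intro n; rw [tw.mul, b.BB, b.two, tw.zero, one_smul]
  have hsA : ∀ n, star (u (A n)) = u (A n) := by
    intro n; rw [tw.str, b.AA, one_smul]
  have hsB : ∀ n, star (u (B n)) = u (B n) := by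
    intro n; rw [tw.str, b.BB, one_smul]
  choose q hqA hqB hq using fun n =>
    qubit (u (A n)) (u (B n)) (hAA n) (hBB n) (hAB n) (hsA n) (hsB n)
  have hc : ∀ (n : ℕ) (z : H →L[ℂ] H), Commute z (u (A n)) → Commute z (u (B n)) →
      ∀ x, Commute z (q n x) := by
    intro n z h1 h2 x
    obtain ⟨a, c, d, e, hx⟩ := hq n x
    rw [hx]
    exact ((((Commute.one_right z).smul_right a).add_right (h1.smul_right c)).add_right
      (h2.smul_right d)).add_right ((h1.mul_right h2).smul_right e)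
  have cAA : ∀ m n, Commute (u (A m)) (u (A n)) := by
    intro m n
    change u (A m) * u (A n) = u (A n) * u (A m)
    rw [tw.mul, tw.mul, b.AA, b.AA, add_comm]
  have cBB : ∀ m n, Commute (u (B m)) (u (B n)) := by
    intro m n
    change u (B m) * u (B n) = u (B n) * u (B m)
    rw [tw.mul, tw.mul, b.BB, b.BB, add_comm]
  have cAB : ∀ m n, m ≠ n → Commute (u (A m)) (u (B n)) := by
    intro m n hmn
    change u (A m) * u (B n) = u (B n) * u (A m)
    rw [tw.mul, tw.mul, b.AB, b.BA, if_neg (Ne.symm hmn), add_comm]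
  have hcommq : ∀ m n, m ≠ n → ∀ x y, q m x * q n y = q n y * q m x := by
    intro m n hmn x y
    have h1 : Commute (u (A m)) (q n y) := hc n _ (cAA m n) (cAB m n hmn) y
    have h2 : Commute (u (B m)) (q n y) := hc n _ (cAB n m hmn.symm).symm (cBB m n) y
    exact (hc m _ h1.symm h2.symm x).symm
  obtain ⟨blk, hcomm, hmix, hq1, hP⟩ := blkHom q hcommq
  obtain ⟨S, hS⟩ := model_S blk hmix
  have hqM : ∀ n x, q n x ∈ M.toStarSubalgebra.toSubalgebra := by
    intro n x
    obtain ⟨a, c, d, e, hx⟩ := hq n x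
    have mA : u (A n) ∈ M.toStarSubalgebra.toSubalgebra := tw.mem _
    have mB : u (B n) ∈ M.toStarSubalgebra.toSubalgebra := tw.mem _
    rw [hx]
    exact add_mem (add_mem (add_mem (Subalgebra.smul_mem _ (one_mem _) a)
      (Subalgebra.smul_mem _ mA c)) (Subalgebra.smul_mem _ mB d))
      (Subalgebra.smul_mem _ (mul_mem mA mB) e)
  have hmem : ∀ a k x, blk a k x ∈ M := fun a k x => hP _ hqM a k x
  have hqS : ∀ n x, q n x ∈ S := by
    intro n x
    obtain ⟨y, hy⟩ := hq1 n x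
    obtain ⟨x', hx'⟩ := model_one blk hmix n y
    exact (hS _).2 ⟨n + 1, x', by rw [hy, hx']⟩
  have huS : ∀ g, u g ∈ S := by
    let P : AddSubgroup Γ :=
      { carrier := {g | u g ∈ S}
        zero_mem' := by
          change u 0 ∈ S
          rw [tw.zero]; exact one_mem _
        add_mem' := by
          intro g h hg hh
          have h1 : u (g + h) = σ g h • (u g * u h) := by
            rw [tw.mul, smul_smul, model_sig0 b, one_smul]
          change u (g + h) ∈ S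
          rw [h1]
          exact Subalgebra.smul_mem _ (mul_mem hg hh) _
        neg_mem' := by
          intro g hg
          have h1 : -g = g := neg_eq_of_add_eq_zero_left (b.two g)
          change u (-g) ∈ S
          rw [h1]; exact hg }
    refine b.gen P ?_ ?_
    · intro n
      obtain ⟨x, hx⟩ := hqA n
      change u (A n) ∈ S
      rw [← hx]; exact hqS n x
    · intro n
      obtain ⟨x, hx⟩ := hqB n
      change u (B n) ∈ S
      rw [← hx]; exact hqS n x
  have hdns : ∀ (ξ : H) (ε : ℝ), 0 < ε → ∃ n x, ‖blk 0 n x Ω - ξ‖ < ε := by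
    intro ξ ε hε
    let K : Submodule ℂ H :=
      { carrier := {η | ∃ z ∈ S, η = z Ω}
        zero_mem' := ⟨0, zero_mem _, by simp⟩
        add_mem' := by
          rintro _ _ ⟨z, hz, rfl⟩ ⟨w, hw, rfl⟩
          exact ⟨z + w, add_mem hz hw, by simp⟩
        smul_mem' := by
          rintro c _ ⟨z, hz, rfl⟩
          exact ⟨c • z, Subalgebra.smul_mem _ hz c, by simp⟩ }
    have hK : Dense (K : Set H) := tw.dns K (fun g => ⟨u g, huS g, rfl⟩)
    obtain ⟨η, hη, hd⟩ := hK.exists_dist_lt ξ hε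
    obtain ⟨z, hz, rfl⟩ := hη
    obtain ⟨n, x, rfl⟩ := (hS z).1 hz
    refine ⟨n, x, ?_⟩
    rw [dist_eq_norm, norm_sub_rev] at hd
    exact hd
  refine ⟨H, _, _, _, M, Ω, blk, hsep, tw.std1, ?_, ?_⟩
  · refine ⟨fun n => (blk 0 n).range, ?_, ?_, ?_, ?_⟩
    · intro n N hn z hz
      obtain ⟨x, rfl⟩ := hz
      obtain ⟨x', hx'⟩ := model_lift blk hmix hn x
      exact ⟨x', hx'.symm⟩
    · intro n
      let f : Matrix (X n) (X n) ℂ →ₗ[ℂ] (blk 0 n).range :=
        { toFun := fun x => ⟨blk 0 n x, ⟨x, rfl⟩⟩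
          map_add' := fun x y => Subtype.ext (map_add _ x y)
          map_smul' := fun c x => Subtype.ext (map_smul (blk 0 n) c x) }
      exact Module.Finite.of_surjective f (by rintro ⟨_, ⟨x, rfl⟩⟩; exact ⟨x, rfl⟩)
    · rintro n x ⟨y, rfl⟩
      exact hmem 0 n y
    · intro x _ ε hε
      obtain ⟨n, y, hy⟩ := hdns (x Ω) ε hε
      exact ⟨n, blk 0 n y, ⟨y, rfl⟩, by rw [norm_sub_rev]; exact hy⟩
  · refine ⟨tw.std1.unit, tw.std1.tr, tw.std, hmem, ?_, hcomm, hmix, hdns⟩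
    intro a k x
    let φ : Matrix (X k) (X k) ℂ →ₗ[ℂ] ℂ :=
      { toFun := fun x => ⟪Ω, blk a k x Ω⟫_ℂ
        map_add' := fun x y => by
          rw [map_add, ContinuousLinearMap.add_apply, inner_add_right]
        map_smul' := fun c x => by
          rw [map_smul, ContinuousLinearMap.smul_apply, inner_smul_right]; rfl }
    have h1 : φ 1 = 1 := by
      change ⟪Ω, blk a k 1 Ω⟫_ℂ = 1
      rw [map_one, ContinuousLinearMap.one_apply, inner_self_eq_norm_sq_to_K, tw.std1.unit]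
      simp
    have h2 : ∀ x y, φ (x * y) = φ (y * x) := by
      intro x y
      change ⟪Ω, blk a k (x * y) Ω⟫_ℂ = ⟪Ω, blk a k (y * x) Ω⟫_ℂ
      rw [map_mul, map_mul]
      exact tw.std1.tr _ (hmem a k x) _ (hmem a k y)
    have h3 := trace_unique φ h1 h2 x
    have h4 : ((Fintype.card (X k) : ℕ) : ℂ) = 2 ^ k := by
      simp
    rw [h4] at h3
    exact h3

end Pool.Agent.Helper522.MSA
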