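import Mathlib

set_option autoImplicit false

open scoped InnerProductSpace

namespace Pool.Agent.Helper522.MSA

section defs

variable {H : Type} [NormedAddCommGroup H] [InnerProductSpace ℂ H] [CompleteSpace H]

/-- `A` is a maximal abelian von Neumann subalgebra of `M`. -/
def IsMasa (M A : VonNeumannAlgebra H) : Prop :=
  (∀ x ∈ A, x ∈ M) ∧ (∀ x ∈ A, ∀ y ∈ A, x * y = y * x) ∧
    ∀ B : VonNeumannAlgebra H, (∀ x ∈ A, x ∈ B) → (∀ x ∈ B, x ∈ M) →
      (∀ x ∈ B, ∀ y ∈ B, x * y = y * x) → ∀ x ∈ B, x ∈ A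

/-- The set of masas of `M`. -/
def Masa (M : VonNeumannAlgebra H) : Type := {A : VonNeumannAlgebra H // IsMasa M A}

/-- The sequence is square summable. -/
def Sq (ξ : ℕ → H) : Prop := Summable fun k => ‖ξ k‖ ^ 2

/-- The normal functional `x ↦ ∑ ⟨x ξ_k, η_k⟩` on `B(H)`. -/
noncomputable def nf (ξ η : ℕ → H) (x : H →L[ℂ] H) : ℂ := ∑' k, ⟪η k, x (ξ k)⟫_ℂ

/-- The norm of the restriction of a normal functional to `N`. -/
noncomputable def rn (ξ η : ℕ → H) (N : VonNeumannAlgebra H) : ℝ :=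
  sSup {r : ℝ | ∃ x ∈ N, ‖x‖ ≤ 1 ∧ r = ‖nf ξ η x‖}

/-- The Effros–Maréchal topology on the set of masas: the weakest topology making
`N ↦ ‖φ|N‖` continuous for every normal functional `φ` on `B(H)`. -/
noncomputable instance emTop (M : VonNeumannAlgebra H) : TopologicalSpace (Masa M) :=
  ⨅ p : {p : (ℕ → H) × (ℕ → H) // Sq p.1 ∧ Sq p.2},
    TopologicalSpace.induced (fun A : Masa M => rn p.1.1 p.1.2 A.1) inferInstance

end defs

end Pool.Agent.Helper522.MSA
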